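import Pool.Agent.Run7.h561.EC.Stm
import Pool.Agent.Run7.h561.TP.StmB
import Pool.Agent.W822.PD.StmC
import Pool.Agent.TH990.FU.Cov

/-!
# Project EC, part 2: all the interface loops.  Statements (nothing is assumed)
-/

set_option autoImplicit false

namespace Run7.h561.EC

open H974 H12S Finset H389NS H984P H984N H342P H342L H342T
open MeasureTheory Filter Topology Pool.Agent.W822.PD Pool.Agent.W92.DP
open scoped ENNReal

/-- `c` is a closed interface path of the configuration `F`, scaled by `1 / n`: it starts at a vertex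
`σ.1`, with the face `face σ` on its left, and at each step it follows the next edge (in clockwise
order) if this edge is open, and turns clockwise around the vertex otherwise (`nxt`), until it comes
back to the initial state for the first time. -/
def IsLoop (n : ℕ) (F : Finset Plain.Edge) (c : Curve) : Prop :=
  ∃ (σ : St) (N : ℕ), 0 < N ∧ orb (↑F) σ N = σ ∧ (∀ j, 0 < j → j < N → orb (↑F) σ j ≠ σ) ∧
    c.path = poly (fun j => pt n (orb (↑F) σ j).1) N

/-- `γ` chooses an interface loop. -/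
def Lps (γ : (n : ℕ) → Finset Plain.Edge → Curve) : Prop :=
  ∀ n F, 0 < n → F ⊆ Plain.edges n → IsLoop n F (γ n F)

/-- The event, invariant under reparametrisation: the trace leaves the box. -/
def EvL (d : ℤ × ℤ) (H η : ℝ) (w : ℂ) : Set C(unitInterval, ℂ) :=
  {f | f ∈ EvO d H η w ∧ ∃ s, 32 * H < dist w (f s)}

/-- HITL: HIT for the loops. -/
def S_HITL : Prop := ∀ γ : (n : ℕ) → Finset Plain.Edge → Curve, Lps γ →
  ∀ k : ℕ → ℕ, Tendsto k atTop atTop → ∀ μ : ProbabilityMeasure Curve,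
  Tendsto (fun i => lawOf (k i) (γ (k i))) atTop (𝓝 μ) → ∀ t : ℝ, 0 < t → t < 4 / 3 →
    ∀ (d : ℤ × ℤ) (H η : ℝ) (w : ℂ), Dir d → 0 < H → 0 < η → Sq (5 * H) w ⊆ Pool.Agent.W822.PD.Sq →
    ∀ᵐ c : Curve ∂(μ : Measure Curve), c.path ∈ EvL d H η w →
      ENNReal.ofReal t ≤ dimH (Lb (Sq (4 * H) w) (Set.range c.path) w)

/-- DBLL: double points of the loops (port of `W978/PD/UL.lean`, with `IsLoop`). -/
def S_DBLL : Prop := ∀ γ : (n : ℕ) → Finset Plain.Edge → Curve, Lps γ →
  ∀ k : ℕ → ℕ, Tendsto k atTop atTop → ∀ μ : ProbabilityMeasure Curve,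
  Tendsto (fun i => lawOf (k i) (γ (k i))) atTop (𝓝 μ) →
    ∀ η : ℝ, 0 < η → ∀ᵐ c : Curve ∂(μ : Measure Curve),
      dimH (DPc η c.path ∩ Pool.Agent.W822.PD.Sq) ≤ 3 / 4

/-- ACCL: accessible points of the loops (`TH990.FU.acc_dim` with `pf = Curve.path`; deterministic
part: `TH990.FU.det_gen` with `o = 0`; input `Pool.Agent.W424.KI.u3`). -/
def S_ACCL : Prop := ∀ γ : (n : ℕ) → Finset Plain.Edge → Curve, Lps γ →
  ∀ k : ℕ → ℕ, Tendsto k atTop atTop → ∀ μ : ProbabilityMeasure Curve,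
  Tendsto (fun i => lawOf (k i) (γ (k i))) atTop (𝓝 μ) →
    ∀ᵐ c : Curve ∂(μ : Measure Curve),
      dimH ((⋃ i : ℕ, Pool.Agent.TH990.FU.Acc (1 / ((i : ℝ) + 1)) c.path) ∩
        Pool.Agent.W822.PD.Sq) ≤ 4 / 3

/-- MLF: monotone-light factorisation. -/
def S_MLF : Prop := ∀ f : C(unitInterval, ℂ), (∃ s t, f s ≠ f t) →
  ∃ (φ : unitInterval → unitInterval) (g : C(unitInterval, ℂ)), Monotone φ ∧ Continuous φ ∧
    φ 0 = 0 ∧ φ 1 = 1 ∧ (∀ x, f x = g (φ x)) ∧
    ∀ s t : unitInterval, s < t → ∃ u ∈ Set.Icc s t, g u ≠ g s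

/-- FINL: almost surely, for all times `s ≤ t` such that the curve is not constant on `[s, t]`, around
every boundary point in the open unit square of every component of the complement of the arc in an
arbitrary open set, the boundary of this component has dimension `4/3`. -/
def S_FINL : Prop := ∀ γ : (n : ℕ) → Finset Plain.Edge → Curve, Lps γ →
  ∀ k : ℕ → ℕ, Tendsto k atTop atTop → ∀ μ : ProbabilityMeasure Curve,
  Tendsto (fun i => lawOf (k i) (γ (k i))) atTop (𝓝 μ) →
    ∀ᵐ c : Curve ∂(μ : Measure Curve), ∀ s t : unitInterval,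
      (∃ u ∈ Set.Icc s t, c.path u ≠ c.path s) → ∀ U : Set ℂ, IsOpen U → ∀ w z : ℂ, z ∈ U →
      z ∈ Pool.Agent.W822.PD.Sq →
      z ∈ frontier (connectedComponentIn (U \ c.path '' Set.Icc s t) w) → ∀ ρ : ℝ, 0 < ρ →
        dimH (frontier (connectedComponentIn (U \ c.path '' Set.Icc s t) w) ∩
          (U ∩ Pool.Agent.W822.PD.Sq ∩ Metric.ball z ρ)) = 4 / 3

end Run7.h561.EC
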