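import Pool.Agent.Run7.h561.EC.P_H4
import Pool.Agent.TH992.T.Vis

/-! # HIT for the rectangle -/

set_option autoImplicit false

namespace Run7.h561.EC

open H974 H12S Finset H984P H984N Run7.h561 MeasureTheory Filter Topology
open Pool.Agent.H389R2.Dim Pool.Agent.Y989.FR Pool.Agent.W822.PD
open scoped ENNReal

/-- The position of the box in the lattice. -/
theorem box_pos {w : ℂ} {H δ : ℝ} (hδ : 0 < δ) (hx : 100 ≤ 4 * H / δ) :
    (w.re - 4 * H) / δ + 2 < (bq w H δ).1 ∧
    (((bq w H δ).1 : ℝ) + ((2 * bn H δ : ℕ) : ℝ)) ≤ (w.re + 4 * H) / δ - 3 ∧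
    (w.im - 4 * H) / δ + 1 < (bq w H δ).2 ∧
    (((bq w H δ).2 : ℝ) + ((2 * bn H δ : ℕ) : ℝ)) ≤ (w.im + 4 * H) / δ - 4 := by
  have hfl := Nat.floor_le (show 0 ≤ 4 * H / δ by linarith)
  have hnn : bn H δ + 3 = ⌊4 * H / δ⌋₊ := by
    unfold bn
    have : 3 ≤ ⌊4 * H / δ⌋₊ := by
      apply Nat.le_floor
      push_cast
      linarith
    omega
  rw [← hnn] at hfl
  push_cast at hfl
  have e1 := Int.floor_le (w.re / δ)
  have e2 := Int.lt_floor_add_one (w.re / δ)
  have e3 := Int.floor_le (w.im / δ)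
  have e4 := Int.lt_floor_add_one (w.im / δ)
  have h1 : (w.re - 4 * H) / δ = w.re / δ - 4 * H / δ := by ring
  have h2 : (w.re + 4 * H) / δ = w.re / δ + 4 * H / δ := by ring
  have h3 : (w.im - 4 * H) / δ = w.im / δ - 4 * H / δ := by ring
  have h4 : (w.im + 4 * H) / δ = w.im / δ + 4 * H / δ := by ring
  rw [h1, h2, h3, h4]
  unfold bq bw
  push_cast
  refine ⟨?_, ?_, ?_, ?_⟩ <;> linarith

/-- The exploration path of the rectangle near a box. -/
theorem nbh_rect {D : Dm} (hD : D.Ok) {F : Finset Edg} (hF : F ⊆ D.edges) {q : ℤ × ℤ} {N : ℕ}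
    (h1 : D.l < q.1) (h2 : q.1 + N < D.r) (h3 : 0 < q.2) (h4 : q.2 + N < D.h) :
    Nbh (D.cfg F) D.start (D.len F) F q N := by
  refine ⟨⟨{τ | ∃ k, D.walk F k = τ}, ?_, ⟨0, rfl⟩, ?_⟩, ?_, ?_, ?_⟩
  · intro τ
    constructor
    · rintro ⟨k, rfl⟩
      exact ⟨k + 1, orb_succ _ _ _⟩
    · rintro ⟨k, hk⟩
      obtain ⟨P, hP, hP2⟩ := Walk_periodic hD hF
      have hinj := (nxt_bij (D.cfg F)).1
      rcases k with _ | k
      · refine ⟨P - 1, hinj ?_⟩
        have e1 : nxt (D.cfg F) (D.walk F (P - 1)) = D.walk F (P - 1 + 1) := (orb_succ _ _ _).symm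
        rw [e1, show P - 1 + 1 = P by omega, hP2, ← hk]
        rfl
      · refine ⟨k, hinj ?_⟩
        have e1 : nxt (D.cfg F) (D.walk F k) = D.walk F (k + 1) := (orb_succ _ _ _).symm
        rw [e1, hk]
  · rintro σ ⟨k, hk⟩ hσ
    refine TH992.T.vis_of_orb hD hF hk ?_
    unfold TH992.T.Out
    rw [not_not]
    unfold inR at hσ
    obtain ⟨⟨x, y⟩, c⟩ := σ
    cases c <;> simp only [face] at hσ ⊢ <;> omega
  · intro e he1 he2
    unfold inR at he1 he2
    constructor
    · rintro (he | he)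
      · exact Finset.mem_coe.1 he
      · exfalso
        unfold Dm.wir at he
        obtain ⟨x, y, b⟩ := e
        simp only [Set.mem_setOf_eq, src_mk] at he he1
        rcases he with he | he | he <;> omega
    · intro he
      exact Or.inl (Finset.mem_coe.2 he)
  · unfold FrB rel
    rw [Set.mem_setOf_eq]
    right; right; right
    show (N : ℤ) ≤ D.h - q.2
    omega
  · unfold FrB rel
    rw [Set.mem_setOf_eq]
    right; right; right
    show ((N - 1 : ℕ) : ℤ) ≤ D.h - q.2
    omega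

/-- **HIT** -/
theorem t_HIT (loc4 : S_LOC4) (dua : S_DUA) (chn : S_CHN) (qwc : S_QWC) (gew : S_GEW)
    (lgo : S_LGO) : S_HIT := by
  intro R δ hδ hlim μ hμ t ht ht1 d H η w hd hH hη hSq
  have hall : ∀ n : ℕ, ∀ᵐ p : X ∂(μ : Measure X), p.1 ∈ EvM d H η (1 / ((n : ℝ) + 1)) w →
      ENNReal.ofReal t ≤ dimH (Lb (Sq (4 * H) w) (Set.range p.1) w) := by
    intro n
    have hm : (0 : ℝ) < 1 / ((n : ℝ) + 1) := by positivity
    set m : ℝ := 1 / ((n : ℝ) + 1) with hmdef
    refine lgo (fun i => R.law (δ i)) μ hμ t ht (by linarith)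
      (fun f => Lb (Sq (4 * H) w) (Set.range f) w) (EvM d H η m w) (isOpen_EvM d H η m w) ?_
    intro ε hε
    obtain ⟨ε1, hε1, hε2⟩ : ∃ δ : ℝ, 0 < δ ∧ ENNReal.ofReal δ ≤ ε := by
      rcases eq_or_ne ε ∞ with h | h
      · exact ⟨1, one_pos, by rw [h]; exact le_top⟩
      · exact ⟨ε.toReal, ENNReal.toReal_pos hε.ne' h, by rw [ENNReal.ofReal_toReal h]⟩
    obtain ⟨c, M', B, NN, hc, hM', hB, hcore⟩ := hit_core loc4 dua chn ht ht1 hd hH hη hm w hε1
    have hKc : IsCompact (Metric.closedBall (0 : ℂ) (‖w‖ + 2 * (4 * H))) :=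
      isCompact_closedBall _ _
    refine ⟨c, Metric.closedBall (0 : ℂ) (‖w‖ + 2 * (4 * H)),
      fun k => QW (Sq (4 * H) w)ᶜ M' (‖w‖ + 2 * (4 * H)) (1 / ((k : ℝ) + 1)) B (NN k) w, hc, hKc,
      fun k => qwc _ _ _ _ _ _ _, ?_, ?_⟩
    · intro f hf z _ hz
      refine gew (Sq (4 * H) w) M' (‖w‖ + 2 * (4 * H)) B NN w f z ?_ ?_ ?_ hM' hB hz
      · unfold Sq
        refine IsOpen.and ?_ ?_
        · exact isOpen_lt (by fun_prop) continuous_const
        · exact isOpen_lt (by fun_prop) continuous_const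
      · unfold Sq
        rw [Set.mem_setOf_eq, sub_self, sub_self, abs_zero]
        exact ⟨by linarith, by linarith⟩
      · rintro ⟨s, hs⟩
        have h1 := hf.1 s
        rw [hs, dist_self] at h1
        linarith
    · intro ε' hε'
      obtain ⟨κ, S, δ1, -, -, hδ1, -, hsh⟩ := R.shape
      obtain ⟨δ0, hδ0, hbad⟩ := hcore ε' hε'
      have hev : ∀ᶠ i in atTop, δ i < min (min δ0 δ1) (4 * H / 100) :=
        (tendsto_order.1 hlim).2 _ (by positivity)
      filter_upwards [hev] with i hi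
      have hi0 : δ i < δ0 := hi.trans_le ((min_le_left _ _).trans (min_le_left _ _))
      have hi1 : δ i ≤ δ1 := hi.le.trans ((min_le_left _ _).trans (min_le_right _ _))
      have hi2 : δ i ≤ 4 * H / 100 := hi.le.trans (min_le_right _ _)
      have hδi := hδ i
      set e : ℝ := δ i with he
      have hx : 100 ≤ 4 * H / e := by
        rw [le_div_iff₀ hδi]
        linarith
      obtain ⟨Bad, hB1, hB2⟩ := hbad e hδi hi0
      have hopen : IsOpen {γ : X | γ.1 ∈ EvM d H η m w ∧ ¬ Good t ε' c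
          (LIM3.AA (Metric.closedBall (0 : ℂ) (‖w‖ + 2 * (4 * H)))
            (fun k => QW (Sq (4 * H) w)ᶜ M' (‖w‖ + 2 * (4 * H)) (1 / ((k : ℝ) + 1)) B (NN k) w)
            ε' γ.1)} := by
        refine IsOpen.and ((isOpen_EvM d H η m w).preimage continuous_fst) ?_
        exact ((LIM3.isClosed_good hKc fun k => qwc _ _ _ _ _ _ _).preimage
          continuous_fst).isOpen_compl
      change (R.law e : Measure X) {γ : X | γ.1 ∈ EvM d H η m w ∧ ¬ Good t ε' c
          (LIM3.AA (Metric.closedBall (0 : ℂ) (‖w‖ + 2 * (4 * H)))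
            (fun k => QW (Sq (4 * H) w)ᶜ M' (‖w‖ + 2 * (4 * H)) (1 / ((k : ℝ) + 1)) B (NN k) w)
            ε' γ.1)} ≤ ε
      rw [R.law_apply e hopen.measurableSet]
      refine le_trans (ENNReal.ofReal_le_ofReal ?_) hε2
      -- the box in the domain
      obtain ⟨p1, p2, p3, p4⟩ := box_pos (w := w) (H := H) hδi hx
      have s1 : (⟨w.re - 9 / 2 * H, w.im⟩ : ℂ) ∈ R.D := hSq (by
        unfold Sq
        simp only [Set.mem_setOf_eq, sub_self, abs_zero]
        rw [show w.re - 9 / 2 * H - w.re = -(9 / 2 * H) by ring, abs_neg,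
          abs_of_pos (by positivity)]
        constructor <;> linarith)
      have s2 : (⟨w.re + 9 / 2 * H, w.im⟩ : ℂ) ∈ R.D := hSq (by
        unfold Sq
        simp only [Set.mem_setOf_eq, sub_self, abs_zero]
        rw [show w.re + 9 / 2 * H - w.re = 9 / 2 * H by ring, abs_of_pos (by positivity)]
        constructor <;> linarith)
      have s3 : (⟨w.re, w.im - 9 / 2 * H⟩ : ℂ) ∈ R.D := hSq (by
        unfold Sq
        simp only [Set.mem_setOf_eq, sub_self, abs_zero]
        rw [show w.im - 9 / 2 * H - w.im = -(9 / 2 * H) by ring, abs_neg,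
          abs_of_pos (by positivity)]
        constructor <;> linarith)
      have s4 : (⟨w.re, w.im + 9 / 2 * H⟩ : ℂ) ∈ R.D := hSq (by
        unfold Sq
        simp only [Set.mem_setOf_eq, sub_self, abs_zero]
        rw [show w.im + 9 / 2 * H - w.im = 9 / 2 * H by ring, abs_of_pos (by positivity)]
        constructor <;> linarith)
      have t1 : -R.A < w.re - 9 / 2 * H := s1.1
      have t2 : w.re + 9 / 2 * H < R.B := s2.2.1
      have t3 : 0 < w.im - 9 / 2 * H := s3.2.2.1
      have t4 : w.im + 9 / 2 * H < R.H := s4.2.2.2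
      have hdl : (R.dm e).l < (bq w H e).1 := by
        show ⌊-(R.A / e)⌋ + 1 < (bq w H e).1
        have h1 := Int.floor_le (-(R.A / e))
        have h2 : -(R.A / e) < (w.re - 4 * H) / e := by
          rw [← neg_div, div_lt_div_iff_of_pos_right hδi]
          linarith
        have h3 : ((⌊-(R.A / e)⌋ : ℤ) : ℝ) + 1 < ((bq w H e).1 : ℝ) := by linarith
        exact_mod_cast h3
      have hdr : (bq w H e).1 + ((2 * bn H e : ℕ) : ℤ) < (R.dm e).r := by
        show _ < ⌈R.B / e⌉ - 1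
        have h1 := Int.le_ceil (R.B / e)
        have h2 : (w.re + 4 * H) / e < R.B / e := by
          rw [div_lt_div_iff_of_pos_right hδi]
          linarith
        have h3 : ((bq w H e).1 : ℝ) + ((2 * bn H e : ℕ) : ℝ) < ((⌈R.B / e⌉ : ℤ) : ℝ) - 1 := by
          linarith
        exact_mod_cast h3
      have hdb : 0 < (bq w H e).2 := by
        have h2 : 0 < (w.im - 4 * H) / e := by
          apply div_pos _ hδi
          linarith
        have h3 : (0 : ℝ) < ((bq w H e).2 : ℝ) := by linarith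
        exact_mod_cast h3
      have hdt : (bq w H e).2 + ((2 * bn H e : ℕ) : ℤ) < (R.dm e).h := by
        show _ < ⌈R.H / e⌉ - 2
        have h1 := Int.le_ceil (R.H / e)
        have h2 : (w.im + 4 * H) / e < R.H / e := by
          rw [div_lt_div_iff_of_pos_right hδi]
          linarith
        have h3 : ((bq w H e).2 : ℝ) + ((2 * bn H e : ℕ) : ℝ) < ((⌈R.H / e⌉ : ℤ) : ℝ) - 2 := by
          linarith
        exact_mod_cast h3
      have hsub : RE (bq w H e).1 ((bq w H e).1 + ((2 * bn H e : ℕ) : ℤ)) (bq w H e).2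
          ((bq w H e).2 + ((2 * bn H e : ℕ) : ℤ)) ⊆ (R.dm e).edges := by
        intro g hg
        unfold Dm.edges
        rw [mem_RE] at hg ⊢
        unfold inR at hg ⊢
        omega
      have hok := (hsh e hδi hi1).ok
      refine le_trans ?_ hB1
      rw [← pr_Sub hsub Bad]
      refine Pr_mono okhalf fun F hF hbadF => ?_
      by_contra hcon
      obtain ⟨hb1, hb2⟩ := hbadF
      apply hb2
      have hcrv : Crv (R.curve e F) e ((R.dm e).len F)
          (fun k => pos e (orb ((R.dm e).cfg F) (R.dm e).start k)) := by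
        refine crv_pl hδi.le fun k _ => ?_
        have h1 := pos_nxt hδi.le ((R.dm e).cfg F) ((R.dm e).walk F k)
        rwa [show nxt ((R.dm e).cfg F) ((R.dm e).walk F k) = (R.dm e).walk F (k + 1) from
          (orb_succ _ _ _).symm] at h1
      exact hB2 _ _ _ F _ hcrv (nbh_rect hok hF hdl hdr hdb hdt) hb1 hcon
  filter_upwards [ae_all_iff.2 hall] with p hp hpe
  obtain ⟨n, hn⟩ := EvO_margin hpe
  exact hp n hn

end Run7.h561.EC
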