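import Pool.Agent.Run7.h561.EC.P_J2
import Pool.Agent.Run7.h561.EC.P_HIT
import Pool.Agent.Run7.h561.EC.StmP
import Pool.Agent.W978.PD.UL

/-! # Interface loops near a box -/

set_option autoImplicit false

namespace Run7.h561.EC

open H974 H12S Finset H984P H984N H342P H342L H342T Run7.h561
open Pool.Agent.W822.PD

/-! ### Translation of the states -/

/-- Translated state. -/
def shs (q : ℤ × ℤ) (σ : St) : St := (shv q σ.1, σ.2)

theorem ae_shs (q : ℤ × ℤ) (σ : St) : ae (shs q σ) = sh q (ae σ) := by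
  obtain ⟨⟨x, y⟩, k⟩ := σ
  cases k
  · rfl
  · rfl
  · show ((x + q.1 - 1, y + q.2, true) : Edg) = (x - 1 + q.1, y + q.2, true)
    rw [show x + q.1 - 1 = x - 1 + q.1 by ring]
  · show ((x + q.1, y + q.2 - 1, false) : Edg) = (x + q.1, y - 1 + q.2, false)
    rw [show y + q.2 - 1 = y - 1 + q.2 by ring]

theorem mv_shs (q : ℤ × ℤ) (σ : St) : mv (shs q σ) = shs q (mv σ) := by
  obtain ⟨⟨x, y⟩, k⟩ := σ
  cases k
  · show (((x + q.1 + 1, y + q.2), Q4.nw) : St) = ((x + 1 + q.1, y + q.2), Q4.nw)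
    rw [show x + q.1 + 1 = x + 1 + q.1 by ring]
  · show (((x + q.1, y + q.2 + 1), Q4.sw) : St) = ((x + q.1, y + 1 + q.2), Q4.sw)
    rw [show y + q.2 + 1 = y + 1 + q.2 by ring]
  · show (((x + q.1 - 1, y + q.2), Q4.se) : St) = ((x - 1 + q.1, y + q.2), Q4.se)
    rw [show x + q.1 - 1 = x - 1 + q.1 by ring]
  · show (((x + q.1, y + q.2 - 1), Q4.ne) : St) = ((x + q.1, y - 1 + q.2), Q4.ne)
    rw [show y + q.2 - 1 = y - 1 + q.2 by ring]

theorem rt_shs (q : ℤ × ℤ) (σ : St) : rt (shs q σ) = shs q (rt σ) := by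
  obtain ⟨⟨x, y⟩, k⟩ := σ
  cases k <;> rfl

theorem nxt_shs {q : ℤ × ℤ} {E E' : Set Edg} (hE : ∀ e, e ∈ E' ↔ sh q e ∈ E) (σ : St) :
    nxt E (shs q σ) = shs q (nxt E' σ) := by
  by_cases h : ae σ ∈ E'
  · rw [nxt_open h, nxt_open (by rw [ae_shs]; exact (hE _).1 h), mv_shs]
  · rw [nxt_closed h, nxt_closed (by rw [ae_shs]; exact fun h' => h ((hE _).2 h')), rt_shs]

theorem orb_shs {q : ℤ × ℤ} {E E' : Set Edg} (hE : ∀ e, e ∈ E' ↔ sh q e ∈ E) (σ : St) (k : ℕ) :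
    orb E (shs q σ) k = shs q (orb E' σ k) := by
  induction k with
  | zero => rfl
  | succ k ih => rw [orb_succ, orb_succ, ih, nxt_shs hE]

theorem shs_shs (q r : ℤ × ℤ) (σ : St) : shs q (shs r σ) = shs (q.1 + r.1, q.2 + r.2) σ := by
  obtain ⟨⟨x, y⟩, k⟩ := σ
  show (((x + r.1 + q.1, y + r.2 + q.2), k) : St) = ((x + (q.1 + r.1), y + (q.2 + r.2)), k)
  rw [show x + r.1 + q.1 = x + (q.1 + r.1) by ring, show y + r.2 + q.2 = y + (q.2 + r.2) by ring]

theorem shs_zero (σ : St) : shs (0, 0) σ = σ := by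
  obtain ⟨⟨x, y⟩, k⟩ := σ
  simp [shs, shv]

/-! ### Periodic orbits -/

theorem orb_per {E : Set Edg} {σ : St} {N : ℕ} (h : orb E σ N = σ) (k : ℕ) :
    orb E σ (k + N) = orb E σ k := by
  rw [orb_add, h]

theorem orb_per' {E : Set Edg} {σ : St} {N : ℕ} (h : orb E σ N = σ) (m k : ℕ) :
    orb E σ (k + m * N) = orb E σ k := by
  induction m with
  | zero => simp
  | succ m ih =>
    rw [show k + (m + 1) * N = (k + m * N) + N by ring, orb_per h, ih]

theorem orb_mod {E : Set Edg} {σ : St} {N : ℕ} (h : orb E σ N = σ) (k : ℕ) :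
    orb E σ (k % N) = orb E σ k := by
  conv_rhs => rw [← Nat.mod_add_div k N, mul_comm N]
  rw [orb_per' h]

/-- A closed orbit which starts outside of the box. -/
theorem nbh_loop {F : Finset Edg} {σ0 : St} {N : ℕ} (hN : 0 < N)
    (hper : orb (↑F : Set Edg) σ0 N = σ0) {q : ℤ × ℤ} {n : ℕ}
    (hout : σ0.1.1 < q.1 ∨ q.1 + n < σ0.1.1 ∨ σ0.1.2 < q.2 ∨ q.2 + n < σ0.1.2) :
    Nbh (↑F : Set Edg) σ0 (2 * N) F q n := by
  refine ⟨⟨{τ | ∃ k, orb (↑F : Set Edg) σ0 k = τ}, fun τ => ⟨?_, ?_⟩, ⟨0, rfl⟩, ?_⟩, ?_, ?_, ?_⟩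
  · rintro ⟨k, rfl⟩
    exact ⟨k + 1, orb_succ _ _ _⟩
  · rintro ⟨k, hk⟩
    rcases Nat.eq_zero_or_pos k with h0 | h0
    · refine ⟨N - 1, ?_⟩
      apply (nxt_bij (↑F : Set Edg)).1
      rw [← orb_succ, show N - 1 + 1 = N by omega, hper, ← hk, h0]
      rfl
    · refine ⟨k - 1, ?_⟩
      apply (nxt_bij (↑F : Set Edg)).1
      rw [← orb_succ, show k - 1 + 1 = k by omega, hk]
  · rintro _ ⟨k, rfl⟩ _
    refine ⟨k % N, ?_, orb_mod hper k⟩
    have := Nat.mod_lt k hN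
    omega
  · intro e _ _
    exact Finset.mem_coe
  · unfold rel FrB
    simp only [Set.mem_setOf_eq]
    omega
  · unfold rel FrB
    simp only [Set.mem_setOf_eq]
    obtain ⟨⟨x, y⟩, k⟩ := σ0
    simp only at hout
    cases k <;> simp only [face] <;> omega

/-! ### The closed path is close to the medial path -/

/-- The medial position, without the shift. -/
noncomputable def mp (n : ℕ) (σ : St) : ℂ := pos (1 / (n : ℝ)) (shs (0, -1) σ)

theorem mp_near {n : ℕ} (hn : 0 < n) {E : Set Edg} (σ : St) {θ : ℝ} (h0 : 0 ≤ θ) (h1 : θ ≤ 1) :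
    (θ ≤ 1 / 2 → dist (pt n σ.1 + (θ : ℂ) * (pt n (nxt E σ).1 - pt n σ.1)) (mp n σ) ≤
      1 / (n : ℝ) / 2) ∧
    (1 / 2 ≤ θ → dist (pt n σ.1 + (θ : ℂ) * (pt n (nxt E σ).1 - pt n σ.1)) (mp n (nxt E σ)) ≤
      1 / (n : ℝ) / 2) := by
  have hn' : (0 : ℝ) < n := by exact_mod_cast hn
  have hδ : 0 < 1 / (n : ℝ) := by positivity
  set δ : ℝ := 1 / (n : ℝ) with hδd
  have hpt : ∀ v : Vtx, pt n v = ⟨δ * v.1, δ * v.2⟩ := by
    intro v
    unfold pt
    rw [hδd]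
    congr 1 <;> ring
  have key : ∀ (a b : ℂ), (∃ c : ℝ, |c| ≤ 1 / 4 ∧ a.re - b.re = δ * c) →
      (∃ c : ℝ, |c| ≤ 1 / 4 ∧ a.im - b.im = δ * c) → dist a b ≤ δ / 2 := by
    rintro a b ⟨c, hc, hc'⟩ ⟨e, he, he'⟩
    refine (H984N.ML.dist_le_of (a := δ * (1 / 4)) (b := δ * (1 / 4)) ?_ ?_).trans (by linarith)
    · rw [hc', abs_mul, abs_of_pos hδ]
      exact mul_le_mul_of_nonneg_left hc hδ.le
    · rw [he', abs_mul, abs_of_pos hδ]
      exact mul_le_mul_of_nonneg_left he hδ.le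
  rw [hpt, hpt]
  by_cases h : ae σ ∈ E
  · rw [nxt_open h]
    obtain ⟨⟨x, y⟩, k⟩ := σ
    constructor
    · intro hθ
      cases k
      · refine key _ _ ⟨θ - 1 / 4, by rw [abs_le]; constructor <;> linarith, ?_⟩
          ⟨-(1 / 4), by norm_num [abs_le], ?_⟩ <;> simp [mp, pos, shs, shv, mv] <;> ring
      · refine key _ _ ⟨1 / 4, by norm_num [abs_le], ?_⟩
          ⟨θ - 1 / 4, by rw [abs_le]; constructor <;> linarith, ?_⟩ <;>
          simp [mp, pos, shs, shv, mv] <;> ring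
      · refine key _ _ ⟨1 / 4 - θ, by rw [abs_le]; constructor <;> linarith, ?_⟩
          ⟨1 / 4, by norm_num [abs_le], ?_⟩ <;> simp [mp, pos, shs, shv, mv] <;> ring
      · refine key _ _ ⟨-(1 / 4), by norm_num [abs_le], ?_⟩
          ⟨1 / 4 - θ, by rw [abs_le]; constructor <;> linarith, ?_⟩ <;>
          simp [mp, pos, shs, shv, mv] <;> ring
    · intro hθ
      cases k
      · refine key _ _ ⟨θ - 3 / 4, by rw [abs_le]; constructor <;> linarith, ?_⟩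
          ⟨-(1 / 4), by norm_num [abs_le], ?_⟩ <;> simp [mp, pos, shs, shv, mv] <;> ring
      · refine key _ _ ⟨1 / 4, by norm_num [abs_le], ?_⟩
          ⟨θ - 3 / 4, by rw [abs_le]; constructor <;> linarith, ?_⟩ <;>
          simp [mp, pos, shs, shv, mv] <;> ring
      · refine key _ _ ⟨3 / 4 - θ, by rw [abs_le]; constructor <;> linarith, ?_⟩
          ⟨1 / 4, by norm_num [abs_le], ?_⟩ <;> simp [mp, pos, shs, shv, mv] <;> ring
      · refine key _ _ ⟨-(1 / 4), by norm_num [abs_le], ?_⟩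
          ⟨3 / 4 - θ, by rw [abs_le]; constructor <;> linarith, ?_⟩ <;>
          simp [mp, pos, shs, shv, mv] <;> ring
  · rw [nxt_closed h]
    have hv : (rt σ).1 = σ.1 := by
      obtain ⟨v, k⟩ := σ
      cases k <;> simp
    rw [hv, sub_self, mul_zero, add_zero]
    have hall : ∀ τ : St, dist (⟨δ * τ.1.1, δ * τ.1.2⟩ : ℂ) (mp n τ) ≤ δ / 2 := by
      rintro ⟨⟨x, y⟩, k⟩
      cases k
      · refine key _ _ ⟨-(1 / 4), by norm_num [abs_le], ?_⟩
          ⟨-(1 / 4), by norm_num [abs_le], ?_⟩ <;> simp [mp, pos, shs, shv] <;> ring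
      · refine key _ _ ⟨1 / 4, by norm_num [abs_le], ?_⟩
          ⟨-(1 / 4), by norm_num [abs_le], ?_⟩ <;> simp [mp, pos, shs, shv] <;> ring
      · refine key _ _ ⟨1 / 4, by norm_num [abs_le], ?_⟩
          ⟨1 / 4, by norm_num [abs_le], ?_⟩ <;> simp [mp, pos, shs, shv] <;> ring
      · refine key _ _ ⟨-(1 / 4), by norm_num [abs_le], ?_⟩
          ⟨1 / 4, by norm_num [abs_le], ?_⟩ <;> simp [mp, pos, shs, shv] <;> ring
    refine ⟨fun _ => hall σ, fun _ => ?_⟩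
    have := hall (rt σ)
    rwa [hv] at this

end Run7.h561.EC
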