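import Pool.Agent.Run7.h561.EC.P_H2
import Pool.Agent.Run7.h561.EC.StmP
import Pool.Agent.Run7.h561.TP.P_LGC

/-! # LGO in the space of curves -/

set_option autoImplicit false

namespace Run7.h561.EC

open Set Filter Topology Metric MeasureTheory H342L Run7.h561
open Pool.Agent.H389R2.Dim Pool.Agent.Y989.FR.LG
open scoped ENNReal NNReal

theorem rep_symm (f : C(unitInterval, ℂ)) (φ : unitInterval ≃o unitInterval) :
    rep (rep f φ) φ.symm = f := by
  ext t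
  rw [rep_apply, rep_apply, OrderIso.apply_symm_apply]

/-- Open sets of paths which do not depend on the parametrisation. -/
theorem open_curve {A : Set C(unitInterval, ℂ)} (hA : IsOpen A)
    (hinv : ∀ f (φ : unitInterval ≃o unitInterval), f ∈ A → rep f φ ∈ A) :
    IsOpen {c : Curve | c.path ∈ A} := by
  have h := closed_curve (A := Aᶜ) hA.isClosed_compl (fun f φ hf hcon => hf (by
    have := hinv _ φ.symm hcon
    rwa [rep_symm] at this))
  have e : {c : Curve | c.path ∈ A} = {c : Curve | c.path ∈ Aᶜ}ᶜ := by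
    ext c
    simp
  rw [e]
  exact h.isOpen_compl

/-- The passage to the limit, on an open event. -/
theorem lgoC {μs : ℕ → ProbabilityMeasure Curve} {μ : ProbabilityMeasure Curve}
    (hμ : Tendsto μs atTop (𝓝 μ)) {t : ℝ} (ht : 0 < t) (T : C(unitInterval, ℂ) → Set ℂ)
    {Ev : Set C(unitInterval, ℂ)} (hEv : IsOpen {c : Curve | c.path ∈ Ev})
    (h : ∀ ε : ℝ≥0∞, 0 < ε → ∃ (c : ℝ) (K : Set ℂ) (Q : ℕ → Set (C(unitInterval, ℂ) × ℂ)), 0 < c ∧
      IsCompact K ∧ (∀ k, IsClosed (Q k)) ∧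
      (∀ k f z (φ : unitInterval ≃o unitInterval), (f, z) ∈ Q k → (rep f φ, z) ∈ Q k) ∧
      (∀ f ∈ Ev, ∀ z ∈ K, (∀ k, (f, z) ∈ Q k) → z ∈ T f) ∧
      ∀ ε' : ℝ, 0 < ε' → ∀ᶠ i in atTop,
        (μs i : Measure Curve) {γ : Curve | γ.path ∈ Ev ∧ ¬ Good t ε' c
          {z | z ∈ K ∧ ∀ k : ℕ, ε' ≤ 1 / ((k : ℝ) + 1) → (γ.path, z) ∈ Q k}} ≤ ε) :
    ∀ᵐ p : Curve ∂(μ : Measure Curve), p.path ∈ Ev → ENNReal.ofReal t ≤ dimH (T p.path) := by
  rw [ae_iff, ← nonpos_iff_eq_zero]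
  apply ENNReal.le_of_forall_pos_le_add
  intro ε hε _
  obtain ⟨c, K, Q, hc, hK, hQ, hinv, hT, h1⟩ := h ε (by exact_mod_cast hε)
  have h1 : ∀ ε' : ℝ, 0 < ε' → ∀ᶠ i in atTop,
      (μs i : Measure Curve) {γ : Curve | γ.path ∈ Ev ∧ ¬ Good t ε' c (AA K Q ε' γ.path)} ≤ ε := h1
  have hopen : ∀ ε' : ℝ, IsOpen {p : Curve | p.path ∈ Ev ∧ ¬ Good t ε' c (AA K Q ε' p.path)} := by
    intro ε'
    have h2 := closed_curve (isClosed_good_AA (t := t) (δ := ε') (c := c) (e := ε') hQ hK)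
      (fun f φ hf => Good.mono hf (AA_rep hinv ε' f φ))
    exact hEv.inter h2.isOpen_compl
  have h2 : ∀ ε' : ℝ, 0 < ε' →
      (μ : Measure Curve) {p : Curve | p.path ∈ Ev ∧ ¬ Good t ε' c (AA K Q ε' p.path)} ≤ ε := by
    intro ε' hε'
    refine (ProbabilityMeasure.le_liminf_measure_open_of_tendsto hμ (hopen ε')).trans ?_
    exact liminf_le_of_frequently_le (h1 ε' hε').frequently
  set Bd : ℕ → Set Curve := fun n =>
    {p : Curve | p.path ∈ Ev ∧ ¬ Good t (1 / ((n : ℝ) + 1)) c (AA K Q (1 / ((n : ℝ) + 1)) p.path)}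
    with hBd
  have hmono : Monotone Bd := by
    rintro n n' hnn p ⟨hp0, hp⟩
    refine ⟨hp0, fun hG => hp ?_⟩
    have h3 := hG.anti (Nat.one_div_le_one_div (α := ℝ) hnn)
    exact h3.mono (AA_mono (Nat.one_div_le_one_div hnn) p.path)
  have h3 : {p : Curve | ¬ (p.path ∈ Ev → ENNReal.ofReal t ≤ dimH (T p.path))} ⊆ ⋃ n : ℕ, Bd n := by
    intro p hp
    rw [Set.mem_ofPred_eq, Classical.not_imp] at hp
    obtain ⟨hp0, hp⟩ := hp
    by_contra hcon
    simp only [hBd, Set.mem_iUnion, Set.mem_ofPred_eq, not_exists, not_and, not_not] at hcon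
    apply hp
    have h4 : ∀ δ' : ℝ, 0 < δ' → Good t δ' c (AA K Q 0 p.path) := by
      intro δ' hδ'
      apply good_zero hQ hK
      intro n
      obtain ⟨m, hm⟩ := exists_nat_one_div_lt hδ'
      have h5 := hcon (max n m) hp0
      have h6 : (1 : ℝ) / (((max n m : ℕ) : ℝ) + 1) ≤ 1 / ((n : ℝ) + 1) :=
        Nat.one_div_le_one_div (le_max_left _ _)
      have h7 : (1 : ℝ) / (((max n m : ℕ) : ℝ) + 1) ≤ 1 / ((m : ℝ) + 1) :=
        Nat.one_div_le_one_div (le_max_right _ _)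
      exact (h5.mono (AA_mono h6 p.path)).anti (h7.trans hm.le)
    refine (le_dimH_of_good ht hc (isCompact_AA hQ hK p.path) h4).trans (dimH_mono ?_)
    rintro z ⟨hz, hh⟩
    exact hT _ hp0 z hz (fun k => hh k (by positivity))
  refine le_trans (measure_mono h3) ?_
  rw [zero_add, hmono.measure_iUnion]
  exact iSup_le fun n => h2 _ (by positivity)

/-! ### The event -/

/-- The event, with a margin. -/
def EvN (d : ℤ × ℤ) (H η m : ℝ) (w : ℂ) : Set C(unitInterval, ℂ) :=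
  {f | f ∈ EvM d H η m w ∧ ∃ s, 32 * H < dist w (f s)}

theorem isOpen_EvN (d : ℤ × ℤ) (H η m : ℝ) (w : ℂ) : IsOpen (EvN d H η m w) := by
  have e : EvN d H η m w = EvM d H η m w ∩ ⋃ s : unitInterval,
      {f : C(unitInterval, ℂ) | 32 * H < dist w (f s)} := by
    ext f
    simp only [EvN, Set.mem_ofPred_eq, Set.mem_inter_iff, Set.mem_iUnion]
  rw [e]
  refine (isOpen_EvM d H η m w).inter (isOpen_iUnion fun s => ?_)
  exact isOpen_lt continuous_const (continuous_const.dist (continuous_eval_const s))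

theorem rep_EvN {d : ℤ × ℤ} {H η m : ℝ} {w : ℂ} (f : C(unitInterval, ℂ))
    (φ : unitInterval ≃o unitInterval) (hf : f ∈ EvN d H η m w) : rep f φ ∈ EvN d H η m w := by
  obtain ⟨⟨h1, s, s', hs, h2, h3⟩, s'', h4⟩ := hf
  refine ⟨⟨fun u => h1 (φ u), φ.symm s, φ.symm s', φ.symm.monotone hs, ?_, ?_⟩, φ.symm s'', ?_⟩
  · rintro _ ⟨u, ⟨hu1, hu2⟩, rfl⟩
    refine h2 ⟨φ u, ⟨?_, ?_⟩, rfl⟩
    · exact φ.symm_apply_le.1 hu1
    · exact φ.le_symm_apply.1 hu2
  · rw [rep_apply, rep_apply, OrderIso.apply_symm_apply, OrderIso.apply_symm_apply]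
    exact h3
  · rw [rep_apply, OrderIso.apply_symm_apply]
    exact h4

theorem open_EvN (d : ℤ × ℤ) (H η m : ℝ) (w : ℂ) : IsOpen {c : Curve | c.path ∈ EvN d H η m w} :=
  open_curve (isOpen_EvN d H η m w) rep_EvN

theorem rep_QW {O : Set ℂ} {M R e : ℝ} {B N : ℕ} {w : ℂ} (f : C(unitInterval, ℂ)) (z : ℂ)
    (φ : unitInterval ≃o unitInterval) (h : (f, z) ∈ QW O M R e B N w) :
    (rep f φ, z) ∈ QW O M R e B N w := by
  obtain ⟨h1, ⟨s, h2⟩, x, h3, h4, h5, h6, h7, h8⟩ := h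
  refine ⟨h1, ⟨φ.symm s, ?_⟩, x, h3, h4, h5, h6, fun i s => h7 i (φ s), h8⟩
  show dist (f (φ (φ.symm s))) z ≤ e
  rw [OrderIso.apply_symm_apply]
  exact h2

end Run7.h561.EC
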