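import Pool.Agent.Run7.h561.EC.P_J4
import Pool.Agent.Run7.h561.EC.P_J5

/-! # HIT for the interface loops -/

set_option autoImplicit false

namespace Run7.h561.EC

open H974 H12S Finset H984P H984N H342P H342L H342T Run7.h561 MeasureTheory Filter Topology
open Pool.Agent.H389R2.Dim Pool.Agent.Y989.FR Pool.Agent.W822.PD
open scoped ENNReal

/-- The configuration, translated by one step. -/
noncomputable def dn1 (F : Finset Edg) : Finset Edg := F.image (sh (0, -1))

theorem sh_inv1 (e : Edg) : sh (0, 1) (sh (0, -1) e) = e := by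
  obtain ⟨x, y, b⟩ := e
  simp [sh]

theorem sh_inv2 (e : Edg) : sh (0, -1) (sh (0, 1) e) = e := by
  obtain ⟨x, y, b⟩ := e
  simp [sh]

theorem mem_dn1 {F : Finset Edg} {e : Edg} : e ∈ dn1 F ↔ sh (0, 1) e ∈ F := by
  unfold dn1
  rw [Finset.mem_image]
  constructor
  · rintro ⟨g, hg, rfl⟩
    rwa [sh_inv1]
  · intro h
    exact ⟨_, h, sh_inv2 e⟩

theorem Sub_dn1 {F : Finset Edg} {q : ℤ × ℤ} {n : ℕ} :
    Sub (dn1 F) q n = Sub F (q.1, q.2 + 1) n := by
  ext e
  rw [mem_Sub, mem_Sub, mem_dn1]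
  have : sh (0, 1) (sh q e) = sh (q.1, q.2 + 1) e := by
    obtain ⟨x, y, b⟩ := e
    show ((x + q.1 + 0, y + q.2 + 1, b) : Edg) = (x + q.1, y + (q.2 + 1), b)
    rw [add_zero, add_assoc]
  rw [this]

/-- **The loop near the box.** -/
theorem loop_step {n : ℕ} (hn : 0 < n) {F : Finset Plain.Edge} {c : Curve} (hc : IsLoop n F c)
    {w : ℂ} {H : ℝ} (hH : 0 < H) (hx : 100 ≤ 4 * H / (1 / (n : ℝ)))
    (hfar : ∃ s, 32 * H < dist w (c.path s)) :
    ∃ (σ0 : St) (T : ℕ), CrvA c.path (1 / (n : ℝ)) T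
      (fun k => pos (1 / (n : ℝ)) (orb (↑(dn1 F) : Set Edg) σ0 k)) ∧
      Nbh (↑(dn1 F) : Set Edg) σ0 T (dn1 F) (bq w H (1 / (n : ℝ))) (2 * bn H (1 / (n : ℝ))) := by
  obtain ⟨σ, N, hN, hper, -, hpath⟩ := hc
  obtain ⟨s, hs⟩ := hfar
  have hn' : (0 : ℝ) < n := by exact_mod_cast hn
  have hδ : 0 < 1 / (n : ℝ) := by positivity
  rw [hpath] at hs ⊢
  have h1 := poly_mp hn (E := (↑F : Set Edg)) σ hN s
  have h2 := pt_mp hn (orb (↑F : Set Edg) σ (rd N s))
  have h0 : ∀ v : Vtx, pt n v = ⟨1 / (n : ℝ) * v.1, 1 / (n : ℝ) * v.2⟩ := by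
    intro v
    unfold pt
    congr 1 <;> ring
  have hE : ∀ e : Edg, e ∈ (↑(dn1 F) : Set Edg) ↔ sh (0, 1) e ∈ (↑F : Set Edg) := by
    intro e
    rw [Finset.mem_coe, Finset.mem_coe]
    exact mem_dn1
  have hE' : ∀ e : Edg, e ∈ (↑F : Set Edg) ↔ sh (0, -1) e ∈ (↑(dn1 F) : Set Edg) := by
    intro e
    rw [hE, sh_inv1]
  set δ : ℝ := 1 / (n : ℝ) with hδd
  set v : Vtx := (orb (↑F : Set Edg) σ (rd N s)).1 with hv
  have h3 : 31 * H < dist w (pt n v) := by
    have t1 := dist_triangle w (pt n v) (poly (fun j => pt n (orb (↑F : Set Edg) σ j).1) N s)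
    have t2 := dist_triangle (pt n v) (mp n (orb (↑F : Set Edg) σ (rd N s)))
      (poly (fun j => pt n (orb (↑F : Set Edg) σ j).1) N s)
    rw [dist_comm (mp n _)] at t2
    rw [le_div_iff₀ hδ] at hx
    linarith
  refine ⟨shs (0, -1) (orb (↑F : Set Edg) σ (rd N s)), 2 * N,
    crv_loop hn hE hN hper (rd_le s), nbh_loop hN ?_ ?_⟩
  · rw [orb_shs hE', ← orb_add, show N + rd N s = rd N s + N by ring, orb_per hper]
  · obtain ⟨p1, p2, p3, p4⟩ := box_pos (w := w) (H := H) hδ hx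
    have e1 : (shs (0, -1) (orb (↑F : Set Edg) σ (rd N s))).1 = (v.1, v.2 - 1) := by
      show ((v.1 + 0, v.2 + -1) : Vtx) = (v.1, v.2 - 1)
      rw [add_zero]
      rfl
    rw [e1]
    simp only
    by_contra hcon
    push Not at hcon
    obtain ⟨c1, c2, c3, c4⟩ := hcon
    have d1 : ((bq w H δ).1 : ℝ) ≤ v.1 := by exact_mod_cast c1
    have d2 : (v.1 : ℝ) ≤ (bq w H δ).1 + ((2 * bn H δ : ℕ) : ℝ) := by exact_mod_cast c2
    have d3 : ((bq w H δ).2 : ℝ) ≤ (v.2 : ℝ) - 1 := by exact_mod_cast c3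
    have d4 : (v.2 : ℝ) - 1 ≤ (bq w H δ).2 + ((2 * bn H δ : ℕ) : ℝ) := by exact_mod_cast c4
    have q1 : (w.re - 4 * H) / δ < v.1 := by linarith
    have q2 : (v.1 : ℝ) < (w.re + 4 * H) / δ := by linarith
    have q3 : (w.im - 4 * H) / δ < v.2 := by linarith
    have q4 : (v.2 : ℝ) < (w.im + 4 * H) / δ := by linarith
    rw [div_lt_iff₀ hδ] at q1 q3
    rw [lt_div_iff₀ hδ] at q2 q4
    have h4 : dist w (pt n v) ≤ 4 * H + 4 * H := by
      rw [h0]
      apply H984N.ML.dist_le_of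
      · simp only
        rw [abs_le]
        constructor <;> linarith
      · simp only
        rw [abs_le]
        constructor <;> linarith
    linarith

/-- **HIT for the loops** -/
theorem t_HITL (loc4 : S_LOC4) (dua : S_DUA) (chn : S_CHN) (qwc : S_QWC) (gew : S_GEW) :
    S_HITL := by
  intro γ hγ k hk μ hμ t ht ht1 d H η w hd hH hη hSq
  have hall : ∀ n : ℕ, ∀ᵐ p : Curve ∂(μ : Measure Curve),
      p.path ∈ EvN d H η (1 / ((n : ℝ) + 1)) w →
      ENNReal.ofReal t ≤ dimH (Lb (Sq (4 * H) w) (Set.range p.path) w) := by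
    intro n
    have hm : (0 : ℝ) < 1 / ((n : ℝ) + 1) := by positivity
    set m : ℝ := 1 / ((n : ℝ) + 1) with hmdef
    refine lgoC hμ ht (fun f => Lb (Sq (4 * H) w) (Set.range f) w) (open_EvN d H η m w) ?_
    intro ε hε
    obtain ⟨ε1, hε1, hε2⟩ : ∃ δ : ℝ, 0 < δ ∧ ENNReal.ofReal δ ≤ ε := by
      rcases eq_or_ne ε ∞ with h | h
      · exact ⟨1, one_pos, by rw [h]; exact le_top⟩
      · exact ⟨ε.toReal, ENNReal.toReal_pos hε.ne' h, by rw [ENNReal.ofReal_toReal h]⟩
    obtain ⟨c, M', B, NN, hc, hM', hB, hcore⟩ := hit_coreA loc4 dua chn ht ht1 hd hH hη hm w hε1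
    have hKc : IsCompact (Metric.closedBall (0 : ℂ) (‖w‖ + 2 * (4 * H))) :=
      isCompact_closedBall _ _
    refine ⟨c, Metric.closedBall (0 : ℂ) (‖w‖ + 2 * (4 * H)),
      fun k => QW (Sq (4 * H) w)ᶜ M' (‖w‖ + 2 * (4 * H)) (1 / ((k : ℝ) + 1)) B (NN k) w, hc, hKc,
      fun k => qwc _ _ _ _ _ _ _, fun k f z φ h => rep_QW f z φ h, ?_, ?_⟩
    · intro f hf z _ hz
      refine gew (Sq (4 * H) w) M' (‖w‖ + 2 * (4 * H)) B NN w f z ?_ ?_ ?_ hM' hB hz
      · unfold Sq
        refine IsOpen.and ?_ ?_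
        · exact isOpen_lt (by fun_prop) continuous_const
        · exact isOpen_lt (by fun_prop) continuous_const
      · unfold Sq
        rw [Set.mem_setOf_eq, sub_self, sub_self, abs_zero]
        exact ⟨by linarith, by linarith⟩
      · rintro ⟨s, hs⟩
        have h1 := hf.1.1 s
        rw [hs, dist_self] at h1
        linarith
    · intro ε' hε'
      obtain ⟨δ0, hδ0, hbad⟩ := hcore ε' hε'
      have hlim : Tendsto (fun i => 1 / ((k i : ℕ) : ℝ)) atTop (𝓝 0) :=
        tendsto_one_div_atTop_nhds_zero_nat.comp hk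
      have hev : ∀ᶠ i in atTop, 1 / ((k i : ℕ) : ℝ) < min δ0 (4 * H / 100) :=
        (tendsto_order.1 hlim).2 _ (by positivity)
      filter_upwards [hev, hk.eventually_ge_atTop 1] with i hi hk1
      have hkpos : 0 < k i := hk1
      have hi0 : 1 / ((k i : ℕ) : ℝ) < δ0 := hi.trans_le (min_le_left _ _)
      have hi2 : 1 / ((k i : ℕ) : ℝ) ≤ 4 * H / 100 := hi.le.trans (min_le_right _ _)
      have hkr : (0 : ℝ) < ((k i : ℕ) : ℝ) := by exact_mod_cast hkpos
      have hδi : 0 < 1 / ((k i : ℕ) : ℝ) := by positivity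
      obtain ⟨Bad, hB1, hB2⟩ := hbad (1 / ((k i : ℕ) : ℝ)) hδi hi0
      have hx : 100 ≤ 4 * H / (1 / ((k i : ℕ) : ℝ)) := by
        rw [le_div_iff₀ hδi]
        linarith
      obtain ⟨p1, p2, p3, p4⟩ := box_pos (w := w) (H := H) hδi hx
      set e : ℝ := 1 / ((k i : ℕ) : ℝ) with he
      have hopen : IsOpen {γ : Curve | γ.path ∈ EvN d H η m w ∧ ¬ Good t ε' c
          (LG.AA (Metric.closedBall (0 : ℂ) (‖w‖ + 2 * (4 * H)))
            (fun k => QW (Sq (4 * H) w)ᶜ M' (‖w‖ + 2 * (4 * H)) (1 / ((k : ℝ) + 1)) B (NN k) w)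
            ε' γ.path)} := by
        refine IsOpen.inter (open_EvN d H η m w) ?_
        have h2 := closed_curve (LG.isClosed_good_AA (t := t) (δ := ε') (c := c) (e := ε')
          (fun k => qwc (Sq (4 * H) w)ᶜ M' (‖w‖ + 2 * (4 * H)) (1 / ((k : ℝ) + 1)) B (NN k) w) hKc)
          (fun f φ hf => Good.mono hf (AA_rep (fun k f z φ h => rep_QW f z φ h) ε' f φ))
        exact h2.isOpen_compl
      change (lawOf (k i) (γ (k i)) : Measure Curve) {γ : Curve | γ.path ∈ EvN d H η m w ∧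
          ¬ Good t ε' c (LG.AA (Metric.closedBall (0 : ℂ) (‖w‖ + 2 * (4 * H)))
            (fun k => QW (Sq (4 * H) w)ᶜ M' (‖w‖ + 2 * (4 * H)) (1 / ((k : ℝ) + 1)) B (NN k) w)
            ε' γ.path)} ≤ ε
      rw [lawOf_apply _ _ hopen.measurableSet]
      refine le_trans (ENNReal.ofReal_le_ofReal ?_) hε2
      -- the box in the square
      have s1 := (hSq (show (⟨w.re - 9 / 2 * H, w.im⟩ : ℂ) ∈ Sq (5 * H) w by
        unfold Sq
        simp only [Set.mem_setOf_eq, sub_self, abs_zero]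
        rw [show w.re - 9 / 2 * H - w.re = -(9 / 2 * H) by ring, abs_neg,
          abs_of_pos (by positivity)]
        constructor <;> linarith)).1
      have s2 := (hSq (show (⟨w.re + 9 / 2 * H, w.im⟩ : ℂ) ∈ Sq (5 * H) w by
        unfold Sq
        simp only [Set.mem_setOf_eq, sub_self, abs_zero]
        rw [show w.re + 9 / 2 * H - w.re = 9 / 2 * H by ring, abs_of_pos (by positivity)]
        constructor <;> linarith)).2.1
      have s3 := (hSq (show (⟨w.re, w.im - 9 / 2 * H⟩ : ℂ) ∈ Sq (5 * H) w by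
        unfold Sq
        simp only [Set.mem_setOf_eq, sub_self, abs_zero]
        rw [show w.im - 9 / 2 * H - w.im = -(9 / 2 * H) by ring, abs_neg,
          abs_of_pos (by positivity)]
        constructor <;> linarith)).2.2.1
      have s4 := (hSq (show (⟨w.re, w.im + 9 / 2 * H⟩ : ℂ) ∈ Sq (5 * H) w by
        unfold Sq
        simp only [Set.mem_setOf_eq, sub_self, abs_zero]
        rw [show w.im + 9 / 2 * H - w.im = 9 / 2 * H by ring, abs_of_pos (by positivity)]
        constructor <;> linarith)).2.2.2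
      change 0 < w.re - 9 / 2 * H at s1
      change w.re + 9 / 2 * H < 1 at s2
      change 0 < w.im - 9 / 2 * H at s3
      change w.im + 9 / 2 * H < 1 at s4
      have hen : 1 / e = ((k i : ℕ) : ℝ) := by rw [he, one_div_one_div]
      have hdl : 0 < (bq w H e).1 := by
        have h2 : 0 < (w.re - 4 * H) / e := by
          apply div_pos _ hδi
          linarith
        have h3 : (0 : ℝ) < ((bq w H e).1 : ℝ) := by linarith
        exact_mod_cast h3
      have hdr : (bq w H e).1 + ((2 * bn H e : ℕ) : ℤ) < ((k i : ℕ) : ℤ) := by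
        have h2 : (w.re + 4 * H) / e < 1 / e := by
          rw [div_lt_div_iff_of_pos_right hδi]
          linarith
        rw [hen] at h2
        have h3 : ((bq w H e).1 : ℝ) + ((2 * bn H e : ℕ) : ℝ) < ((k i : ℕ) : ℝ) := by linarith
        exact_mod_cast h3
      have hdb : 0 < (bq w H e).2 := by
        have h2 : 0 < (w.im - 4 * H) / e := by
          apply div_pos _ hδi
          linarith
        have h3 : (0 : ℝ) < ((bq w H e).2 : ℝ) := by linarith
        exact_mod_cast h3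
      have hdt : (bq w H e).2 + 1 + ((2 * bn H e : ℕ) : ℤ) < ((k i : ℕ) : ℤ) := by
        have h2 : (w.im + 4 * H) / e < 1 / e := by
          rw [div_lt_div_iff_of_pos_right hδi]
          linarith
        rw [hen] at h2
        have h3 : ((bq w H e).2 : ℝ) + 1 + ((2 * bn H e : ℕ) : ℝ) < ((k i : ℕ) : ℝ) := by linarith
        exact_mod_cast h3
      have hsub : RE (bq w H e).1 ((bq w H e).1 + ((2 * bn H e : ℕ) : ℤ)) ((bq w H e).2 + 1)
          ((bq w H e).2 + 1 + ((2 * bn H e : ℕ) : ℤ)) ⊆ RE 0 (k i : ℕ) 0 (k i : ℕ) := by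
        intro g hg
        rw [mem_RE] at hg ⊢
        unfold inR at hg ⊢
        omega
      refine le_trans ?_ hB1
      rw [← pr_Sub (q := ((bq w H e).1, (bq w H e).2 + 1)) hsub Bad, Plain.prob_eq]
      refine Pr_mono okhalf fun F hF hbadF => ?_
      by_contra hcon
      obtain ⟨hb1, hb2⟩ := hbadF
      apply hb2
      have hFn : F ⊆ Plain.edges (k i) := by rw [Plain.edges_eq]; exact hF
      obtain ⟨σ0, T, hcrv, hnb⟩ := loop_step hkpos (hγ (k i) F hkpos hFn) hH hx hb1.2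
      refine hB2 _ _ _ (dn1 F) _ hcrv hnb hb1.1 ?_
      rw [Sub_dn1]
      exact hcon
  filter_upwards [ae_all_iff.2 hall] with p hp hpe
  obtain ⟨n, hn⟩ := EvO_margin hpe.1
  exact hp n ⟨hn, hpe.2⟩

end Run7.h561.EC
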