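import Pool.Agent.Run7.h561.EC.P_J7
import Pool.Agent.H342R3.Tig.Fin

/-! # Tightness of the laws of the interface loops (port of `H342R3/Tig/Fin.lean`) -/

set_option autoImplicit false

namespace Run7.h561.EC

open H342L H342P H342P.Plain H342T H984P MeasureTheory TopologicalSpace Filter Topology
open scoped ENNReal

/-- The tracing path of a cluster is an interface loop of the box. -/
theorem trace_loop {n : ℕ} {F : Finset Plain.Edge} {v : ℤ × ℤ} {c : Curve} (hF : F ⊆ edges n)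
    (hv : v ∈ box n) (hc : IsTrace n F v c) : IsLoopB n F c := by
  obtain ⟨σ, N, hN, hσ, -, h1, h2, h3⟩ := hc
  exact ⟨σ, N, hN, CPT_box hF hv hσ, h1, h2, h3⟩

section
variable (hG : St_GRD) (hS : St_SML)

include hG hS in
/-- deterministic part -/
theorem loop_cut {n : ℕ} {F : Finset Edge} {c : Curve} (hn : 0 < n) (hF : F ⊆ edges n)
    (hc : IsLoopB n F c) :
    (∀ s, c.path s ∈ csq) ∧ (∀ j : ℕ, Cut (4 * (n + 1) ^ 2 * (j + 1)) (1 / ((j:ℝ) + 1)) c.path) ∧
    (∀ a : ℕ, 1 ≤ a → Cut (N4 n a F + 1) ((12 * a + 6) / n) c.path) := by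
  have hbox0 : ∀ σ : St, σ.1 ∈ box n → ∀ s, (orb (↑F : Set Edge) σ s).1 ∈ box n := by
    intro σ hσ s
    apply CPT_box hF hσ
    rw [mem_cluster]
    exact pb_reach _ _ _
  refine ⟨?_, ?_, ?_⟩
  · intro s
    obtain ⟨v, hv⟩ := loop_near hn hF hc
    obtain ⟨⟨h1, h2, h3, h4⟩, -⟩ := hv s
    simp only [csq, Set.mem_ofPred_eq]
    tauto
  · intro j
    obtain ⟨σ, N, hN, hσ, hp, hmin, hpath⟩ := hc
    have h1 := hS (fun j => pt n (orb (↑F) σ j).1) N (1 / ((j:ℝ) + 1)) hN (by positivity)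
      (fun j => pt_step hn _ _ _)
    rw [hpath]
    refine h1.mono ?_ le_rfl
    have h2 : ⌈1 / (1 / ((j:ℝ) + 1))⌉₊ = j + 1 := by
      rw [one_div_one_div]
      exact_mod_cast Nat.ceil_natCast (j + 1)
    rw [h2]
    exact Nat.mul_le_mul_right _ (period_le (hbox0 σ hσ) hmin)
  · intro a ha
    obtain ⟨σ, N, hN, hσ, hp, hmin, hpath⟩ := hc
    rw [hpath]
    refine hG n a F σ N hn ha ?_ hN hp hmin
    intro s
    have := hbox0 σ hσ s
    unfold box at this
    rw [Finset.mem_product, Finset.mem_Icc, Finset.mem_Icc] at this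
    unfold H974.inR
    omega

end

section
variable (hG : St_GRD) (hS : St_SML) (hC : St_CNT) (hA : St_ARZ) (hK : St_PRK)
  {γ : (n : ℕ) → Finset Edge → Curve} (hγ : LpsB γ)

include hG hS hC hA hγ in
theorem loop_tight_K {ε : ℝ} (hε : 0 < ε) : ∃ K : Set Curve, IsCompact K ∧ IsClosed K ∧
    ∀ n : ℕ, 0 < n → (lawOf n (γ n) : Measure Curve) Kᶜ ≤ ENNReal.ofReal ε := by
  classical
  have hok : H974.Ok (fun _ : Edge => (1/2:ℝ)) := fun _ => ⟨by norm_num, by norm_num⟩
  obtain ⟨C, hC0, hcnt⟩ := hC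
  set n' : ℕ → ℕ := fun j => 1000 * (j + 1) with hn'
  set m' : ℕ → ℕ := fun j => ⌈C * (49 * ((j:ℝ) + 1)) ^ 2 * 2 ^ (j + 1) / ε⌉₊ + 1 with hm'
  set D : ℕ → ℕ := fun j => m' j + 4 * (n' j + 1) ^ 2 * (j + 1) with hD
  obtain ⟨K, hKc, hKcl, hmem⟩ := hA D
  refine ⟨K, hKc, hKcl, fun n hn => ?_⟩
  rw [lawOf_apply _ _ hKcl.isOpen_compl.measurableSet]
  apply ENNReal.ofReal_le_ofReal
  -- only the scales with n' j ≤ n matter
  have hbad : prob n (fun F => γ n F ∈ Kᶜ) ≤ H974.Pr (fun _ => (1/2:ℝ)) (H974.RE 0 n 0 n)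
      (fun F => ∃ j ∈ (Finset.range n).filter (fun j => n' j ≤ n), m' j ≤ N4 n (n / (24 * (j + 1))) F) := by
    apply prob_le_of_pr
    intro F hF hnot
    by_contra hcon
    apply hnot
    obtain ⟨h1, h2, h3⟩ := loop_cut hG hS hn hF (hγ n F hn hF)
    apply hmem _ h1
    intro j
    by_cases hj : n' j ≤ n
    · have hjn : j ∈ (Finset.range n).filter (fun j => n' j ≤ n) := by
        rw [Finset.mem_filter, Finset.mem_range]
        refine ⟨?_, hj⟩
        simp only [hn'] at hj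
        omega
      have h4 : N4 n (n / (24 * (j + 1))) F < m' j := by
        by_contra h5
        exact hcon ⟨j, hjn, not_lt.mp h5⟩
      simp only [hn'] at hj
      have hkpos : 0 < 24 * (j + 1) := by omega
      have ha : 1 ≤ n / (24 * (j + 1)) := by
        rw [Nat.le_div_iff_mul_le hkpos]
        omega
      refine (h3 _ ha).mono (by simp only [hD]; omega) ?_
      have hnR : (0:ℝ) < n := by exact_mod_cast hn
      have hj0 : (0:ℝ) < (j:ℝ) + 1 := by positivity
      have hnj : (1000:ℝ) * ((j:ℝ) + 1) ≤ n := by exact_mod_cast hj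
      have h6 : ((n / (24 * (j + 1)) : ℕ) : ℝ) ≤ (n:ℝ) / (24 * ((j:ℝ) + 1)) := by
        have := Nat.cast_div_le (α := ℝ) (m := n) (n := 24 * (j + 1))
        push_cast at this
        exact this
      rw [le_div_iff₀ (by positivity)] at h6
      rw [div_le_div_iff₀ hnR hj0]
      nlinarith
    · refine (h2 j).mono ?_ le_rfl
      have h5 : n + 1 ≤ n' j + 1 := by omega
      have h6 : 4 * (n + 1) ^ 2 * (j + 1) ≤ 4 * (n' j + 1) ^ 2 * (j + 1) := by gcongr
      simp only [hD]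
      omega
  refine hbad.trans ((H974.Pr_exists_le hok _ _ _).trans ?_)
  have hterm : ∀ j ∈ (Finset.range n).filter (fun j => n' j ≤ n),
      H974.Pr (fun _ => (1/2:ℝ)) (H974.RE 0 n 0 n)
        (fun F => m' j ≤ N4 n (n / (24 * (j + 1))) F) ≤ ε * (1/2) ^ (j + 1) := by
    intro j hj
    rw [Finset.mem_filter, Finset.mem_range] at hj
    obtain ⟨-, hj⟩ := hj
    simp only [hn'] at hj
    have hkpos : 0 < 24 * (j + 1) := by omega
    have ha : 5 ≤ n / (24 * (j + 1)) := by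
      rw [Nat.le_div_iff_mul_le hkpos]
      omega
    refine (hcnt n _ (m' j) ha (by simp only [hm']; omega)).trans ?_
    obtain ⟨h1, -⟩ := fs_div hkpos (show 2 * (24 * (j + 1)) ≤ n by omega)
    set a : ℕ := n / (24 * (j + 1)) with haa
    have haR : (5:ℝ) ≤ a := by exact_mod_cast ha
    have hj0 : (0:ℝ) < (j:ℝ) + 1 := by positivity
    have h2 : (n:ℝ) / a ≤ 48 * ((j:ℝ) + 1) := by
      rw [div_le_iff₀ (by linarith)]
      push_cast at h1
      rw [div_le_iff₀ (by positivity)] at h1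
      linarith
    have h3 : ((n:ℝ) / a + 1) ^ 2 ≤ (49 * ((j:ℝ) + 1)) ^ 2 := by
      apply pow_le_pow_left₀ (by positivity)
      have : (0:ℝ) ≤ j := by positivity
      linarith
    have hm0 : (0:ℝ) < (m' j : ℝ) := by
      have : 0 < m' j := by simp only [hm']; omega
      exact_mod_cast this
    rw [div_le_iff₀ hm0]
    have h4 : C * (49 * ((j:ℝ) + 1)) ^ 2 * 2 ^ (j + 1) / ε ≤ (m' j : ℝ) := by
      simp only [hm']
      push_cast
      have := Nat.le_ceil (C * (49 * ((j:ℝ) + 1)) ^ 2 * 2 ^ (j + 1) / ε)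
      linarith
    rw [div_le_iff₀ hε] at h4
    have h5 : (0:ℝ) < 2 ^ (j + 1) := by positivity
    calc C * ((n:ℝ) / a + 1) ^ 2 ≤ C * (49 * ((j:ℝ) + 1)) ^ 2 :=
          mul_le_mul_of_nonneg_left h3 hC0.le
      _ = (C * (49 * ((j:ℝ) + 1)) ^ 2 * 2 ^ (j + 1)) * (1/2) ^ (j + 1) := by
          rw [one_div, inv_pow, mul_assoc _ ((2:ℝ) ^ (j + 1)), mul_inv_cancel₀ h5.ne', mul_one]
      _ ≤ ((m' j : ℝ) * ε) * (1/2) ^ (j + 1) :=
          mul_le_mul_of_nonneg_right h4 (by positivity)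
      _ = ε * (1/2) ^ (j + 1) * (m' j : ℝ) := by ring
  refine (Finset.sum_le_sum hterm).trans ?_
  rw [← Finset.mul_sum]
  have h6 : ∑ j ∈ (Finset.range n).filter (fun j => n' j ≤ n), (1/2:ℝ) ^ (j + 1) ≤ 1 := by
    refine (Finset.sum_le_sum_of_subset_of_nonneg (Finset.filter_subset _ _)
      (fun _ _ _ => by positivity)).trans ?_
    have h7 : ∀ n : ℕ, ∑ j ∈ Finset.range n, (1/2:ℝ) ^ (j + 1) = 1 - (1/2) ^ n := by
      intro n
      induction n with
      | zero => simp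
      | succ n ih => rw [Finset.sum_range_succ, ih, pow_succ]; ring
    rw [h7]
    have : (0:ℝ) ≤ (1/2) ^ n := by positivity
    linarith
  nlinarith

include hG hS hC hA hK hγ in
/-- Every sequence of scales has a subsequence along which the laws of the tracing path converge. -/
theorem loop_tight (k : ℕ → ℕ) (hk : Tendsto k atTop atTop) :
    ∃ (φ : ℕ → ℕ) (μ : ProbabilityMeasure Curve), StrictMono φ ∧
      Tendsto (fun i => lawOf (k (φ i)) (γ (k (φ i)))) atTop (𝓝 μ) := by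
  obtain ⟨N, hN⟩ := (tendsto_atTop.mp hk 1).exists_forall_of_atTop
  obtain ⟨φ, μ, hφ, hlim⟩ := hK (fun i => lawOf (k (i + N)) (γ (k (i + N)))) (by
    intro ε hε
    obtain ⟨K, h1, h2, h3⟩ := loop_tight_K hG hS hC hA hγ hε
    exact ⟨K, h1, h2, fun i => h3 _ (hN (i + N) (by omega))⟩)
  exact ⟨fun i => φ i + N, μ, fun i j hij => by have := hφ hij; simp only; omega, hlim⟩

end

end Run7.h561.EC
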