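import Pool.Agent.Run7.h561.EC.P_H1

/-! # HIT, part 2: the crossing of the ray -/

set_option autoImplicit false

namespace Run7.h561.EC

open H974 H12S Finset H984P H984N Run7.h561

/-! ### Events with a margin -/

/-- The linear form which vanishes on the line of the ray. -/
def Lf (d : ℤ × ℤ) (w z : ℂ) : ℝ := (z.re - w.re) * d.2 - (z.im - w.im) * d.1

/-- The box with a margin. -/
def BxM (d : ℤ × ℤ) (H m : ℝ) (w : ℂ) : Set ℂ :=
  {z | |z.re - w.re| < H - m ∧ |z.im - w.im| < H - m ∧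
    m < (z.re - w.re) * d.1 + (z.im - w.im) * d.2}

/-- The crossing with a margin. -/
def CrM (d : ℤ × ℤ) (H m : ℝ) (w : ℂ) (f : C(unitInterval, ℂ)) : Prop :=
  ∃ s s' : unitInterval, s ≤ s' ∧ f '' Set.Icc s s' ⊆ BxM d H m w ∧
    ((m < Lf d w (f s) ∧ Lf d w (f s') < -m) ∨ (Lf d w (f s) < -m ∧ m < Lf d w (f s')))

/-- The event with a margin. -/
def EvM (d : ℤ × ℤ) (H η m : ℝ) (w : ℂ) : Set C(unitInterval, ℂ) :=
  {f | (∀ s, η + m < dist w (f s)) ∧ CrM d H m w f}

theorem continuous_Lf (d : ℤ × ℤ) (w : ℂ) : Continuous (Lf d w) := by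
  unfold Lf
  fun_prop

theorem isOpen_BxM (d : ℤ × ℤ) (H m : ℝ) (w : ℂ) : IsOpen (BxM d H m w) := by
  unfold BxM
  refine IsOpen.and ?_ (IsOpen.and ?_ ?_)
  · exact isOpen_lt (by fun_prop) continuous_const
  · exact isOpen_lt (by fun_prop) continuous_const
  · exact isOpen_lt continuous_const (by fun_prop)

theorem isOpen_EvM (d : ℤ × ℤ) (H η m : ℝ) (w : ℂ) : IsOpen (EvM d H η m w) := by
  have e : EvM d H η m w = {f : C(unitInterval, ℂ) | Set.MapsTo f Set.univ
      {z | η + m < dist w z}} ∩ ⋃ s : unitInterval, ⋃ s' : unitInterval, ⋃ _ : s ≤ s',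
      ({f : C(unitInterval, ℂ) | Set.MapsTo f (Set.Icc s s') (BxM d H m w)} ∩
        (({f : C(unitInterval, ℂ) | m < Lf d w (f s)} ∩
          {f : C(unitInterval, ℂ) | Lf d w (f s') < -m}) ∪
        ({f : C(unitInterval, ℂ) | Lf d w (f s) < -m} ∩
          {f : C(unitInterval, ℂ) | m < Lf d w (f s')}))) := by
    ext f
    unfold EvM CrM
    simp only [Set.mem_setOf_eq, Set.mem_inter_iff, Set.mem_iUnion, Set.mem_union,
      Set.mapsTo_iff_image_subset, Set.image_univ, Set.range_subset_iff, exists_prop]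
  rw [e]
  have hev : ∀ s : unitInterval, Continuous (fun f : C(unitInterval, ℂ) => Lf d w (f s)) :=
    fun s => (continuous_Lf d w).comp (continuous_eval_const s)
  refine IsOpen.inter ?_ (isOpen_iUnion fun s => isOpen_iUnion fun s' => isOpen_iUnion fun _ => ?_)
  · exact ContinuousMap.isOpen_setOf_mapsTo isCompact_univ
      (isOpen_lt continuous_const (by fun_prop))
  · refine IsOpen.inter (ContinuousMap.isOpen_setOf_mapsTo isCompact_Icc (isOpen_BxM d H m w)) ?_
    refine IsOpen.union (IsOpen.inter ?_ ?_) (IsOpen.inter ?_ ?_)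
    · exact isOpen_lt continuous_const (hev s)
    · exact isOpen_lt (hev s') continuous_const
    · exact isOpen_lt (hev s) continuous_const
    · exact isOpen_lt continuous_const (hev s')

/-- The open event is the union of the events with a margin. -/
theorem EvO_margin {d : ℤ × ℤ} {H η : ℝ} {w : ℂ} {f : C(unitInterval, ℂ)}
    (hf : f ∈ EvO d H η w) : ∃ n : ℕ, f ∈ EvM d H η (1 / ((n : ℝ) + 1)) w := by
  obtain ⟨h1, s, s', hs, h2, h3, h4⟩ := hf
  -- distances
  have hcont : Continuous fun u : unitInterval => dist w (f u) := by fun_prop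
  obtain ⟨u0, -, hu0⟩ := isCompact_univ.exists_isMinOn (s := (Set.univ : Set unitInterval))
    ⟨0, Set.mem_univ _⟩ hcont.continuousOn
  have hu0' : ∀ u, dist w (f u0) ≤ dist w (f u) := fun u => hu0 (Set.mem_univ u)
  -- margin in the box
  set g : unitInterval → ℝ := fun u => min (min (H - |(f u).re - w.re|) (H - |(f u).im - w.im|))
    (((f u).re - w.re) * d.1 + ((f u).im - w.im) * d.2) with hg
  have hgc : Continuous g := by
    rw [hg]; fun_prop
  obtain ⟨u1, hu1, hu1'⟩ := (isCompact_Icc (a := s) (b := s')).exists_isMinOn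
    ⟨s, le_rfl, hs⟩ hgc.continuousOn
  have hg1 : 0 < g u1 := by
    obtain ⟨b1, b2, b3⟩ := h2 ⟨u1, hu1, rfl⟩
    rw [hg]
    exact lt_min (lt_min (by linarith) (by linarith)) b3
  set x : ℝ := Lf d w (f s) with hx
  set y : ℝ := Lf d w (f s') with hy
  have hxy : x * y < 0 := h4
  have hx0 : x ≠ 0 := h3
  have hy0 : y ≠ 0 := fun h => by rw [h, mul_zero] at hxy; exact lt_irrefl _ hxy
  obtain ⟨n, hn⟩ := exists_nat_one_div_lt (lt_min (lt_min (sub_pos.2 (h1 u0)) hg1)
    (lt_min (abs_pos.2 hx0) (abs_pos.2 hy0)))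
  have n1 := hn.trans_le ((min_le_left _ _).trans (min_le_left _ _))
  have n2 := hn.trans_le ((min_le_left _ _).trans (min_le_right _ _))
  have n3 := hn.trans_le ((min_le_right _ _).trans (min_le_left _ _))
  have n4 := hn.trans_le ((min_le_right _ _).trans (min_le_right _ _))
  refine ⟨n, fun u => ?_, s, s', hs, ?_, ?_⟩
  · have := hu0' u
    linarith
  · rintro _ ⟨u, hu, rfl⟩
    have h5 : g u1 ≤ g u := hu1' hu
    have h6 := n2.trans_le h5
    rw [hg] at h6
    simp only [lt_min_iff] at h6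
    exact ⟨by linarith [h6.1.1], by linarith [h6.1.2], h6.2⟩
  · rcases lt_or_gt_of_ne hx0 with h | h
    · right
      rw [abs_of_neg h] at n3
      have : 0 < y := by nlinarith
      rw [abs_of_pos this] at n4
      exact ⟨by linarith, n4⟩
    · left
      rw [abs_of_pos h] at n3
      have : y < 0 := by nlinarith
      rw [abs_of_neg this] at n4
      exact ⟨n3, by linarith⟩

/-! ### The discrete crossing -/

/-- Four times the first coordinate. -/
def ix (σ : St) : ℤ := match σ.2 with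
  | .ne => 4 * σ.1.1 + 1
  | .nw => 4 * σ.1.1 - 1
  | .sw => 4 * σ.1.1 - 1
  | .se => 4 * σ.1.1 + 1

/-- Four times the second coordinate. -/
def iy (σ : St) : ℤ := match σ.2 with
  | .ne => 4 * σ.1.2 + 1
  | .nw => 4 * σ.1.2 + 1
  | .sw => 4 * σ.1.2 - 1
  | .se => 4 * σ.1.2 - 1

theorem pos_ix (δ : ℝ) (σ : St) : (pos δ σ).re = δ * (ix σ : ℝ) / 4 := by
  obtain ⟨⟨x, y⟩, k⟩ := σ
  cases k <;> simp only [pos, ix] <;> push_cast <;> ring

theorem pos_iy (δ : ℝ) (σ : St) : (pos δ σ).im - δ = δ * (iy σ : ℝ) / 4 := by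
  obtain ⟨⟨x, y⟩, k⟩ := σ
  cases k <;> simp only [pos, iy] <;> push_cast <;> ring

theorem ix_ne (σ : St) (a : ℤ) : ix σ ≠ 4 * a ∧ ix σ ≠ 4 * a + 2 := by
  obtain ⟨⟨x, y⟩, k⟩ := σ
  cases k <;> simp only [ix] <;> omega

theorem iy_ne (σ : St) (a : ℤ) : iy σ ≠ 4 * a ∧ iy σ ≠ 4 * a + 2 := by
  obtain ⟨⟨x, y⟩, k⟩ := σ
  cases k <;> simp only [iy] <;> omega

/-- Strictly between. -/
def Btw (a b L : ℤ) : Prop := (a < L ∧ L < b) ∨ (L < a ∧ b < L)

theorem step_v (E : Set Edg) (σ : St) (a : ℤ) :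
    (Btw (ix σ) (ix (nxt E σ)) (4 * a) → σ.1.1 = a) ∧
    (Btw (iy σ) (iy (nxt E σ)) (4 * a) → σ.1.2 = a) := by
  unfold Btw
  by_cases h : ae σ ∈ E
  · rw [nxt_open h]
    obtain ⟨⟨x, y⟩, k⟩ := σ
    cases k <;> simp only [ix, iy, mv] <;> omega
  · rw [nxt_closed h]
    obtain ⟨⟨x, y⟩, k⟩ := σ
    cases k <;> simp only [ix, iy, rt] <;> omega

theorem step_f (E : Set Edg) (σ : St) (a : ℤ) :
    (Btw (ix σ) (ix (nxt E σ)) (4 * a + 2) → (face σ).1 = a) ∧
    (Btw (iy σ) (iy (nxt E σ)) (4 * a + 2) → (face σ).2 = a) := by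
  unfold Btw
  by_cases h : ae σ ∈ E
  · rw [nxt_open h]
    obtain ⟨⟨x, y⟩, k⟩ := σ
    cases k <;> simp only [ix, iy, mv, face] <;> omega
  · rw [nxt_closed h]
    obtain ⟨⟨x, y⟩, k⟩ := σ
    cases k <;> simp only [ix, iy, rt, face] <;> omega

theorem ivt_nat {g : ℕ → ℤ} {L : ℤ} (hL : ∀ k, g k ≠ L) {i j : ℕ} (hij : i ≤ j)
    (h : Btw (g i) (g j) L) : ∃ k, i ≤ k ∧ k < j ∧ Btw (g k) (g (k + 1)) L := by
  induction j, hij using Nat.le_induction with
  | base => unfold Btw at h; omega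
  | succ j hij ih =>
    by_cases h1 : Btw (g i) (g j) L
    · obtain ⟨k, h2, h3, h4⟩ := ih h1
      exact ⟨k, h2, by omega, h4⟩
    · refine ⟨j, hij, by omega, ?_⟩
      have h2 := hL j
      unfold Btw at h h1 ⊢
      omega

theorem cross_idx {g : ℕ → ℤ} {L : ℤ} (hL : ∀ k, g k ≠ L) {i j : ℕ} (hij : i ≤ j)
    {δ a b m W : ℝ} (hδ : 0 < δ) (hm : 4 * δ ≤ m) (ha : |δ * (g i : ℝ) / 4 - a| ≤ δ / 2)
    (hb : |δ * (g j : ℝ) / 4 - b| ≤ δ / 2) (hW : |δ * (L : ℝ) / 4 - W| ≤ 2 * δ)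
    (h : (m < a - W ∧ b - W < -m) ∨ (a - W < -m ∧ m < b - W)) :
    ∃ k, i ≤ k ∧ k < j ∧ Btw (g k) (g (k + 1)) L := by
  apply ivt_nat hL hij
  rw [abs_le] at ha hb hW
  have key : ∀ x y : ℤ, δ * (x : ℝ) / 4 < δ * (y : ℝ) / 4 → x < y := by
    intro x y hxy
    by_contra hcon
    push Not at hcon
    have h1 : (y : ℝ) ≤ x := by exact_mod_cast hcon
    have h2 := mul_le_mul_of_nonneg_left h1 hδ.le
    linarith
  rcases h with ⟨h1, h2⟩ | ⟨h1, h2⟩
  · right
    exact ⟨key _ _ (by linarith), key _ _ (by linarith)⟩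
  · left
    exact ⟨key _ _ (by linarith), key _ _ (by linarith)⟩

theorem along {δ m H W x y κ : ℝ} {o w : ℤ} {H' : ℕ} {ε : ℤ} (hε : ε = 1 ∨ ε = -1) (hδ : 0 < δ)
    (hm : 4 * δ ≤ m) (h1 : |δ * (o + κ) - x| ≤ δ) (h2 : |x - y| ≤ δ / 2)
    (h3 : |δ * (w + κ) - W| ≤ 2 * δ) (h4 : |y - W| < H - m) (h5 : m < (y - W) * ε)
    (hH : H ≤ δ * H') : 0 < ε * (o - w) ∧ ε * (o - w) ≤ H' := by
  rw [abs_le] at h1 h2 h3
  rw [abs_lt] at h4
  have key1 : ∀ z : ℤ, 0 < δ * (z : ℝ) → 0 < z := by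
    intro z hz
    have : (0 : ℝ) < z := (mul_pos_iff_of_pos_left hδ).1 hz
    exact_mod_cast this
  have key2 : ∀ z : ℤ, δ * (z : ℝ) ≤ δ * H' → z ≤ H' := by
    intro z hz
    have : (z : ℝ) ≤ H' := le_of_mul_le_mul_left hz hδ
    exact_mod_cast this
  rcases hε with rfl | rfl
  · push_cast at h5
    refine ⟨key1 _ ?_, key2 _ ?_⟩
    · push_cast; nlinarith
    · push_cast; nlinarith
  · push_cast at h5
    refine ⟨key1 _ ?_, key2 _ ?_⟩
    · push_cast; nlinarith
    · push_cast; nlinarith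

/-- **The crossing of the ray.** -/
theorem ray_hit {f : C(unitInterval, ℂ)} {δ : ℝ} {T : ℕ} {σ : ℕ → St} {E : Set Edg} (hδ : 0 < δ)
    (hc : Crv f δ T (fun k => pos δ (σ k))) (hσ : ∀ k, σ (k + 1) = nxt E (σ k))
    {d : ℤ × ℤ} (hd : Dir d) {H m : ℝ} {w' : ℂ} (hf : CrM d H m w' f) {κ : ℝ} {κ4 : ℤ}
    (hκ : (κ4 : ℝ) = 4 * κ) {ob : St → Vtx}
    (hob : ∀ σ, dist (zc κ δ (ob σ)) (pos δ σ) ≤ δ)
    (hne : ∀ (σ : St) (a : ℤ), ix σ ≠ 4 * a + κ4 ∧ iy σ ≠ 4 * a + κ4)
    (hst : ∀ (σ : St) (a : ℤ), (Btw (ix σ) (ix (nxt E σ)) (4 * a + κ4) → (ob σ).1 = a) ∧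
      (Btw (iy σ) (iy (nxt E σ)) (4 * a + κ4) → (ob σ).2 = a))
    {w0 : Vtx} (hw1 : |(zc κ δ w0).re - w'.re| ≤ 2 * δ) (hw2 : |(zc κ δ w0).im - w'.im| ≤ 2 * δ)
    (hm : 4 * δ ≤ m) {H' : ℕ} (hH : H ≤ δ * H') :
    ∃ k ≤ T, OnRay d H' w0 (ob (σ k)) := by
  obtain ⟨s, s', hs, hbx, hcr⟩ := hf
  obtain ⟨i, j, hij, hjT, hi, hj, hseg⟩ := hc.seg s s' hs
  have rek : ∀ k, (pos δ (σ k)).re = δ * (ix (σ k) : ℝ) / 4 := fun k => pos_ix δ _
  have imk : ∀ k, (pos δ (σ k)).im - δ = δ * (iy (σ k) : ℝ) / 4 := fun k => pos_iy δ _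
  have dre : ∀ {a b : ℂ} {r : ℝ}, dist a b ≤ r → |b.re - a.re| ≤ r := fun {a b r} h => by
    rw [abs_sub_comm]
    have := Complex.abs_re_le_norm (a - b)
    rw [Complex.sub_re, ← dist_eq_norm] at this
    exact this.trans h
  have dim' : ∀ {a b : ℂ} {r : ℝ}, dist a b ≤ r → |b.im - a.im| ≤ r := fun {a b r} h => by
    rw [abs_sub_comm]
    have := Complex.abs_im_le_norm (a - b)
    rw [Complex.sub_im, ← dist_eq_norm] at this
    exact this.trans h
  -- the two coordinates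
  have vert : ∀ ε : ℤ, (ε = 1 ∨ ε = -1) → d = (0, ε) → ∃ k ≤ T, OnRay d H' w0 (ob (σ k)) := by
    intro ε hε hde
    have hd1 : d.1 = 0 := by rw [hde]
    have hd2 : d.2 = ε := by rw [hde]
    have hcr' : (m < (f s).re - w'.re ∧ (f s').re - w'.re < -m) ∨
        ((f s).re - w'.re < -m ∧ m < (f s').re - w'.re) := by
      unfold Lf at hcr
      rw [hd1, hd2] at hcr
      rcases hε with rfl | rfl
      · simpa using hcr
      · push_cast at hcr
        rcases hcr with ⟨c1, c2⟩ | ⟨c1, c2⟩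
        · right; constructor <;> linarith
        · left; constructor <;> linarith
    obtain ⟨k, hk1, hk2, hk3⟩ := cross_idx (g := fun k => ix (σ k)) (L := 4 * w0.1 + κ4)
      (fun k => (hne (σ k) w0.1).1) hij hδ hm (a := (f s).re) (b := (f s').re) (W := w'.re)
      (by rw [← rek]; exact dre hi) (by rw [← rek]; exact dre hj) (by
        have : δ * ((4 * w0.1 + κ4 : ℤ) : ℝ) / 4 = (zc κ δ w0).re := by
          simp only [zc]; push_cast; rw [hκ]; ring
        rw [this]; exact hw1) hcr'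
    rw [hσ k] at hk3
    have ho1 := (hst (σ k) w0.1).1 hk3
    obtain ⟨u, hu1, hu2, hu3⟩ := hseg k hk1 hk2.le
    obtain ⟨b1, b2, b3⟩ := hbx ⟨u, ⟨hu1, hu2⟩, rfl⟩
    rw [hd1, hd2] at b3
    have ho2 := along (o := (ob (σ k)).2) (w := w0.2) (κ := κ) (x := (pos δ (σ k)).im - δ)
      (y := (f u).im - δ) (W := w'.im - δ) (H := H) (H' := H') hε hδ hm (by
        have h1 := dim' (hob (σ k))
        rw [abs_sub_comm] at h1
        have : (zc κ δ (ob (σ k))).im - (pos δ (σ k)).im =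
            δ * (((ob (σ k)).2 : ℝ) + κ) - ((pos δ (σ k)).im - δ) := by
          simp only [zc]; ring
        rwa [this] at h1) (by
        have h1 := dim' hu3
        have : (pos δ (σ k)).im - δ - ((f u).im - δ) = (pos δ (σ k)).im - (f u).im := by ring
        rw [this]; exact h1) (by
        have : δ * ((w0.2 : ℝ) + κ) - (w'.im - δ) = (zc κ δ w0).im - w'.im := by
          simp only [zc]; ring
        rw [this]; exact hw2) (by
        have : (f u).im - δ - (w'.im - δ) = (f u).im - w'.im := by ring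
        rw [this]; exact b2) (by
        have : (f u).im - δ - (w'.im - δ) = (f u).im - w'.im := by ring
        rw [this]
        push_cast at b3
        linarith) hH
    refine ⟨k, by omega, ε * ((ob (σ k)).2 - w0.2), ho2.1, ho2.2, ?_⟩
    rw [hd1, hd2]
    ext
    · simp only [mul_zero, add_zero]; exact ho1
    · simp only
      rcases hε with rfl | rfl
      · ring
      · ring
  have hori : ∀ ε : ℤ, (ε = 1 ∨ ε = -1) → d = (ε, 0) → ∃ k ≤ T, OnRay d H' w0 (ob (σ k)) := by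
    intro ε hε hde
    have hd1 : d.1 = ε := by rw [hde]
    have hd2 : d.2 = 0 := by rw [hde]
    have hcr' : (m < (f s).im - w'.im ∧ (f s').im - w'.im < -m) ∨
        ((f s).im - w'.im < -m ∧ m < (f s').im - w'.im) := by
      unfold Lf at hcr
      rw [hd1, hd2] at hcr
      rcases hε with rfl | rfl
      · push_cast at hcr
        rcases hcr with ⟨c1, c2⟩ | ⟨c1, c2⟩
        · right; constructor <;> linarith
        · left; constructor <;> linarith
      · push_cast at hcr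
        rcases hcr with ⟨c1, c2⟩ | ⟨c1, c2⟩
        · left; constructor <;> linarith
        · right; constructor <;> linarith
    obtain ⟨k, hk1, hk2, hk3⟩ := cross_idx (g := fun k => iy (σ k)) (L := 4 * w0.2 + κ4)
      (fun k => (hne (σ k) w0.2).2) hij hδ hm (a := (f s).im - δ) (b := (f s').im - δ)
      (W := w'.im - δ)
      (by
        rw [← imk]
        have : (pos δ (σ i)).im - δ - ((f s).im - δ) = (pos δ (σ i)).im - (f s).im := by ring
        rw [this]; exact dim' hi) (by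
        rw [← imk]
        have : (pos δ (σ j)).im - δ - ((f s').im - δ) = (pos δ (σ j)).im - (f s').im := by ring
        rw [this]; exact dim' hj) (by
        have : δ * ((4 * w0.2 + κ4 : ℤ) : ℝ) / 4 - (w'.im - δ) = (zc κ δ w0).im - w'.im := by
          simp only [zc]; push_cast; rw [hκ]; ring
        rw [this]; exact hw2) (by
        have e1 : (f s).im - δ - (w'.im - δ) = (f s).im - w'.im := by ring
        have e2 : (f s').im - δ - (w'.im - δ) = (f s').im - w'.im := by ring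
        rw [e1, e2]; exact hcr')
    rw [hσ k] at hk3
    have ho1 := (hst (σ k) w0.2).2 hk3
    obtain ⟨u, hu1, hu2, hu3⟩ := hseg k hk1 hk2.le
    obtain ⟨b1, b2, b3⟩ := hbx ⟨u, ⟨hu1, hu2⟩, rfl⟩
    rw [hd1, hd2] at b3
    have ho2 := along (o := (ob (σ k)).1) (w := w0.1) (κ := κ) (x := (pos δ (σ k)).re)
      (y := (f u).re) (W := w'.re) (H := H) (H' := H') hε hδ hm (by
        have h1 := dre (hob (σ k))
        rw [abs_sub_comm] at h1
        have : (zc κ δ (ob (σ k))).re - (pos δ (σ k)).re =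
            δ * (((ob (σ k)).1 : ℝ) + κ) - (pos δ (σ k)).re := by
          simp only [zc]
        rwa [this] at h1) (dre hu3) (by
        have : δ * ((w0.1 : ℝ) + κ) - w'.re = (zc κ δ w0).re - w'.re := by
          simp only [zc]
        rw [this]; exact hw1) b1 (by
        push_cast at b3
        linarith) hH
    refine ⟨k, by omega, ε * ((ob (σ k)).1 - w0.1), ho2.1, ho2.2, ?_⟩
    rw [hd1, hd2]
    ext
    · simp only
      rcases hε with rfl | rfl
      · ring
      · ring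
    · simp only [mul_zero, add_zero]; exact ho1
  rcases hd with h | h | h | h
  · exact vert 1 (Or.inl rfl) h
  · exact vert (-1) (Or.inr rfl) h
  · exact hori 1 (Or.inl rfl) h
  · exact hori (-1) (Or.inr rfl) h

end Run7.h561.EC
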