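import Pool.Agent.Run7.h561.EC.P_H3

/-! # HIT, part 4: the core, for all models -/

set_option autoImplicit false

namespace Run7.h561.EC

open H974 H12S Finset H984P H984N Run7.h561
open Pool.Agent.H389R2.Dim Pool.Agent.Y989.FR Pool.Agent.W822.PD

/-- The lattice vertex near `w'`. -/
noncomputable def bw (w' : ℂ) (δ : ℝ) : Vtx := (⌊w'.re / δ⌋, ⌊w'.im / δ⌋ - 1)

/-- Half of the side of the box. -/
noncomputable def bn (H δ : ℝ) : ℕ := ⌊4 * H / δ⌋₊ - 3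

/-- The lower left corner of the box. -/
noncomputable def bq (w' : ℂ) (H δ : ℝ) : ℤ × ℤ := ((bw w' δ).1 - bn H δ, (bw w' δ).2 - bn H δ)

theorem core_one {f : C(unitInterval, ℂ)} {δ : ℝ} {T : ℕ} {σ : ℕ → St} {E : Set Edg} (hδ : 0 < δ)
    (hc : Crv f δ T (fun k => pos δ (σ k))) (hσ : ∀ k, σ (k + 1) = nxt E (σ k))
    {κ : ℝ} (hκ0 : 0 ≤ κ) (hκ1 : κ ≤ 1 / 2) {κ4 : ℤ} (hκ : (κ4 : ℝ) = 4 * κ) {ob : St → Vtx}
    (hob : ∀ σ, dist (zc κ δ (ob σ)) (pos δ σ) ≤ δ)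
    (hne : ∀ (σ : St) (a : ℤ), ix σ ≠ 4 * a + κ4 ∧ iy σ ≠ 4 * a + κ4)
    (hst : ∀ (σ : St) (a : ℤ), (Btw (ix σ) (ix (nxt E σ)) (4 * a + κ4) → (ob σ).1 = a) ∧
      (Btw (iy σ) (iy (nxt E σ)) (4 * a + κ4) → (ob σ).2 = a))
    {d : ℤ × ℤ} (hd : Dir d) {H η m t : ℝ} (hH : 0 < H) (hη : 0 < η) (ht : 0 < t) {w' : ℂ}
    (hf : f ∈ EvM d H η m w') {N2 : ℕ} (hN2 : 2 * bn H δ ≤ N2 + 1) (hN2' : N2 ≤ 2 * bn H δ)
    {A : Set Vtx} {F2 : Set Edg}
    (L : Lnk (fun k => rel (bq w' H δ) (ob (σ k))) T A N2 ((bn H δ : ℤ), (bn H δ : ℤ)) F2)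
    {M1 M B1 B : ℕ} {lam1 E1 lam E2 δ1 ε' : ℝ} (hB1 : 1 ≤ B1)
    (hbad : ¬ BadR d t lam1 E1 (⌈H / δ⌉₊ + 1 / 8 * ((2 * bn H δ : ℕ) : ℝ))
      (δ1 * ((2 * bn H δ : ℕ) : ℝ)) M1 B1 N2 ⌈H / δ⌉₊ ((bn H δ : ℤ), (bn H δ : ℤ)) F2)
    (hlam : 0 < lam) (hE : 0 < E2) (hl : lam ≤ lam1) (hEE : E1 ≤ E2) (hMM : M1 ≤ M) (hBB : B1 ≤ B)
    (hδ1 : 0 < δ1) (hδ1a : δ1 ≤ 1 / 8) (hδ1b : 32 * H * δ1 ≤ η)
    (hx1 : 100 ≤ 4 * H / δ) (hx2 : 6 ≤ δ1 * (4 * H / δ)) (hm : 8 * δ ≤ m) (hδη : 8 * δ ≤ η)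
    (hε1 : 8 * δ ≤ ε') (hε2 : 2 * (2 ^ B * M * (8 * H) ^ (B - 1)) * δ ≤ ε') {NN : ℕ → ℕ}
    (hNN : ∀ (k : ℕ) (S : Set ℂ) (a b : ℂ), (∀ x ∈ S, ‖x‖ ≤ ‖w'‖ + 2 * (4 * H)) →
      a ∈ S → Relation.ReflTransGen (fun x y => y ∈ S ∧ dist x y ≤ 1 / ((k : ℝ) + 1)) a b →
      ∃ x : Fin (NN k + 1) → ℂ, (∀ i, x i ∈ S) ∧ x 0 = a ∧ x (Fin.last (NN k)) = b ∧
      ∀ i : Fin (NN k), dist (x i.castSucc) (x i.succ) ≤ 1 / ((k : ℝ) + 1)) :
    Good t ε' (2 ^ (-t) / (E2 / lam ^ 2 * (4 * H) ^ (-t)))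
      {z | z ∈ Metric.closedBall (0 : ℂ) (‖w'‖ + 2 * (4 * H)) ∧ ∀ k : ℕ,
        ε' ≤ 1 / ((k : ℝ) + 1) → (f, z) ∈ QW (Sq (4 * H) w')ᶜ (2 ^ B * M * (8 * H) ^ (B - 1))
          (‖w'‖ + 2 * (4 * H)) (1 / ((k : ℝ) + 1)) B (NN k) w'} := by
  -- numbers
  set n : ℕ := bn H δ with hn
  have hfl := Nat.floor_le (show 0 ≤ 4 * H / δ by positivity)
  have hfl2 := Nat.lt_floor_add_one (4 * H / δ)
  have hnn : n + 3 = ⌊4 * H / δ⌋₊ := by
    rw [hn]
    unfold bn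
    have : 3 ≤ ⌊4 * H / δ⌋₊ := by
      apply Nat.le_floor
      push_cast
      linarith
    omega
  rw [← hnn] at hfl hfl2
  push_cast at hfl hfl2
  have hnu : δ * n ≤ 4 * H - 3 * δ := by
    rw [le_div_iff₀ hδ] at hfl
    linarith
  have hnl : 4 * H - 4 * δ < δ * n := by
    rw [div_lt_iff₀ hδ] at hfl2
    linarith
  have hn96 : (96 : ℝ) ≤ n := by linarith
  have hn96' : 96 ≤ n := by exact_mod_cast hn96
  set H' : ℕ := ⌈H / δ⌉₊ with hH'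
  have hH1 : H / δ ≤ H' := Nat.le_ceil _
  have hH2 : (H' : ℝ) < H / δ + 1 := Nat.ceil_lt_add_one (by positivity)
  have hH3 : H ≤ δ * H' := by
    rw [div_le_iff₀ hδ] at hH1
    linarith
  have hx4 : 4 * H / δ = 4 * (H / δ) := by ring
  have hH4 : (H' : ℝ) ≤ n / 4 + 2 := by
    rw [hx4] at hfl2
    linarith
  have hN2r : (2 : ℝ) * n ≤ N2 + 1 := by exact_mod_cast hN2
  have hN2r' : (N2 : ℝ) ≤ 2 * n := by exact_mod_cast hN2'
  set a : ℤ := ⌊w'.re / δ⌋ with ha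
  set b : ℤ := ⌊w'.im / δ⌋ with hb
  have ha1 : δ * (a : ℝ) ≤ w'.re := by
    have := Int.floor_le (w'.re / δ)
    rw [← ha, le_div_iff₀ hδ] at this
    linarith
  have ha2 : w'.re < δ * (a : ℝ) + δ := by
    have := Int.lt_floor_add_one (w'.re / δ)
    rw [← ha, div_lt_iff₀ hδ] at this
    linarith
  have hb1 : δ * (b : ℝ) ≤ w'.im := by
    have := Int.floor_le (w'.im / δ)
    rw [← hb, le_div_iff₀ hδ] at this
    linarith
  have hb2 : w'.im < δ * (b : ℝ) + δ := by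
    have := Int.lt_floor_add_one (w'.im / δ)
    rw [← hb, div_lt_iff₀ hδ] at this
    linarith
  set q : ℤ × ℤ := bq w' H δ with hq
  have hq1 : q.1 = a - n := rfl
  have hq2 : q.2 = b - 1 - n := rfl
  set w : Vtx := ((n : ℤ), (n : ℤ)) with hw
  have hw0 : shv q w = bw w' δ := by
    unfold shv bw
    ext
    · simp only [hw, hq1]; omega
    · simp only [hw, hq2]; omega
  have zre : (zc κ δ (bw w' δ)).re = δ * a + δ * κ := by
    simp only [zc, bw]; rw [← ha]; ring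
  have zim : (zc κ δ (bw w' δ)).im = δ * b + δ * κ := by
    simp only [zc, bw]; rw [← hb]; push_cast; ring
  have hκδ0 : 0 ≤ δ * κ := mul_nonneg hδ.le hκ0
  have hκδ : δ * κ ≤ δ / 2 := by
    have := mul_le_mul_of_nonneg_left hκ1 hδ.le
    linarith
  have zr1 : |(zc κ δ (bw w' δ)).re - w'.re| ≤ δ := by
    rw [zre, abs_le]; constructor <;> linarith
  have zi1 : |(zc κ δ (bw w' δ)).im - w'.im| ≤ δ := by
    rw [zim, abs_le]; constructor <;> linarith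
  have zd : dist (zc κ δ (bw w' δ)) w' ≤ 2 * δ := by
    have := H984N.ML.dist_le_of zr1 zi1
    linarith
  have hobj : ∀ k ≤ T, dist (zc κ δ (shv q (rel q (ob (σ k))))) (pos δ (σ k)) ≤ δ := by
    intro k _
    rw [shv_rel]
    exact hob _
  -- the distance
  obtain ⟨hf1, hf2⟩ := hf
  have hsd : ∀ k ≤ T, η / (2 * δ) ≤ ((sd (rel q (ob (σ k))) w : ℤ) : ℝ) := by
    intro k hk
    obtain ⟨s, hs⟩ := hc.node k hk
    have h1 := hf1 s
    rw [hs] at h1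
    have h2 := hobj k hk
    have h3 : dist (zc κ δ (shv q (rel q (ob (σ k))))) (zc κ δ (shv q w)) ≤
        2 * (δ * ((sd (shv q (rel q (ob (σ k)))) (shv q w) : ℤ) : ℝ)) := zc_le hδ.le _ _
    have h4 : sd (shv q (rel q (ob (σ k)))) (shv q w) = sd (rel q (ob (σ k))) w := by
      unfold sd shv
      simp only [add_sub_add_right_eq_sub]
    rw [h4] at h3
    rw [hw0] at h3
    have h5 := dist_triangle w' (zc κ δ (bw w' δ)) (pos δ (σ k))
    have h6 := dist_triangle (zc κ δ (bw w' δ)) (zc κ δ (shv q (rel q (ob (σ k))))) (pos δ (σ k))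
    rw [dist_comm w' (zc κ δ (bw w' δ))] at h5
    rw [dist_comm (zc κ δ (bw w' δ)) (zc κ δ (shv q (rel q (ob (σ k)))))] at h6
    rw [div_le_iff₀ (by positivity)]
    linarith
  obtain ⟨D, hDdef⟩ : ∃ D : ℕ, D = ⌈δ1 * ((2 * n : ℕ) : ℝ)⌉₊ := ⟨_, rfl⟩
  have hD1 : δ1 * ((2 * n : ℕ) : ℝ) ≤ D := by rw [hDdef]; exact Nat.le_ceil _
  have hD2 : (D : ℝ) < δ1 * ((2 * n : ℕ) : ℝ) + 1 := by
    rw [hDdef]; exact Nat.ceil_lt_add_one (by positivity)
  push_cast at hD1 hD2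
  have hD3 : 3 ≤ D := by
    have h1 : δ1 * (4 * H / δ) ≤ δ1 * (n + 4) := mul_le_mul_of_nonneg_left (by linarith) hδ1.le
    have h2 : (2 : ℝ) < D := by nlinarith
    have : 2 < D := by exact_mod_cast h2
    omega
  have hD4 : (D : ℝ) ≤ n / 4 + 1 := by
    have : δ1 * (2 * (n : ℝ)) ≤ 1 / 8 * (2 * (n : ℝ)) :=
      mul_le_mul_of_nonneg_right hδ1a (by positivity)
    linarith
  have hD5 : (D : ℝ) ≤ η / (2 * δ) := by
    rw [le_div_iff₀ (by positivity)]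
    have h1 : δ1 * (2 * (n : ℝ)) * δ ≤ δ1 * (8 * H) := by
      have : δ1 * (δ * n) ≤ δ1 * (4 * H) := mul_le_mul_of_nonneg_left (by linarith) hδ1.le
      nlinarith
    nlinarith
  have hfarD : ∀ c ∈ A, (D : ℤ) ≤ sd c w := by
    have e1 : (D : ℤ) ≤ n := by
      have : (D : ℝ) ≤ n := by linarith
      exact_mod_cast this
    have e2 : (n : ℤ) + D ≤ N2 := by
      have : (n : ℝ) + D ≤ N2 := by linarith
      exact_mod_cast this
    refine L.far (by omega) (fun k hk => ?_) e1 e2 e1 e2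
    have := hD5.trans (hsd k hk)
    exact_mod_cast this
  -- the ray
  obtain ⟨k0, hk0, s0, hs0, hs1, hs2⟩ := ray_hit hδ hc hσ hd hf2 hκ hob hne hst
    (w0 := bw w' δ) (zr1.trans (by linarith)) (zi1.trans (by linarith)) (by linarith) hH3
  have hray : OnRay d H' w (rel q (ob (σ k0))) := by
    refine ⟨s0, hs0, hs1, ?_⟩
    rw [hs2]
    unfold rel
    have h1 := congrArg Prod.fst hw0
    have h2 := congrArg Prod.snd hw0
    simp only [shv] at h1 h2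
    ext
    · simp only; rw [← h1]; ring
    · simp only; rw [← h2]; ring
  -- richness
  have hrich : RichB t lam1 E1 (H' + 1 / 8 * ((2 * n : ℕ) : ℝ)) M1 B1 N2 A w := by
    by_contra hcon
    apply hbad
    refine ⟨A, L.adm, ?_, ⟨_, L.mem k0 hk0, hray⟩, hcon⟩
    intro c hcA
    have h1 := hfarD c hcA
    have h2 : ((D : ℤ) : ℝ) ≤ ((sd c w : ℤ) : ℝ) := by exact_mod_cast h1
    push_cast at h2 ⊢
    linarith
  have hKn : (H' : ℝ) + 1 / 8 * ((2 * n : ℕ) : ℝ) + 5 ≤ n := by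
    push_cast
    linarith
  have hwr : ((w.1 : ℤ) : ℝ) = n ∧ ((w.2 : ℤ) : ℝ) = n := ⟨by simp [hw], by simp [hw]⟩
  have hrich2 : RichB t lam E2 (H' + 1 / 8 * ((2 * n : ℕ) : ℝ)) M B N2 A w := by
    refine RichB_mono hB1 hl hEE hMM hBB ?_ ?_ ?_ ?_ hrich
    · rw [hwr.1]; linarith
    · rw [hwr.1]; linarith
    · rw [hwr.2]; linarith
    · rw [hwr.2]; linarith
  have hM' : 2 ^ B * (M : ℝ) * (δ * N2) ^ (B - 1) ≤ 2 ^ B * M * (8 * H) ^ (B - 1) := by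
    refine mul_le_mul_of_nonneg_left ?_ (by positivity)
    refine pow_le_pow_left₀ (by positivity) ?_ _
    have := mul_le_mul_of_nonneg_left hN2r' hδ.le
    linarith
  refine rich_good hδ hc (q := q) (κ := κ) (r := 4 * H) hobj L (by omega : 1 ≤ B) (by omega) ?_ ?_ ?_ ?_
    (fun c hcA => ?_) hlam hE hrich2 ?_ ?_ ?_ ?_ ht (by positivity) hM' hε1 hε2 ?_
    (by positivity) ?_ hNN
  · rw [hq1]; push_cast; nlinarith
  · rw [hq1]; push_cast
    have := mul_le_mul_of_nonneg_left hN2r' hδ.le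
    nlinarith
  · rw [hq2]; push_cast; nlinarith
  · rw [hq2]; push_cast
    have := mul_le_mul_of_nonneg_left hN2r' hδ.le
    nlinarith
  · have := hfarD c hcA
    omega
  · rw [hwr.1]; linarith
  · rw [hwr.1]; linarith
  · rw [hwr.2]; linarith
  · rw [hwr.2]; linarith
  · rw [hw0]; linarith
  · have := mul_le_mul_of_nonneg_left hN2r hδ.le
    nlinarith

/-- **The core.** -/
theorem hit_core (loc4 : S_LOC4) (dua : S_DUA) (chn : S_CHN) {t : ℝ} (ht : 0 < t)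
    (ht1 : t < 4 / 3) {d : ℤ × ℤ} (hd : Dir d) {H η m : ℝ} (hH : 0 < H) (hη : 0 < η) (hm : 0 < m)
    (w' : ℂ) {ε : ℝ} (hε : 0 < ε) :
    ∃ (c M' : ℝ) (B : ℕ) (NN : ℕ → ℕ), 0 < c ∧ 0 < M' ∧ 1 ≤ B ∧ ∀ ε' : ℝ, 0 < ε' →
      ∃ δ0 : ℝ, 0 < δ0 ∧ ∀ δ : ℝ, 0 < δ → δ < δ0 → ∃ Bad : Finset Edg → Prop,
        PQ (1 / 2) (RE 0 ((2 * bn H δ : ℕ) : ℤ) 0 ((2 * bn H δ : ℕ) : ℤ)) Bad ≤ ε ∧
        ∀ (E : Set Edg) (σ0 : St) (T : ℕ) (F : Finset Edg) (f : C(unitInterval, ℂ)),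
          Crv f δ T (fun k => pos δ (orb E σ0 k)) → Nbh E σ0 T F (bq w' H δ) (2 * bn H δ) →
          f ∈ EvM d H η m w' → ¬ Bad (Sub F (bq w' H δ) (2 * bn H δ)) →
          Good t ε' c {z | z ∈ Metric.closedBall (0 : ℂ) (‖w'‖ + 2 * (4 * H)) ∧ ∀ k : ℕ,
            ε' ≤ 1 / ((k : ℝ) + 1) → (f, z) ∈ QW (Sq (4 * H) w')ᶜ M' (‖w'‖ + 2 * (4 * H))
              (1 / ((k : ℝ) + 1)) B (NN k) w'} := by
  obtain ⟨δ1, hδ1⟩ : ∃ δ1 : ℝ, δ1 = min (1 / 8) (η / (32 * H)) := ⟨_, rfl⟩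
  have hδ1p : 0 < δ1 := by rw [hδ1]; positivity
  have hδ1a : δ1 ≤ 1 / 8 := by rw [hδ1]; exact min_le_left _ _
  have hδ1b : 32 * H * δ1 ≤ η := by
    have : δ1 ≤ η / (32 * H) := by rw [hδ1]; exact min_le_right _ _
    rw [le_div_iff₀ (by positivity)] at this
    linarith
  obtain ⟨M1, B1, lam1, E1, n1, hM1, hB1, hlam1, hE1, hp1⟩ := loc4 t ht ht1 (ε / 2) δ1 (1 / 8)
    (by positivity) hδ1p (by norm_num)
  obtain ⟨M2, B2, lam2, E2, n2, hM2, hB2, hlam2, hE2, hp2⟩ := dua t ht ht1 (ε / 2) δ1 (1 / 8)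
    (by positivity) hδ1p (by norm_num)
  obtain ⟨NN, hNN⟩ := Classical.axiomOfChoice (fun k : ℕ =>
    chn (‖w'‖ + 2 * (4 * H)) (1 / ((k : ℝ) + 1)) (by positivity))
  set M : ℕ := M1 + M2 with hM
  set B : ℕ := B1 + B2 with hB
  set lam : ℝ := min lam1 lam2 with hlam
  set E3 : ℝ := max E1 E2 with hE3
  have hlamp : 0 < lam := lt_min hlam1 hlam2
  have hE3p : 0 < E3 := lt_max_of_lt_left hE1
  have hMp : (0 : ℝ) < M := by
    have : 0 < M := by omega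
    exact_mod_cast this
  set M' : ℝ := 2 ^ B * M * (8 * H) ^ (B - 1) with hM'
  have hM'p : 0 < M' := by positivity
  refine ⟨2 ^ (-t) / (E3 / lam ^ 2 * (4 * H) ^ (-t)), M', B, NN, by positivity, hM'p, by omega, ?_⟩
  intro ε' hε'
  set X : ℝ := (n1 : ℝ) + n2 + 100 + 6 / δ1 with hX
  have hXp : 0 < X := by positivity
  have h6 : 0 < 6 / δ1 := by positivity
  refine ⟨min (min (m / 8) (η / 8)) (min (min (ε' / 8) (ε' / (2 * M'))) (4 * H / X)),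
    by positivity, ?_⟩
  intro δ hδ hδ0
  have l1 : δ ≤ m / 8 := hδ0.le.trans ((min_le_left _ _).trans (min_le_left _ _))
  have l2 : δ ≤ η / 8 := hδ0.le.trans ((min_le_left _ _).trans (min_le_right _ _))
  have l3 : δ ≤ ε' / 8 :=
    hδ0.le.trans ((min_le_right _ _).trans ((min_le_left _ _).trans (min_le_left _ _)))
  have l4 : δ ≤ ε' / (2 * M') :=
    hδ0.le.trans ((min_le_right _ _).trans ((min_le_left _ _).trans (min_le_right _ _)))
  have l5 : δ ≤ 4 * H / X := hδ0.le.trans ((min_le_right _ _).trans (min_le_right _ _))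
  have hx : X ≤ 4 * H / δ := by
    rw [le_div_iff₀ hXp] at l5
    rw [le_div_iff₀ hδ]
    linarith
  have n1p : (0 : ℝ) ≤ n1 := Nat.cast_nonneg _
  have n2p : (0 : ℝ) ≤ n2 := Nat.cast_nonneg _
  have hx1 : 100 ≤ 4 * H / δ := by linarith
  have hx2 : 6 ≤ δ1 * (4 * H / δ) := by
    have : δ1 * (6 / δ1) ≤ δ1 * (4 * H / δ) :=
      mul_le_mul_of_nonneg_left (by linarith) hδ1p.le
    rwa [mul_div_cancel₀ _ hδ1p.ne'] at this
  have hε2 : 2 * M' * δ ≤ ε' := by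
    rw [le_div_iff₀ (by positivity)] at l4
    linarith
  -- the size of the box
  set n : ℕ := bn H δ with hn
  have hfl := Nat.floor_le (show 0 ≤ 4 * H / δ by positivity)
  have hfl2 := Nat.lt_floor_add_one (4 * H / δ)
  have hnn : n + 3 = ⌊4 * H / δ⌋₊ := by
    rw [hn]
    unfold bn
    have : 3 ≤ ⌊4 * H / δ⌋₊ := by
      apply Nat.le_floor
      push_cast
      linarith
    omega
  rw [← hnn] at hfl hfl2
  push_cast at hfl hfl2
  have hnX : (n1 : ℝ) + n2 + 96 ≤ n := by linarith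
  have hnX' : n1 + n2 + 96 ≤ n := by exact_mod_cast hnX
  set H' : ℕ := ⌈H / δ⌉₊ with hH'
  have hH2 : (H' : ℝ) < H / δ + 1 := Nat.ceil_lt_add_one (by positivity)
  have hx4 : 4 * H / δ = 4 * (H / δ) := by ring
  have hH4 : (H' : ℝ) ≤ n / 4 + 2 := by
    rw [hx4] at hfl2
    linarith
  have hδn : δ1 * ((2 * n : ℕ) : ℝ) ≤ n / 4 := by
    push_cast
    have : δ1 * (2 * (n : ℝ)) ≤ 1 / 8 * (2 * (n : ℝ)) :=
      mul_le_mul_of_nonneg_right hδ1a (by positivity)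
    linarith
  set w : Vtx := ((n : ℤ), (n : ℤ)) with hw
  have c1 : δ1 * ((2 * n : ℕ) : ℝ) + H' ≤ ((w.1 : ℤ) : ℝ) := by
    simp only [hw]; push_cast at hδn ⊢; linarith
  have c2 : ((w.1 : ℤ) : ℝ) + H' ≤ ((2 * n : ℕ) : ℝ) - 1 - δ1 * ((2 * n : ℕ) : ℝ) := by
    simp only [hw]; push_cast at hδn ⊢; linarith
  have hq1 := hp1 (2 * n) (by omega) w H' c1 (c2.trans (by linarith)) c1 (c2.trans (by linarith))
    d hd
  have hq2 := hp2 (2 * n) (by omega) w H' c1 c2 c1 c2 d hd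
  refine ⟨fun F => BadR d t lam1 E1 (H' + 1 / 8 * ((2 * n : ℕ) : ℝ)) (δ1 * ((2 * n : ℕ) : ℝ)) M1 B1
    (2 * n) H' w (↑F) ∨ BadR d t lam2 E2 (H' + 1 / 8 * ((2 * n : ℕ) : ℝ))
      (δ1 * ((2 * n : ℕ) : ℝ)) M2 B2 (2 * n - 1) H' w (dualc (2 * n) (↑F)), ?_, ?_⟩
  · refine (Pr_or_le okhalf _ _ _).trans ?_
    unfold PQ at hq1 hq2
    linarith
  · intro E σ0 T F f hc hnb hf hbad
    rw [not_or] at hbad
    obtain ⟨hbad1, hbad2⟩ := hbad
    have hwR : inR 0 ((2 * n : ℕ) : ℤ) 0 ((2 * n : ℕ) : ℤ) w := by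
      unfold inR; simp only [hw]; omega
    have hnear : ∀ k ≤ T, rel (bq w' H δ) (orb E σ0 k).1 ≠ w := by
      intro k hk hcon
      obtain ⟨s, hs⟩ := hc.node k hk
      have h1 := hf.1 s
      rw [hs] at h1
      have h2 : (orb E σ0 k).1 = bw w' δ := by
        rw [← shv_rel (bq w' H δ) (orb E σ0 k).1, hcon]
        unfold shv bq
        ext
        · simp only [hw]; omega
        · simp only [hw]; omega
      have h3 := zc_pos_v hδ.le (orb E σ0 k)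
      rw [h2] at h3
      have h4 : dist (zc 0 δ (bw w' δ)) w' ≤ δ + δ := by
        have e1 := Int.floor_le (w'.re / δ)
        have e2 := Int.lt_floor_add_one (w'.re / δ)
        have e3 := Int.floor_le (w'.im / δ)
        have e4 := Int.lt_floor_add_one (w'.im / δ)
        rw [le_div_iff₀ hδ] at e1 e3
        rw [div_lt_iff₀ hδ] at e2 e4
        apply H984N.ML.dist_le_of
        · simp only [zc, bw, add_zero]
          rw [abs_le]; constructor <;> nlinarith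
        · simp only [zc, bw, add_zero]
          push_cast
          rw [abs_le]; constructor <;> nlinarith
      have h5 := dist_triangle w' (zc 0 δ (bw w' δ)) (pos δ (orb E σ0 k))
      rw [dist_comm w' (zc 0 δ (bw w' δ))] at h5
      linarith
    rcases link hnb (by omega) hwR hnear with L | L
    · refine core_one (σ := fun k => orb E σ0 k) (E := E) hδ hc (fun k => orb_succ _ _ _)
        (κ := 0) (κ4 := 0) le_rfl (by norm_num) (by norm_num) (ob := fun σ => σ.1)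
        (fun σ => zc_pos_v hδ.le σ) (fun σ a => ?_) (fun σ a => ?_) hd hH hη ht hf
        (N2 := 2 * n) (by omega) le_rfl L hB1 hbad1 hlamp hE3p (min_le_left _ _)
        (le_max_left _ _) (by omega) (by omega) hδ1p hδ1a hδ1b hx1 hx2 (by linarith)
        (by linarith) (by linarith) hε2 hNN
      · rw [add_zero]; exact ⟨(ix_ne σ a).1, (iy_ne σ a).1⟩
      · rw [add_zero]; exact step_v E σ a
    · refine core_one (σ := fun k => orb E σ0 k) (E := E) hδ hc (fun k => orb_succ _ _ _)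
        (κ := 1 / 2) (κ4 := 2) (by norm_num) le_rfl (by norm_num) (ob := face)
        (fun σ => zc_pos_f hδ.le σ) (fun σ a => ?_) (fun σ a => ?_) hd hH hη ht hf
        (N2 := 2 * n - 1) (by omega) (by omega) L hB2 hbad2 hlamp hE3p (min_le_right _ _)
        (le_max_right _ _) (by omega) (by omega) hδ1p hδ1a hδ1b hx1 hx2 (by linarith)
        (by linarith) (by linarith) hε2 hNN
      · exact ⟨(ix_ne σ a).2, (iy_ne σ a).2⟩
      · exact step_f E σ a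

end Run7.h561.EC
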