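import Pool.Agent.Run7.h561.EC.Defs
import Pool.Agent.Y989.FR.StmD

/-!
# Project EC: the steps (every step is a `Prop`; nothing is assumed)
-/

set_option autoImplicit false

namespace Run7.h561.EC

open H974 H12S Finset H984P H984N Pool.Agent.W822.PD
open MeasureTheory Filter Topology
open Run7.h561
open scoped ENNReal

/-! ### The discrete part -/

/-- TIPF: with large probability the cluster of every tip in the bulk is connected to a gadget near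
the tip and no other macroscopic cluster comes close to it. (Port of TIP: `P_TIP1-3`, `P_TIP`.) -/
def S_TIPF : Prop := ∀ ε δ : ℝ, 0 < ε → 0 < δ → ∃ a0 : ℕ, ∀ a : ℕ, a0 ≤ a → Even a →
  ∀ (p : ℝ) (m0 : ℕ), 0 < p → ∃ (η : ℝ) (n0 : ℕ), 0 < η ∧ ∀ n : ℕ, n0 ≤ n →
  ∀ G : ℕ → Finset Edg → Prop, (∀ m : ℕ, m0 ≤ m → GLc a m p (G m)) →
    ∀ x0 : ℤ, δ * n ≤ x0 → (x0 : ℝ) ≤ n - δ * n →
      PQ (1 / 2) (RE 0 n 0 n) (fun F => ∃ z : Vtx, (δ * n ≤ z.2 ∧ (z.2 : ℝ) ≤ n - δ * n) ∧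
        TipF x0 (FrB n) (↑F) z ∧ ¬ ∃ m : ℕ, m0 ≤ m ∧ η * n ≤ m ∧ 2000 * ((a : ℝ) * m) ≤ δ * n ∧
          GoodF a m x0 (FrB n) (G m) F z) ≤ ε

/-- LOC: richness near the first vertex above `w` (direction `(0, 1)`). -/
def S_LOC : Prop := ∀ t : ℝ, 0 < t → t < 4 / 3 → ∀ ε δ κ : ℝ, 0 < ε → 0 < δ → 0 < κ →
  ∃ (M B : ℕ) (lam E : ℝ) (n0 : ℕ), 1 ≤ M ∧ 1 ≤ B ∧ 0 < lam ∧ 0 < E ∧ ∀ N : ℕ, n0 ≤ N →
    ∀ (w : Vtx) (H : ℕ), δ * N + H ≤ w.1 → (w.1 : ℝ) + H ≤ N - δ * N →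
      δ * N + H ≤ w.2 → (w.2 : ℝ) + H ≤ N - δ * N →
      PQ (1 / 2) (RE 0 N 0 N) (fun F =>
        BadR (0, 1) t lam E (H + κ * N) (δ * N) M B N H w (↑F)) ≤ ε

/-- LOC4: the same for all directions. -/
def S_LOC4 : Prop := ∀ t : ℝ, 0 < t → t < 4 / 3 → ∀ ε δ κ : ℝ, 0 < ε → 0 < δ → 0 < κ →
  ∃ (M B : ℕ) (lam E : ℝ) (n0 : ℕ), 1 ≤ M ∧ 1 ≤ B ∧ 0 < lam ∧ 0 < E ∧ ∀ N : ℕ, n0 ≤ N →
    ∀ (w : Vtx) (H : ℕ), δ * N + H ≤ w.1 → (w.1 : ℝ) + H ≤ N - δ * N →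
      δ * N + H ≤ w.2 → (w.2 : ℝ) + H ≤ N - δ * N → ∀ d : ℤ × ℤ, Dir d →
      PQ (1 / 2) (RE 0 N 0 N) (fun F =>
        BadR d t lam E (H + κ * N) (δ * N) M B N H w (↑F)) ≤ ε

/-- DUA: the same for the dual configuration in the box of size `N - 1`. -/
def S_DUA : Prop := ∀ t : ℝ, 0 < t → t < 4 / 3 → ∀ ε δ κ : ℝ, 0 < ε → 0 < δ → 0 < κ →
  ∃ (M B : ℕ) (lam E : ℝ) (n0 : ℕ), 1 ≤ M ∧ 1 ≤ B ∧ 0 < lam ∧ 0 < E ∧ ∀ N : ℕ, n0 ≤ N →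
    ∀ (w : Vtx) (H : ℕ), δ * N + H ≤ w.1 → (w.1 : ℝ) + H ≤ N - 1 - δ * N →
      δ * N + H ≤ w.2 → (w.2 : ℝ) + H ≤ N - 1 - δ * N → ∀ d : ℤ × ℤ, Dir d →
      PQ (1 / 2) (RE 0 N 0 N) (fun F =>
        BadR d t lam E (H + κ * N) (δ * N) M B (N - 1) H w (dualc N (↑F))) ≤ ε

/-! ### The limit -/

/-- `z` is a point of the curve or of its complement close to `w` through a chain of points which
keep away from the curve and from `O`, polynomially as seen from `z`. -/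
def QW (O : Set ℂ) (M R e : ℝ) (B N : ℕ) (w : ℂ) : Set (C(unitInterval, ℂ) × ℂ) :=
  {p | ‖p.2‖ ≤ R ∧ (∃ s, dist (p.1 s) p.2 ≤ e) ∧ ∃ x : Fin (N + 1) → ℂ, (∀ i, ‖x i‖ ≤ R) ∧
    dist (x 0) p.2 ≤ e ∧ dist (x (Fin.last N)) w ≤ e ∧
    (∀ i : Fin N, dist (x i.castSucc) (x i.succ) ≤ e) ∧
    (∀ i s, dist (x i) p.2 ^ B ≤ M * dist (x i) (p.1 s) + e) ∧
    ∀ i, ∀ y ∈ O, dist (x i) p.2 ^ B ≤ M * dist (x i) y + e}

/-- QWC: these sets are closed (port of `FR.S_QC`). -/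
def S_QWC : Prop := ∀ (O : Set ℂ) (M R e : ℝ) (B N : ℕ) (w : ℂ), IsClosed (QW O M R e B N w)

/-- The local boundary of the component of `w` of the complement of `K` in `U`. -/
def Lb (U K : Set ℂ) (w : ℂ) : Set ℂ := K ∩ closure (connectedComponentIn (U \ K) w)

/-- GEW: in the limit `z` is on the boundary of the component of `w` (`U` open, `O = Uᶜ`). -/
def S_GEW : Prop := ∀ (U : Set ℂ) (M R : ℝ) (B : ℕ) (N : ℕ → ℕ) (w : ℂ)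
  (f : C(unitInterval, ℂ)) (z : ℂ), IsOpen U → w ∈ U → w ∉ Set.range f → 0 < M → 1 ≤ B →
  (∀ k : ℕ, (f, z) ∈ QW Uᶜ M R (1 / ((k : ℝ) + 1)) B (N k) w) → z ∈ Lb U (Set.range f) w

/-- LGO: abstract passage to the limit, on an open event. -/
def S_LGO : Prop := ∀ (μs : ℕ → ProbabilityMeasure X) (μ : ProbabilityMeasure X),
  Tendsto μs atTop (𝓝 μ) → ∀ t : ℝ, 0 < t → t < 2 → ∀ (T : C(unitInterval, ℂ) → Set ℂ)
  (Ev : Set C(unitInterval, ℂ)), IsOpen Ev →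
  (∀ ε : ℝ≥0∞, 0 < ε → ∃ (c : ℝ) (K : Set ℂ) (Q : ℕ → Set (C(unitInterval, ℂ) × ℂ)), 0 < c ∧
    IsCompact K ∧ (∀ k, IsClosed (Q k)) ∧
    (∀ f ∈ Ev, ∀ z ∈ K, (∀ k, (f, z) ∈ Q k) → z ∈ T f) ∧
    ∀ ε' : ℝ, 0 < ε' → ∀ᶠ i in atTop,
      (μs i : Measure X) {γ : X | γ.1 ∈ Ev ∧ ¬ Pool.Agent.H389R2.Dim.Good t ε' c
        {z | z ∈ K ∧ ∀ k : ℕ, ε' ≤ 1 / ((k : ℝ) + 1) → (γ.1, z) ∈ Q k}} ≤ ε) →
  ∀ᵐ p : X ∂(μ : Measure X), p.1 ∈ Ev → ENNReal.ofReal t ≤ dimH (T p.1)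

/-- The open box beyond `w` in the direction `d`. -/
def Bx (d : ℤ × ℤ) (H : ℝ) (w : ℂ) : Set ℂ :=
  {z | |z.re - w.re| < H ∧ |z.im - w.im| < H ∧ 0 < (z.re - w.re) * d.1 + (z.im - w.im) * d.2}

/-- The curve crosses the ray of direction `d` which starts at `w`, inside the box. -/
def Crosses (d : ℤ × ℤ) (H : ℝ) (w : ℂ) (f : C(unitInterval, ℂ)) : Prop :=
  ∃ s s' : unitInterval, s ≤ s' ∧ f '' Set.Icc s s' ⊆ Bx d H w ∧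
    ((f s).re - w.re) * d.2 - ((f s).im - w.im) * d.1 ≠ 0 ∧
    (((f s).re - w.re) * d.2 - ((f s).im - w.im) * d.1) *
      (((f s').re - w.re) * d.2 - ((f s').im - w.im) * d.1) < 0

/-- The open event. -/
def EvO (d : ℤ × ℤ) (H η : ℝ) (w : ℂ) : Set C(unitInterval, ℂ) :=
  {f | (∀ s, η < dist w (f s)) ∧ Crosses d H w f}

/-- The open square of half side `r` around `w`. -/
def Sq (r : ℝ) (w : ℂ) : Set ℂ := {z | |z.re - w.re| < r ∧ |z.im - w.im| < r}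

/-- HIT: for the exploration path of the rectangle. -/
def S_HIT : Prop := ∀ (R : Rect) (δ : ℕ → ℝ), (∀ i, 0 < δ i) → Tendsto δ atTop (𝓝 0) →
  ∀ μ : ProbabilityMeasure X, Tendsto (fun i => R.law (δ i)) atTop (𝓝 μ) → ∀ t : ℝ, 0 < t →
    t < 4 / 3 → ∀ (d : ℤ × ℤ) (H η : ℝ) (w : ℂ), Dir d → 0 < H → 0 < η → Sq (5 * H) w ⊆ R.D →
    ∀ᵐ p : X ∂(μ : Measure X), p.1 ∈ EvO d H η w →
      ENNReal.ofReal t ≤ dimH (Lb (Sq (4 * H) w) (Set.range p.1) w)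

/-! ### Topology of curves -/

/-- AXI: near every boundary point `f τ` of a component of the complement (in an open set `U`) of a
curve, there is a point of the component from which some axis parallel ray crosses the curve. -/
def S_AXI : Prop := ∀ (f : C(unitInterval, ℂ)) (U : Set ℂ) (w0 : ℂ) (τ : unitInterval) (r : ℝ),
  IsOpen U → f τ ∈ U → 0 < r → f τ ∈ closure (connectedComponentIn (U \ Set.range f) w0) →
  (∀ s s' : unitInterval, s < s' → ∃ u ∈ Set.Icc s s', f u ≠ f s) →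
  ∃ (a b H η : ℚ) (d : ℤ × ℤ), Dir d ∧ 0 < H ∧ (H : ℝ) < r ∧ 0 < η ∧
    dist (⟨a, b⟩ : ℂ) (f τ) < r ∧ (⟨a, b⟩ : ℂ) ∈ connectedComponentIn (U \ Set.range f) w0 ∧
    f ∈ EvO d H η ⟨a, b⟩

end Run7.h561.EC
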