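import Pool.Agent.Run7.h561.EC.P_L2
import Pool.Agent.Run7.h561.EC.Stm

/-! # LOC: the probability -/

set_option autoImplicit false

namespace Run7.h561.EC

open H974 H12S Finset H984P H984N Run7.h561 Pool.Agent.W822.PD

/-- The deterministic reduction. -/
theorem loc_det {t : ℝ} {M B a m0 M' : ℕ} {p c0 E0 η ζ κ δ : ℝ}
    {G : ℕ → Finset Edg → Prop} (hG : ∀ m, m0 ≤ m → GadL t M B a m p c0 E0 (G m))
    {N ℓ k t' H D : ℕ} {F : Finset Edg} {w : Vtx} (ht1 : t < 4 / 3) (hc0 : 0 ≤ c0) (hE0 : 0 ≤ E0)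
    (hη : 0 < η) (hζ : 0 < ζ) (hB : 1 ≤ B) (hM1 : M ≤ M')
    (hM2 : 12 ^ B * (2 / η) ≤ (M' : ℝ)) (hM3 : 12 ^ B * (1 / ζ) ≤ (M' : ℝ))
    (hm0 : 1 ≤ m0) (ha : 1 ≤ a) (hδD : (D : ℝ) < δ * N + 1)
    (hκ : (ℓ : ℝ) ≤ κ * N) (hk2 : 2 * (k : ℝ) ≤ η * N) (hζt : ζ * N ≤ t')
    (hk : 1 ≤ k) (htk : t' ≤ k) (hkl : 20 * k ≤ ℓ) (hlD : 8 * ℓ ≤ D)
    (hw1 : (D : ℤ) ≤ w.1) (hw2 : w.1 + D ≤ N) (hw3 : (D : ℤ) ≤ w.2) (hw4 : w.2 + H + D ≤ N)
    (hFN : F ⊆ RE 0 N 0 N)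
    (hNL : ∀ i : ℕ, i ≤ N / k → blk (w.1, w.2 + (k * i : ℕ)) (8 * k) ⊆ RE 0 N 0 N →
      ¬ NLn w.1 (w.2 + (k * i : ℕ)) k t' (↑F))
    (hgood : ∀ j : ℕ, j ≤ H / ℓ → ∀ z : Vtx, ((ℓ : ℤ) ≤ z.2 ∧ z.2 ≤ 7 * ℓ) →
      TipF (4 * ℓ : ℕ) (FrB (8 * ℓ)) (↑(Sub F (w.1 - (4 * ℓ : ℕ), w.2 + (j * ℓ : ℕ)) (8 * ℓ))) z →
      ∃ m : ℕ, m0 ≤ m ∧ η * N ≤ m ∧ 2000 * (a * m) ≤ ℓ ∧
      GoodF a m (4 * ℓ : ℕ) (FrB (8 * ℓ)) (G m)
        (Sub F (w.1 - (4 * ℓ : ℕ), w.2 + (j * ℓ : ℕ)) (8 * ℓ)) z) :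
    ¬ BadR (0, 1) t (c0 * η ^ (4 / 3 : ℝ)) E0 (H + κ * N) (δ * N) M' B N H w (↑F) := by
  rintro ⟨A, hA, hDr, ⟨z0, hz0, s0, hs0, hs1, hz0e⟩, hnr⟩
  apply hnr
  have hD : ∀ c ∈ A, (D : ℤ) ≤ sd c w := by
    intro c hc
    have h1 := hDr c hc
    have h2 : (D : ℝ) < ((sd c w : ℤ) : ℝ) + 1 := by linarith
    have h3 : (D : ℤ) < sd c w + 1 := by exact_mod_cast h2
    omega
  simp only [mul_zero, add_zero, mul_one] at hz0e
  -- the lowest vertex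
  classical
  have hex : ∃ s : ℕ, 0 < s ∧ (w.1, w.2 + (s : ℤ)) ∈ A := by
    refine ⟨s0.toNat, by omega, ?_⟩
    rw [Int.toNat_of_nonneg hs0.le, ← hz0e]
    exact hz0
  set s1 : ℕ := Nat.find hex with hs1'
  obtain ⟨h1, h2⟩ := Nat.find_spec hex
  rw [← hs1'] at h1 h2
  have hsH : s1 ≤ H := by
    have h3 : s1 ≤ s0.toNat := by
      apply Nat.find_min' hex
      refine ⟨by omega, ?_⟩
      rw [Int.toNat_of_nonneg hs0.le, ← hz0e]
      exact hz0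
    omega
  have hmin : ∀ s : ℤ, w.2 < s → s < w.2 + s1 → (w.1, s) ∉ A := by
    intro s a1 a2 a3
    have h3 : s1 ≤ (s - w.2).toNat := by
      apply Nat.find_min' hex
      refine ⟨by omega, ?_⟩
      rw [Int.toNat_of_nonneg (by omega), add_sub_cancel]
      exact a3
    omega
  have hDs := hD _ h2
  have hDs' : D ≤ s1 := by
    have := le_sd.1 hDs
    simp only at this
    omega
  have hl1 : 1 ≤ ℓ := by omega
  -- the box
  obtain ⟨j, r, hj1, hj2, hj3⟩ : ∃ j r : ℕ, j * ℓ = r ∧ (r + 2 * ℓ ≤ s1 ∧ s1 < r + 3 * ℓ) ∧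
      j ≤ H / ℓ := by
    have g1 := Nat.div_mul_le_self s1 ℓ
    have g2 := Nat.lt_div_mul_add (a := s1) (b := ℓ) (by omega)
    have g3 : 8 ≤ s1 / ℓ := by
      rw [Nat.le_div_iff_mul_le (by omega)]
      omega
    have g4 : (s1 / ℓ - 2) * ℓ + 2 * ℓ = s1 / ℓ * ℓ := by
      rw [← add_mul, Nat.sub_add_cancel (by omega)]
    refine ⟨s1 / ℓ - 2, (s1 / ℓ - 2) * ℓ, rfl, ?_, ?_⟩
    · omega
    · exact (Nat.sub_le _ _).trans (Nat.div_le_div_right hsH)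
  set z : Vtx := (w.1, w.2 + (s1 : ℤ)) with hz
  refine rich_loc hG ht1 hc0 hE0 hη hζ hB hM1 hM2 hM3 hm0 ha hκ hk2 hζt hk
    htk hkl hlD hw1 hw2 hw3 hw4 hFN hA hD (z := z) h2 rfl ?_ ?_ hmin hNL (b := w.2 + (j * ℓ : ℕ))
    ?_ ?_ ?_ (fun htip => ?_)
  · simp only [hz]; omega
  · simp only [hz]; omega
  · omega
  · simp only [hz]; rw [hj1]; omega
  · simp only [hz]; rw [hj1]; omega
  · refine hgood j hj3 _ ?_ htip
    simp only [hz]
    rw [hj1]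
    omega

/-- The bad event of a sub-box. -/
def BadT (a m0 : ℕ) (η : ℝ) (G : ℕ → Finset Edg → Prop) (ℓ : ℕ) (F : Finset Edg) : Prop :=
  ∃ z : Vtx, (1 / 8 * ((8 * ℓ : ℕ) : ℝ) ≤ z.2 ∧ (z.2 : ℝ) ≤ ((8 * ℓ : ℕ) : ℝ) -
    1 / 8 * ((8 * ℓ : ℕ) : ℝ)) ∧
    TipF (4 * ℓ : ℕ) (FrB (8 * ℓ)) (↑F) z ∧ ¬ ∃ m : ℕ, m0 ≤ m ∧ η * ((8 * ℓ : ℕ) : ℝ) ≤ m ∧
      2000 * ((a : ℝ) * m) ≤ 1 / 8 * ((8 * ℓ : ℕ) : ℝ) ∧
      GoodF a m (4 * ℓ : ℕ) (FrB (8 * ℓ)) (G m) F z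

/-- **LOC** -/
theorem t_LOC (gad : S_GADL) (tipf : S_TIPF) (hNL : S_NL) : S_LOC := by
  intro t ht ht1 ε δ κ hε hδ hκ
  obtain ⟨C1, hC1, nl⟩ := hNL
  obtain ⟨M, B, a0, d, hM, hB, hd, hgad⟩ := gad t ht ht1
  -- scale of the boxes
  set δ1 : ℝ := min (min δ κ) 1 / 16 with hδ1
  have hδ1p : 0 < δ1 := by positivity
  have hδ1a : 16 * δ1 ≤ δ := by
    rw [hδ1, mul_div_cancel₀ _ (by norm_num)]
    exact (min_le_left _ _).trans (min_le_left _ _)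
  have hδ1b : 16 * δ1 ≤ κ := by
    rw [hδ1, mul_div_cancel₀ _ (by norm_num)]
    exact (min_le_left _ _).trans (min_le_right _ _)
  have hδ1c : 16 * δ1 ≤ 1 := by
    rw [hδ1, mul_div_cancel₀ _ (by norm_num)]
    exact min_le_right _ _
  obtain ⟨a1, htip⟩ := tipf (ε * δ1 / 6) (1 / 8) (by positivity) (by norm_num)
  set a : ℕ := 2 * d * (a0 + a1 + 1) with ha
  have haa : a0 + a1 + 1 ≤ a := by
    rw [ha]
    exact Nat.le_mul_of_pos_left _ (by omega)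
  obtain ⟨p, c0, E0, m0, hp, hc0, hE0, hm0⟩ := hgad a (by omega)
    ⟨2 * (a0 + a1 + 1), by rw [ha]; ring⟩ ⟨d * (a0 + a1 + 1), by rw [ha]; ring⟩
  obtain ⟨η0, n0, hη0, hn0⟩ := htip a (by omega) ⟨d * (a0 + a1 + 1), by rw [ha]; ring⟩ p
    (m0 + 1) hp
  choose! G hG using hm0
  have ha1 : 1 ≤ a := by omega
  -- `η` relative to the large box
  set η : ℝ := 4 * δ1 * η0 with hη
  have hηp : 0 < η := by positivity
  -- scale of the slit
  set ϑ : ℝ := min (η / 2) (δ1 / 40) with hϑ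
  have hϑ0 : 0 < ϑ := by positivity
  have hϑη : 2 * ϑ ≤ η := by
    have : ϑ ≤ η / 2 := min_le_left _ _
    linarith
  have hϑδ : 40 * ϑ ≤ δ1 := by
    have : ϑ ≤ δ1 / 40 := min_le_right _ _
    linarith
  set ζ : ℝ := min (ϑ / 4) (ε * ϑ ^ 2 / (32 * C1)) with hζ
  have hζ0 : 0 < ζ := by positivity
  have hζ1 : 4 * ζ ≤ ϑ := by
    have : ζ ≤ ϑ / 4 := min_le_left _ _
    linarith
  have hζ2 : 32 * C1 * ζ ≤ ε * ϑ ^ 2 := by
    have : ζ ≤ ε * ϑ ^ 2 / (32 * C1) := min_le_right _ _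
    rw [le_div_iff₀ (by positivity)] at this
    linarith
  obtain ⟨M1, hM1⟩ := exists_nat_gt (12 ^ B * (2 / η))
  obtain ⟨M2, hM2⟩ := exists_nat_gt (12 ^ B * (1 / ζ))
  obtain ⟨n1, hn1⟩ := exists_nat_gt (2 / ζ)
  obtain ⟨n2, hn2⟩ := exists_nat_gt ((n0 + 2 : ℝ) / δ1)
  refine ⟨M + M1 + M2 + 1, B, c0 * η ^ (4 / 3 : ℝ), E0, n1 + n2 + 1, by omega, hB,
    by positivity, hE0, ?_⟩
  intro N hN w H hw1 hw2 hw3 hw4
  have hMa : 12 ^ B * (2 / η) ≤ ((M + M1 + M2 + 1 : ℕ) : ℝ) := by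
    refine hM1.le.trans ?_
    have : M1 ≤ M + M1 + M2 + 1 := by omega
    exact_mod_cast this
  have hMb : 12 ^ B * (1 / ζ) ≤ ((M + M1 + M2 + 1 : ℕ) : ℝ) := by
    refine hM2.le.trans ?_
    have : M2 ≤ M + M1 + M2 + 1 := by omega
    exact_mod_cast this
  have hNn1 : (n1 : ℝ) ≤ N := by
    have : n1 ≤ N := by omega
    exact_mod_cast this
  have hNn2 : (n2 : ℝ) ≤ N := by
    have : n2 ≤ N := by omega
    exact_mod_cast this
  have hN0 : (0 : ℝ) < N := by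
    have : 0 < N := by omega
    exact_mod_cast this
  have hζN : 2 < ζ * N := by
    rw [div_lt_iff₀ hζ0] at hn1
    nlinarith
  have hδN : (n0 + 2 : ℝ) < δ1 * N := by
    rw [div_lt_iff₀ hδ1p] at hn2
    nlinarith
  -- the box
  obtain ⟨ℓ, hℓ⟩ : ∃ ℓ : ℕ, ℓ = ⌊δ1 * N⌋₊ := ⟨_, rfl⟩
  have hℓ1 : (ℓ : ℝ) ≤ δ1 * N := by rw [hℓ]; exact Nat.floor_le (by positivity)
  have hℓ2 : δ1 * N < ℓ + 1 := by rw [hℓ]; exact Nat.lt_floor_add_one _
  have hℓn : n0 + 1 ≤ ℓ := by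
    have h1 : (n0 + 1 : ℝ) < ℓ := by linarith
    have h2 : n0 + 1 < ℓ := by exact_mod_cast h1
    omega
  have hℓ3 : δ1 * N / 2 ≤ ℓ := by
    have : (0 : ℝ) ≤ n0 := Nat.cast_nonneg _
    linarith
  obtain ⟨D, hD⟩ : ∃ D : ℕ, D = ⌈δ * N⌉₊ := ⟨_, rfl⟩
  have hD1 : δ * N ≤ D := by rw [hD]; exact Nat.le_ceil _
  have hD2 : (D : ℝ) < δ * N + 1 := by rw [hD]; exact Nat.ceil_lt_add_one (by positivity)
  have hlD : 8 * ℓ ≤ D := by
    have h1 : (8 : ℝ) * ℓ ≤ D := by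
      have := mul_le_mul_of_nonneg_right hδ1a hN0.le
      linarith
    exact_mod_cast h1
  set k : ℕ := ⌊ϑ * N⌋₊ with hk
  set t' : ℕ := ⌊ζ * N⌋₊ + 1 with ht'
  have hk1 : (k : ℝ) ≤ ϑ * N := Nat.floor_le (by positivity)
  have hk2 : ϑ * N < k + 1 := Nat.lt_floor_add_one _
  have hζϑ : 4 * (ζ * N) ≤ ϑ * N := by
    have := mul_le_mul_of_nonneg_right hζ1 hN0.le
    linarith
  have hk3 : ϑ * N / 2 ≤ k := by linarith
  have hk4 : 1 ≤ k := by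
    have : (1 : ℝ) ≤ k := by linarith
    exact_mod_cast this
  have ht1' : (t' : ℝ) ≤ 2 * (ζ * N) := by
    have := Nat.floor_le (show 0 ≤ ζ * N by positivity)
    rw [ht']; push_cast; linarith
  have ht2 : ζ * N ≤ t' := by
    rw [ht']; push_cast; exact (Nat.lt_floor_add_one _).le
  have htk : t' ≤ k := by
    have : (t' : ℝ) ≤ k := by linarith
    exact_mod_cast this
  have ht0 : 1 ≤ t' := by omega
  have hkl : 20 * k ≤ ℓ := by
    have h1 : (20 : ℝ) * k ≤ ℓ := by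
      have := mul_le_mul_of_nonneg_right hϑδ hN0.le
      linarith
    exact_mod_cast h1
  have hk5 : 2 * (k : ℝ) ≤ η * N := by
    have := mul_le_mul_of_nonneg_right hϑη hN0.le
    linarith
  -- positions
  have ceil1 : ∀ X : ℤ, δ * N ≤ X → (D : ℤ) ≤ X := by
    intro X hX
    have h2 : (D : ℝ) < X + 1 := by linarith
    have h3 : (D : ℤ) < X + 1 := by exact_mod_cast h2
    omega
  have hH0 : (0 : ℝ) ≤ H := Nat.cast_nonneg _
  have p1 : (D : ℤ) ≤ w.1 := ceil1 _ (by linarith)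
  have p2 : w.1 + D ≤ N := by
    have := ceil1 ((N : ℤ) - w.1) (by push_cast; linarith)
    omega
  have p3 : (D : ℤ) ≤ w.2 := ceil1 _ (by linarith)
  have p4 : w.2 + H + D ≤ N := by
    have := ceil1 ((N : ℤ) - w.2 - H) (by push_cast; linarith)
    omega
  have hkN : k ≤ N := by omega
  -- inclusion
  set I := (Finset.range (N / k + 1)).filter
      (fun i => blk (w.1, w.2 + ((k * i : ℕ) : ℤ)) (8 * k) ⊆ RE 0 N 0 N) with hI
  set J := Finset.range (H / ℓ + 1) with hJ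
  set q : ℕ → ℤ × ℤ := fun j => (w.1 - (4 * ℓ : ℕ), w.2 + (j * ℓ : ℕ)) with hq
  have hincl : PQ (1 / 2) (RE 0 N 0 N) (fun F =>
      BadR (0, 1) t (c0 * η ^ (4 / 3 : ℝ)) E0 (H + κ * N) (δ * N) (M + M1 + M2 + 1) B N H w (↑F)) ≤
      PQ (1 / 2) (RE 0 N 0 N) (fun F =>
        (∃ i ∈ I, NLn w.1 (w.2 + ((k * i : ℕ) : ℤ)) k t' (↑F : Set Edg)) ∨
        ∃ j ∈ J, BadT a (m0 + 1) η0 G ℓ (Sub F (q j) (8 * ℓ))) := by
    refine Pr_mono okhalf fun F hF hbad => ?_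
    by_contra hcon
    push Not at hcon
    obtain ⟨hb1, hb2⟩ := hcon
    refine loc_det (G := G) (m0 := m0 + 1) (a := a) (p := p) (fun m hm => hG m (by omega)) ht1
      hc0.le hE0.le hηp hζ0 hB
      (show M ≤ M + M1 + M2 + 1 by omega) hMa hMb (by omega) ha1 hD2 ?_ hk5 ht2 hk4 htk hkl hlD
      p1 p2 p3 p4 hF ?_ ?_ hbad
    · have := mul_le_mul_of_nonneg_right hδ1b hN0.le
      have h9 : 0 ≤ δ1 * N := by positivity
      linarith
    · intro i hi hblk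
      exact hb1 i (by rw [hI, Finset.mem_filter, Finset.mem_range]; exact ⟨by omega, hblk⟩)
    · intro j hj z hz hT
      have h1 := hb2 j (by rw [hJ, Finset.mem_range]; omega)
      by_contra h2
      apply h1
      refine ⟨z, ?_, hT, ?_⟩
      · have h3 : (ℓ : ℝ) ≤ z.2 := by exact_mod_cast hz.1
        have h4 : (z.2 : ℝ) ≤ 7 * ℓ := by exact_mod_cast hz.2
        push_cast
        constructor
        · linarith
        · linarith
      · rintro ⟨m, m1, m2, m3, m4⟩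
        apply h2
        refine ⟨m, m1, ?_, ?_, m4⟩
        · refine le_trans ?_ m2
          rw [hη]
          push_cast
          nlinarith
        · have : (2000 : ℝ) * (a * m) ≤ ℓ := by
            push_cast at m3
            linarith
          exact_mod_cast this
  refine hincl.trans ?_
  refine (Pr_or_le okhalf _ _ _).trans ?_
  have b1 : PQ (1 / 2) (RE 0 N 0 N) (fun F =>
      ∃ i ∈ I, NLn w.1 (w.2 + ((k * i : ℕ) : ℤ)) k t' (↑F : Set Edg)) ≤ ε / 2 := by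
    refine (pr_ex_le _ _ _).trans ?_
    refine (Finset.sum_le_card_nsmul I _ (C1 * ((t' : ℝ) / k)) ?_).trans ?_
    · intro i hi
      exact nl w.1 _ k t' _ ht0 htk (Finset.mem_filter.1 hi).2
    · rw [nsmul_eq_mul]
      have hcard : (I.card : ℝ) ≤ 2 * N / k := by
        have h1 : I.card ≤ N / k + 1 := by
          refine (Finset.card_filter_le _ _).trans (le_of_eq (Finset.card_range _))
        have h2 : ((N / k : ℕ) : ℝ) ≤ (N : ℝ) / k := Nat.cast_div_le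
        have hk0 : (0 : ℝ) < k := by exact_mod_cast hk4
        have h3 : (1 : ℝ) ≤ (N : ℝ) / k := by
          rw [le_div_iff₀ hk0, one_mul]; exact_mod_cast hkN
        have h4 : (I.card : ℝ) ≤ ((N / k : ℕ) : ℝ) + 1 := by exact_mod_cast h1
        have h5 : 2 * (N : ℝ) / k = (N : ℝ) / k + (N : ℝ) / k := by ring
        linarith
      have hk0 : (0 : ℝ) < k := by exact_mod_cast hk4
      calc (I.card : ℝ) * (C1 * ((t' : ℝ) / k)) ≤ 2 * N / k * (C1 * ((t' : ℝ) / k)) :=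
            mul_le_mul_of_nonneg_right hcard (by positivity)
        _ ≤ 2 * N / k * (C1 * (2 * (ζ * N) / k)) := by
            apply mul_le_mul_of_nonneg_left _ (by positivity)
            apply mul_le_mul_of_nonneg_left _ hC1.le
            exact div_le_div_of_nonneg_right ht1' hk0.le
        _ = 4 * C1 * ζ * N ^ 2 / (k : ℝ) ^ 2 := by field_simp; norm_num
        _ ≤ 4 * C1 * ζ * N ^ 2 / (ϑ * N / 2) ^ 2 := by
            apply div_le_div_of_nonneg_left (by positivity) (by positivity)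
            exact pow_le_pow_left₀ (by positivity) hk3 2
        _ = 16 * C1 * ζ / ϑ ^ 2 := by field_simp; norm_num
        _ ≤ ε / 2 := by
            rw [div_le_div_iff₀ (by positivity) (by norm_num)]
            linarith
  have b2 : PQ (1 / 2) (RE 0 N 0 N) (fun F =>
      ∃ j ∈ J, BadT a (m0 + 1) η0 G ℓ (Sub F (q j) (8 * ℓ))) ≤ ε / 2 := by
    refine (pr_ex_le _ _ _).trans ?_
    refine (Finset.sum_le_card_nsmul J _ (ε * δ1 / 6) ?_).trans ?_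
    · intro j hj
      have hjH : j * ℓ ≤ H := by
        rw [hJ, Finset.mem_range] at hj
        calc j * ℓ ≤ H / ℓ * ℓ := Nat.mul_le_mul_right _ (by omega)
          _ ≤ H := Nat.div_mul_le_self _ _
      have hsub : RE (q j).1 ((q j).1 + (8 * ℓ : ℕ)) (q j).2 ((q j).2 + (8 * ℓ : ℕ)) ⊆
          RE 0 N 0 N := by
        intro e he
        rw [mem_RE] at he ⊢
        unfold inR at he ⊢
        simp only [hq] at he
        omega
      refine (pr_Sub hsub (BadT a (m0 + 1) η0 G ℓ)).le.trans ?_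
      have h1 := hn0 (8 * ℓ) (by omega) G (fun m hm => (hG m (by omega)).toGLc) ((4 * ℓ : ℕ) : ℤ)
        (by push_cast; linarith [(Nat.cast_nonneg ℓ : (0 : ℝ) ≤ ℓ)])
        (by push_cast; linarith [(Nat.cast_nonneg ℓ : (0 : ℝ) ≤ ℓ)])
      exact h1
    · rw [nsmul_eq_mul]
      have hcard : (J.card : ℝ) ≤ 3 / δ1 := by
        have h1 : J.card = H / ℓ + 1 := by rw [hJ, Finset.card_range]
        have h2 : ((H / ℓ : ℕ) : ℝ) ≤ (H : ℝ) / ℓ := Nat.cast_div_le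
        have hl0 : (0 : ℝ) < ℓ := by
          have : 0 < ℓ := by omega
          exact_mod_cast this
        have hHN : (H : ℝ) ≤ N := by
          have : (H : ℤ) ≤ N := by omega
          exact_mod_cast this
        have h3 : (H : ℝ) / ℓ ≤ 2 / δ1 := by
          rw [div_le_div_iff₀ hl0 hδ1p]
          nlinarith
        have h4 : (J.card : ℝ) = ((H / ℓ : ℕ) : ℝ) + 1 := by rw [h1]; push_cast; rfl
        have h5 : (1 : ℝ) ≤ 1 / δ1 := by
          rw [le_div_iff₀ hδ1p]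
          linarith
        have h6 : (3 : ℝ) / δ1 = 2 / δ1 + 1 / δ1 := by ring
        linarith
      calc (J.card : ℝ) * (ε * δ1 / 6) ≤ 3 / δ1 * (ε * δ1 / 6) :=
            mul_le_mul_of_nonneg_right hcard (by positivity)
        _ = ε / 2 := by field_simp; norm_num
  linarith

end Run7.h561.EC
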