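import Pool.Agent.Run7.h561.TP.P_INP
import Pool.Agent.Run7.h561.EC.P_LOC
import Pool.Agent.Run7.h561.EC.P_HIT
import Pool.Agent.Run7.h165.EC.Axi
import Pool.Agent.Run7.h165.EC.Qwc
import Pool.Agent.Run7.h165.EC.Gew
import Pool.Agent.Run7.h165.EC.Lgo
import Pool.Agent.Run7.h165.EC.Loc4
import Pool.Agent.Y989.FR.T_CHN

/-! # Project EC: the steps together -/

set_option autoImplicit false

namespace Run7.h561.EC

open Run7.h561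

theorem a_TIPF : S_TIPF := t_TIPF (t_SURG t_MIX t_PBX t_KXS) (t_SDET t_CZ) t_DEC t_KXS t_NC
  (t_PN t_CRS (t_NL t_NC) t_KXS)

theorem a_GADL : S_GADL := t_GADL'
  (t_ONE (Pool.Agent.Y989.FR.ACC.t_ACC i_L3) (Pool.Agent.Y989.FR.ACU.t_ACU i_U3)
    (Pool.Agent.Y989.FR.a_THK i_JR i_U3) t_CRS) i_U3

theorem a_LOC : S_LOC := t_LOC a_GADL a_TIPF (t_NL t_NC)

theorem a_LOC4 : S_LOC4 := Run7.h165.EC.t_LOC4 a_LOC

theorem a_DUA : S_DUA := Run7.h165.EC.t_DUA a_LOC4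

theorem a_HIT : S_HIT := t_HIT a_LOC4 a_DUA Pool.Agent.Y989.FR.CHN.t_CHN Run7.h165.EC.t_QWC
  Run7.h165.EC.t_GEW Run7.h165.EC.t_LGO

end Run7.h561.EC
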