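import Pool.Agent.Run7.h561.TP.StmB

/-!
# Project EC: the boundary of every complementary component of the limits has dimension `4/3` around
each of its points.  Definitions.

Conventions of project TP (`Run7/h561/TP/Defs.lean`). Everything is local: the configuration lives
in the box `RE 0 N 0 N`, `A` is a set of vertices which, inside the box, is a union of clusters
which reach the boundary of the box (for instance the cluster of the wired arc).
-/

set_option autoImplicit false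

namespace Run7.h561.EC

open H974 H12S Finset H984P H984N Pool.Agent.W822.PD
open Run7.h561

/-- The vertices on the boundary of the box `[0, N]²` or outside of it. -/
def FrB (N : ℕ) : Set Vtx := {y | y.1 ≤ 0 ∨ (N : ℤ) ≤ y.1 ∨ y.2 ≤ 0 ∨ (N : ℤ) ≤ y.2}

/-- `z` is the lowest vertex on the line of its cluster, which reaches `Far`. -/
def TipF (x0 : ℤ) (Far : Set Vtx) (F : Set Edg) (z : Vtx) : Prop :=
  z.1 = x0 ∧ (∀ s : ℤ, s < z.2 → (x0, s) ∉ Cu F z) ∧ ∃ y ∈ Cu F z, y ∈ Far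

/-- The clusters which reach `Far` and come close to `(x0, h)` are contained in `C`. -/
def Sole (a m : ℕ) (x0 h : ℤ) (Far : Set Vtx) (F : Set Edg) (C : Set Vtx) : Prop :=
  ∀ x y : Vtx, sd x (x0, h) ≤ 1000 * (a * m) → y ∈ Far → Reach F x y → x ∈ C

/-- The cluster of `z` is connected to a gadget near `z` and is the only one close to it. -/
def GoodF (a m : ℕ) (x0 : ℤ) (Far : Set Vtx) (G : Finset Edg → Prop) (F : Finset Edg) (z : Vtx) :
    Prop :=
  ∃ h : ℤ, (h - 128 * (a * m) ≤ z.2 ∧ z.2 ≤ h + 700 * (a * m)) ∧ G ((trl (-x0) (-h)).mp F) ∧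
    (∃ x ∈ ctr (tr (x0, h) (q1 a m)) m, x ∈ Cu (↑F : Set Edg) z) ∧
    Sole a m x0 h Far (↑F : Set Edg) (Cu (↑F : Set Edg) z)

/-- Inside the box `A` is a union of clusters which reach the boundary of the box. -/
def Adm0 (N : ℕ) (F : Set Edg) (A : Set Vtx) : Prop :=
  ∀ x ∈ A, x ∉ FrB N → Cu F x ⊆ A ∧ ∃ y ∈ Cu F x, y ∈ FrB N

/-- `x` keeps away from `A` and from the boundary of the box, polynomially as seen from `v`. -/
def ClB (M B N : ℕ) (A : Set Vtx) (v x : Vtx) : Prop :=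
  ∀ c, c ∈ A ∪ FrB N → sd x v ^ B ≤ (M : ℤ) * (N : ℤ) ^ (B - 1) * sd x c

/-- Many vertices of `A` at distance at most `K` of `w`, with small energy, from the vicinity of
which lattice paths lead to `w` and keep away from `A`. -/
def RichB (t lam E K : ℝ) (M B N : ℕ) (A : Set Vtx) (w : Vtx) : Prop :=
  ∃ V : Finset Vtx, lam * (N : ℝ) ^ (4 / 3 : ℝ) ≤ (V.card : ℝ) ∧
    EnV t V ≤ E * (N : ℝ) ^ (8 / 3 - t) ∧
    ∀ v ∈ V, v ∈ A ∧ ((sd v w : ℤ) : ℝ) ≤ K ∧ ∃ x : Vtx, sd x v ≤ 2 ∧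
      Reach {e | ClB M B N A v (src e) ∧ ClB M B N A v (tgt e)} x w

/-- `z` lies on the ray of direction `d` which starts at `w`, at distance at most `H`. -/
def OnRay (d : ℤ × ℤ) (H : ℕ) (w z : Vtx) : Prop :=
  ∃ s : ℤ, 0 < s ∧ s ≤ H ∧ z = (w.1 + s * d.1, w.2 + s * d.2)

/-- The four directions. -/
def Dir (d : ℤ × ℤ) : Prop := d = (0, 1) ∨ d = (0, -1) ∨ d = (1, 0) ∨ d = (-1, 0)

/-- The bad event: `A` keeps away from `w` and meets the ray, but is not rich. -/
def BadR (d : ℤ × ℤ) (t lam E K D : ℝ) (M B N H : ℕ) (w : Vtx) (F : Set Edg) : Prop :=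
  ∃ A : Set Vtx, Adm0 N F A ∧ (∀ c ∈ A, D ≤ ((sd c w : ℤ) : ℝ)) ∧ (∃ z ∈ A, OnRay d H w z) ∧
    ¬ RichB t lam E K M B N A w

/-- The dual configuration in the box `RE 0 (N - 1) 0 (N - 1)`: the faces are the vertices. -/
def dualc (N : ℕ) (F : Set Edg) : Set Edg :=
  {e | e ∈ RE 0 ((N : ℤ) - 1) 0 ((N : ℤ) - 1) ∧ dl.symm e ∉ F}

end Run7.h561.EC
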