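import Pool.Agent.Run7.h561.EC.Stm
import Pool.Agent.Run7.h561.TP.P_GAD

/-! # The gadget with a localised path -/

set_option autoImplicit false

namespace Run7.h561.EC

open H974 H12S Finset H984P H984N Run7.h561

/-- As `Open`, and the path stays in the square of radius `D`. -/
def OpenL (M B k m : ℕ) (D : ℤ) (C : Set Vtx) (w s : Vtx) : Prop :=
  w ∈ C ∧ ∃ x ∈ bdB w 2, Reach {e | ((∀ c ∈ C, Cln M B k m w c (src e)) ∧ sd (src e) (0, 0) ≤ D) ∧
    (∀ c ∈ C, Cln M B k m w c (tgt e)) ∧ sd (tgt e) (0, 0) ≤ D} x s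

/-- As `Gad`, with localised paths. -/
structure GadL (t : ℝ) (M B a m : ℕ) (p c0 E0 : ℝ) (G : Finset Edg → Prop) : Prop
    extends GLc a m p G where
  det : ∀ (F : Finset Edg) (u : Vtx), G F → (∃ x ∈ ctr (q1 a m) m, x ∈ Cu (↑F) u) →
    (∃ y, BSfar (0, 0) (200 * (a * m)) y ∧ y ∈ Cu (↑F) u) →
    ∃ V : Finset Vtx, V ⊆ ctr (v0 a m) m ∧ c0 * (m : ℝ) ^ (4 / 3 : ℝ) ≤ V.card ∧
      ∑ v ∈ V, ∑ w ∈ V, ((max (sd v w) 1 : ℤ) : ℝ) ^ (-t) ≤ E0 * (m : ℝ) ^ (8 / 3 - t) ∧
      ∀ w ∈ V, OpenL M B (8 * (a * m)) m (140 * (a * m)) (Cu (↑F) u) w (s0 a m)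

/-- GPTHL: the path out of the gadget keeps away from the cluster and stays close. -/
def S_GPTHL : Prop := ∀ (M B L a m : ℕ) (T : Finset (ℤ × ℤ)) (e : ℤ × ℤ) (F : Finset Edg)
  (u : Vtx), 3 ≤ L → 100 ≤ a → Even a → 2 * L ^ 2 ∣ a → 4 ≤ m → 16 ≤ M → 1 ≤ B →
  Adm a m (a * m / (2 * L ^ 2)) T e →
  (∀ q ∈ T ∪ Cor a e, BSD (tr (v0 a m) (cell m q)) (2 * m) F) →
  (∃ y, BSfar (0, 0) (200 * (a * m)) y ∧ y ∈ Cu (↑F) u) →
  ∀ v ∈ ctr (v0 a m) (m / 2), ClA M B L a m T e v F → v ∈ Cu (↑F) u →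
    OpenL M B (8 * (a * m)) m (140 * (a * m)) (Cu (↑F) u) v (s0 a m)

/-- **GPTHL** -/
theorem t_GPTHL : S_GPTHL := by
  intro M B L a m T e F u hL ha hev hdv hm hM hB hAdm hcl hy v hv hCl hvC
  set U : ℕ := a * m with hU
  set C : Set Vtx := Cu (↑F : Set Edg) u with hC
  have ha' : (100 : ℤ) ≤ a := by exact_mod_cast ha
  have hm' : (4 : ℤ) ≤ m := by exact_mod_cast hm
  have eU : ((a : ℤ) * m) = (U : ℤ) := by rw [hU]; push_cast; ring
  have hUm : 100 * (m : ℤ) ≤ U := by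
    rw [← eU]; exact mul_le_mul_of_nonneg_right ha' (by positivity)
  obtain ⟨yf, hyf1, hyf2⟩ := hy
  rw [far_iff] at hyf1
  -- divisibility
  obtain ⟨d, hd⟩ := hdv
  have hL2 : 0 < L ^ 2 := by positivity
  have hd1 : 1 ≤ d := by
    rcases Nat.eq_zero_or_pos d with h | h
    · exfalso; rw [h] at hd; omega
    · exact h
  have div1 : U / (2 * L ^ 2) = d * m := by
    rw [hU, hd, mul_assoc]
    exact Nat.mul_div_cancel_left _ (by positivity)
  have div2 : U / L ^ 2 = 2 * (d * m) := by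
    rw [hU, hd, show 2 * L ^ 2 * d * m = L ^ 2 * (2 * (d * m)) by ring]
    exact Nat.mul_div_cancel_left _ hL2
  have hdm : (m : ℤ) ≤ ((d * m : ℕ) : ℤ) := by
    exact_mod_cast Nat.le_mul_of_pos_left m hd1
  have hv' := mem_ctr.1 hv
  have hm2 : 2 * ((m / 2 : ℕ) : ℤ) ≤ m := by omega
  -- coordinates
  have up : ∀ k l r : ℤ, 2 * ((m : ℤ) * k) < r * U + l * m → 2 * k < r * a + l := by
    intro k l r h
    apply lt_of_mul (m := m)
    have e1 : (m : ℤ) * (r * a + l) = r * U + l * m := by rw [← eU]; ring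
    have e2 : (m : ℤ) * (2 * k) = 2 * (m * k) := by ring
    rw [e1, e2]; exact h
  have dn : ∀ k l r : ℤ, r * U + l * m < 2 * ((m : ℤ) * k) → r * a + l < 2 * k := by
    intro k l r h
    apply lt_of_mul (m := m)
    have e1 : (m : ℤ) * (r * a + l) = r * U + l * m := by rw [← eU]; ring
    have e2 : (m : ℤ) * (2 * k) = 2 * (m * k) := by ring
    rw [e1, e2]; exact h
  have cmp : ∀ k l : ℤ, 2 * ((m : ℤ) * k) < 2 * (m * l) + 2 * m → k ≤ l := by
    intro k l h
    have : k < l + 1 := by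
      apply lt_of_mul (m := m)
      have e1 : (m : ℤ) * (l + 1) = m * l + m := by ring
      rw [e1]; omega
    omega
  have mulm : ∀ k l : ℤ, k ≤ l → (m : ℤ) * k ≤ m * l := fun k l h =>
    mul_le_mul_of_nonneg_left h (by omega)
  have heT := hAdm.hi e hAdm.mem
  rw [sd_le] at heT
  simp only [cell, eU] at heT
  have heb := hAdm.bot
  simp only [cell, eU] at heb
  have he1 : 2 * e.1 < 5 * a + 2 := up e.1 2 5 (by omega)
  have he2 : -5 * a + -2 < 2 * e.1 := dn e.1 (-2) (-5) (by omega)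
  have he3 : -5 * a + -2 < 2 * e.2 := dn e.2 (-2) (-5) (by omega)
  have he4 : 2 * e.2 < -5 * a + 2 := up e.2 2 (-5) (by omega)
  -- positions of the closed cells
  have hpos : ∀ q ∈ T ∪ Cor a e, sd (tr (v0 a m) (cell m q)) (0, 0) ≤ 137 * U := by
    intro q hq
    rw [Finset.mem_union] at hq
    rcases hq with hq | hq
    · have h1 := hAdm.hi q hq
      rw [sd_le] at h1 ⊢
      simp only [cell, eU, tr, v0] at h1 ⊢
      omega
    · unfold Cor at hq
      simp only [Finset.mem_union, Finset.mem_image, Finset.mem_Icc] at hq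
      rcases hq with ⟨j, ⟨j1, j2⟩, rfl⟩ | ⟨i, ⟨i1, i2⟩, rfl⟩
      · rw [sd_le]
        have h1 := mulm _ _ j1
        have h2 := mulm _ _ j2
        have e1 : (m : ℤ) * -(4 * a) = -(4 * U) := by rw [← eU]; ring
        simp only [cell, eU, tr, v0]
        omega
      · rw [sd_le]
        have h1 := mulm _ _ i1
        have h2 := mulm _ _ i2
        have e1 : (m : ℤ) * -(4 * a) = -(4 * U) := by rw [← eU]; ring
        have e2 : (m : ℤ) * -(3 * a) = -(3 * U) := by rw [← eU]; ring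
        have e3 : (m : ℤ) * (64 * a) = 64 * U := by rw [← eU]; ring
        simp only [cell, eU, tr, v0]
        omega
  -- good points near closed cells
  set P : Vtx → Prop := fun z => (∀ c ∈ C, Cln M B (8 * U) m v c z) ∧ sd z (0, 0) ≤ 140 * U with hP
  have good1 : ∀ q ∈ T ∪ Cor a e, ∀ z, 2 * sd z (tr (v0 a m) (cell m q)) ≤ 3 * m → P z := by
    intro q hq z hz
    refine ⟨?_, by
      have h3 := sd_tri z (tr (v0 a m) (cell m q)) (0, 0)
      have h4 := hpos q hq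
      omega⟩
    intro c hc
    right
    have h1 : (2 * m : ℤ) < sd c (tr (v0 a m) (cell m q)) := by
      by_contra h2
      push Not at h2
      refine bsd_avoid (hcl q hq) (x := c) (y := yf) (by push_cast; exact h2) ?_
        (Reach.trans (Reach.symm hc) hyf2)
      have h3 := sd_tri yf (tr (v0 a m) (cell m q)) (0, 0)
      have h4 := hpos q hq
      push_cast at hyf1 ⊢
      omega
    have h2 := sd_tri c z (tr (v0 a m) (cell m q))
    rw [sd_comm c z] at h2
    omega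
  -- good points near `v`
  have good2 : ∀ z : Vtx, sd z (0, 0) ≤ ((U / (2 * L ^ 2) : ℕ) : ℤ) →
      (∀ c ∈ Pool.Agent.Y989.FR.cl U (↑((trl (-v.1) (-v.2)).mp F) : Set Edg),
        Pool.Agent.Y989.FR.Awy M B (8 * U) (0, 0) c z) → P (z.1 + v.1, z.2 + v.2) := by
    intro z hz hz2
    refine ⟨?_, by
      have e1 := sd_le.1 hz
      have e2 := sd_le.1 hv'
      have e3 : ((U / (2 * L ^ 2) : ℕ) : ℤ) ≤ U := by exact_mod_cast Nat.div_le_self _ _
      simp only [v0, eU] at e2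
      rw [sd_le]
      simp only at e1 ⊢
      omega⟩
    intro c hc
    by_cases h1 : (c.1 - v.1, c.2 - v.2) ∈
        Pool.Agent.Y989.FR.cl U (↑((trl (-v.1) (-v.2)).mp F) : Set Edg)
    · left
      have h2 := hz2 _ h1
      unfold Pool.Agent.Y989.FR.Awy at h2 ⊢
      have s1 : sd (z.1 + v.1, z.2 + v.2) v = sd z (0, 0) := by
        unfold sd; simp
      have s2 : sd (z.1 + v.1, z.2 + v.2) c = sd z (c.1 - v.1, c.2 - v.2) := by
        unfold sd
        simp only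
        congr 2 <;> ring
      rw [s1, s2]
      exact h2
    · right
      have h2 : ((U / L ^ 2 : ℕ) : ℤ) < sd (c.1 - v.1, c.2 - v.2) (0, 0) := by
        by_contra h3
        push Not at h3
        have h4 : Reach (↑((trl (-v.1) (-v.2)).mp F) : Set Edg) (c.1 - v.1, c.2 - v.2) (0, 0) := by
          have := reach_unshift (v := v) (F := F) (x := c) (y := v)
            (Reach.trans (Reach.symm hc) hvC)
          simpa using this
        obtain ⟨w, w1, w2⟩ := leave_cl (R := U) h4 h1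
        apply hCl.2
        refine crs_iff.2 ⟨_, w, h3, ?_, w2⟩
        have h5 : U / L ≤ U := Nat.div_le_self _ _
        have h6 : ((U / L : ℕ) : ℤ) ≤ U := by exact_mod_cast h5
        exact h6.trans w1.le
      rw [div2] at h2
      rw [div1] at hz
      have h3 : sd (z.1 + v.1, z.2 + v.2) c = sd z (c.1 - v.1, c.2 - v.2) := by
        unfold sd
        simp only
        congr 2 <;> ring
      have h4 := sd_tri (c.1 - v.1, c.2 - v.2) z (0, 0)
      rw [sd_comm _ z] at h4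
      rw [h3]
      push_cast at h2 hz hdm
      omega
  obtain ⟨x, x1, y, y1, hxy⟩ := hCl.1.1.2
  rw [mem_bdB] at x1
  refine ⟨hvC, (x.1 + v.1, x.2 + v.2), ?_, ?_⟩
  · rw [mem_bdB, ← x1]
    unfold sd
    simp
  have hD : (140 * ((a : ℤ) * m)) = 140 * U := by rw [eU]
  rw [hD]
  change Reach {e | P (src e) ∧ P (tgt e)} _ _
  -- first part of the path
  have p1 : Reach {e | P (src e) ∧ P (tgt e)} (x.1 + v.1, x.2 + v.2) (y.1 + v.1, y.2 + v.2) := by
    refine reach_trans_set (P := fun z => (sd z (0, 0) ≤ ((U / (2 * L ^ 2) : ℕ) : ℤ) ∧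
      ∀ c ∈ Pool.Agent.Y989.FR.cl U (↑((trl (-v.1) (-v.2)).mp F) : Set Edg),
        Pool.Agent.Y989.FR.Awy M B (8 * U) (0, 0) c z) ∨
      ∃ q ∈ T, sd z (cell m q) ≤ m) v ?_ (hxy.mono ?_)
    · rintro z (⟨h1, h2⟩ | ⟨q, h1, h2⟩)
      · exact good2 z h1 h2
      · refine good1 q (Finset.mem_union_left _ h1) _ ?_
        have h3 : sd (z.1 + v.1, z.2 + v.2) (tr (v0 a m) (cell m q)) ≤
            sd z (cell m q) + sd v (v0 a m) := by
          have e1 := sd_le.1 (le_refl (sd z (cell m q)))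
          have e2 := sd_le.1 (le_refl (sd v (v0 a m)))
          rw [sd_le]
          simp only [tr]
          omega
        omega
    · intro g hg
      exact ⟨hg _ (Or.inl rfl), hg _ (Or.inr rfl)⟩
  -- second part: to the centre of the cell `e`
  have p2 : Reach {e | P (src e) ∧ P (tgt e)} (y.1 + v.1, y.2 + v.2)
      (tr (v0 a m) (cell m e)) := by
    have h3 : sd (y.1 + v.1, y.2 + v.2) (tr (v0 a m) (cell m e)) ≤
        sd y (cell m e) + sd v (v0 a m) := by
      have e1 := sd_le.1 (le_refl (sd y (cell m e)))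
      have e2 := sd_le.1 (le_refl (sd v (v0 a m)))
      rw [sd_le]
      simp only [tr]
      omega
    refine ball_path (tr (v0 a m) (cell m e)) (m + (m / 2 : ℕ)) (by omega) ?_ fun z hz =>
      good1 e (Finset.mem_union_left _ hAdm.mem) z (by omega)
    rw [sd_le]; omega
  -- third part: down the corridor
  have ec : tr (v0 a m) (cell m e) = (-(128 * U : ℤ) + 2 * (m * e.1), -(128 * U : ℤ) + 2 * (m * e.2)) := by
    unfold tr v0 cell
    simp only [eU]
  have p3 : Reach {e | P (src e) ∧ P (tgt e)}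
      (-(128 * U : ℤ) + 2 * (m * e.1), -(128 * U : ℤ) + 2 * (m * e.2))
      (-(128 * U : ℤ) + 2 * (m * e.1), -(136 * U : ℤ)) := by
    refine vseg fun s s1 s2 => ?_
    have l1 := min_le_iff.1 s1
    have l2 := le_max_iff.1 s2
    obtain ⟨j, j1, j2⟩ := cell_ex (by omega : 1 ≤ m) (s + 128 * U)
    have hj1 : j ≤ e.2 := cmp _ _ (by omega)
    have hj2 : -(4 * a : ℤ) ≤ j := by
      apply cmp
      have e1 : (m : ℤ) * -(4 * a) = -(4 * U) := by rw [← eU]; ring
      rw [e1]; omega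
    refine good1 (e.1, j) ?_ _ ?_
    · rw [Finset.mem_union]
      right
      unfold Cor
      rw [Finset.mem_union]
      left
      rw [Finset.mem_image]
      exact ⟨j, Finset.mem_Icc.2 ⟨hj2, hj1⟩, rfl⟩
    · have : sd (-(128 * U : ℤ) + 2 * (m * e.1), s) (tr (v0 a m) (cell m (e.1, j))) ≤ m := by
        rw [sd_le]
        simp only [tr, v0, cell, eU]
        omega
      omega
  -- fourth part: the row
  have p4 : Reach {e | P (src e) ∧ P (tgt e)}
      (-(128 * U : ℤ) + 2 * (m * e.1), -(136 * U : ℤ)) (0, -(136 * U : ℤ)) := by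
    refine hseg fun s s1 s2 => ?_
    have l1 := min_le_iff.1 s1
    have l2 := le_max_iff.1 s2
    obtain ⟨i, i1, i2⟩ := cell_ex (by omega : 1 ≤ m) (s + 128 * U)
    have e3 : (m : ℤ) * (64 * a) = 64 * U := by rw [← eU]; ring
    have hi1 : i ≤ 64 * a := by
      apply cmp
      rw [e3]; omega
    have hi2 : e.1 ≤ i := cmp _ _ (by omega)
    refine good1 (i, -(4 * a)) ?_ _ ?_
    · rw [Finset.mem_union]
      right
      unfold Cor
      rw [Finset.mem_union]
      right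
      rw [Finset.mem_image]
      exact ⟨i, Finset.mem_Icc.2 ⟨by omega, hi1⟩, rfl⟩
    · have e1 : (m : ℤ) * -(4 * a) = -(4 * U) := by rw [← eU]; ring
      have : sd (s, -(136 * U : ℤ)) (tr (v0 a m) (cell m (i, -(4 * a)))) ≤ m := by
        rw [sd_le]
        simp only [tr, v0, cell, eU]
        omega
      omega
  have es : s0 a m = (0, -(136 * U : ℤ)) := by
    unfold s0
    simp only [eU]
  rw [es]
  rw [ec] at p2
  exact p1.trans (p2.trans (p3.trans p4))

theorem gadL {t : ℝ} {M B L a m : ℕ} {T : Finset (ℤ × ℤ)} {e : ℤ × ℤ} {p c0 E0 : ℝ}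
    (gcon : S_GCON) (gpth : S_GPTHL) (hL : 3 ≤ L) (ha : 100 ≤ a) (hev : Even a)
    (hd : 2 * L ^ 2 ∣ a) (hm : 4 ≤ m) (hM : 16 ≤ M) (hB : 1 ≤ B)
    (hAdm : Adm a m (a * m / (2 * L ^ 2)) T e) (hG : GLc a m p (GE t M B L a m T e c0 E0)) :
    GadL t M B a m p c0 E0 (GE t M B L a m T e c0 E0) := by
  refine ⟨hG, ?_⟩
  rintro F u ⟨h1, h2, h3, h4⟩ hx hy
  refine ⟨VG M B L a m T e F, ?_, h3, h4, ?_⟩
  · intro v hv
    have h5 := mem_ctr.1 (mem_VG.1 hv).1
    rw [mem_ctr]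
    omega
  · intro v hv
    obtain ⟨h5, h6⟩ := mem_VG.1 hv
    have h7 := gcon M B L a m T e F u hL ha hev hd (by omega) hAdm h1 hx hy v h5 h6
    exact gpth M B L a m T e F u hL ha hev hd (by omega) hM hB hAdm h2 hy v h5 h6 h7

/-- GADL: the gadget exists. -/
def S_GADL : Prop := ∀ t : ℝ, 0 < t → t < 4 / 3 → ∃ M B a0 d : ℕ, 16 ≤ M ∧ 1 ≤ B ∧ 1 ≤ d ∧
  ∀ a : ℕ, a0 ≤ a → d ∣ a → Even a → ∃ (p c0 E0 : ℝ) (m0 : ℕ), 0 < p ∧ 0 < c0 ∧ 0 < E0 ∧
    ∀ m : ℕ, m0 ≤ m → ∃ G, GadL t M B a m p c0 E0 G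

/-- **GADL** -/
theorem t_GADL (one : S_ONE) (vfa : S_VFA) (tw : S_TW) (sm : S_SM) (gloc : S_GLOC)
    (gcon : S_GCON) (gpth : S_GPTHL) : S_GADL := by
  intro t ht0 ht1
  obtain ⟨M, B, L, a0, hM, hB, hL, one⟩ := one
  have hL2 : 0 < L ^ 2 := by positivity
  refine ⟨M, B, max a0 100, 2 * L ^ 2, hM, hB, by omega, ?_⟩
  intro a ha hd hev
  have ha0 : a0 ≤ a := le_trans (le_max_left _ _) ha
  have ha1 : 100 ≤ a := le_trans (le_max_right _ _) ha
  obtain ⟨c, m0, hc, one⟩ := one a ha0 hd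
  obtain ⟨c', m1, hc', vfa⟩ := vfa M B L a c hL (by omega) hd hc
  obtain ⟨C, m2, hC, tw⟩ := tw M B L a hL (by omega) hd
  obtain ⟨c0, E0, p, m3, hc0, hE0, hp, sm⟩ := sm t M B L a c' C ht0 ht1 hc' hC
  refine ⟨p, c0, E0, m0 + m1 + m2 + m3 + 4, hp, hc0, hE0, ?_⟩
  intro m hm
  obtain ⟨T, e, hAdm, one⟩ := one m (by omega)
  obtain ⟨g1, g2, g3⟩ := gloc t M B L a m c0 E0 T e (by omega) (by omega) (by omega) hAdm
  refine ⟨GE t M B L a m T e c0 E0, gadL gcon gpth hL ha1 hev hd (by omega) hM hB hAdm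
    ⟨g1, g2, g3, ?_⟩⟩
  intro S hS
  exact sm m (by omega) T e S (vfa m (by omega) T e hAdm one S hS)
    (fun v hv w hw => tw m (by omega) T e hAdm S hS v hv w hw)

/-- The gadget exists, given the one-point lower bound and the three-arm bound. -/
theorem t_GADL' (one : S_ONE) (u3 : Pool.Agent.Y989.FR.S_U3) : S_GADL :=
  t_GADL one (t_VFA t_MIX t_PBX) (t_TW u3) t_SM t_GLOC (t_GCON t_CZ) t_GPTHL

end Run7.h561.EC
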