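import Pool.Agent.Run7.h561.EC.P_K1
import Pool.Agent.Run7.h561.EC.Stm
import Pool.Agent.Y989.FR.T_LIM3

/-! # HIT, part 1: from the lattice to the approximate sets -/

set_option autoImplicit false

namespace Run7.h561.EC

open H974 H12S Finset H984P H984N Run7.h561
open Pool.Agent.TH966.DP (zp dist_pos_zp zp_dist zp_inj pl_node nt nt_mul)
open Pool.Agent.H389R2.Dim Pool.Agent.Y989.FR Pool.Agent.W822.PD

/-- Embedding of the objects: `κ = 0` for vertices, `κ = 1 / 2` for faces. -/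
noncomputable def zc (κ δ : ℝ) (v : Vtx) : ℂ := ⟨δ * (v.1 + κ), δ * (v.2 + 1 + κ)⟩

theorem zc_eq (κ δ : ℝ) (v : Vtx) : zc κ δ v = zp δ v + ⟨δ * κ, δ * κ⟩ := by
  apply Complex.ext
  · simp only [zc, zp, Complex.add_re]; ring
  · simp only [zc, zp, Complex.add_im]; ring

theorem zc_dist {κ δ : ℝ} (hδ : 0 ≤ δ) (v w : Vtx) :
    δ * ((sd v w : ℤ) : ℝ) ≤ dist (zc κ δ v) (zc κ δ w) := by
  rw [zc_eq, zc_eq, dist_add_right]
  exact zp_dist hδ v w

theorem zc_le {κ δ : ℝ} (hδ : 0 ≤ δ) (v w : Vtx) :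
    dist (zc κ δ v) (zc κ δ w) ≤ 2 * (δ * ((sd v w : ℤ) : ℝ)) := by
  rw [zc_eq, zc_eq, dist_add_right]
  exact LIM3.zp_le hδ v w

theorem zc_pos_v {δ : ℝ} (hδ : 0 ≤ δ) (σ : St) : dist (zc 0 δ σ.1) (pos δ σ) ≤ δ := by
  have h1 : zc 0 δ σ.1 = zp δ σ.1 := by
    apply Complex.ext
    · simp [zc, zp]
    · simp [zc, zp]
  rw [h1, dist_comm]
  have := dist_pos_zp hδ σ
  linarith

theorem zc_pos_f {δ : ℝ} (hδ : 0 ≤ δ) (σ : St) :
    dist (zc (1 / 2) δ (face σ)) (pos δ σ) ≤ δ := by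
  have key : |(zc (1 / 2) δ (face σ)).re - (pos δ σ).re| ≤ δ * (1 / 4) ∧
      |(zc (1 / 2) δ (face σ)).im - (pos δ σ).im| ≤ δ * (1 / 4) := by
    obtain ⟨⟨x, y⟩, k⟩ := σ
    have e1 : ∀ a b : ℝ, a - b = δ * (1 / 4) ∨ a - b = -(δ * (1 / 4)) → |a - b| ≤ δ * (1 / 4) := by
      intro a b h
      have h0 : 0 ≤ δ * (1 / 4) := by positivity
      rcases h with h | h
      · rw [h, abs_of_nonneg h0]
      · rw [h, abs_neg, abs_of_nonneg h0]
    cases k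
    · constructor <;> apply e1 <;> simp only [zc, face, pos] <;> push_cast <;>
        first | (left; ring1) | (right; ring1)
    · constructor <;> apply e1 <;> simp only [zc, face, pos] <;> push_cast <;>
        first | (left; ring1) | (right; ring1)
    · constructor <;> apply e1 <;> simp only [zc, face, pos] <;> push_cast <;>
        first | (left; ring1) | (right; ring1)
    · constructor <;> apply e1 <;> simp only [zc, face, pos] <;> push_cast <;>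
        first | (left; ring1) | (right; ring1)
  refine (H984N.ML.dist_le_of key.1 key.2).trans ?_
  linarith

/-- A polygonal curve through the points `p k`, `k ≤ T`. -/
structure Crv (f : C(unitInterval, ℂ)) (δ : ℝ) (T : ℕ) (p : ℕ → ℂ) : Prop where
  node : ∀ k ≤ T, ∃ s, f s = p k
  seg : ∀ s s' : unitInterval, s ≤ s' → ∃ i j : ℕ, i ≤ j ∧ j ≤ T ∧ dist (f s) (p i) ≤ δ / 2 ∧
    dist (f s') (p j) ≤ δ / 2 ∧ ∀ k, i ≤ k → k ≤ j → ∃ u : unitInterval, s ≤ u ∧ u ≤ s' ∧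
      dist (f u) (p k) ≤ δ / 2

theorem crv_pl {T : ℕ} {p : ℕ → ℂ} {δ : ℝ} (hδ : 0 ≤ δ)
    (hp : ∀ k < T, dist (p k) (p (k + 1)) ≤ δ / 2) : Crv (pl T p) δ T p := by
  rcases Nat.eq_zero_or_pos T with h0 | h0
  · subst h0
    have h1 : ∀ s, pl 0 p s = p 0 := by
      intro s
      rw [pl_apply']
      simp
    refine ⟨fun k hk => ⟨0, ?_⟩, fun s s' hs => ⟨0, 0, le_rfl, le_rfl, ?_, ?_, ?_⟩⟩
    · rw [h1, Nat.le_zero.1 hk]
    · rw [h1, dist_self]; positivity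
    · rw [h1, dist_self]; positivity
    · intro k _ hk
      refine ⟨s, le_rfl, hs, ?_⟩
      rw [h1, Nat.le_zero.1 hk, dist_self]; positivity
  · have hT : (0 : ℝ) < T := by exact_mod_cast h0
    have hclose : ∀ s : unitInterval, ⌊(s : ℝ) * T⌋₊ ≤ T ∧
        dist (pl T p s) (p ⌊(s : ℝ) * T⌋₊) ≤ δ / 2 := by
      intro s
      have s0 : 0 ≤ (s : ℝ) * T := mul_nonneg s.2.1 hT.le
      have s1 : (s : ℝ) * T ≤ T := mul_le_of_le_one_left hT.le s.2.2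
      have f1 := Nat.floor_le s0
      have f2 := Nat.lt_floor_add_one ((s : ℝ) * T)
      have f3 : ⌊(s : ℝ) * T⌋₊ ≤ T := by
        have : ((⌊(s : ℝ) * T⌋₊ : ℕ) : ℝ) ≤ T := f1.trans s1
        exact_mod_cast this
      refine ⟨f3, ?_⟩
      set k : ℕ := ⌊(s : ℝ) * T⌋₊ with hk
      rcases Nat.lt_or_ge k T with h | h
      · rw [pl_seg h f1 f2.le, dist_eq_norm]
        have e : p k + (((s : ℝ) * T - k : ℝ) : ℂ) * (p (k + 1) - p k) - p k =
            (((s : ℝ) * T - k : ℝ) : ℂ) * (p (k + 1) - p k) := by ring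
        rw [e, norm_mul, Complex.norm_real, Real.norm_eq_abs, abs_of_nonneg (by linarith)]
        have h2 := hp k h
        rw [dist_comm, dist_eq_norm] at h2
        calc ((s : ℝ) * T - k) * ‖p (k + 1) - p k‖ ≤ 1 * ‖p (k + 1) - p k‖ :=
              mul_le_mul_of_nonneg_right (by linarith) (norm_nonneg _)
          _ ≤ δ / 2 := by rw [one_mul]; exact h2
      · have hkT : k = T := le_antisymm f3 h
        have hs : (s : ℝ) * T = (k : ℕ) := by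
          apply le_antisymm
          · rw [hkT]; exact s1
          · exact f1
        rw [pl_node p h0 f3 hs, dist_self]
        positivity
    refine ⟨fun k hk => ⟨nt T k hk, pl_node p h0 hk (nt_mul h0 hk)⟩, fun s s' hs => ?_⟩
    have hss : (s : ℝ) * T ≤ s' * T := mul_le_mul_of_nonneg_right hs hT.le
    refine ⟨⌊(s : ℝ) * T⌋₊, ⌊(s' : ℝ) * T⌋₊, Nat.floor_mono hss, (hclose s').1, (hclose s).2,
      (hclose s').2, fun k hk1 hk2 => ?_⟩
    rcases eq_or_lt_of_le hk1 with h | h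
    · refine ⟨s, le_rfl, hs, ?_⟩
      rw [← h]; exact (hclose s).2
    · have hkT : k ≤ T := hk2.trans (hclose s').1
      refine ⟨nt T k hkT, ?_, ?_, ?_⟩
      · show (s : ℝ) ≤ (k : ℝ) / T
        rw [le_div_iff₀ hT]
        have f2 := Nat.lt_floor_add_one ((s : ℝ) * T)
        have h3 : ((⌊(s : ℝ) * T⌋₊ : ℕ) : ℝ) + 1 ≤ k := by exact_mod_cast h
        linarith
      · show (k : ℝ) / T ≤ (s' : ℝ)
        rw [div_le_iff₀ hT]
        have f1 := Nat.floor_le (mul_nonneg s'.2.1 hT.le : 0 ≤ (s' : ℝ) * T)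
        have h3 : (k : ℝ) ≤ ((⌊(s' : ℝ) * T⌋₊ : ℕ) : ℝ) := by exact_mod_cast hk2
        linarith
      · rw [pl_node p h0 hkT (nt_mul h0 hkT), dist_self]
        positivity

/-- The points of the path. -/
def SB (P : Vtx → ℂ) (M B N : ℕ) (A : Set Vtx) (v : Vtx) : Set ℂ :=
  {z | ∃ x, ClB M B N A v x ∧ z = P x}

theorem chainB {P : Vtx → ℂ} {δ e : ℝ} (hP : ∀ u v, dist (P u) (P v) ≤ 2 * (δ * ((sd u v : ℤ) : ℝ)))
    (hδ : 0 ≤ δ) (he : 2 * δ ≤ e) {M B N : ℕ} {A : Set Vtx} {v x y : Vtx}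
    (h : Reach {e | ClB M B N A v (src e) ∧ ClB M B N A v (tgt e)} x y) :
    Relation.ReflTransGen (fun a b => b ∈ SB P M B N A v ∧ dist a b ≤ e) (P x) (P y) := by
  have hadj : ∀ g : Edg, dist (P (src g)) (P (tgt g)) ≤ e := by
    intro g
    refine (hP _ _).trans ?_
    have h1 : ((sd (src g) (tgt g) : ℤ) : ℝ) ≤ 1 := by exact_mod_cast sd_ends g
    have h2 : δ * ((sd (src g) (tgt g) : ℤ) : ℝ) ≤ δ * 1 := mul_le_mul_of_nonneg_left h1 hδ
    linarith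
  induction h with
  | refl => exact Relation.ReflTransGen.refl
  | tail _ hs ih =>
    obtain ⟨g, ⟨h2, h3⟩, h4⟩ := hs
    rcases h4 with ⟨h6, h7⟩ | ⟨h6, h7⟩
    · refine ih.tail ⟨⟨tgt g, h3, by rw [h7]⟩, ?_⟩
      rw [← h6, ← h7]
      exact hadj g
    · refine ih.tail ⟨⟨src g, h2, by rw [h6]⟩, ?_⟩
      rw [← h6, ← h7, dist_comm]
      exact hadj g

/-- Rich vertices give points of the approximate sets. -/
theorem mem_QW {f : C(unitInterval, ℂ)} {δ : ℝ} {T : ℕ} {p : ℕ → ℂ} (hδ : 0 < δ)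
    (hc : Crv f δ T p) {P : Vtx → ℂ} (hP1 : ∀ u v, dist (P u) (P v) ≤ 2 * (δ * ((sd u v : ℤ) : ℝ)))
    (hP2 : ∀ u v, δ * ((sd u v : ℤ) : ℝ) ≤ dist (P u) (P v))
    {obj : ℕ → Vtx} (hobj : ∀ k ≤ T, dist (P (obj k)) (p k) ≤ δ)
    {A : Set Vtx} {N : ℕ} {w : Vtx} {F : Set Edg} (L : Lnk obj T A N w F) {M B : ℕ} (hB : 1 ≤ B)
    {U : Set ℂ} (hU : ∀ x, inR 0 N 0 N x → ∀ y ∉ U, ∃ c ∈ FrB N,
      δ * ((sd x c : ℤ) : ℝ) ≤ dist (P x) y)
    {v x0 : Vtx} (hv : v ∈ A) (hv1 : 2 ≤ v.1) (hv2 : v.1 + 2 ≤ N) (hv3 : 2 ≤ v.2)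
    (hv4 : v.2 + 2 ≤ N) (hx0 : sd x0 v ≤ 2) (hne : x0 ≠ w)
    (hr : Reach {e | ClB M B N A v (src e) ∧ ClB M B N A v (tgt e)} x0 w)
    {M' R0 e : ℝ} {w' : ℂ} (hM' : 0 ≤ M') (h : 2 ^ B * M * (δ * N) ^ (B - 1) ≤ M')
    (he : 8 * δ ≤ e) (he' : 2 * M' * δ ≤ e) (hR : ∀ x, inR 0 N 0 N x → ‖P x‖ ≤ R0)
    (hw : dist (P w) w' ≤ e) {NN : ℕ}
    (hN : ∀ (S : Set ℂ) (a b : ℂ), (∀ x ∈ S, ‖x‖ ≤ R0) →
      a ∈ S → Relation.ReflTransGen (fun x y => y ∈ S ∧ dist x y ≤ e) a b →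
      ∃ x : Fin (NN + 1) → ℂ, (∀ i, x i ∈ S) ∧ x 0 = a ∧ x (Fin.last NN) = b ∧
      ∀ i : Fin NN, dist (x i.castSucc) (x i.succ) ≤ e) :
    (f, P v) ∈ QW Uᶜ M' R0 e B NN w' := by
  have hvR : inR 0 N 0 N v := by unfold inR; omega
  have hbox : ∀ u, ClB M B N A v u → inR 0 N 0 N u := by
    intro u hu
    by_cases hF : u ∈ FrB N
    · rw [ClB_self hB hu (Or.inr hF)]
      exact hvR
    · have := not_FrB hF
      unfold inR
      omega
  have hstart : ClB M B N A v x0 := by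
    rcases Relation.ReflTransGen.cases_head hr with h1 | ⟨c, ⟨g, ⟨h2, h3⟩, h4⟩, -⟩
    · exact absurd h1 hne
    · rcases h4 with ⟨h6, h7⟩ | ⟨h6, h7⟩
      · rw [← h6]; exact h2
      · rw [← h7]; exact h3
  have hbd : ∀ z ∈ SB P M B N A v, ‖z‖ ≤ R0 := by
    rintro z ⟨u, hu, rfl⟩
    exact hR u (hbox u hu)
  obtain ⟨X, h1, h2, h3, h4⟩ := hN (SB P M B N A v) (P x0) (P w) hbd ⟨x0, hstart, rfl⟩
    (chainB hP1 hδ.le (by linarith) hr)
  obtain ⟨b, rfl⟩ : ∃ b, B = b + 1 := ⟨B - 1, by omega⟩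
  simp only [Nat.add_sub_cancel] at h
  -- the main estimate
  have main : ∀ u : Vtx, ∀ c ∈ A ∪ FrB N, ClB M (b + 1) N A v u → ∀ D : ℝ,
      δ * ((sd u c : ℤ) : ℝ) ≤ D → dist (P u) (P v) ^ (b + 1) ≤ M' * D := by
    intro u c hcA hu D hD
    have g1 := hu c hcA
    simp only [Nat.add_sub_cancel] at g1
    have g1' : (((sd u v : ℤ) : ℝ)) ^ (b + 1) ≤ (M : ℝ) * (N : ℝ) ^ b * ((sd u c : ℤ) : ℝ) := by
      exact_mod_cast g1
    have g0 : (0:ℝ) ≤ ((sd u v : ℤ) : ℝ) := by exact_mod_cast sd_nonneg u v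
    have g0' : (0:ℝ) ≤ ((sd u c : ℤ) : ℝ) := by exact_mod_cast sd_nonneg u c
    have g2 : dist (P u) (P v) ^ (b + 1) ≤ (2 * (δ * ((sd u v : ℤ) : ℝ))) ^ (b + 1) :=
      pow_le_pow_left₀ dist_nonneg (hP1 _ _) _
    have g4 : (2 * (δ * ((sd u v : ℤ) : ℝ))) ^ (b + 1) =
        2 ^ (b + 1) * δ ^ (b + 1) * ((sd u v : ℤ) : ℝ) ^ (b + 1) := by
      rw [mul_pow, mul_pow]; ring
    have g5 : 2 ^ (b + 1) * δ ^ (b + 1) * ((sd u v : ℤ) : ℝ) ^ (b + 1) ≤
        2 ^ (b + 1) * δ ^ (b + 1) * ((M : ℝ) * (N : ℝ) ^ b * ((sd u c : ℤ) : ℝ)) :=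
      mul_le_mul_of_nonneg_left g1' (by positivity)
    have g6 : 2 ^ (b + 1) * δ ^ (b + 1) * ((M : ℝ) * (N : ℝ) ^ b * ((sd u c : ℤ) : ℝ)) =
        (2 ^ (b + 1) * M * (δ * N) ^ b) * (δ * ((sd u c : ℤ) : ℝ)) := by
      rw [mul_pow δ]; ring
    have g7 : 0 ≤ δ * ((sd u c : ℤ) : ℝ) := by positivity
    calc dist (P u) (P v) ^ (b + 1) ≤ _ := g2
      _ = _ := g4
      _ ≤ _ := g5
      _ = _ := g6
      _ ≤ M' * (δ * ((sd u c : ℤ) : ℝ)) := mul_le_mul_of_nonneg_right h g7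
      _ ≤ M' * D := mul_le_mul_of_nonneg_left hD hM'
  refine ⟨?_, ?_, X, fun i => hbd _ (h1 i), ?_, ?_, h4, ?_, ?_⟩
  · exact hR v hvR
  · obtain ⟨k, hk, hk2⟩ := L.near hB hv hv1 hv2 hv3 hv4 hx0 hr
    obtain ⟨s, hs⟩ := hc.node k hk
    refine ⟨s, ?_⟩
    show dist (f s) (P v) ≤ e
    rw [hs]
    have g1 := hobj k hk
    have g2 := hP1 (obj k) v
    have g3 : δ * ((sd (obj k) v : ℤ) : ℝ) ≤ δ * 2 :=
      mul_le_mul_of_nonneg_left (by exact_mod_cast hk2) hδ.le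
    have g4 := dist_triangle (p k) (P (obj k)) (P v)
    rw [dist_comm (p k) (P (obj k))] at g4
    linarith
  · show dist (X 0) (P v) ≤ e
    rw [h2]
    have g2 := hP1 x0 v
    have g3 : δ * ((sd x0 v : ℤ) : ℝ) ≤ δ * 2 :=
      mul_le_mul_of_nonneg_left (by exact_mod_cast hx0) hδ.le
    linarith
  · show dist (X (Fin.last NN)) w' ≤ e
    rw [h3]
    exact hw
  · intro i s
    show dist (X i) (P v) ^ (b + 1) ≤ M' * dist (X i) (f s) + e
    obtain ⟨u, hu, hz⟩ := h1 i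
    rw [hz]
    obtain ⟨i', j', -, hj', -, hd, -⟩ := hc.seg s s le_rfl
    have g1 := main u (obj j') (Or.inl (L.mem j' hj')) hu (dist (P u) (f s) + 2 * δ) (by
      refine (hP2 _ _).trans ?_
      have t1 := dist_triangle (P u) (f s) (P (obj j'))
      have t2 := dist_triangle (f s) (p j') (P (obj j'))
      have t3 := hobj j' hj'
      rw [dist_comm] at t3
      linarith)
    linarith
  · intro i y hy
    show dist (X i) (P v) ^ (b + 1) ≤ M' * dist (X i) y + e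
    obtain ⟨u, hu, hz⟩ := h1 i
    rw [hz]
    obtain ⟨c, hc1, hc2⟩ := hU u (hbox u hu) y hy
    have g1 := main u c (Or.inr hc1) hu _ hc2
    have : 0 ≤ e := by linarith
    linarith

/-- A rich set makes the approximate set good. -/
theorem good_V {δ : ℝ} (hδ : 0 < δ) {P : Vtx → ℂ} (hP : Function.Injective P)
    (hP2 : ∀ u v, δ * ((sd u v : ℤ) : ℝ) ≤ dist (P u) (P v)) {V : Finset Vtx} {N : ℕ} (hN : 1 ≤ N)
    {lam E0 t : ℝ} (hcard : lam * (N : ℝ) ^ (4 / 3 : ℝ) ≤ (V.card : ℝ))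
    (hEn : EnV t V ≤ E0 * (N : ℝ) ^ (8 / 3 - t)) (hlam : 0 < lam)
    (hE0 : 0 < E0) (ht : 0 < t) {ε' : ℝ} {T' : Set ℂ}
    (hT : ∀ v ∈ V, P v ∈ T') (hε : δ ≤ ε')
    {κ : ℝ} (hκ : 0 < κ) (hκ' : κ ≤ δ * N) :
    Good t ε' (2 ^ (-t) / (E0 / lam ^ 2 * κ ^ (-t))) T' := by
  classical
  have hm' : (0:ℝ) < N := by exact_mod_cast hN
  have hcpos : (0 : ℝ) < (V.card : ℝ) := lt_of_lt_of_le (by positivity) hcard
  have hne : V.Nonempty := by
    rw [← Finset.card_pos]; exact_mod_cast hcpos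
  have hε0 : 0 < ε' := hδ.trans_le hε
  refine good_of_energy hε0 ht.le (by positivity) (V.image P) (hne.image _) ?_ ?_
  · intro z hz
    rw [Finset.mem_coe, Finset.mem_image] at hz
    obtain ⟨v, hv, rfl⟩ := hz
    exact hT v hv
  · rw [Finset.sum_image (fun a _ b _ hab => hP hab), Finset.card_image_of_injective _ hP]
    have e1 : ∀ v ∈ V, ∑ y ∈ V.image P, (max (dist (P v) y) ε') ^ (-t) ≤
        ∑ w ∈ V, δ ^ (-t) * ((max (sd v w) 1 : ℤ) : ℝ) ^ (-t) := by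
      intro v _
      rw [Finset.sum_image (fun a _ b _ hab => hP hab)]
      refine Finset.sum_le_sum fun w _ => ?_
      have hm : (1 : ℝ) ≤ ((max (sd v w) 1 : ℤ) : ℝ) := by
        exact_mod_cast le_max_right (sd v w) 1
      rw [← Real.mul_rpow (by positivity) (by linarith)]
      refine Real.rpow_le_rpow_of_nonpos (by positivity) ?_ (by linarith)
      have h6 := hP2 v w
      rcases max_cases (sd v w) 1 with h | h
      · rw [h.1]; exact h6.trans (le_max_left _ _)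
      · rw [h.1]; push_cast; rw [mul_one]
        exact hε.trans (le_max_right _ _)
    refine (Finset.sum_le_sum e1).trans ?_
    have e2 : ∑ v ∈ V, ∑ w ∈ V, δ ^ (-t) * ((max (sd v w) 1 : ℤ) : ℝ) ^ (-t)
        = δ ^ (-t) * EnV t V := by
      unfold EnV
      rw [Finset.mul_sum]
      refine Finset.sum_congr rfl fun v _ => ?_
      rw [Finset.mul_sum]
    rw [e2]
    have e3 : (lam * (N : ℝ) ^ (4/3 : ℝ)) ^ 2 ≤ (V.card : ℝ) ^ 2 :=
      pow_le_pow_left₀ (by positivity) hcard 2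
    have e4 : (lam * (N : ℝ) ^ (4/3 : ℝ)) ^ 2 = lam ^ 2 * (N : ℝ) ^ (8/3 : ℝ) := by
      rw [mul_pow, ← Real.rpow_natCast ((N : ℝ) ^ (4/3 : ℝ)) 2, ← Real.rpow_mul hm'.le]
      norm_num
    rw [e4] at e3
    have e6 : (δ * N) ^ (-t) ≤ κ ^ (-t) :=
      Real.rpow_le_rpow_of_nonpos hκ hκ' (by linarith)
    calc δ ^ (-t) * EnV t V ≤ δ ^ (-t) * (E0 * (N : ℝ) ^ (8/3 - t)) :=
          mul_le_mul_of_nonneg_left hEn (by positivity)
      _ = E0 / lam ^ 2 * (δ * N) ^ (-t) * (lam ^ 2 * (N : ℝ) ^ (8/3 : ℝ)) := by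
          have : (N : ℝ) ^ (8/3 - t) = (N:ℝ) ^ (-t) * (N : ℝ) ^ (8/3 : ℝ) := by
            rw [← Real.rpow_add hm']
            congr 1
            ring
          rw [this, Real.mul_rpow hδ.le hm'.le]
          field_simp
      _ ≤ E0 / lam ^ 2 * κ ^ (-t) * (lam ^ 2 * (N : ℝ) ^ (8/3 : ℝ)) := by
          refine mul_le_mul_of_nonneg_right ?_ (by positivity)
          exact mul_le_mul_of_nonneg_left e6 (by positivity)
      _ ≤ E0 / lam ^ 2 * κ ^ (-t) * (V.card : ℝ) ^ 2 :=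
          mul_le_mul_of_nonneg_left e3 (by positivity)

theorem zc_inj {κ δ : ℝ} (hδ : 0 < δ) : Function.Injective (zc κ δ) := by
  intro u v h
  rw [zc_eq, zc_eq] at h
  exact zp_inj hδ (add_right_cancel h)

end Run7.h561.EC
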