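import Pool.Agent.Run7.h561.EC.P_H2

/-! # HIT, part 3: the core -/

set_option autoImplicit false

namespace Run7.h561.EC

open H974 H12S Finset H984P H984N Run7.h561
open Pool.Agent.H389R2.Dim Pool.Agent.Y989.FR Pool.Agent.W822.PD

/-- Points outside of the square. -/
theorem geo_U {κ δ r : ℝ} {q : ℤ × ℤ} {N : ℕ} {w' : ℂ} (hδ : 0 < δ)
    (h1 : w'.re - r ≤ δ * (q.1 + κ)) (h2 : δ * ((N : ℝ) + q.1 + κ) ≤ w'.re + r)
    (h3 : w'.im - r ≤ δ * (q.2 + 1 + κ)) (h4 : δ * ((N : ℝ) + q.2 + 1 + κ) ≤ w'.im + r)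
    (x : Vtx) (hx : inR 0 N 0 N x) (y : ℂ) (hy : y ∉ Sq r w') :
    ∃ c ∈ FrB N, δ * ((sd x c : ℤ) : ℝ) ≤ dist (zc κ δ (shv q x)) y := by
  unfold inR at hx
  have dre := Complex.abs_re_le_norm (zc κ δ (shv q x) - y)
  have dim' := Complex.abs_im_le_norm (zc κ δ (shv q x) - y)
  rw [Complex.sub_re, ← dist_eq_norm, abs_le] at dre
  rw [Complex.sub_im, ← dist_eq_norm, abs_le] at dim'
  have er : (zc κ δ (shv q x)).re = δ * (x.1 + q.1 + κ) := by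
    simp only [zc, shv]; push_cast; ring
  have ei : (zc κ δ (shv q x)).im = δ * (x.2 + q.2 + 1 + κ) := by
    simp only [zc, shv]; push_cast; ring
  rw [er] at dre
  rw [ei] at dim'
  have key : ∀ (c : Vtx) (a : ℤ), c ∈ FrB N → sd x c = a →
      δ * (a : ℝ) ≤ dist (zc κ δ (shv q x)) y → ∃ c ∈ FrB N,
      δ * ((sd x c : ℤ) : ℝ) ≤ dist (zc κ δ (shv q x)) y := by
    intro c a hc hs hle
    exact ⟨c, hc, by rw [hs]; exact hle⟩
  have hs1 : ∀ a : ℤ, 0 ≤ a → ∀ u v : Vtx, |u.1 - v.1| = a → u.2 = v.2 → sd u v = a := by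
    intro a ha u v h5 h6
    unfold sd
    rw [h5, h6, sub_self, abs_zero, max_eq_left ha]
  have hs2 : ∀ a : ℤ, 0 ≤ a → ∀ u v : Vtx, |u.2 - v.2| = a → u.1 = v.1 → sd u v = a := by
    intro a ha u v h5 h6
    unfold sd
    rw [h5, h6, sub_self, abs_zero, max_eq_right ha]
  have hy' : r ≤ |y.re - w'.re| ∨ r ≤ |y.im - w'.im| := by
    by_contra hcon
    push Not at hcon
    exact hy hcon
  rcases hy' with hy' | hy'
  · rw [le_abs'] at hy'
    rcases hy' with hy' | hy'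
    · refine key (0, x.2) x.1 ?_ (hs1 _ hx.1.1 _ _ ?_ rfl) ?_
      · unfold FrB; rw [Set.mem_setOf_eq]; left; exact le_rfl
      · simp only [sub_zero]; exact abs_of_nonneg hx.1.1
      · nlinarith [dre.1, dre.2]
    · refine key (N, x.2) (N - x.1) ?_ (hs1 _ (by omega) _ _ ?_ rfl) ?_
      · unfold FrB; rw [Set.mem_setOf_eq]; right; left; exact le_rfl
      · simp only; rw [abs_sub_comm]; exact abs_of_nonneg (by omega)
      · push_cast; nlinarith [dre.1, dre.2]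
  · rw [le_abs'] at hy'
    rcases hy' with hy' | hy'
    · refine key (x.1, 0) x.2 ?_ (hs2 _ hx.2.1 _ _ ?_ rfl) ?_
      · unfold FrB; rw [Set.mem_setOf_eq]; right; right; left; exact le_rfl
      · simp only [sub_zero]; exact abs_of_nonneg hx.2.1
      · nlinarith [dim'.1, dim'.2]
    · refine key (x.1, N) (N - x.2) ?_ (hs2 _ (by omega) _ _ ?_ rfl) ?_
      · unfold FrB; rw [Set.mem_setOf_eq]; right; right; right; exact le_rfl
      · simp only; rw [abs_sub_comm]; exact abs_of_nonneg (by omega)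
      · push_cast; nlinarith [dim'.1, dim'.2]

/-- Points in the box. -/
theorem geo_R {κ δ r : ℝ} {q : ℤ × ℤ} {N : ℕ} {w' : ℂ} (hδ : 0 < δ)
    (h1 : w'.re - r ≤ δ * (q.1 + κ)) (h2 : δ * ((N : ℝ) + q.1 + κ) ≤ w'.re + r)
    (h3 : w'.im - r ≤ δ * (q.2 + 1 + κ)) (h4 : δ * ((N : ℝ) + q.2 + 1 + κ) ≤ w'.im + r)
    (x : Vtx) (hx : inR 0 N 0 N x) : ‖zc κ δ (shv q x)‖ ≤ ‖w'‖ + 2 * r := by
  unfold inR at hx
  have er : (zc κ δ (shv q x)).re = δ * (x.1 + q.1 + κ) := by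
    simp only [zc, shv]; push_cast; ring
  have ei : (zc κ δ (shv q x)).im = δ * (x.2 + q.2 + 1 + κ) := by
    simp only [zc, shv]; push_cast; ring
  have x1 : (0 : ℝ) ≤ x.1 := by exact_mod_cast hx.1.1
  have x2 : (x.1 : ℝ) ≤ N := by exact_mod_cast hx.1.2
  have x3 : (0 : ℝ) ≤ x.2 := by exact_mod_cast hx.2.1
  have x4 : (x.2 : ℝ) ≤ N := by exact_mod_cast hx.2.2
  have m1 := mul_nonneg hδ.le x1
  have m2 := mul_le_mul_of_nonneg_left x2 hδ.le
  have m3 := mul_nonneg hδ.le x3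
  have m4 := mul_le_mul_of_nonneg_left x4 hδ.le
  have h5 : dist (zc κ δ (shv q x)) w' ≤ r + r := by
    apply H984N.ML.dist_le_of
    · rw [er, abs_le]; constructor <;> nlinarith
    · rw [ei, abs_le]; constructor <;> nlinarith
  have h6 : ‖zc κ δ (shv q x)‖ ≤ ‖w'‖ + dist (zc κ δ (shv q x)) w' := by
    rw [dist_eq_norm]
    have := norm_add_le w' (zc κ δ (shv q x) - w')
    rwa [add_sub_cancel] at this
  linarith

/-- Monotonicity of richness. -/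
theorem RichB_mono {t lam lam' E E' K : ℝ} {M M' B B' N : ℕ} {A : Set Vtx} {w : Vtx}
    (hB : 1 ≤ B) (hlam : lam' ≤ lam) (hE : E ≤ E') (hM : M ≤ M') (hBB : B ≤ B')
    (hK1 : K ≤ w.1) (hK2 : (w.1 : ℝ) + K ≤ N) (hK3 : K ≤ w.2) (hK4 : (w.2 : ℝ) + K ≤ N)
    (h : RichB t lam E K M B N A w) : RichB t lam' E' K M' B' N A w := by
  obtain ⟨V, h1, h2, h3⟩ := h
  have hN0 : (0 : ℝ) ≤ (N : ℝ) ^ (4 / 3 : ℝ) := by positivity
  have hN1 : (0 : ℝ) ≤ (N : ℝ) ^ (8 / 3 - t) := by positivity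
  refine ⟨V, ?_, ?_, ?_⟩
  · exact (mul_le_mul_of_nonneg_right hlam hN0).trans h1
  · exact h2.trans (mul_le_mul_of_nonneg_right hE hN1)
  · intro v hv
    obtain ⟨g1, g2, x, g3, g4⟩ := h3 v hv
    refine ⟨g1, g2, x, g3, g4.mono ?_⟩
    have hvb : inR 0 N 0 N v := by
      have h5 := sd_le.1 (le_refl (sd v w))
      have a1 : (w.1 : ℝ) - sd v w ≤ v.1 := by exact_mod_cast (by omega : w.1 - sd v w ≤ v.1)
      have a2 : (v.1 : ℝ) ≤ w.1 + sd v w := by exact_mod_cast (by omega : v.1 ≤ w.1 + sd v w)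
      have a3 : (w.2 : ℝ) - sd v w ≤ v.2 := by exact_mod_cast (by omega : w.2 - sd v w ≤ v.2)
      have a4 : (v.2 : ℝ) ≤ w.2 + sd v w := by exact_mod_cast (by omega : v.2 ≤ w.2 + sd v w)
      unfold inR
      refine ⟨⟨?_, ?_⟩, ?_, ?_⟩
      · have : (0 : ℝ) ≤ v.1 := by linarith
        exact_mod_cast this
      · have : (v.1 : ℝ) ≤ N := by linarith
        exact_mod_cast this
      · have : (0 : ℝ) ≤ v.2 := by linarith
        exact_mod_cast this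
      · have : (v.2 : ℝ) ≤ N := by linarith
        exact_mod_cast this
    have key : ∀ u, ClB M B N A v u → ClB M' B' N A v u := by
      intro u hu c hc
      have h6 := hu c hc
      have hub : inR 0 N 0 N u := by
        by_cases hF : u ∈ FrB N
        · rw [ClB_self hB hu (Or.inr hF)]; exact hvb
        · have := not_FrB hF
          unfold inR; omega
      have h7 : sd u v ≤ N := by
        unfold inR at hub hvb
        rw [sd_le]
        omega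
      have h8 := sd_nonneg u v
      have h9 := sd_nonneg u c
      obtain ⟨b, rfl⟩ : ∃ b, B = b + 1 := ⟨B - 1, by omega⟩
      obtain ⟨j, rfl⟩ : ∃ j, B' = b + 1 + j := ⟨B' - (b + 1), by omega⟩
      have e1 : b + 1 + j - 1 = b + j := by omega
      simp only [Nat.add_sub_cancel] at h6
      rw [e1]
      have hMM : (M : ℤ) ≤ M' := by exact_mod_cast hM
      calc sd u v ^ (b + 1 + j) = sd u v ^ (b + 1) * sd u v ^ j := pow_add _ _ _
        _ ≤ ((M : ℤ) * (N : ℤ) ^ b * sd u c) * (N : ℤ) ^ j :=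
            mul_le_mul h6 (pow_le_pow_left₀ h8 h7 _) (pow_nonneg h8 _) (by positivity)
        _ = (M : ℤ) * (N : ℤ) ^ (b + j) * sd u c := by rw [pow_add]; ring
        _ ≤ (M' : ℤ) * (N : ℤ) ^ (b + j) * sd u c := by
            apply mul_le_mul_of_nonneg_right _ h9
            exact mul_le_mul_of_nonneg_right hMM (by positivity)
    rintro e ⟨a1, a2⟩
    exact ⟨key _ a1, key _ a2⟩

/-- A rich set of objects makes the approximate set good. -/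
theorem rich_good {f : C(unitInterval, ℂ)} {δ : ℝ} {T : ℕ} {p : ℕ → ℂ} (hδ : 0 < δ)
    (hc : Crv f δ T p) {κ r t : ℝ} {q : ℤ × ℤ} {obj : ℕ → Vtx}
    (hobj : ∀ k ≤ T, dist (zc κ δ (shv q (obj k))) (p k) ≤ δ)
    {A : Set Vtx} {N : ℕ} {w : Vtx} {F : Set Edg} {w' : ℂ} (L : Lnk obj T A N w F) {M B : ℕ}
    (hB : 1 ≤ B) (hN : 1 ≤ N)
    (h1 : w'.re - r ≤ δ * (q.1 + κ)) (h2 : δ * ((N : ℝ) + q.1 + κ) ≤ w'.re + r)
    (h3 : w'.im - r ≤ δ * (q.2 + 1 + κ)) (h4 : δ * ((N : ℝ) + q.2 + 1 + κ) ≤ w'.im + r)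
    (hfar : ∀ c ∈ A, 3 ≤ sd c w) {lam E K ε' K0 M' : ℝ} (hlam : 0 < lam) (hE : 0 < E)
    (hrich : RichB t lam E K M B N A w)
    (hK1 : K + 2 ≤ w.1) (hK2 : (w.1 : ℝ) + K + 2 ≤ N) (hK3 : K + 2 ≤ w.2)
    (hK4 : (w.2 : ℝ) + K + 2 ≤ N) (ht : 0 < t) (hM' : 0 ≤ M')
    (h : 2 ^ B * M * (δ * N) ^ (B - 1) ≤ M') (he : 8 * δ ≤ ε') (he' : 2 * M' * δ ≤ ε')
    (hw : dist (zc κ δ (shv q w)) w' ≤ ε') (hK0 : 0 < K0) (hK0' : K0 ≤ δ * N) {NN : ℕ → ℕ}
    (hNN : ∀ (k : ℕ) (S : Set ℂ) (a b : ℂ), (∀ x ∈ S, ‖x‖ ≤ ‖w'‖ + 2 * r) →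
      a ∈ S → Relation.ReflTransGen (fun x y => y ∈ S ∧ dist x y ≤ 1 / ((k : ℝ) + 1)) a b →
      ∃ x : Fin (NN k + 1) → ℂ, (∀ i, x i ∈ S) ∧ x 0 = a ∧ x (Fin.last (NN k)) = b ∧
      ∀ i : Fin (NN k), dist (x i.castSucc) (x i.succ) ≤ 1 / ((k : ℝ) + 1)) :
    Good t ε' (2 ^ (-t) / (E / lam ^ 2 * K0 ^ (-t)))
      {z | z ∈ Metric.closedBall (0 : ℂ) (‖w'‖ + 2 * r) ∧ ∀ k : ℕ, ε' ≤ 1 / ((k : ℝ) + 1) →
        (f, z) ∈ QW (Sq r w')ᶜ M' (‖w'‖ + 2 * r) (1 / ((k : ℝ) + 1)) B (NN k) w'} := by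
  obtain ⟨V, g1, g2, g3⟩ := hrich
  have hPi : Function.Injective (fun v => zc κ δ (shv q v)) := by
    intro u v huv
    exact shv_inj (zc_inj hδ huv)
  have hsd : ∀ u v : Vtx, sd (shv q u) (shv q v) = sd u v := by
    intro u v
    unfold sd shv
    simp only [add_sub_add_right_eq_sub]
  have hP1 : ∀ u v, dist (zc κ δ (shv q u)) (zc κ δ (shv q v)) ≤ 2 * (δ * ((sd u v : ℤ) : ℝ)) := by
    intro u v
    rw [← hsd]
    exact zc_le hδ.le _ _
  have hP2 : ∀ u v, δ * ((sd u v : ℤ) : ℝ) ≤ dist (zc κ δ (shv q u)) (zc κ δ (shv q v)) := by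
    intro u v
    rw [← hsd]
    exact zc_dist hδ.le _ _
  refine good_V hδ hPi hP2 hN g1 g2 hlam hE ht ?_ (by linarith) hK0 hK0'
  intro v hv
  obtain ⟨a1, a2, x, a3, a4⟩ := g3 v hv
  have h5 := sd_le.1 (le_refl (sd v w))
  have b1 : (w.1 : ℝ) - sd v w ≤ v.1 := by exact_mod_cast (by omega : w.1 - sd v w ≤ v.1)
  have b2 : (v.1 : ℝ) ≤ w.1 + sd v w := by exact_mod_cast (by omega : v.1 ≤ w.1 + sd v w)
  have b3 : (w.2 : ℝ) - sd v w ≤ v.2 := by exact_mod_cast (by omega : w.2 - sd v w ≤ v.2)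
  have b4 : (v.2 : ℝ) ≤ w.2 + sd v w := by exact_mod_cast (by omega : v.2 ≤ w.2 + sd v w)
  have v1 : 2 ≤ v.1 := by
    have : (2 : ℝ) ≤ v.1 := by linarith
    exact_mod_cast this
  have v2 : v.1 + 2 ≤ N := by
    have : (v.1 : ℝ) + 2 ≤ N := by linarith
    exact_mod_cast this
  have v3 : 2 ≤ v.2 := by
    have : (2 : ℝ) ≤ v.2 := by linarith
    exact_mod_cast this
  have v4 : v.2 + 2 ≤ N := by
    have : (v.2 : ℝ) + 2 ≤ N := by linarith
    exact_mod_cast this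
  have hvR : inR 0 N 0 N v := by unfold inR; omega
  refine ⟨?_, fun k hk => ?_⟩
  · rw [mem_closedBall_zero_iff]
    exact geo_R hδ h1 h2 h3 h4 v hvR
  · have hxw : x ≠ w := by
      rintro rfl
      have := hfar v a1
      rw [sd_comm] at this
      omega
    exact mem_QW hδ hc hP1 hP2 hobj L hB (geo_U hδ h1 h2 h3 h4) a1 v1 v2 v3 v4 a3 hxw a4 hM' h
      (he.trans hk) (he'.trans hk) (geo_R hδ h1 h2 h3 h4) (hw.trans hk) (hNN k)

end Run7.h561.EC
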