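import Pool.Agent.Run7.h561.EC.P_H4

/-! # HIT for curves which are close to the medial path, part 1 (versions of `P_H1`-`P_H3` with
approximate nodes) -/

set_option autoImplicit false

namespace Run7.h561.EC

open H974 H12S Finset H984P H984N Run7.h561
open Pool.Agent.TH966.DP (zp dist_pos_zp zp_dist zp_inj pl_node nt nt_mul)
open Pool.Agent.H389R2.Dim Pool.Agent.Y989.FR Pool.Agent.W822.PD

/-- A curve close to the points `p k`, `k ≤ T`, in the order of the indices. -/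
structure CrvA (f : C(unitInterval, ℂ)) (δ : ℝ) (T : ℕ) (p : ℕ → ℂ) : Prop where
  node : ∀ k ≤ T, ∃ s, dist (f s) (p k) ≤ δ / 2
  seg : ∀ s s' : unitInterval, s ≤ s' → ∃ i j : ℕ, i ≤ j ∧ j ≤ T ∧ dist (f s) (p i) ≤ δ / 2 ∧
    dist (f s') (p j) ≤ δ / 2 ∧ ∀ k, i ≤ k → k ≤ j → ∃ u : unitInterval, s ≤ u ∧ u ≤ s' ∧
      dist (f u) (p k) ≤ δ / 2

/-- Rich vertices give points of the approximate sets. -/
theorem mem_QWA {f : C(unitInterval, ℂ)} {δ : ℝ} {T : ℕ} {p : ℕ → ℂ} (hδ : 0 < δ)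
    (hc : CrvA f δ T p) {P : Vtx → ℂ} (hP1 : ∀ u v, dist (P u) (P v) ≤ 2 * (δ * ((sd u v : ℤ) : ℝ)))
    (hP2 : ∀ u v, δ * ((sd u v : ℤ) : ℝ) ≤ dist (P u) (P v))
    {obj : ℕ → Vtx} (hobj : ∀ k ≤ T, dist (P (obj k)) (p k) ≤ δ)
    {A : Set Vtx} {N : ℕ} {w : Vtx} {F : Set Edg} (L : Lnk obj T A N w F) {M B : ℕ} (hB : 1 ≤ B)
    {U : Set ℂ} (hU : ∀ x, inR 0 N 0 N x → ∀ y ∉ U, ∃ c ∈ FrB N,
      δ * ((sd x c : ℤ) : ℝ) ≤ dist (P x) y)
    {v x0 : Vtx} (hv : v ∈ A) (hv1 : 2 ≤ v.1) (hv2 : v.1 + 2 ≤ N) (hv3 : 2 ≤ v.2)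
    (hv4 : v.2 + 2 ≤ N) (hx0 : sd x0 v ≤ 2) (hne : x0 ≠ w)
    (hr : Reach {e | ClB M B N A v (src e) ∧ ClB M B N A v (tgt e)} x0 w)
    {M' R0 e : ℝ} {w' : ℂ} (hM' : 0 ≤ M') (h : 2 ^ B * M * (δ * N) ^ (B - 1) ≤ M')
    (he : 8 * δ ≤ e) (he' : 2 * M' * δ ≤ e) (hR : ∀ x, inR 0 N 0 N x → ‖P x‖ ≤ R0)
    (hw : dist (P w) w' ≤ e) {NN : ℕ}
    (hN : ∀ (S : Set ℂ) (a b : ℂ), (∀ x ∈ S, ‖x‖ ≤ R0) →
      a ∈ S → Relation.ReflTransGen (fun x y => y ∈ S ∧ dist x y ≤ e) a b →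
      ∃ x : Fin (NN + 1) → ℂ, (∀ i, x i ∈ S) ∧ x 0 = a ∧ x (Fin.last NN) = b ∧
      ∀ i : Fin NN, dist (x i.castSucc) (x i.succ) ≤ e) :
    (f, P v) ∈ QW Uᶜ M' R0 e B NN w' := by
  have hvR : inR 0 N 0 N v := by unfold inR; omega
  have hbox : ∀ u, ClB M B N A v u → inR 0 N 0 N u := by
    intro u hu
    by_cases hF : u ∈ FrB N
    · rw [ClB_self hB hu (Or.inr hF)]
      exact hvR
    · have := not_FrB hF
      unfold inR
      omega
  have hstart : ClB M B N A v x0 := by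
    rcases Relation.ReflTransGen.cases_head hr with h1 | ⟨c, ⟨g, ⟨h2, h3⟩, h4⟩, -⟩
    · exact absurd h1 hne
    · rcases h4 with ⟨h6, h7⟩ | ⟨h6, h7⟩
      · rw [← h6]; exact h2
      · rw [← h7]; exact h3
  have hbd : ∀ z ∈ SB P M B N A v, ‖z‖ ≤ R0 := by
    rintro z ⟨u, hu, rfl⟩
    exact hR u (hbox u hu)
  obtain ⟨X, h1, h2, h3, h4⟩ := hN (SB P M B N A v) (P x0) (P w) hbd ⟨x0, hstart, rfl⟩
    (chainB hP1 hδ.le (by linarith) hr)
  obtain ⟨b, rfl⟩ : ∃ b, B = b + 1 := ⟨B - 1, by omega⟩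
  simp only [Nat.add_sub_cancel] at h
  -- the main estimate
  have main : ∀ u : Vtx, ∀ c ∈ A ∪ FrB N, ClB M (b + 1) N A v u → ∀ D : ℝ,
      δ * ((sd u c : ℤ) : ℝ) ≤ D → dist (P u) (P v) ^ (b + 1) ≤ M' * D := by
    intro u c hcA hu D hD
    have g1 := hu c hcA
    simp only [Nat.add_sub_cancel] at g1
    have g1' : (((sd u v : ℤ) : ℝ)) ^ (b + 1) ≤ (M : ℝ) * (N : ℝ) ^ b * ((sd u c : ℤ) : ℝ) := by
      exact_mod_cast g1
    have g0 : (0:ℝ) ≤ ((sd u v : ℤ) : ℝ) := by exact_mod_cast sd_nonneg u v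
    have g0' : (0:ℝ) ≤ ((sd u c : ℤ) : ℝ) := by exact_mod_cast sd_nonneg u c
    have g2 : dist (P u) (P v) ^ (b + 1) ≤ (2 * (δ * ((sd u v : ℤ) : ℝ))) ^ (b + 1) :=
      pow_le_pow_left₀ dist_nonneg (hP1 _ _) _
    have g4 : (2 * (δ * ((sd u v : ℤ) : ℝ))) ^ (b + 1) =
        2 ^ (b + 1) * δ ^ (b + 1) * ((sd u v : ℤ) : ℝ) ^ (b + 1) := by
      rw [mul_pow, mul_pow]; ring
    have g5 : 2 ^ (b + 1) * δ ^ (b + 1) * ((sd u v : ℤ) : ℝ) ^ (b + 1) ≤
        2 ^ (b + 1) * δ ^ (b + 1) * ((M : ℝ) * (N : ℝ) ^ b * ((sd u c : ℤ) : ℝ)) :=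
      mul_le_mul_of_nonneg_left g1' (by positivity)
    have g6 : 2 ^ (b + 1) * δ ^ (b + 1) * ((M : ℝ) * (N : ℝ) ^ b * ((sd u c : ℤ) : ℝ)) =
        (2 ^ (b + 1) * M * (δ * N) ^ b) * (δ * ((sd u c : ℤ) : ℝ)) := by
      rw [mul_pow δ]; ring
    have g7 : 0 ≤ δ * ((sd u c : ℤ) : ℝ) := by positivity
    calc dist (P u) (P v) ^ (b + 1) ≤ _ := g2
      _ = _ := g4
      _ ≤ _ := g5
      _ = _ := g6
      _ ≤ M' * (δ * ((sd u c : ℤ) : ℝ)) := mul_le_mul_of_nonneg_right h g7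
      _ ≤ M' * D := mul_le_mul_of_nonneg_left hD hM'
  refine ⟨?_, ?_, X, fun i => hbd _ (h1 i), ?_, ?_, h4, ?_, ?_⟩
  · exact hR v hvR
  · obtain ⟨k, hk, hk2⟩ := L.near hB hv hv1 hv2 hv3 hv4 hx0 hr
    obtain ⟨s, hs⟩ := hc.node k hk
    refine ⟨s, ?_⟩
    show dist (f s) (P v) ≤ e
    have g0 := dist_triangle (f s) (p k) (P v)
    have g1 := hobj k hk
    have g2 := hP1 (obj k) v
    have g3 : δ * ((sd (obj k) v : ℤ) : ℝ) ≤ δ * 2 :=
      mul_le_mul_of_nonneg_left (by exact_mod_cast hk2) hδ.le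
    have g4 := dist_triangle (p k) (P (obj k)) (P v)
    rw [dist_comm (p k) (P (obj k))] at g4
    linarith
  · show dist (X 0) (P v) ≤ e
    rw [h2]
    have g2 := hP1 x0 v
    have g3 : δ * ((sd x0 v : ℤ) : ℝ) ≤ δ * 2 :=
      mul_le_mul_of_nonneg_left (by exact_mod_cast hx0) hδ.le
    linarith
  · show dist (X (Fin.last NN)) w' ≤ e
    rw [h3]
    exact hw
  · intro i s
    show dist (X i) (P v) ^ (b + 1) ≤ M' * dist (X i) (f s) + e
    obtain ⟨u, hu, hz⟩ := h1 i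
    rw [hz]
    obtain ⟨i', j', -, hj', -, hd, -⟩ := hc.seg s s le_rfl
    have g1 := main u (obj j') (Or.inl (L.mem j' hj')) hu (dist (P u) (f s) + 2 * δ) (by
      refine (hP2 _ _).trans ?_
      have t1 := dist_triangle (P u) (f s) (P (obj j'))
      have t2 := dist_triangle (f s) (p j') (P (obj j'))
      have t3 := hobj j' hj'
      rw [dist_comm] at t3
      linarith)
    linarith
  · intro i y hy
    show dist (X i) (P v) ^ (b + 1) ≤ M' * dist (X i) y + e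
    obtain ⟨u, hu, hz⟩ := h1 i
    rw [hz]
    obtain ⟨c, hc1, hc2⟩ := hU u (hbox u hu) y hy
    have g1 := main u c (Or.inr hc1) hu _ hc2
    have : 0 ≤ e := by linarith
    linarith

/-- **The crossing of the ray.** -/
theorem ray_hitA {f : C(unitInterval, ℂ)} {δ : ℝ} {T : ℕ} {σ : ℕ → St} {E : Set Edg} (hδ : 0 < δ)
    (hc : CrvA f δ T (fun k => pos δ (σ k))) (hσ : ∀ k, σ (k + 1) = nxt E (σ k))
    {d : ℤ × ℤ} (hd : Dir d) {H m : ℝ} {w' : ℂ} (hf : CrM d H m w' f) {κ : ℝ} {κ4 : ℤ}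
    (hκ : (κ4 : ℝ) = 4 * κ) {ob : St → Vtx}
    (hob : ∀ σ, dist (zc κ δ (ob σ)) (pos δ σ) ≤ δ)
    (hne : ∀ (σ : St) (a : ℤ), ix σ ≠ 4 * a + κ4 ∧ iy σ ≠ 4 * a + κ4)
    (hst : ∀ (σ : St) (a : ℤ), (Btw (ix σ) (ix (nxt E σ)) (4 * a + κ4) → (ob σ).1 = a) ∧
      (Btw (iy σ) (iy (nxt E σ)) (4 * a + κ4) → (ob σ).2 = a))
    {w0 : Vtx} (hw1 : |(zc κ δ w0).re - w'.re| ≤ 2 * δ) (hw2 : |(zc κ δ w0).im - w'.im| ≤ 2 * δ)
    (hm : 4 * δ ≤ m) {H' : ℕ} (hH : H ≤ δ * H') :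
    ∃ k ≤ T, OnRay d H' w0 (ob (σ k)) := by
  obtain ⟨s, s', hs, hbx, hcr⟩ := hf
  obtain ⟨i, j, hij, hjT, hi, hj, hseg⟩ := hc.seg s s' hs
  have rek : ∀ k, (pos δ (σ k)).re = δ * (ix (σ k) : ℝ) / 4 := fun k => pos_ix δ _
  have imk : ∀ k, (pos δ (σ k)).im - δ = δ * (iy (σ k) : ℝ) / 4 := fun k => pos_iy δ _
  have dre : ∀ {a b : ℂ} {r : ℝ}, dist a b ≤ r → |b.re - a.re| ≤ r := fun {a b r} h => by
    rw [abs_sub_comm]
    have := Complex.abs_re_le_norm (a - b)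
    rw [Complex.sub_re, ← dist_eq_norm] at this
    exact this.trans h
  have dim' : ∀ {a b : ℂ} {r : ℝ}, dist a b ≤ r → |b.im - a.im| ≤ r := fun {a b r} h => by
    rw [abs_sub_comm]
    have := Complex.abs_im_le_norm (a - b)
    rw [Complex.sub_im, ← dist_eq_norm] at this
    exact this.trans h
  -- the two coordinates
  have vert : ∀ ε : ℤ, (ε = 1 ∨ ε = -1) → d = (0, ε) → ∃ k ≤ T, OnRay d H' w0 (ob (σ k)) := by
    intro ε hε hde
    have hd1 : d.1 = 0 := by rw [hde]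
    have hd2 : d.2 = ε := by rw [hde]
    have hcr' : (m < (f s).re - w'.re ∧ (f s').re - w'.re < -m) ∨
        ((f s).re - w'.re < -m ∧ m < (f s').re - w'.re) := by
      unfold Lf at hcr
      rw [hd1, hd2] at hcr
      rcases hε with rfl | rfl
      · simpa using hcr
      · push_cast at hcr
        rcases hcr with ⟨c1, c2⟩ | ⟨c1, c2⟩
        · right; constructor <;> linarith
        · left; constructor <;> linarith
    obtain ⟨k, hk1, hk2, hk3⟩ := cross_idx (g := fun k => ix (σ k)) (L := 4 * w0.1 + κ4)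
      (fun k => (hne (σ k) w0.1).1) hij hδ hm (a := (f s).re) (b := (f s').re) (W := w'.re)
      (by rw [← rek]; exact dre hi) (by rw [← rek]; exact dre hj) (by
        have : δ * ((4 * w0.1 + κ4 : ℤ) : ℝ) / 4 = (zc κ δ w0).re := by
          simp only [zc]; push_cast; rw [hκ]; ring
        rw [this]; exact hw1) hcr'
    rw [hσ k] at hk3
    have ho1 := (hst (σ k) w0.1).1 hk3
    obtain ⟨u, hu1, hu2, hu3⟩ := hseg k hk1 hk2.le
    obtain ⟨b1, b2, b3⟩ := hbx ⟨u, ⟨hu1, hu2⟩, rfl⟩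
    rw [hd1, hd2] at b3
    have ho2 := along (o := (ob (σ k)).2) (w := w0.2) (κ := κ) (x := (pos δ (σ k)).im - δ)
      (y := (f u).im - δ) (W := w'.im - δ) (H := H) (H' := H') hε hδ hm (by
        have h1 := dim' (hob (σ k))
        rw [abs_sub_comm] at h1
        have : (zc κ δ (ob (σ k))).im - (pos δ (σ k)).im =
            δ * (((ob (σ k)).2 : ℝ) + κ) - ((pos δ (σ k)).im - δ) := by
          simp only [zc]; ring
        rwa [this] at h1) (by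
        have h1 := dim' hu3
        have : (pos δ (σ k)).im - δ - ((f u).im - δ) = (pos δ (σ k)).im - (f u).im := by ring
        rw [this]; exact h1) (by
        have : δ * ((w0.2 : ℝ) + κ) - (w'.im - δ) = (zc κ δ w0).im - w'.im := by
          simp only [zc]; ring
        rw [this]; exact hw2) (by
        have : (f u).im - δ - (w'.im - δ) = (f u).im - w'.im := by ring
        rw [this]; exact b2) (by
        have : (f u).im - δ - (w'.im - δ) = (f u).im - w'.im := by ring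
        rw [this]
        push_cast at b3
        linarith) hH
    refine ⟨k, by omega, ε * ((ob (σ k)).2 - w0.2), ho2.1, ho2.2, ?_⟩
    rw [hd1, hd2]
    ext
    · simp only [mul_zero, add_zero]; exact ho1
    · simp only
      rcases hε with rfl | rfl
      · ring
      · ring
  have hori : ∀ ε : ℤ, (ε = 1 ∨ ε = -1) → d = (ε, 0) → ∃ k ≤ T, OnRay d H' w0 (ob (σ k)) := by
    intro ε hε hde
    have hd1 : d.1 = ε := by rw [hde]
    have hd2 : d.2 = 0 := by rw [hde]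
    have hcr' : (m < (f s).im - w'.im ∧ (f s').im - w'.im < -m) ∨
        ((f s).im - w'.im < -m ∧ m < (f s').im - w'.im) := by
      unfold Lf at hcr
      rw [hd1, hd2] at hcr
      rcases hε with rfl | rfl
      · push_cast at hcr
        rcases hcr with ⟨c1, c2⟩ | ⟨c1, c2⟩
        · right; constructor <;> linarith
        · left; constructor <;> linarith
      · push_cast at hcr
        rcases hcr with ⟨c1, c2⟩ | ⟨c1, c2⟩
        · left; constructor <;> linarith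
        · right; constructor <;> linarith
    obtain ⟨k, hk1, hk2, hk3⟩ := cross_idx (g := fun k => iy (σ k)) (L := 4 * w0.2 + κ4)
      (fun k => (hne (σ k) w0.2).2) hij hδ hm (a := (f s).im - δ) (b := (f s').im - δ)
      (W := w'.im - δ)
      (by
        rw [← imk]
        have : (pos δ (σ i)).im - δ - ((f s).im - δ) = (pos δ (σ i)).im - (f s).im := by ring
        rw [this]; exact dim' hi) (by
        rw [← imk]
        have : (pos δ (σ j)).im - δ - ((f s').im - δ) = (pos δ (σ j)).im - (f s').im := by ring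
        rw [this]; exact dim' hj) (by
        have : δ * ((4 * w0.2 + κ4 : ℤ) : ℝ) / 4 - (w'.im - δ) = (zc κ δ w0).im - w'.im := by
          simp only [zc]; push_cast; rw [hκ]; ring
        rw [this]; exact hw2) (by
        have e1 : (f s).im - δ - (w'.im - δ) = (f s).im - w'.im := by ring
        have e2 : (f s').im - δ - (w'.im - δ) = (f s').im - w'.im := by ring
        rw [e1, e2]; exact hcr')
    rw [hσ k] at hk3
    have ho1 := (hst (σ k) w0.2).2 hk3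
    obtain ⟨u, hu1, hu2, hu3⟩ := hseg k hk1 hk2.le
    obtain ⟨b1, b2, b3⟩ := hbx ⟨u, ⟨hu1, hu2⟩, rfl⟩
    rw [hd1, hd2] at b3
    have ho2 := along (o := (ob (σ k)).1) (w := w0.1) (κ := κ) (x := (pos δ (σ k)).re)
      (y := (f u).re) (W := w'.re) (H := H) (H' := H') hε hδ hm (by
        have h1 := dre (hob (σ k))
        rw [abs_sub_comm] at h1
        have : (zc κ δ (ob (σ k))).re - (pos δ (σ k)).re =
            δ * (((ob (σ k)).1 : ℝ) + κ) - (pos δ (σ k)).re := by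
          simp only [zc]
        rwa [this] at h1) (dre hu3) (by
        have : δ * ((w0.1 : ℝ) + κ) - w'.re = (zc κ δ w0).re - w'.re := by
          simp only [zc]
        rw [this]; exact hw1) b1 (by
        push_cast at b3
        linarith) hH
    refine ⟨k, by omega, ε * ((ob (σ k)).1 - w0.1), ho2.1, ho2.2, ?_⟩
    rw [hd1, hd2]
    ext
    · simp only
      rcases hε with rfl | rfl
      · ring
      · ring
    · simp only [mul_zero, add_zero]; exact ho1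
  rcases hd with h | h | h | h
  · exact vert 1 (Or.inl rfl) h
  · exact vert (-1) (Or.inr rfl) h
  · exact hori 1 (Or.inl rfl) h
  · exact hori (-1) (Or.inr rfl) h

/-- A rich set of objects makes the approximate set good. -/
theorem rich_goodA {f : C(unitInterval, ℂ)} {δ : ℝ} {T : ℕ} {p : ℕ → ℂ} (hδ : 0 < δ)
    (hc : CrvA f δ T p) {κ r t : ℝ} {q : ℤ × ℤ} {obj : ℕ → Vtx}
    (hobj : ∀ k ≤ T, dist (zc κ δ (shv q (obj k))) (p k) ≤ δ)
    {A : Set Vtx} {N : ℕ} {w : Vtx} {F : Set Edg} {w' : ℂ} (L : Lnk obj T A N w F) {M B : ℕ}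
    (hB : 1 ≤ B) (hN : 1 ≤ N)
    (h1 : w'.re - r ≤ δ * (q.1 + κ)) (h2 : δ * ((N : ℝ) + q.1 + κ) ≤ w'.re + r)
    (h3 : w'.im - r ≤ δ * (q.2 + 1 + κ)) (h4 : δ * ((N : ℝ) + q.2 + 1 + κ) ≤ w'.im + r)
    (hfar : ∀ c ∈ A, 3 ≤ sd c w) {lam E K ε' K0 M' : ℝ} (hlam : 0 < lam) (hE : 0 < E)
    (hrich : RichB t lam E K M B N A w)
    (hK1 : K + 2 ≤ w.1) (hK2 : (w.1 : ℝ) + K + 2 ≤ N) (hK3 : K + 2 ≤ w.2)
    (hK4 : (w.2 : ℝ) + K + 2 ≤ N) (ht : 0 < t) (hM' : 0 ≤ M')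
    (h : 2 ^ B * M * (δ * N) ^ (B - 1) ≤ M') (he : 8 * δ ≤ ε') (he' : 2 * M' * δ ≤ ε')
    (hw : dist (zc κ δ (shv q w)) w' ≤ ε') (hK0 : 0 < K0) (hK0' : K0 ≤ δ * N) {NN : ℕ → ℕ}
    (hNN : ∀ (k : ℕ) (S : Set ℂ) (a b : ℂ), (∀ x ∈ S, ‖x‖ ≤ ‖w'‖ + 2 * r) →
      a ∈ S → Relation.ReflTransGen (fun x y => y ∈ S ∧ dist x y ≤ 1 / ((k : ℝ) + 1)) a b →
      ∃ x : Fin (NN k + 1) → ℂ, (∀ i, x i ∈ S) ∧ x 0 = a ∧ x (Fin.last (NN k)) = b ∧
      ∀ i : Fin (NN k), dist (x i.castSucc) (x i.succ) ≤ 1 / ((k : ℝ) + 1)) :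
    Good t ε' (2 ^ (-t) / (E / lam ^ 2 * K0 ^ (-t)))
      {z | z ∈ Metric.closedBall (0 : ℂ) (‖w'‖ + 2 * r) ∧ ∀ k : ℕ, ε' ≤ 1 / ((k : ℝ) + 1) →
        (f, z) ∈ QW (Sq r w')ᶜ M' (‖w'‖ + 2 * r) (1 / ((k : ℝ) + 1)) B (NN k) w'} := by
  obtain ⟨V, g1, g2, g3⟩ := hrich
  have hPi : Function.Injective (fun v => zc κ δ (shv q v)) := by
    intro u v huv
    exact shv_inj (zc_inj hδ huv)
  have hsd : ∀ u v : Vtx, sd (shv q u) (shv q v) = sd u v := by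
    intro u v
    unfold sd shv
    simp only [add_sub_add_right_eq_sub]
  have hP1 : ∀ u v, dist (zc κ δ (shv q u)) (zc κ δ (shv q v)) ≤ 2 * (δ * ((sd u v : ℤ) : ℝ)) := by
    intro u v
    rw [← hsd]
    exact zc_le hδ.le _ _
  have hP2 : ∀ u v, δ * ((sd u v : ℤ) : ℝ) ≤ dist (zc κ δ (shv q u)) (zc κ δ (shv q v)) := by
    intro u v
    rw [← hsd]
    exact zc_dist hδ.le _ _
  refine good_V hδ hPi hP2 hN g1 g2 hlam hE ht ?_ (by linarith) hK0 hK0'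
  intro v hv
  obtain ⟨a1, a2, x, a3, a4⟩ := g3 v hv
  have h5 := sd_le.1 (le_refl (sd v w))
  have b1 : (w.1 : ℝ) - sd v w ≤ v.1 := by exact_mod_cast (by omega : w.1 - sd v w ≤ v.1)
  have b2 : (v.1 : ℝ) ≤ w.1 + sd v w := by exact_mod_cast (by omega : v.1 ≤ w.1 + sd v w)
  have b3 : (w.2 : ℝ) - sd v w ≤ v.2 := by exact_mod_cast (by omega : w.2 - sd v w ≤ v.2)
  have b4 : (v.2 : ℝ) ≤ w.2 + sd v w := by exact_mod_cast (by omega : v.2 ≤ w.2 + sd v w)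
  have v1 : 2 ≤ v.1 := by
    have : (2 : ℝ) ≤ v.1 := by linarith
    exact_mod_cast this
  have v2 : v.1 + 2 ≤ N := by
    have : (v.1 : ℝ) + 2 ≤ N := by linarith
    exact_mod_cast this
  have v3 : 2 ≤ v.2 := by
    have : (2 : ℝ) ≤ v.2 := by linarith
    exact_mod_cast this
  have v4 : v.2 + 2 ≤ N := by
    have : (v.2 : ℝ) + 2 ≤ N := by linarith
    exact_mod_cast this
  have hvR : inR 0 N 0 N v := by unfold inR; omega
  refine ⟨?_, fun k hk => ?_⟩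
  · rw [mem_closedBall_zero_iff]
    exact geo_R hδ h1 h2 h3 h4 v hvR
  · have hxw : x ≠ w := by
      rintro rfl
      have := hfar v a1
      rw [sd_comm] at this
      omega
    exact mem_QWA hδ hc hP1 hP2 hobj L hB (geo_U hδ h1 h2 h3 h4) a1 v1 v2 v3 v4 a3 hxw a4 hM' h
      (he.trans hk) (he'.trans hk) (geo_R hδ h1 h2 h3 h4) (hw.trans hk) (hNN k)

end Run7.h561.EC
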