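import Pool.Agent.Run7.h561.EC.P_J3

/-! # Interface loops: closeness to the medial path -/

set_option autoImplicit false

namespace Run7.h561.EC

open H974 H12S Finset H984P H984N H342P H342L H342T Run7.h561
open Pool.Agent.W822.PD

/-- The closest node. -/
noncomputable def rd (N : ℕ) (s : unitInterval) : ℕ := ⌊(s : ℝ) * N + 1 / 2⌋₊

theorem rd_le {N : ℕ} (s : unitInterval) : rd N s ≤ N := by
  have h : (s : ℝ) * N ≤ N := mul_le_of_le_one_left (Nat.cast_nonneg N) s.2.2
  have h0 : (0 : ℝ) ≤ (s : ℝ) * N := mul_nonneg s.2.1 (Nat.cast_nonneg N)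
  have h1 : rd N s < N + 1 := by
    unfold rd
    rw [Nat.floor_lt (by linarith)]
    push_cast
    linarith
  omega

theorem rd_mono {N : ℕ} {s s' : unitInterval} (h : s ≤ s') : rd N s ≤ rd N s' := by
  unfold rd
  apply Nat.floor_mono
  have : (s : ℝ) * N ≤ s' * N := mul_le_mul_of_nonneg_right h (Nat.cast_nonneg N)
  linarith

theorem poly_node {N : ℕ} (hN : 0 < N) (f : ℕ → ℂ) {j : ℕ} (hj : j ≤ N) (s : unitInterval)
    (hs : (s : ℝ) * N = j) : poly f N s = f j := by
  rcases Nat.lt_or_ge j N with h | h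
  · rw [POL_formula f N j h s (by rw [mul_comm, hs]) (by rw [mul_comm, hs]; linarith),
      show (N : ℝ) * (s : ℝ) - j = 0 by rw [mul_comm, hs]; ring]
    simp
  · have hjN : j = N := le_antisymm hj h
    have h3 : ((N - 1 : ℕ) : ℝ) = N - 1 := by
      rw [Nat.cast_sub (by omega)]
      simp
    rw [POL_formula f N (N - 1) (by omega) s (by rw [mul_comm, hs, hjN, h3]; linarith)
      (by rw [mul_comm, hs, hjN, h3]; linarith),
      show (N : ℝ) * (s : ℝ) - ((N - 1 : ℕ) : ℝ) = 1 by rw [mul_comm, hs, hjN, h3]; ring,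
      show N - 1 + 1 = N by omega, hjN]
    simp

/-- The closed path is close to the medial path. -/
theorem poly_mp {n : ℕ} (hn : 0 < n) {E : Set Edg} (σ : St) {N : ℕ} (hN : 0 < N)
    (s : unitInterval) :
    dist (poly (fun j => pt n (orb E σ j).1) N s) (mp n (orb E σ (rd N s))) ≤
      1 / (n : ℝ) / 2 := by
  obtain ⟨k, hk, h1, h2⟩ := pl_exists_seg hN s
  rw [POL_formula _ N k hk s (by rw [mul_comm]; exact h1) (by rw [mul_comm]; exact h2)]
  have h3 := mp_near hn (E := E) (orb E σ k) (θ := (N : ℝ) * (s : ℝ) - k)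
    (by rw [mul_comm]; linarith) (by rw [mul_comm]; linarith)
  rw [← orb_succ] at h3
  have h0 : (0 : ℝ) ≤ (s : ℝ) * N := mul_nonneg s.2.1 (Nat.cast_nonneg N)
  rcases lt_or_ge ((N : ℝ) * (s : ℝ) - k) (1 / 2) with h | h
  · have e : rd N s = k := by
      unfold rd
      rw [Nat.floor_eq_iff (by linarith)]
      rw [mul_comm] at h
      constructor <;> linarith
    rw [e]
    exact h3.1 h.le
  · have e : rd N s = k + 1 := by
      unfold rd
      rw [Nat.floor_eq_iff (by linarith)]
      rw [mul_comm] at h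
      push_cast
      constructor <;> linarith
    rw [e]
    exact h3.2 h

theorem pt_mp {n : ℕ} (hn : 0 < n) (σ : St) : dist (pt n σ.1) (mp n σ) ≤ 1 / (n : ℝ) / 2 := by
  have := (mp_near hn (E := ∅) σ (θ := 0) le_rfl zero_le_one).1 (by norm_num)
  simpa using this

/-- **The curve.** -/
theorem crv_loop {n : ℕ} (hn : 0 < n) {G E : Set Edg} (hG : ∀ e, e ∈ E ↔ sh (0, 1) e ∈ G)
    {σ : St} {N : ℕ} (hN : 0 < N) (hper : orb G σ N = σ) {k0 : ℕ} (hk0 : k0 ≤ N) :
    CrvA (poly (fun j => pt n (orb G σ j).1) N) (1 / (n : ℝ)) (2 * N)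
      (fun k => pos (1 / (n : ℝ)) (orb E (shs (0, -1) (orb G σ k0)) k)) := by
  have hNr : (0 : ℝ) < N := by exact_mod_cast hN
  have hE : ∀ e, e ∈ G ↔ sh (0, -1) e ∈ E := by
    intro e
    rw [hG]
    have : sh (0, 1) (sh (0, -1) e) = e := by
      obtain ⟨x, y, b⟩ := e
      simp [sh]
    rw [this]
  have horb : ∀ k, pos (1 / (n : ℝ)) (orb E (shs (0, -1) (orb G σ k0)) k) =
      mp n (orb G σ (k + k0)) := by
    intro k
    rw [orb_shs hE, ← orb_add]
    rfl
  have hnode : ∀ r ≤ N, ∃ s : unitInterval, (s : ℝ) * N = r := by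
    intro r hr
    refine ⟨⟨(r : ℝ) / N, by positivity, ?_⟩, ?_⟩
    · rw [div_le_one hNr]
      exact_mod_cast hr
    · show (r : ℝ) / N * N = r
      field_simp
  refine ⟨fun k _ => ?_, fun s s' hs => ?_⟩
  · rw [horb]
    have hr := Nat.mod_lt (k + k0) hN
    obtain ⟨s, hs⟩ := hnode ((k + k0) % N) hr.le
    refine ⟨s, ?_⟩
    rw [poly_node hN _ hr.le s hs, orb_mod hper]
    exact pt_mp hn _
  · have i1 := rd_mono (N := N) hs
    have i2 := rd_le (N := N) s'
    have hidx : ∀ r, orb G σ (r + (N - k0) + k0) = orb G σ r := by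
      intro r
      rw [show r + (N - k0) + k0 = r + N by omega, orb_per hper]
    refine ⟨rd N s + (N - k0), rd N s' + (N - k0), by omega, by omega, ?_, ?_, ?_⟩
    · rw [horb, hidx]
      exact poly_mp hn σ hN s
    · rw [horb, hidx]
      exact poly_mp hn σ hN s'
    · intro k h1 h2
      obtain ⟨r, rfl⟩ : ∃ r, k = r + (N - k0) := ⟨k - (N - k0), by omega⟩
      rw [horb, hidx]
      rcases Nat.lt_or_ge (rd N s) r with h3 | h3
      · rcases Nat.lt_or_ge r (rd N s') with h4 | h4
        · obtain ⟨u, hu⟩ := hnode r (by omega)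
          have f1 : (s : ℝ) * N + 1 / 2 < (rd N s : ℝ) + 1 := by
            unfold rd
            exact Nat.lt_floor_add_one _
          have f2 : (rd N s' : ℝ) ≤ (s' : ℝ) * N + 1 / 2 := by
            unfold rd
            apply Nat.floor_le
            have : (0 : ℝ) ≤ (s' : ℝ) * N := mul_nonneg s'.2.1 (Nat.cast_nonneg N)
            linarith
          have f3 : (rd N s : ℝ) + 1 ≤ r := by exact_mod_cast h3
          have f4 : (r : ℝ) + 1 ≤ rd N s' := by exact_mod_cast h4
          refine ⟨u, ?_, ?_, ?_⟩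
          · show (s : ℝ) ≤ u
            have : (s : ℝ) * N ≤ u * N := by linarith
            exact le_of_mul_le_mul_right this hNr
          · show (u : ℝ) ≤ s'
            have : (u : ℝ) * N ≤ s' * N := by linarith
            exact le_of_mul_le_mul_right this hNr
          · rw [poly_node hN _ (by omega) u hu]
            exact pt_mp hn _
        · have : r = rd N s' := by omega
          rw [this]
          exact ⟨s', hs, le_rfl, poly_mp hn σ hN s'⟩
      · have : r = rd N s := by omega
        rw [this]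
        exact ⟨s, le_rfl, hs, poly_mp hn σ hN s⟩

end Run7.h561.EC
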