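import Pool.Agent.Run7.h561.EC.StmP
import Pool.Agent.W597.PDBL

/-! # The boundary part of the limits of the interface loops (port of `W597/PDBL.lean`) -/

set_option autoImplicit false

namespace Run7.h561.EC

open H974 H984P H342P H342L H342T H342P.Plain
open MeasureTheory Filter Topology Pool.Agent.W822.PD Pool.Agent.W597.PDBL
open scoped ENNReal NNReal

/-- An interface loop of the box: it starts at a vertex of the box. -/
def IsLoopB (n : ℕ) (F : Finset Plain.Edge) (c : Curve) : Prop :=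
  ∃ (σ : St) (N : ℕ), 0 < N ∧ σ.1 ∈ Plain.box n ∧ orb (↑F) σ N = σ ∧
    (∀ j, 0 < j → j < N → orb (↑F) σ j ≠ σ) ∧ c.path = poly (fun j => pt n (orb (↑F) σ j).1) N

/-- `γ` chooses an interface loop of the box. -/
def LpsB (γ : (n : ℕ) → Finset Plain.Edge → Curve) : Prop :=
  ∀ n F, 0 < n → F ⊆ Plain.edges n → IsLoopB n F (γ n F)

theorem LpsB.lps {γ : (n : ℕ) → Finset Plain.Edge → Curve} (h : LpsB γ) : Lps γ := by
  intro n F hn hF
  obtain ⟨σ, N, hN, -, h1, h2, h3⟩ := h n F hn hF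
  exact ⟨σ, N, hN, h1, h2, h3⟩

theorem loop_near {n : ℕ} (hn : 0 < n) {F : Finset Plain.Edge} (hF : F ⊆ Plain.edges n)
    {c : Curve} (hc : IsLoopB n F c) : ∃ v : Vtx, ∀ s : unitInterval,
    c.path s ∈ Sqc ∧ ∃ w : Vtx, Reach (↑F) v w ∧ |n * (c.path s).re - w.1| ≤ 1 ∧
      |n * (c.path s).im - w.2| ≤ 1 := by
  obtain ⟨σ, N, hN, hσ, hp, hmin, hpath⟩ := hc
  refine ⟨σ.1, fun s => ?_⟩
  have hn' : (0 : ℝ) < n := by exact_mod_cast hn
  have hr : ∀ j, Reach (↑F : Set Edg) σ.1 (orb (↑F) σ j).1 := by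
    intro j
    exact pb_reach _ _ _
  have hbox : ∀ j, (0 ≤ (orb (↑F) σ j).1.1 ∧ (orb (↑F) σ j).1.1 ≤ n) ∧
      (0 ≤ (orb (↑F) σ j).1.2 ∧ (orb (↑F) σ j).1.2 ≤ n) := by
    intro j
    have : (orb (↑F) σ j).1 ∈ box n := by
      apply CPT_box hF hσ
      rw [mem_cluster]
      exact hr j
    unfold box at this
    rwa [Finset.mem_product, Finset.mem_Icc, Finset.mem_Icc] at this
  have h1 : c.path s ∈ Set.range (poly (fun j => pt n (orb (↑F) σ j).1) N) := by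
    rw [hpath]
    exact ⟨s, rfl⟩
  rw [(t_POL _ N hN).2.2.1] at h1
  simp only [Set.mem_iUnion] at h1
  obtain ⟨j, hj, a, b, ha, hb, hab, hz⟩ := h1
  have hstep := nxt_fst (↑F : Set Edg) (orb (↑F) σ j)
  rw [← orb_succ] at hstep
  set w := (orb (↑F : Set Edg) σ j).1 with hw
  set w' := (orb (↑F : Set Edg) σ (j + 1)).1 with hw'
  have hb1 := hbox j
  have hb2 := hbox (j + 1)
  rw [← hw] at hb1
  rw [← hw'] at hb2
  have ere : (c.path s).re = a * ((w.1 : ℝ) / n) + b * ((w'.1 : ℝ) / n) := by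
    rw [← hz]
    simp [pt]
  have eim : (c.path s).im = a * ((w.2 : ℝ) / n) + b * ((w'.2 : ℝ) / n) := by
    rw [← hz]
    simp [pt]
  have c1 : (0 : ℝ) ≤ w.1 ∧ (w.1 : ℝ) ≤ n := ⟨by exact_mod_cast hb1.1.1, by exact_mod_cast hb1.1.2⟩
  have c2 : (0 : ℝ) ≤ w.2 ∧ (w.2 : ℝ) ≤ n := ⟨by exact_mod_cast hb1.2.1, by exact_mod_cast hb1.2.2⟩
  have c3 : (0 : ℝ) ≤ w'.1 ∧ (w'.1 : ℝ) ≤ n :=
    ⟨by exact_mod_cast hb2.1.1, by exact_mod_cast hb2.1.2⟩
  have c4 : (0 : ℝ) ≤ w'.2 ∧ (w'.2 : ℝ) ≤ n :=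
    ⟨by exact_mod_cast hb2.2.1, by exact_mod_cast hb2.2.2⟩
  have d1 : |(w'.1 : ℝ) - w.1| ≤ 1 := by exact_mod_cast hstep.1
  have d2 : |(w'.2 : ℝ) - w.2| ≤ 1 := by exact_mod_cast hstep.2
  have q : ∀ x : ℝ, 0 ≤ x ∧ x ≤ n → 0 ≤ x / n ∧ x / n ≤ 1 := fun x hx =>
    ⟨div_nonneg hx.1 hn'.le, (div_le_one hn').2 hx.2⟩
  refine ⟨⟨?_, ?_, ?_, ?_⟩, w, hr j, ?_, ?_⟩
  · rw [ere]
    exact add_nonneg (mul_nonneg ha (q _ c1).1) (mul_nonneg hb (q _ c3).1)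
  · rw [ere]
    have := mul_le_mul_of_nonneg_left (q _ c1).2 ha
    have := mul_le_mul_of_nonneg_left (q _ c3).2 hb
    linarith
  · rw [eim]
    exact add_nonneg (mul_nonneg ha (q _ c2).1) (mul_nonneg hb (q _ c4).1)
  · rw [eim]
    have := mul_le_mul_of_nonneg_left (q _ c2).2 ha
    have := mul_le_mul_of_nonneg_left (q _ c4).2 hb
    linarith
  · have : n * (c.path s).re - w.1 = b * ((w'.1 : ℝ) - w.1) := by
      rw [ere]
      field_simp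
      have : a = 1 - b := by linarith
      rw [this]
      ring
    rw [this, abs_mul, abs_of_nonneg hb]
    nlinarith [abs_nonneg ((w'.1 : ℝ) - w.1)]
  · have : n * (c.path s).im - w.2 = b * ((w'.2 : ℝ) - w.2) := by
      rw [eim]
      field_simp
      have : a = 1 - b := by linarith
      rw [this]
      ring
    rw [this, abs_mul, abs_of_nonneg hb]
    nlinarith [abs_nonneg ((w'.2 : ℝ) - w.2)]

theorem loop_event {n : ℕ} (hn : 0 < n) {F : Finset Plain.Edge} (hF : F ⊆ Plain.edges n)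
    {c : Curve} (hc : IsLoopB n F c) {z : ℂ} {r η : ℝ}
    (hη : 16 ≤ n * η) (hH : c ∈ HH z r (η / 2)) :
    ∃ u v : Vtx, inR ((nv n z).1 - (⌈n * r⌉₊ + 2 : ℕ)) ((nv n z).1 + (⌈n * r⌉₊ + 2 : ℕ))
      ((nv n z).2 - (⌈n * r⌉₊ + 2 : ℕ)) ((nv n z).2 + (⌈n * r⌉₊ + 2 : ℕ)) u ∧
      Far (nv n z) (⌊n * η / 8⌋₊ : ℕ) v ∧ Reach (↑F) u v := by
  obtain ⟨⟨s, hs⟩, t, ht⟩ := hH
  obtain ⟨v0, hv0⟩ := loop_near hn hF hc
  obtain ⟨-, w1, hw1, a1, a2⟩ := hv0 s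
  obtain ⟨-, w2, hw2, b1, b2⟩ := hv0 t
  obtain ⟨x1, x2⟩ := nv_near n z
  have hn' : (0 : ℝ) < n := by exact_mod_cast hn
  have hce : (n : ℝ) * r ≤ ⌈(n : ℝ) * r⌉₊ := Nat.le_ceil _
  have hfl : ((⌊(n : ℝ) * η / 8⌋₊ : ℕ) : ℝ) ≤ n * η / 8 := Nat.floor_le (by linarith)
  set x := nv n z with hx
  have s1 : |(c.path s).re - z.re| < r := by
    refine lt_of_le_of_lt ?_ hs
    rw [dist_eq_norm, ← Complex.sub_re]
    exact Complex.abs_re_le_norm _
  have s2 : |(c.path s).im - z.im| < r := by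
    refine lt_of_le_of_lt ?_ hs
    rw [dist_eq_norm, ← Complex.sub_im]
    exact Complex.abs_im_le_norm _
  have s3 : η / 2 < |(c.path t).re - z.re| + |(c.path t).im - z.im| := by
    refine lt_of_lt_of_le ht ?_
    rw [dist_eq_norm, ← Complex.sub_re, ← Complex.sub_im]
    exact Complex.norm_le_abs_re_add_abs_im _
  refine ⟨w1, w2, ?_, ?_, hw1.symm.trans hw2⟩
  · have key : ∀ (p q : ℤ) (α β : ℝ), |n * α - p| ≤ 1 → |n * β - q| ≤ 1 → |α - β| < r →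
        q - ((⌈n * r⌉₊ + 2 : ℕ) : ℤ) ≤ p ∧ p ≤ q + ((⌈n * r⌉₊ + 2 : ℕ) : ℤ) := by
      intro p q α β h1 h2 h3
      rw [abs_le] at h1 h2
      rw [abs_lt] at h3
      have h4 : (n : ℝ) * α - n * β ≤ n * r := by nlinarith
      have h5 : -(n * r) ≤ (n : ℝ) * α - n * β := by nlinarith
      constructor
      · have : (q : ℝ) - ((⌈n * r⌉₊ + 2 : ℕ) : ℝ) ≤ p := by
          push_cast
          linarith
        exact_mod_cast this
      · have : (p : ℝ) ≤ q + ((⌈n * r⌉₊ + 2 : ℕ) : ℝ) := by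
          push_cast
          linarith
        exact_mod_cast this
    exact ⟨key _ _ _ _ a1 x1 s1, key _ _ _ _ a2 x2 s2⟩
  · have key : ∀ (p q : ℤ) (α β : ℝ), |n * α - p| ≤ 1 → |n * β - q| ≤ 1 → η / 4 < |α - β| →
        p ≤ q - ((⌊n * η / 8⌋₊ : ℕ) : ℤ) ∨ q + ((⌊n * η / 8⌋₊ : ℕ) : ℤ) ≤ p := by
      intro p q α β h1 h2 h3
      rw [abs_le] at h1 h2
      rw [lt_abs] at h3
      rcases h3 with h3 | h3
      · right
        have h4 : n * η / 4 ≤ (n : ℝ) * α - n * β := by nlinarith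
        have : (q : ℝ) + ((⌊n * η / 8⌋₊ : ℕ) : ℝ) ≤ p := by linarith
        exact_mod_cast this
      · left
        have h4 : n * η / 4 ≤ (n : ℝ) * β - n * α := by nlinarith
        have : (p : ℝ) ≤ q - ((⌊n * η / 8⌋₊ : ℕ) : ℝ) := by linarith
        exact_mod_cast this
    unfold Far
    by_cases h : η / 4 < |(c.path t).re - z.re|
    · rcases key _ _ _ _ b1 x1 h with h | h
      · exact Or.inl h
      · exact Or.inr (Or.inl h)
    · rcases key _ _ _ _ b2 x2 (by linarith) with h | h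
      · exact Or.inr (Or.inr (Or.inl h))
      · exact Or.inr (Or.inr (Or.inr h))

section
variable {γ : (n : ℕ) → Finset Plain.Edge → Curve}

theorem loop_prob_le (hT : LpsB γ) {C : ℝ} (hC : 0 < C)
    (hHB : ∀ (n ρ k : ℕ) (x : Vtx), 1 ≤ ρ → ρ ≤ k →
      (x.1 = 0 ∨ x.1 = n ∨ x.2 = 0 ∨ x.2 = n) → inR 0 n 0 n x →
      Pr (fun _ => (1/2:ℝ)) (RE 0 n 0 n) (fun F => ∃ u v : Vtx,
        inR (x.1 - ρ) (x.1 + ρ) (x.2 - ρ) (x.2 + ρ) u ∧ Far x k v ∧ Reach (↑F) u v) ≤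
          C * ((ρ:ℝ) / k) ^ (1/3 : ℝ)) {z : ℂ} (hz : z ∈ Sqc \ Pool.Agent.W822.PD.Sq) {r η : ℝ} (hr : 0 < r)
    (hrη : 16 * r ≤ η) {n : ℕ} (hn : 64 ≤ n * r) :
    (lawOf n (γ n) : Measure Curve) (HH z r (η / 2)) ≤
      ENNReal.ofReal (C * (32 * r / η) ^ (1/3 : ℝ)) := by
  have hn0 : 0 < n := by
    rcases Nat.eq_zero_or_pos n with h | h
    · rw [h] at hn
      norm_num at hn
    · exact h
  obtain ⟨s1, s2, s3⟩ := sizes hr hrη hn
  obtain ⟨b1, b2⟩ := nv_bdry (n := n) hz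
  rw [lawOf_apply _ _ (HH_open _ _ _).measurableSet]
  apply ENNReal.ofReal_le_ofReal
  refine (prob_le_of_pr (B := fun F => ∃ u v : Vtx,
    inR ((nv n z).1 - (⌈n * r⌉₊ + 2 : ℕ)) ((nv n z).1 + (⌈n * r⌉₊ + 2 : ℕ))
      ((nv n z).2 - (⌈n * r⌉₊ + 2 : ℕ)) ((nv n z).2 + (⌈n * r⌉₊ + 2 : ℕ)) u ∧
      Far (nv n z) (⌊n * η / 8⌋₊ : ℕ) v ∧ Reach (↑F) u v) ?_).trans ?_
  · intro F hF hE
    have hη : 16 ≤ n * η := by
      have : (n : ℝ) * (16 * r) ≤ n * η := mul_le_mul_of_nonneg_left hrη (Nat.cast_nonneg n)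
      linarith
    exact loop_event hn0 hF (hT n F hn0 hF) hη hE
  · refine (hHB n _ _ (nv n z) s1 s2 b1 b2).trans ?_
    apply mul_le_mul_of_nonneg_left _ hC.le
    exact Real.rpow_le_rpow (by positivity) s3 (by norm_num)

theorem loop_range_sub (hT : LpsB γ) {k : ℕ → ℕ} (hk : Tendsto k atTop atTop)
    {μ : ProbabilityMeasure Curve} (hμ : Tendsto (fun i => lawOf (k i) (γ (k i))) atTop (𝓝 μ)) :
    ∀ᵐ c : Curve ∂(μ : Measure Curve), Set.range c.path ⊆ Sqc := by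
  have hcl : IsClosed Sqc := by
    have e : Sqc = csq := by
      ext z
      simp only [Sqc, csq, Set.mem_ofPred_eq]
      tauto
    rw [e]
    exact isClosed_csq
  have hopen : IsOpen {c : Curve | ∃ s : unitInterval, c.path s ∈ Sqcᶜ} :=
    isOpen_hit hcl.isOpen_compl
  have h0 : (μ : Measure Curve) {c : Curve | ∃ s : unitInterval, c.path s ∈ Sqcᶜ} = 0 := by
    apply le_antisymm _ bot_le
    refine (ProbabilityMeasure.le_liminf_measure_open_of_tendsto hμ hopen).trans ?_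
    refine liminf_le_of_frequently_le (Eventually.frequently ?_)
    have hev : ∀ᶠ i in atTop, 1 ≤ k i := tendsto_atTop.mp hk _
    filter_upwards [hev] with i hi
    rw [lawOf_apply _ _ hopen.measurableSet]
    have : prob (k i) (fun F => γ (k i) F ∈ {c : Curve | ∃ s : unitInterval, c.path s ∈ Sqcᶜ}) ≤
        prob (k i) (fun _ => ¬ True) := by
      apply prob_mono
      rintro F hF ⟨s, hs⟩
      obtain ⟨v0, hv0⟩ := loop_near hi hF (hT _ F hi hF)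
      exact absurd (hv0 s).1 hs
    rw [prob_not, prob_true, sub_self] at this
    rw [ENNReal.ofReal_of_nonpos this]
    exact le_rfl
  filter_upwards [compl_mem_ae_iff.mpr h0] with c hc
  rintro _ ⟨s, rfl⟩
  by_contra hcon
  exact hc ⟨s, hcon⟩

end

/-- BL for the loops. -/
theorem loop_bl (hb : Pool.Agent.W822.PD.PD_HB) {γ : (n : ℕ) → Finset Plain.Edge → Curve}
    (hT : LpsB γ) {k : ℕ → ℕ} (hk : Tendsto k atTop atTop) {μ : ProbabilityMeasure Curve}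
    (hμ : Tendsto (fun i => lawOf (k i) (γ (k i))) atTop (𝓝 μ)) {η : ℝ} (hη : 0 < η) :
    ∀ᵐ c : Curve ∂(μ : Measure Curve), Set.range c.path ⊆ Sqc ∧
      dimH {z | z ∈ Set.range c.path ∧ z ∈ Sqc \ Pool.Agent.W822.PD.Sq ∧
        ∃ u, η ≤ dist (c.path u) z} ≤ ENNReal.ofReal (2/3) := by
  obtain ⟨C, hC, hHB⟩ := hb
  have hp : ∀ (z : ℂ) (r : ℝ), 0 < r → 16 * r ≤ η → z ∈ Sqc \ Pool.Agent.W822.PD.Sq →
      ∀ᶠ i in atTop, (lawOf (k i) (γ (k i)) : Measure Curve) (HH z r (η / 2)) ≤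
          ENNReal.ofReal (C * (32 * r / η) ^ (1 / 3 : ℝ)) := by
    intro z r hr hrη hz
    obtain ⟨n1, hn1⟩ := exists_nat_gt (64 / r)
    have hev : ∀ᶠ i in atTop, n1 ≤ k i := tendsto_atTop.mp hk _
    filter_upwards [hev] with i hi
    refine loop_prob_le hT hC hHB hz hr hrη ?_
    rw [div_lt_iff₀ hr] at hn1
    have : (n1 : ℝ) ≤ k i := by exact_mod_cast hi
    nlinarith
  have h1 : ∀ j : ℕ, ∀ᵐ c ∂(μ : Measure Curve),
      dimH (BS η c) ≤ ENNReal.ofReal (2 / 3 + 1 / ((j : ℝ) + 1)) := by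
    intro j
    have hj : 0 < 1 / ((j : ℝ) + 1) := by positivity
    exact one_exp hC hη hμ hp (by linarith)
  have h2 : ∀ᵐ c ∂(μ : Measure Curve), ∀ j : ℕ,
      dimH (BS η c) ≤ ENNReal.ofReal (2 / 3 + 1 / ((j : ℝ) + 1)) := by
    rw [ae_all_iff]
    exact h1
  filter_upwards [h2, loop_range_sub hT hk hμ] with c hc hc2
  refine ⟨hc2, ?_⟩
  have hlim : Tendsto (fun j : ℕ => ENNReal.ofReal (2 / 3 + 1 / ((j : ℝ) + 1))) atTop
      (𝓝 (ENNReal.ofReal (2 / 3 + 0))) :=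
    ENNReal.tendsto_ofReal (tendsto_const_nhds.add tendsto_one_div_add_atTop_nhds_zero_nat)
  rw [add_zero] at hlim
  exact ge_of_tendsto' hlim (fun j => hc j)

end Run7.h561.EC
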