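import Pool.Agent.Run7.h561.EC.P_L1
import Pool.Agent.H984R3.Per.Pot
import Pool.Agent.H984R3.Per.Basic

/-! # LINK: the two colours near a box (deterministic) -/

set_option autoImplicit false

namespace Run7.h561.EC

open H974 H12S Finset H984P H984N Run7.h561

/-- Position relative to `q`. -/
def rel (q : ℤ × ℤ) (v : Vtx) : Vtx := (v.1 - q.1, v.2 - q.2)

/-- The exploration near the box with lower left corner `q` and side `N`: `E` is the configuration,
`σ0` the first state, `T` the number of steps, `F` the random part. -/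
structure Nbh (E : Set Edg) (σ0 : St) (T : ℕ) (F : Finset Edg) (q : ℤ × ℤ) (N : ℕ) : Prop where
  inv : ∃ A : Set St, (∀ σ, σ ∈ A ↔ nxt E σ ∈ A) ∧ σ0 ∈ A ∧
    ∀ σ ∈ A, inR q.1 (q.1 + N) q.2 (q.2 + N) σ.1 → ∃ k ≤ T, orb E σ0 k = σ
  loc : ∀ e : Edg, inR q.1 (q.1 + N) q.2 (q.2 + N) (src e) →
    inR q.1 (q.1 + N) q.2 (q.2 + N) (tgt e) → (e ∈ E ↔ e ∈ F)
  out : rel q σ0.1 ∈ FrB N
  dout : rel q (face σ0) ∈ FrB (N - 1)

/-- The objects `obj k`, `k ≤ T`, seen from `w`, which has the other colour. -/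
structure Lnk (obj : ℕ → Vtx) (T : ℕ) (A : Set Vtx) (N : ℕ) (w : Vtx) (F : Set Edg) : Prop where
  mem : ∀ k ≤ T, obj k ∈ A
  adm : Adm0 N F A
  flip : ∃ c : Vtx → ZMod 2, (∀ v ∈ A, c v = 0) ∧ c w = 1 ∧ ∀ e : Edg, inR 0 N 0 N (src e) →
    inR 0 N 0 N (tgt e) → c (src e) ≠ c (tgt e) → ∃ k ≤ T, obj k = src e ∨ obj k = tgt e

theorem flip_path {c : Vtx → ZMod 2} {G : Set Edg} {u v : Vtx} (h : Reach G u v)
    (hne : c u ≠ c v) : ∃ e ∈ G, c (src e) ≠ c (tgt e) := by
  by_contra hcon
  push Not at hcon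
  apply hne
  refine reach_inv (P := fun x => c u = c x) ?_ h rfl
  rintro x y hx ⟨e, he, ⟨rfl, rfl⟩ | ⟨rfl, rfl⟩⟩
  · rw [hx]; exact hcon e he
  · rw [hx]; exact (hcon e he).symm

theorem not_FrB {N : ℕ} {x : Vtx} (h : x ∉ FrB N) : (0 < x.1 ∧ x.1 < N) ∧ 0 < x.2 ∧ x.2 < N := by
  unfold FrB at h
  rw [Set.mem_setOf_eq] at h
  omega

theorem zm2 (a : ZMod 2) : a = 0 ∨ a = 1 := by
  revert a; decide

/-- A vertex which keeps away from itself. -/
theorem ClB_self {M B N : ℕ} {A : Set Vtx} {v u : Vtx} (hB : 1 ≤ B) (h : ClB M B N A v u)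
    (hu : u ∈ A ∪ FrB N) : u = v := by
  have h1 := h u hu
  have h2 : sd u u = 0 := by unfold sd; simp
  rw [h2, mul_zero] at h1
  have h3 := sd_nonneg u v
  have h4 : sd u v = 0 := by
    by_contra hne
    have : 0 < sd u v ^ B := pow_pos (by omega) B
    omega
  have h5 := sd_le.1 (le_of_eq h4)
  ext
  · omega
  · omega

/-- Near a vertex from which `w` is accessible there is a visited object. -/
theorem Lnk.near {obj : ℕ → Vtx} {T : ℕ} {A : Set Vtx} {N : ℕ} {w : Vtx} {F : Set Edg}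
    (L : Lnk obj T A N w F) {M B : ℕ} {v x : Vtx} (hB : 1 ≤ B) (hv : v ∈ A)
    (hv1 : 2 ≤ v.1) (hv2 : v.1 + 2 ≤ N) (hv3 : 2 ≤ v.2) (hv4 : v.2 + 2 ≤ N) (hx : sd x v ≤ 2)
    (hr : Reach {e | ClB M B N A v (src e) ∧ ClB M B N A v (tgt e)} x w) :
    ∃ k ≤ T, sd (obj k) v ≤ 2 := by
  obtain ⟨c, c1, c2, c3⟩ := L.flip
  rcases zm2 (c x) with hcx | hcx
  · obtain ⟨e, ⟨he1, he2⟩, he⟩ := flip_path (c := c) hr (by rw [hcx, c2]; decide)
    have key : ∀ u, ClB M B N A v u → inR 0 N 0 N u := by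
      intro u hu
      by_cases hF : u ∈ FrB N
      · have := ClB_self hB hu (Or.inr hF)
        rw [this]
        unfold inR
        omega
      · have := not_FrB hF
        unfold inR
        omega
    obtain ⟨k, hk, hk2⟩ := c3 e (key _ he1) (key _ he2) he
    refine ⟨k, hk, ?_⟩
    have hkA := L.mem k hk
    have h1 : obj k = v := by
      rcases hk2 with h | h
      · exact ClB_self hB (by rw [h]; exact he1) (Or.inl hkA)
      · exact ClB_self hB (by rw [h]; exact he2) (Or.inl hkA)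
    rw [h1]
    unfold sd; simp
  · have h1 : Reach {e | sd (src e) v ≤ 2 ∧ sd (tgt e) v ≤ 2} v x :=
      ball_path (P := fun u => sd u v ≤ 2) v 2 (by unfold sd; simp) hx (fun u hu => hu)
    obtain ⟨e, ⟨he1, he2⟩, he⟩ := flip_path (c := c) h1 (by rw [hcx, c1 v hv]; decide)
    have key : ∀ u, sd u v ≤ 2 → inR 0 N 0 N u := by
      intro u hu
      rw [sd_le] at hu
      unfold inR
      omega
    obtain ⟨k, hk, hk2⟩ := c3 e (key _ he1) (key _ he2) he
    refine ⟨k, hk, ?_⟩
    rcases hk2 with h | h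
    · rw [h]; exact he1
    · rw [h]; exact he2

/-- `A` keeps away from `w`. -/
theorem Lnk.far {obj : ℕ → Vtx} {T : ℕ} {A : Set Vtx} {N : ℕ} {w : Vtx} {F : Set Edg}
    (L : Lnk obj T A N w F) {D : ℤ} (hD : 1 ≤ D) (hfar : ∀ k ≤ T, D ≤ sd (obj k) w)
    (h1 : D ≤ w.1) (h2 : w.1 + D ≤ N) (h3 : D ≤ w.2) (h4 : w.2 + D ≤ N) :
    ∀ c ∈ A, D ≤ sd c w := by
  intro v hv
  obtain ⟨c, c1, c2, c3⟩ := L.flip
  by_contra hcon
  push Not at hcon
  have h5 : Reach {e | sd (src e) w ≤ D - 1 ∧ sd (tgt e) w ≤ D - 1} v w :=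
    ball_path (P := fun u => sd u w ≤ D - 1) w (D - 1) (by omega)
      (by rw [show sd w w = 0 by unfold sd; simp]; omega) (fun u hu => hu)
  obtain ⟨e, ⟨he1, he2⟩, he⟩ := flip_path (c := c) h5 (by rw [c2, c1 v hv]; decide)
  have key : ∀ u, sd u w ≤ D - 1 → inR 0 N 0 N u := by
    intro u hu
    rw [sd_le] at hu
    unfold inR
    omega
  obtain ⟨k, hk, hk2⟩ := c3 e (key _ he1) (key _ he2) he
  have h6 := hfar k hk
  rcases hk2 with h | h
  · rw [h] at h6; omega
  · rw [h] at h6; omega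

/-! ### Translation -/

/-- Translated edge. -/
def sh (q : ℤ × ℤ) (e : Edg) : Edg := (e.1 + q.1, e.2.1 + q.2, e.2.2)

/-- Translated vertex. -/
def shv (q : ℤ × ℤ) (v : Vtx) : Vtx := (v.1 + q.1, v.2 + q.2)

theorem src_sh (q : ℤ × ℤ) (e : Edg) : src (sh q e) = shv q (src e) := by
  obtain ⟨x, y, _ | _⟩ := e <;> simp [sh, shv]

theorem tgt_sh (q : ℤ × ℤ) (e : Edg) : tgt (sh q e) = shv q (tgt e) := by
  obtain ⟨x, y, _ | _⟩ := e
  · simp only [sh, shv, tgt_false]; ext <;> simp only; ring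
  · simp only [sh, shv, tgt_true]; ext <;> simp only; ring

theorem shv_rel (q : ℤ × ℤ) (v : Vtx) : shv q (rel q v) = v := by
  unfold shv rel
  ext <;> simp

theorem rel_shv (q : ℤ × ℤ) (v : Vtx) : rel q (shv q v) = v := by
  unfold shv rel
  ext <;> simp

theorem shv_inj {q : ℤ × ℤ} {u v : Vtx} (h : shv q u = shv q v) : u = v := by
  rw [← rel_shv q u, h, rel_shv]

theorem dls_sh (q : ℤ × ℤ) (e : Edg) : dl.symm (sh q e) = sh q (dl.symm e) := by
  obtain ⟨x, y, _ | _⟩ := e
  · simp only [sh, dls_f, Prod.mk.injEq, and_true, true_and]; ring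
  · simp only [sh, dls_t, Prod.mk.injEq, and_true, true_and]; ring

theorem reach_sh {G : Set Edg} {q : ℤ × ℤ} {x y : Vtx} :
    Reach {e | sh q e ∈ G} x y ↔ Reach G (shv q x) (shv q y) := by
  have e1 : ∀ e : Edg, (trl q.1 q.2).φ e = sh q e := by rintro ⟨x, y, b⟩; rfl
  have e2 : ∀ v : Vtx, (trl q.1 q.2).ψ v = shv q v := by rintro ⟨x, y⟩; rfl
  have h1 := (trl q.1 q.2).reach_iff (F := {e | sh q e ∈ G}) (u := x) (v := y)
  rw [e2, e2] at h1
  rw [← h1]
  have h2 : (trl q.1 q.2).φ '' {e | sh q e ∈ G} = G := by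
    ext e
    constructor
    · rintro ⟨g, hg, rfl⟩
      rw [e1]; exact hg
    · intro he
      refine ⟨(trl q.1 q.2).φ.symm e, ?_, Equiv.apply_symm_apply _ _⟩
      show sh q _ ∈ G
      rw [← e1, Equiv.apply_symm_apply]
      exact he
  rw [h2]

theorem dreach_sh {E : Set Edg} {q : ℤ × ℤ} {x y : Vtx} :
    Reach {e | dl.symm (sh q e) ∉ E} x y ↔ DReach Eᶜ (shv q x) (shv q y) := by
  rw [← reach_dl, ← reach_sh]
  have : {e | dl.symm (sh q e) ∉ E} = {e | sh q e ∈ dl '' Eᶜ} := by
    ext e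
    constructor
    · intro h
      exact ⟨dl.symm (sh q e), h, Equiv.apply_symm_apply _ _⟩
    · rintro ⟨g, hg, h⟩
      show dl.symm (sh q e) ∉ E
      rw [← h, Equiv.symm_apply_apply]
      exact hg
  rw [this]

/-- The path leaves the box. -/
theorem exit_gen {G G' : Set Edg} {n : ℕ} (hG : ∀ e ∈ G, inR 0 n 0 n (src e) →
    inR 0 n 0 n (tgt e) → e ∈ G') {x y : Vtx} (hx : x ∉ FrB n) (hy : y ∈ FrB n)
    (h : Reach G x y) : ∃ y' ∈ FrB n, Reach G' x y' := by
  obtain ⟨w', w, w1, w2, w3, w4, -⟩ := first_hit (FrB n) h hx hy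
  refine ⟨w, w1, Reach.trans (w4.mono ?_) (Adj.reach ?_)⟩
  · rintro e ⟨e1, e2, e3⟩
    have h2 := not_FrB e2
    have h3 := not_FrB e3
    refine hG e e1 ?_ ?_
    · unfold inR; omega
    · unfold inR; omega
  · have hstep := adj_step w3
    have h2 := not_FrB w2
    obtain ⟨e, e1, e2⟩ := w3
    refine ⟨e, hG e e1 ?_ ?_, e2⟩
    · unfold inR
      rcases e2 with ⟨rfl, rfl⟩ | ⟨rfl, rfl⟩ <;> omega
    · unfold inR
      rcases e2 with ⟨rfl, rfl⟩ | ⟨rfl, rfl⟩ <;> omega

theorem mem_Sub {F : Finset Edg} {q : ℤ × ℤ} {n : ℕ} {e : Edg} :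
    e ∈ Sub F q n ↔ sh q e ∈ F ∧ e ∈ RE 0 n 0 n := by
  unfold Sub
  rw [Finset.mem_inter, LSym.mem_mp]
  have : (trl (-q.1) (-q.2)).φ.symm e = sh q e := by
    obtain ⟨x, y, b⟩ := e
    rw [trl_φs]
    unfold sh
    simp
  rw [this]

/-- The normalised potentials. -/
theorem pot_norm {E : Set Edg} {A : Set St} (hinv : ∀ σ, σ ∈ A ↔ nxt E σ ∈ A) {σ0 : St}
    (h0 : σ0 ∈ A) : ∃ hv hf : Vtx → ZMod 2, (∀ σ : St, hv σ.1 + hf (face σ) = b2 (σ ∈ A)) ∧
      (∀ e ∈ E, hv (src e) = hv (tgt e)) ∧ (∀ e, e ∉ E → hf (dsrc e) = hf (dtgt e)) ∧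
      hv σ0.1 = 0 ∧ hf (face σ0) = 1 := by
  obtain ⟨hv, hf, p1, p2, p3⟩ := pot_of_inv E A hinv
  have h1 := p1 σ0
  rw [b2_of h0] at h1
  have two : ∀ z : ZMod 2, z + z = 0 := zmod2_add_self
  refine ⟨fun v => hv v + hv σ0.1, fun f => hf f + hv σ0.1, ?_, ?_, ?_, two _, ?_⟩
  · intro σ
    rw [← p1 σ]
    have := two (hv σ0.1)
    linear_combination this
  · intro e he
    simp only
    rw [p2 e he]
  · intro e he
    simp only
    rw [p3 e he]
  · show hf (face σ0) + hv σ0.1 = 1
    rw [add_comm]; exact h1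

theorem pot_reach {E : Set Edg} {hv : Vtx → ZMod 2} (p2 : ∀ e ∈ E, hv (src e) = hv (tgt e))
    {u v : Vtx} (h : Reach E u v) : hv u = hv v := by
  refine reach_inv (P := fun x => hv u = hv x) ?_ h rfl
  rintro x y hx ⟨e, he, ⟨rfl, rfl⟩ | ⟨rfl, rfl⟩⟩
  · rw [hx]; exact p2 e he
  · rw [hx]; exact (p2 e he).symm

theorem pot_dreach {E : Set Edg} {hf : Vtx → ZMod 2}
    (p3 : ∀ e, e ∉ E → hf (dsrc e) = hf (dtgt e))
    {u v : Vtx} (h : DReach Eᶜ u v) : hf u = hf v := by
  rw [← reach_dl] at h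
  refine reach_inv (P := fun x => hf u = hf x) ?_ h rfl
  rintro x y hx ⟨e, ⟨g, hg, rfl⟩, ⟨rfl, rfl⟩ | ⟨rfl, rfl⟩⟩
  · rw [hx, src_dl, tgt_dl]; exact p3 g hg
  · rw [hx, src_dl, tgt_dl]; exact (p3 g hg).symm

/-- **LINK** -/
theorem link {E : Set Edg} {σ0 : St} {T : ℕ} {F : Finset Edg} {q : ℤ × ℤ} {N : ℕ}
    (h : Nbh E σ0 T F q N) (hN : 1 ≤ N) {w : Vtx} (hw : inR 0 N 0 N w)
    (hfar : ∀ k ≤ T, rel q (orb E σ0 k).1 ≠ w) :
    Lnk (fun k => rel q (orb E σ0 k).1) T {x | Reach E σ0.1 (shv q x)} N w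
      (↑(Sub F q N) : Set Edg) ∨
    Lnk (fun k => rel q (face (orb E σ0 k))) T {x | DReach Eᶜ (face σ0) (shv q x)} (N - 1) w
      (dualc N (↑(Sub F q N) : Set Edg)) := by
  obtain ⟨A, hinv, hA0, hvis⟩ := h.inv
  obtain ⟨hv, hf, p1, p2, p3, p4, p5⟩ := pot_norm hinv hA0
  have hor : ∀ k, Reach E σ0.1 (orb E σ0 k).1 := fun k =>
    (orb_reach (F := E) (W := Set.univ) (σ := σ0) (T := k) (fun _ _ => Set.mem_univ _)
      le_rfl).mono Set.inter_subset_left
  have hod : ∀ k, DReach Eᶜ (face σ0) (face (orb E σ0 k)) := fun k =>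
    (orb_dreach (F := E) (W := Set.univ) (σ := σ0) (T := k) (fun _ _ => Set.mem_univ _)
      le_rfl).mono (fun e he => he.2)
  -- edges in the box
  have hbox : ∀ u : Vtx, inR 0 N 0 N u → inR q.1 (q.1 + N) q.2 (q.2 + N) (shv q u) := by
    intro u hu
    unfold inR at hu ⊢
    unfold shv
    simp only
    omega
  have hloc : ∀ e : Edg, inR 0 N 0 N (src e) → inR 0 N 0 N (tgt e) →
      (sh q e ∈ E ↔ e ∈ Sub F q N) := by
    intro e h1 h2
    rw [mem_Sub, mem_RE]
    have h3 := h.loc (sh q e) (by rw [src_sh]; exact hbox _ h1) (by rw [tgt_sh]; exact hbox _ h2)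
    rw [h3]
    exact ⟨fun h4 => ⟨h4, h1, h2⟩, fun h4 => h4.1⟩
  have hNc : ((N - 1 : ℕ) : ℤ) = (N : ℤ) - 1 := by omega
  rcases zm2 (hv (shv q w)) with hc | hc
  · -- the colour of the path: dual objects
    right
    have hnA : ((shv q w, Q4.ne) : St) ∉ A := by
      intro hcon
      obtain ⟨k, hk, hk2⟩ := hvis _ hcon (hbox _ hw)
      apply hfar k hk
      rw [hk2]
      exact rel_shv q w
    have hcf : hf (shv q w) = 0 := by
      have h1 := p1 (shv q w, Q4.ne)
      rw [b2_not_of hnA] at h1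
      have h2 : face ((shv q w, Q4.ne) : St) = shv q w := rfl
      rw [h2, hc, zero_add] at h1
      exact h1
    have hdl : ∀ e : Edg, inR 0 ((N : ℤ) - 1) 0 ((N : ℤ) - 1) (src e) →
        inR 0 ((N : ℤ) - 1) 0 ((N : ℤ) - 1) (tgt e) →
        (dl.symm (sh q e) ∉ E ↔ e ∈ dualc N (↑(Sub F q N) : Set Edg)) := by
      intro e h1 h2
      rw [dls_sh]
      have h3 : inR 0 N 0 N (src (dl.symm e)) ∧ inR 0 N 0 N (tgt (dl.symm e)) := by
        obtain ⟨x, y, _ | _⟩ := e
        · simp only [dls_f, src_mk, tgt_true, tgt_false, inR] at *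
          omega
        · simp only [dls_t, src_mk, tgt_true, tgt_false, inR] at *
          omega
      rw [hloc _ h3.1 h3.2]
      unfold dualc
      rw [Set.mem_setOf_eq, mem_RE, Finset.mem_coe]
      exact ⟨fun h4 => ⟨⟨h1, h2⟩, h4⟩, fun h4 => h4.2⟩
    refine ⟨fun k _ => ?_, ?_, fun x => hf (shv q x) + 1, ?_, ?_, ?_⟩
    · show DReach Eᶜ (face σ0) (shv q (rel q (face (orb E σ0 k))))
      rw [shv_rel]
      exact hod k
    · intro x hx hxF
      have hx' : DReach Eᶜ (face σ0) (shv q x) := hx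
      refine ⟨?_, ?_⟩
      · intro y hy
        have hy' : Reach (dualc N (↑(Sub F q N) : Set Edg)) x y := hy
        show DReach Eᶜ (face σ0) (shv q y)
        refine hx'.trans (dreach_sh.1 (hy'.mono ?_))
        intro e he
        have he' := he
        unfold dualc at he'
        rw [Set.mem_setOf_eq, mem_RE] at he'
        exact (hdl e he'.1.1 he'.1.2).2 he
      · refine (exit_gen (G := {e | dl.symm (sh q e) ∉ E}) (y := rel q (face σ0)) ?_ hxF
          h.dout ?_).imp fun y' hy' => ⟨hy'.2, hy'.1⟩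
        · intro e he h1 h2
          rw [hNc] at h1 h2
          exact (hdl e h1 h2).1 he
        · rw [dreach_sh, shv_rel]
          exact hx'.symm
    · intro v hv'
      have h1 := pot_dreach p3 (show DReach Eᶜ (face σ0) (shv q v) from hv')
      show hf (shv q v) + 1 = 0
      rw [← h1, p5]
      decide
    · show hf (shv q w) + 1 = 1
      rw [hcf]
      decide
    · intro e h1 h2 hne
      rw [hNc] at h1 h2
      have hne' : hf (shv q (src e)) ≠ hf (shv q (tgt e)) := fun h => hne (by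
        show hf (shv q (src e)) + 1 = hf (shv q (tgt e)) + 1
        rw [h])
      obtain ⟨x, y, _ | _⟩ := e
      · -- vertical: common vertex `(x, y + 1)`
        simp only [src_mk, tgt_false] at *
        set u : Vtx := shv q (x, y + 1) with hu
        have hub : inR q.1 (q.1 + N) q.2 (q.2 + N) u := hbox _ (by
          unfold inR at h1 h2 ⊢
          simp only at h1 h2 ⊢
          omega)
        have f1 : face ((u, Q4.se) : St) = shv q (x, y) := by
          simp only [face, hu, shv]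
          ext
          · rfl
          · simp only; ring
        have f2 : face ((u, Q4.ne) : St) = shv q (x, y + 1) := rfl
        have a1 := p1 (u, Q4.se)
        have a2 := p1 (u, Q4.ne)
        rw [f1] at a1
        rw [f2] at a2
        simp only at a1 a2
        by_cases b1 : ((u, Q4.se) : St) ∈ A
        · obtain ⟨k, hk, hk2⟩ := hvis _ b1 hub
          refine ⟨k, hk, Or.inl ?_⟩
          show rel q (face (orb E σ0 k)) = (x, y)
          rw [hk2, f1, rel_shv]
        · by_cases b2' : ((u, Q4.ne) : St) ∈ A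
          · obtain ⟨k, hk, hk2⟩ := hvis _ b2' hub
            refine ⟨k, hk, Or.inr ?_⟩
            show rel q (face (orb E σ0 k)) = (x, y + 1)
            rw [hk2, f2, rel_shv]
          · exfalso
            apply hne'
            rw [b2_not_of b1] at a1
            rw [b2_not_of b2'] at a2
            exact add_left_cancel (a1.trans a2.symm)
      · -- horizontal: common vertex `(x + 1, y)`
        simp only [src_mk, tgt_true] at *
        set u : Vtx := shv q (x + 1, y) with hu
        have hub : inR q.1 (q.1 + N) q.2 (q.2 + N) u := hbox _ (by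
          unfold inR at h1 h2 ⊢
          simp only at h1 h2 ⊢
          omega)
        have f1 : face ((u, Q4.nw) : St) = shv q (x, y) := by
          simp only [face, hu, shv]
          ext
          · simp only; ring
          · rfl
        have f2 : face ((u, Q4.ne) : St) = shv q (x + 1, y) := rfl
        have a1 := p1 (u, Q4.nw)
        have a2 := p1 (u, Q4.ne)
        rw [f1] at a1
        rw [f2] at a2
        simp only at a1 a2
        by_cases b1 : ((u, Q4.nw) : St) ∈ A
        · obtain ⟨k, hk, hk2⟩ := hvis _ b1 hub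
          refine ⟨k, hk, Or.inl ?_⟩
          show rel q (face (orb E σ0 k)) = (x, y)
          rw [hk2, f1, rel_shv]
        · by_cases b2' : ((u, Q4.ne) : St) ∈ A
          · obtain ⟨k, hk, hk2⟩ := hvis _ b2' hub
            refine ⟨k, hk, Or.inr ?_⟩
            show rel q (face (orb E σ0 k)) = (x + 1, y)
            rw [hk2, f2, rel_shv]
          · exfalso
            apply hne'
            rw [b2_not_of b1] at a1
            rw [b2_not_of b2'] at a2
            exact add_left_cancel (a1.trans a2.symm)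
  · -- the other colour: vertices
    left
    refine ⟨fun k _ => ?_, ?_, fun x => hv (shv q x), ?_, hc, ?_⟩
    · show Reach E σ0.1 (shv q (rel q (orb E σ0 k).1))
      rw [shv_rel]
      exact hor k
    · intro x hx hxF
      have hx' : Reach E σ0.1 (shv q x) := hx
      refine ⟨?_, ?_⟩
      · intro y hy
        have hy' : Reach (↑(Sub F q N) : Set Edg) x y := hy
        show Reach E σ0.1 (shv q y)
        refine hx'.trans (reach_sh.1 (hy'.mono ?_))
        intro e he
        rw [Finset.mem_coe] at he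
        have he' := (mem_Sub.1 he).2
        rw [mem_RE] at he'
        exact (hloc e he'.1 he'.2).2 he
      · refine (exit_gen (G := {e | sh q e ∈ E}) (y := rel q σ0.1) ?_ hxF
          h.out ?_).imp fun y' hy' => ⟨hy'.2, hy'.1⟩
        · intro e he h1 h2
          exact (hloc e h1 h2).1 he
        · rw [reach_sh, shv_rel]
          exact hx'.symm
    · intro v hv'
      have h1 := pot_reach p2 (show Reach E σ0.1 (shv q v) from hv')
      show hv (shv q v) = 0
      rw [← h1, p4]
    · intro e h1 h2 hne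
      have hne' : hv (shv q (src e)) ≠ hv (shv q (tgt e)) := hne
      obtain ⟨x, y, _ | _⟩ := e
      · simp only [src_mk, tgt_false] at *
        have f1 : face ((shv q (x, y), Q4.ne) : St) = shv q (x, y) := rfl
        have f2 : face ((shv q (x, y + 1), Q4.se) : St) = shv q (x, y) := by
          simp only [face, shv]
          ext
          · rfl
          · simp only; ring
        have a1 := p1 (shv q (x, y), Q4.ne)
        have a2 := p1 (shv q (x, y + 1), Q4.se)
        rw [f1] at a1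
        rw [f2] at a2
        simp only at a1 a2
        by_cases b1 : ((shv q (x, y), Q4.ne) : St) ∈ A
        · obtain ⟨k, hk, hk2⟩ := hvis _ b1 (hbox _ h1)
          refine ⟨k, hk, Or.inl ?_⟩
          show rel q (orb E σ0 k).1 = (x, y)
          rw [hk2]
          exact rel_shv q _
        · by_cases b2' : ((shv q (x, y + 1), Q4.se) : St) ∈ A
          · obtain ⟨k, hk, hk2⟩ := hvis _ b2' (hbox _ h2)
            refine ⟨k, hk, Or.inr ?_⟩
            show rel q (orb E σ0 k).1 = (x, y + 1)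
            rw [hk2]
            exact rel_shv q _
          · exfalso
            apply hne'
            rw [b2_not_of b1] at a1
            rw [b2_not_of b2'] at a2
            exact add_right_cancel (a1.trans a2.symm)
      · simp only [src_mk, tgt_true] at *
        have f1 : face ((shv q (x, y), Q4.ne) : St) = shv q (x, y) := rfl
        have f2 : face ((shv q (x + 1, y), Q4.nw) : St) = shv q (x, y) := by
          simp only [face, shv]
          ext
          · simp only; ring
          · rfl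
        have a1 := p1 (shv q (x, y), Q4.ne)
        have a2 := p1 (shv q (x + 1, y), Q4.nw)
        rw [f1] at a1
        rw [f2] at a2
        simp only at a1 a2
        by_cases b1 : ((shv q (x, y), Q4.ne) : St) ∈ A
        · obtain ⟨k, hk, hk2⟩ := hvis _ b1 (hbox _ h1)
          refine ⟨k, hk, Or.inl ?_⟩
          show rel q (orb E σ0 k).1 = (x, y)
          rw [hk2]
          exact rel_shv q _
        · by_cases b2' : ((shv q (x + 1, y), Q4.nw) : St) ∈ A
          · obtain ⟨k, hk, hk2⟩ := hvis _ b2' (hbox _ h2)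
            refine ⟨k, hk, Or.inr ?_⟩
            show rel q (orb E σ0 k).1 = (x + 1, y)
            rw [hk2]
            exact rel_shv q _
          · exfalso
            apply hne'
            rw [b2_not_of b1] at a1
            rw [b2_not_of b2'] at a2
            exact add_right_cancel (a1.trans a2.symm)

end Run7.h561.EC
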