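import Pool.Agent.Run7.h561.EC.P_T4
import Pool.Agent.Run7.h561.EC.P_G1
import Pool.Agent.Run7.h561.TP.P_DISC2

/-! # LOC, part 1: sub-boxes -/

set_option autoImplicit false

namespace Run7.h561.EC

open H974 H12S Finset H984P H984N Run7.h561

/-- The configuration of the box with lower left corner `q` and side `n`, moved to the origin. -/
noncomputable def Sub (F : Finset Edg) (q : ℤ × ℤ) (n : ℕ) : Finset Edg :=
  (trl (-q.1) (-q.2)).mp F ∩ RE 0 n 0 n

theorem Sub_reach {F : Finset Edg} {q : ℤ × ℤ} {n : ℕ} {x y : Vtx}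
    (h : Reach (↑(Sub F q n) : Set Edg) x y) :
    Reach (↑F : Set Edg) (x.1 + q.1, x.2 + q.2) (y.1 + q.1, y.2 + q.2) := by
  have h1 : Reach (↑((trl (-q.1) (-q.2)).mp F) : Set Edg) x y := by
    refine Reach.mono ?_ h
    intro e he
    rw [Finset.mem_coe] at he ⊢
    exact (Finset.mem_inter.1 he).1
  have h2 := (BS_reach_trl (-q.1) (-q.2) (F := F) (u := (x.1 + q.1, x.2 + q.2))
    (v := (y.1 + q.1, y.2 + q.2))).1
  apply h2
  simpa using h1

theorem Sub_exit {F : Finset Edg} {q : ℤ × ℤ} {n : ℕ} {z y : Vtx} (hz : z ∉ FrB n)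
    (hy : y ∈ FrB n)
    (h : Reach (↑F : Set Edg) (z.1 + q.1, z.2 + q.2) (y.1 + q.1, y.2 + q.2)) :
    ∃ y' ∈ FrB n, Reach (↑(Sub F q n) : Set Edg) z y' := by
  have h1 : Reach (↑((trl (-q.1) (-q.2)).mp F) : Set Edg) z y := by
    have h2 := (BS_reach_trl (-q.1) (-q.2) (F := F) (u := (z.1 + q.1, z.2 + q.2))
      (v := (y.1 + q.1, y.2 + q.2))).2 h
    simpa using h2
  obtain ⟨w', w, w1, w2, w3, w4, -⟩ := first_hit (FrB n) h1 hz hy
  refine ⟨w, w1, Reach.trans (w4.mono ?_) (Adj.reach ?_)⟩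
  · rintro e ⟨e1, e2, e3⟩
    rw [Finset.mem_coe] at e1 ⊢
    unfold Sub
    rw [Finset.mem_inter, mem_RE]
    refine ⟨e1, ?_⟩
    unfold FrB at e2 e3
    rw [Set.mem_setOf_eq] at e2 e3
    unfold inR
    omega
  · have hstep := adj_step w3
    obtain ⟨e, e1, e2⟩ := w3
    refine ⟨e, ?_, e2⟩
    rw [Finset.mem_coe] at e1 ⊢
    unfold Sub
    rw [Finset.mem_inter, mem_RE]
    refine ⟨e1, ?_⟩
    unfold FrB at w2
    rw [Set.mem_setOf_eq] at w2
    unfold inR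
    rcases e2 with ⟨rfl, rfl⟩ | ⟨rfl, rfl⟩ <;> omega

theorem pr_Sub {q : ℤ × ℤ} {n : ℕ} {S : Finset Edg}
    (hS : RE q.1 (q.1 + n) q.2 (q.2 + n) ⊆ S) (A : Finset Edg → Prop) :
    PQ (1 / 2) S (fun F => A (Sub F q n)) = PQ (1 / 2) (RE 0 n 0 n) A := by
  have e0 : (trl q.1 q.2).mp (RE 0 n 0 n) = RE q.1 (q.1 + n) q.2 (q.2 + n) := by
    rw [trl_RE]
    congr 1 <;> ring
  have e1 : (trl (-q.1) (-q.2)).mp (RE q.1 (q.1 + n) q.2 (q.2 + n)) = RE 0 n 0 n := by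
    rw [trl_RE]
    congr 1 <;> ring
  rw [PQ, PQ, Pr_local (S' := RE q.1 (q.1 + n) q.2 (q.2 + n)) hS, ← e0, LSym.pr]
  · refine Pr_congr fun F hF => ?_
    have : Sub ((trl q.1 q.2).mp F) q n = F := by
      ext e
      unfold Sub
      rw [Finset.mem_inter, LSym.mem_mp, LSym.mem_mp]
      constructor
      · rintro ⟨h, -⟩
        simpa [trl] using h
      · intro h
        exact ⟨by simpa [trl] using h, hF h⟩
    rw [this]
  · intro F _
    have : Sub (F ∩ RE q.1 (q.1 + n) q.2 (q.2 + n)) q n = Sub F q n := by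
      unfold Sub
      rw [LSym.mp_inter, e1, Finset.inter_assoc, Finset.inter_self]
    rw [this]

end Run7.h561.EC
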