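import Pool.Agent.Run7.h561.EC.P_L1
import Pool.Agent.Run7.h561.TP.P_SLIT

/-! # LOC, part 2: deterministic part -/

set_option autoImplicit false

namespace Run7.h561.EC

open H974 H12S Finset H984P H984N Run7.h561 Pool.Agent.W822.PD

theorem FrB_dist {N : ℕ} {x c : Vtx} {D : ℤ} (h1 : D ≤ x.1) (h2 : x.1 + D ≤ N) (h3 : D ≤ x.2)
    (h4 : x.2 + D ≤ N) (hc : c ∈ FrB N) : D ≤ sd x c := by
  unfold FrB at hc
  rw [Set.mem_setOf_eq] at hc
  rw [le_sd]
  omega

/-- The slit keeps away from `A`. -/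
theorem slit_far {N ℓ k t' H D : ℕ} {F : Finset Edg} {w z : Vtx} {A : Set Vtx}
    (hk : 1 ≤ k) (htk : t' ≤ k) (hkl : 20 * k ≤ ℓ) (hlD : 8 * ℓ ≤ D)
    (hw1 : (D : ℤ) ≤ w.1) (hw2 : w.1 + D ≤ N) (hw3 : (D : ℤ) ≤ w.2) (hw4 : w.2 + H + D ≤ N)
    (hA : Adm0 N (↑F) A) (hD : ∀ c ∈ A, (D : ℤ) ≤ sd c w)
    (hzH : z.2 ≤ w.2 + H) (hmin : ∀ s : ℤ, w.2 < s → s < z.2 → (w.1, s) ∉ A)
    (hNL : ∀ i : ℕ, i ≤ N / k → blk (w.1, w.2 + (k * i : ℕ)) (8 * k) ⊆ RE 0 N 0 N →
      ¬ NLn w.1 (w.2 + (k * i : ℕ)) k t' (↑F)) {s : ℤ} (hs1 : w.2 ≤ s) (hs2 : s + 10 * k < z.2)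
    {c : Vtx} (hc : c ∈ A) : (t' : ℤ) < sd (w.1, s) c := by
  by_contra hcon
  push Not at hcon
  have hsc := sd_le.1 hcon
  simp only at hsc
  have hDc := le_sd.1 (hD c hc)
  -- height of `c`
  have hc2 : w.2 + 6 * ℓ ≤ c.2 := by omega
  obtain ⟨C, hC⟩ : ∃ C : ℕ, (C : ℤ) = c.2 - w.2 := ⟨(c.2 - w.2).toNat, Int.toNat_of_nonneg (by omega)⟩
  obtain ⟨i, j, hij, hjk⟩ : ∃ i j : ℕ, k * i = j ∧ (j ≤ C ∧ C < j + k ∧ i ≤ C / k) :=
    ⟨C / k, C / k * k, Nat.mul_comm _ _, Nat.div_mul_le_self C k,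
      Nat.lt_div_mul_add (a := C) (b := k) (by omega), le_rfl⟩
  obtain ⟨hj1, hj2, hi⟩ := hjk
  have hcF : c ∉ FrB N := by
    unfold FrB
    rw [Set.mem_setOf_eq]
    omega
  obtain ⟨hcA, y, hy1, hy2⟩ := hA c hc hcF
  have hblk : blk (w.1, w.2 + (k * i : ℕ)) (8 * k) ⊆ RE 0 N 0 N := by
    intro e he
    rw [mem_blk, sd_le, sd_le] at he
    rw [mem_RE]
    unfold inR
    rw [hij] at he
    simp only at he
    omega
  refine hNL i ?_ hblk ?_
  · refine hi.trans ?_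
    apply Nat.div_le_div_right
    omega
  · rw [hij]
    refine ⟨c, ?_, ?_, ?_, ?_⟩
    · rw [abs_le]; omega
    · rw [abs_le]
      omega
    · have hcs : sd c (w.1, w.2 + (j : ℤ)) ≤ ((8 * k : ℕ) : ℤ) := by
        rw [sd_le]; simp only
        omega
      have hys : (((8 * k : ℕ) : ℤ)) ≤ sd y (w.1, w.2 + (j : ℤ)) := by
        rw [sd_comm]
        refine FrB_dist ?_ ?_ ?_ ?_ hy2
        · simp only
          omega
        · simp only
          omega
        · simp only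
          omega
        · simp only
          omega
      obtain ⟨v, a1, a2, -⟩ := first_level (w.1, w.2 + (j : ℤ)) ((8 * k : ℕ) : ℤ) hy1
        hcs hys
      refine ⟨v, mem_bdB.2 a1, a2.mono ?_⟩
      rintro e ⟨b1, b2⟩
      exact ⟨b1, by rw [Finset.mem_coe, mem_blk]; exact b2⟩
    · intro s' hs' hr
      rw [abs_le] at hs'
      have h5 : (w.1, s') ∈ A := hcA (hr.mono Set.inter_subset_left)
      refine hmin s' ?_ ?_ h5
      · omega
      · omega

/-- The deterministic part: a good tip makes `A` rich. -/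
theorem rich_loc {t : ℝ} {M B a m0 : ℕ} {p c0 E0 : ℝ} {Gf : ℕ → Finset Edg → Prop}
    (hGf : ∀ m, m0 ≤ m → GadL t M B a m p c0 E0 (Gf m)) {N M' ℓ k t' H D : ℕ} {F : Finset Edg} {w z : Vtx}
    {A : Set Vtx} {b : ℤ} {η ζ κ : ℝ} (ht1 : t < 4 / 3) (hc0 : 0 ≤ c0) (hE0 : 0 ≤ E0)
    (hη : 0 < η) (hζ : 0 < ζ) (hB : 1 ≤ B) (hM1 : M ≤ M')
    (hM2 : 12 ^ B * (2 / η) ≤ (M' : ℝ)) (hM3 : 12 ^ B * (1 / ζ) ≤ (M' : ℝ))
    (hm0 : 1 ≤ m0) (ha : 1 ≤ a)
    (hκ : (ℓ : ℝ) ≤ κ * N) (hk2r : 2 * (k : ℝ) ≤ η * N) (hζt : ζ * N ≤ t')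
    (hk : 1 ≤ k) (htk : t' ≤ k) (hkl : 20 * k ≤ ℓ) (hlD : 8 * ℓ ≤ D)
    (hw1 : (D : ℤ) ≤ w.1) (hw2 : w.1 + D ≤ N) (hw3 : (D : ℤ) ≤ w.2) (hw4 : w.2 + H + D ≤ N)
    (hFN : F ⊆ RE 0 N 0 N)
    (hA : Adm0 N (↑F) A) (hD : ∀ c ∈ A, (D : ℤ) ≤ sd c w) (hzA : z ∈ A) (hz1 : z.1 = w.1)
    (hzw : w.2 < z.2)
    (hzH : z.2 ≤ w.2 + H) (hmin : ∀ s : ℤ, w.2 < s → s < z.2 → (w.1, s) ∉ A)
    (hNL : ∀ i : ℕ, i ≤ N / k → blk (w.1, w.2 + (k * i : ℕ)) (8 * k) ⊆ RE 0 N 0 N →
      ¬ NLn w.1 (w.2 + (k * i : ℕ)) k t' (↑F))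
    (hb0 : w.2 ≤ b) (hb1 : 2 * ℓ ≤ z.2 - b) (hb2 : z.2 - b ≤ 3 * ℓ)
    (hgood : TipF (4 * ℓ : ℕ) (FrB (8 * ℓ)) (↑(Sub F (w.1 - (4 * ℓ : ℕ), b) (8 * ℓ)))
        ((4 * ℓ : ℕ), z.2 - b) → ∃ m : ℕ, m0 ≤ m ∧ η * N ≤ m ∧ 2000 * (a * m) ≤ ℓ ∧
      GoodF a m (4 * ℓ : ℕ) (FrB (8 * ℓ)) (Gf m) (Sub F (w.1 - (4 * ℓ : ℕ), b) (8 * ℓ))
        ((4 * ℓ : ℕ), z.2 - b)) :
    RichB t (c0 * η ^ (4 / 3 : ℝ)) E0 (H + κ * N) M' B N A w := by
  classical
  set q : ℤ × ℤ := (w.1 - (4 * ℓ : ℕ), b) with hq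
  set F' : Finset Edg := Sub F q (8 * ℓ) with hF'
  set z' : Vtx := (((4 * ℓ : ℕ) : ℤ), z.2 - b) with hz'
  have hzD := le_sd.1 (hD z hzA)
  have hzD' : w.2 + D ≤ z.2 := by
    rw [hz1] at hzD
    omega
  have hzF : z ∉ FrB N := by
    unfold FrB
    rw [Set.mem_setOf_eq]
    omega
  have hzq : (z'.1 + q.1, z'.2 + q.2) = z := by
    ext
    · simp only [hz', hq]; omega
    · simp only [hz', hq]; omega
  obtain ⟨hCA, y, hy1, hy2⟩ := hA z hzA hzF
  have hz'F : z' ∉ FrB (8 * ℓ) := by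
    unfold FrB
    rw [Set.mem_setOf_eq]
    simp only [hz']
    push_cast
    omega
  -- the cluster in the sub-box is in `A`
  have hsubA : ∀ c : Vtx, c ∈ Cu (↑F' : Set Edg) z' → (c.1 + q.1, c.2 + q.2) ∈ A := by
    intro c hc
    have h1 := Sub_reach hc
    rw [hzq] at h1
    exact hCA h1
  -- exit of the sub-box
  have hfr : ∀ y : Vtx, y ∈ FrB N → (y.1 - q.1, y.2 - q.2) ∈ FrB (8 * ℓ) := by
    intro y hy
    unfold FrB at hy ⊢
    rw [Set.mem_setOf_eq] at hy ⊢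
    simp only [hq]
    push_cast
    omega
  have hexit : ∀ c ∈ A, (c.1 - q.1, c.2 - q.2) ∉ FrB (8 * ℓ) → ∃ y' ∈ FrB (8 * ℓ),
      Reach (↑F' : Set Edg) (c.1 - q.1, c.2 - q.2) y' := by
    intro c hc hcF
    have hcN : c ∉ FrB N := fun h => hcF (hfr c h)
    obtain ⟨-, y, g1, g2⟩ := hA c hc hcN
    refine Sub_exit (y := (y.1 - q.1, y.2 - q.2)) hcF (hfr y g2) ?_
    have g3 : Reach (↑F : Set Edg) c y := g1
    simpa using g3
  have htip : TipF (4 * ℓ : ℕ) (FrB (8 * ℓ)) (↑F') z' := by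
    refine ⟨rfl, ?_, ?_⟩
    · intro s hs hc
      have h1 := hsubA _ hc
      have h2 : inR 0 ((8 * ℓ : ℕ) : ℤ) 0 ((8 * ℓ : ℕ) : ℤ) (((4 * ℓ : ℕ) : ℤ), s) := by
        refine Cu_box (n := 8 * ℓ) (F := F') ?_ (z := z') ?_ hc
        · rw [hF']
          exact Finset.inter_subset_right
        · simp only [hz']
          push_cast
          unfold inR
          omega
      unfold inR at h2
      simp only at h2
      simp only [hz'] at hs
      have h3 : ((((4 * ℓ : ℕ) : ℤ), s).1 + q.1, (((4 * ℓ : ℕ) : ℤ), s).2 + q.2) =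
          (w.1, s + b) := by
        ext
        · simp only [hq]; omega
        · simp only [hq]
      rw [h3] at h1
      rcases eq_or_lt_of_le (show w.2 ≤ s + b by omega) with h4 | h4
      · have h5 := hD _ h1
        rw [← h4] at h5
        have h6 : sd (w.1, w.2) w = 0 := by unfold sd; simp
        rw [h6] at h5
        omega
      · exact hmin _ h4 (by omega) h1
    · have h1 : (z.1 - q.1, z.2 - q.2) = z' := by
        ext
        · simp only [hz', hq]; omega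
        · simp only [hz', hq]
      have h2 := hexit z hzA (by rw [h1]; exact hz'F)
      rw [h1] at h2
      obtain ⟨y', g1, g2⟩ := h2
      exact ⟨y', g2, g1⟩
  obtain ⟨m, hmm0, hηm, hml, hgoodm⟩ := hgood htip
  set G : Finset Edg → Prop := Gf m with hGm
  have hG : GadL t M B a m p c0 E0 G := hGf m hmm0
  have hm : 1 ≤ m := by omega
  have hk2 : 2 * k ≤ a * m := by
    refine le_trans ?_ (Nat.le_mul_of_pos_left m (by omega) : m ≤ a * m)
    have : (2 * k : ℝ) ≤ m := hk2r.trans hηm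
    exact_mod_cast this
  obtain ⟨h, ⟨hh1, hh2⟩, hG0, ⟨x, hx1, hx2⟩, hsole⟩ := hgoodm
  set U : ℕ := a * m with hU
  have eU : ((a : ℤ) * m) = (U : ℤ) := by rw [hU]; push_cast; ring
  have hU1 : (1 : ℤ) ≤ U := by exact_mod_cast Nat.mul_pos ha hm
  have hmU : m ≤ U := Nat.le_mul_of_pos_left m (by omega)
  rw [eU] at hh1 hh2
  simp only [hz'] at hh1 hh2
  have hN1 : 1 ≤ N := by omega
  have hn' : (0 : ℝ) < N := by exact_mod_cast hN1
  have hm' : (0 : ℝ) < m := by exact_mod_cast hm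
  have hmn : m ≤ N := by omega
  set C : Set Vtx := Cu (↑F' : Set Edg) z' with hC
  set F0 : Finset Edg := (trl (-((4 * ℓ : ℕ) : ℤ)) (-h)).mp F' with hF0
  set g : Vtx := (w.1, h + b) with hg
  have hush : ∀ {u v : Vtx}, Reach (↑F0 : Set Edg) u v →
      Reach (↑F' : Set Edg) (u.1 + (4 * ℓ : ℕ), u.2 + h) (v.1 + (4 * ℓ : ℕ), v.2 + h) :=
    fun {u v} h1 => by
    have e1 : ∀ u : Vtx, ((u.1 + (4 * ℓ : ℕ) + -((4 * ℓ : ℕ) : ℤ), u.2 + h + -h) : Vtx) = u :=
      fun u => by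
        ext
        · simp only; ring
        · simp only; ring
    refine (BS_reach_trl (-((4 * ℓ : ℕ) : ℤ)) (-h) (F := F') (u := (u.1 + (4 * ℓ : ℕ), u.2 + h))
      (v := (v.1 + (4 * ℓ : ℕ), v.2 + h))).1 ?_
    simp only
    rw [e1, e1]
    exact h1
  have hsh : ∀ {u v : Vtx}, Reach (↑F' : Set Edg) u v →
      Reach (↑F0 : Set Edg) (u.1 - (4 * ℓ : ℕ), u.2 - h) (v.1 - (4 * ℓ : ℕ), v.2 - h) :=
    fun {u v} h1 => by
    exact (BS_reach_trl (-((4 * ℓ : ℕ) : ℤ)) (-h) (F := F') (u := u) (v := v)).2 h1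
  set u0 : Vtx := (z'.1 - (4 * ℓ : ℕ), z'.2 - h) with hu0
  obtain ⟨y', hy'1, hy'2⟩ := htip.2.2
  obtain ⟨V, hV1, hV2, hV4, hV3⟩ := hG.det F0 u0 hG0
    ⟨(x.1 - (4 * ℓ : ℕ), x.2 - h), by
      rw [mem_ctr, sd_le] at hx1 ⊢
      simp only [tr] at hx1 ⊢
      omega, hsh hx2⟩
    ⟨(y'.1 - (4 * ℓ : ℕ), y'.2 - h), by
      rw [far_iff, le_sd]
      unfold FrB at hy'2
      rw [Set.mem_setOf_eq] at hy'2
      simp only
      push_cast at hy'2 ⊢
      rw [eU]
      omega, hsh hy'1⟩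
  have hCeq : ∀ c : Vtx, c ∈ Cu (↑F0 : Set Edg) u0 ↔ (c.1 + (4 * ℓ : ℕ), c.2 + h) ∈ C := by
    intro c
    constructor
    · intro hc
      have h1 := hush hc
      have h2 : Reach (↑F' : Set Edg) z' (c.1 + (4 * ℓ : ℕ), c.2 + h) := by simpa [hu0] using h1
      exact h2
    · intro hc
      have h1 := hsh hc
      have h2 : Reach (↑F0 : Set Edg) u0 c := by simpa [hu0] using h1
      exact h2
  -- vertices of `A` near the window
  have hnear : ∀ c ∈ A, sd c g ≤ 1000 * U → (c.1 - g.1, c.2 - g.2) ∈ Cu (↑F0 : Set Edg) u0 := by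
    intro c hc hcg
    have hcg' := sd_le.1 hcg
    simp only [hg] at hcg'
    rw [hCeq]
    have h1 : (c.1 - q.1, c.2 - q.2) ∉ FrB (8 * ℓ) := by
      unfold FrB
      rw [Set.mem_setOf_eq]
      simp only [hq]
      push_cast
      omega
    obtain ⟨y'', g1, g2⟩ := hexit c hc h1
    have h2 := hsole (c.1 - q.1, c.2 - q.2) y'' (by
      rw [sd_le, eU]
      simp only [hq]
      push_cast
      omega) g1 g2
    have h3 : ((c.1 - g.1 + (4 * ℓ : ℕ), c.2 - g.2 + h) : Vtx) = (c.1 - q.1, c.2 - q.2) := by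
      ext
      · simp only [hg, hq]; omega
      · simp only [hg, hq]; omega
    simp only
    rw [h3]
    exact h2
  set f : Vtx → Vtx := fun v => (v.1 + g.1, v.2 + g.2) with hf
  have hfi : Function.Injective f := by
    intro u v huv
    simp only [hf, Prod.mk.injEq] at huv
    ext
    · omega
    · omega
  have hfd : ∀ u v, sd (f u) (f v) = sd u v := by
    intro u v
    unfold sd
    simp only [hf]
    congr 2
    · ring
    · ring
  refine ⟨V.image f, ?_, ?_, ?_⟩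
  · rw [Finset.card_image_of_injective _ hfi]
    refine le_trans ?_ hV2
    have h2 : (η * N) ^ (4 / 3 : ℝ) ≤ (m : ℝ) ^ (4 / 3 : ℝ) :=
      Real.rpow_le_rpow (by positivity) hηm (by norm_num)
    rw [Real.mul_rpow hη.le (by positivity)] at h2
    rw [mul_assoc]
    exact mul_le_mul_of_nonneg_left h2 hc0
  · rw [EnV_image hfi hfd]
    refine hV4.trans ?_
    refine mul_le_mul_of_nonneg_left ?_ hE0
    exact Real.rpow_le_rpow (by positivity) (by exact_mod_cast hmn) (by linarith)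
  · intro w0 hw0
    rw [Finset.mem_image] at hw0
    obtain ⟨v, hv, rfl⟩ := hw0
    obtain ⟨k1, x', k2, k3⟩ := hV3 v hv
    rw [mem_bdB] at k2
    have hvb := hV1 hv
    rw [mem_ctr, sd_le] at hvb
    simp only [v0, eU] at hvb
    rw [eU] at k3
    refine ⟨?_, ?_, ?_⟩
    · have h1 := hsubA _ ((hCeq v).1 k1)
      have h2 : ((v.1 + (4 * ℓ : ℕ) + q.1, v.2 + h + q.2) : Vtx) = f v := by
        ext
        · simp only [hf, hg, hq]; omega
        · simp only [hf, hg, hq]; omega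
      rw [← h2]
      exact h1
    · have h1 : sd (f v) w ≤ H + ℓ := by
        rw [sd_le]
        simp only [hf, hg]
        omega
      have h2 : ((sd (f v) w : ℤ) : ℝ) ≤ H + ℓ := by exact_mod_cast h1
      linarith
    -- the property of the path
    set P : Vtx → Prop := fun x => (∀ c, c ∈ A ∪ FrB N → Cln M B (8 * (a * m)) m (f v) c x ∨
      ζ * N ≤ ((sd x c : ℤ) : ℝ)) ∧ sd x (f v) ≤ 12 * N with hP
    have hζU : ζ * N ≤ ((U : ℤ) : ℝ) := by
      have : (t' : ℝ) ≤ U := by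
        have : t' ≤ U := by omega
        exact_mod_cast this
      push_cast
      linarith
    have hζl : ζ * N ≤ ((ℓ : ℤ) : ℝ) := by
      have : (t' : ℝ) ≤ ℓ := by
        have : t' ≤ ℓ := by omega
        exact_mod_cast this
      push_cast
      linarith
    have k5 : Reach {e | P (src e) ∧ P (tgt e)} (x'.1 + g.1, x'.2 + g.2)
        ((s0 a m).1 + g.1, (s0 a m).2 + g.2) := by
      refine reach_trans_set (P := fun x => (∀ c ∈ Cu (↑F0 : Set Edg) u0,
        Cln M B (8 * (a * m)) m v c x) ∧ sd x (0, 0) ≤ 140 * U) (Q := P) g ?_ k3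
      rintro x ⟨hx, hx0⟩
      have hx0' := sd_le.1 hx0
      simp only at hx0'
      refine ⟨?_, ?_⟩
      · rintro c (hc | hc)
        · by_cases hcg : sd c g ≤ 1000 * U
          · left
            have h1 := hx (c.1 - g.1, c.2 - g.2) (hnear c hc hcg)
            have e1 : sd x (c.1 - g.1, c.2 - g.2) = sd (x.1 + g.1, x.2 + g.2) c := by
              unfold sd
              congr 2
              · simp only; ring
              · simp only; ring
            have e2 : sd x v = sd (x.1 + g.1, x.2 + g.2) (f v) := (hfd x v).symm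
            rcases h1 with h1 | h1
            · left
              unfold Pool.Agent.Y989.FR.Awy at h1 ⊢
              rw [← e1, ← e2]
              exact h1
            · right
              rw [← e1]
              exact h1
          · right
            push Not at hcg
            have h1 : (U : ℤ) ≤ sd (x.1 + g.1, x.2 + g.2) c := by
              rw [lt_sd] at hcg
              rw [le_sd]
              simp only
              omega
            have h2 : ((U : ℤ) : ℝ) ≤ ((sd (x.1 + g.1, x.2 + g.2) c : ℤ) : ℝ) := by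
              exact_mod_cast h1
            linarith
        · right
          have h1 : (ℓ : ℤ) ≤ sd (x.1 + g.1, x.2 + g.2) c := by
            refine FrB_dist ?_ ?_ ?_ ?_ hc
            · simp only [hg]; omega
            · simp only [hg]; omega
            · simp only [hg]; omega
            · simp only [hg]; omega
          have h2 : ((ℓ : ℤ) : ℝ) ≤ ((sd (x.1 + g.1, x.2 + g.2) c : ℤ) : ℝ) := by
            exact_mod_cast h1
          linarith
      · rw [sd_le]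
        simp only [hf]
        omega
    have k6 : Reach {e | P (src e) ∧ P (tgt e)} ((s0 a m).1 + g.1, (s0 a m).2 + g.2) w := by
      have e1 : ((s0 a m).1 + g.1, (s0 a m).2 + g.2) = (w.1, -(136 * U : ℤ) + (h + b)) := by
        simp only [s0, eU, zero_add, hg]
      rw [e1]
      have e2 : w = (w.1, w.2) := rfl
      rw [e2]
      refine vseg (P := P) fun s s1 s2 => ?_
      have l1 : w.2 ≤ s := by
        rcases min_le_iff.1 s1 with l2 | l2
        · omega
        · exact l2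
      have l2 : s ≤ -(136 * U : ℤ) + (h + b) := by
        rcases le_max_iff.1 s2 with l2 | l2
        · exact l2
        · omega
      refine ⟨?_, ?_⟩
      · intro c hc
        right
        rcases hc with hc | hc
        · have h1 := slit_far hk htk hkl hlD hw1 hw2 hw3 hw4 hA hD hzH hmin hNL l1
            (by omega) hc
          have h2 : ((t' : ℤ) : ℝ) ≤ ((sd (w.1, s) c : ℤ) : ℝ) := by exact_mod_cast h1.le
          push_cast at h2
          linarith
        · have h1 : (ℓ : ℤ) ≤ sd (w.1, s) c := by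
            refine FrB_dist ?_ ?_ ?_ ?_ hc
            · simp only; omega
            · simp only; omega
            · simp only; omega
            · simp only; omega
          have h2 : ((ℓ : ℤ) : ℝ) ≤ ((sd (w.1, s) c : ℤ) : ℝ) := by exact_mod_cast h1
          linarith
      · rw [sd_le]
        simp only [hf, hg]
        omega
    have k7 := k5.trans k6
    refine ⟨(x'.1 + g.1, x'.2 + g.2), ?_, k7.mono ?_⟩
    · have : sd (f x') (f v) = sd x' v := hfd x' v
      rw [show ((x'.1 + g.1, x'.2 + g.2) : Vtx) = f x' from rfl, this, k2]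
      norm_num
    · rintro e ⟨⟨h1, h2⟩, h3, h4⟩
      have hU64 : 64 * (a * m) ≤ N := by omega
      refine ⟨fun c hc => ?_, fun c hc => ?_⟩
      · exact clr_of hη hζ hB hN1 hU64 hηm hM1 hM2 hM3 h2 (h1 c hc)
      · exact clr_of hη hζ hB hN1 hU64 hηm hM1 hM2 hM3 h4 (h3 c hc)

end Run7.h561.EC
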