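import Pool.Agent.Run7.h561.EC.Stm
import Pool.Agent.Run7.h561.TP.P_TIP3

/-! # TIPF, part 1: deterministic part -/

set_option autoImplicit false

namespace Run7.h561.EC

open H974 H12S Finset H984P H984N Run7.h561 Run7.h561.FB Run7.h561.TIP

theorem FrB_far {x0 h : ℤ} {n k : ℕ} (h1 : (k : ℤ) ≤ x0) (h2 : x0 + k ≤ n) (h3 : (k : ℤ) ≤ h)
    (h4 : h + k ≤ n) : ∀ y ∈ FrB n, BSfar (x0, h) k y := by
  intro y hy
  unfold FrB at hy
  rw [Set.mem_setOf_eq] at hy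
  rw [far_iff, le_sd]
  simp only
  omega

theorem Sole.of_sub {a m : ℕ} {x0 h : ℤ} {Far : Set Vtx} {F : Set Edg} {C C' : Set Vtx}
    (hs : Sole a m x0 h Far F C) (hC : C ⊆ C') : Sole a m x0 h Far F C' :=
  fun x y h1 h2 h3 => hC (hs x y h1 h2 h3)

/-- No much bigger gadget near the height `h` is connected to `C`. -/
def NoB2 (a Λ : ℕ) (P : ℕ → Prop) (x0 : ℤ) (Far : Set Vtx) (G : ℕ → Finset Edg → Prop) (m : ℕ)
    (h : ℤ) (C : Set Vtx) (F : Finset Edg) (Fs : Set Edg) : Prop :=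
  ∀ m', P m' → 64 * (Λ * m) ≤ m' → ∀ h' : ℤ, h' - 128 * (a * m') ≤ h ∧ h ≤ h' + 600 * (a * m') →
    ¬ (GdC a m' x0 G F h' C ∧ Sole a m' x0 h' Far Fs C)

/-- The explored event of the window. -/
def AE2 (a Λ : ℕ) (P : ℕ → Prop) (x0 : ℤ) (Far : Set Vtx) (G : ℕ → Finset Edg → Prop) (m : ℕ)
    (h : ℤ) (u : Vtx) (F : Finset Edg) : Prop :=
  (XO (x0, h) (512 * (a * m)) Far (↑F : Set Edg) u ∧
    ∀ x ∈ Co (x0, h) (512 * (a * m)) (↑F : Set Edg) u, x ∈ bdB (x0, h) (512 * (a * m)) →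
      Off m (x0, h) x) ∧
  NoB2 a Λ P x0 Far G m h (Co (x0, h) (512 * (a * m)) (↑F : Set Edg) u) F
    (↑F \ ↑(blk (x0, h) (192 * (Λ * (a * m)))))

/-- The tip `(x0, s)` and its first gadget. -/
def QE2 (a Λ : ℕ) (P : ℕ → Prop) (x0 : ℤ) (Far : Set Vtx) (G : ℕ → Finset Edg → Prop) (m : ℕ)
    (h : ℤ) (s : ℤ) (F : Finset Edg) : Prop :=
  TipF x0 Far (↑F : Set Edg) (x0, s) ∧ (h - 120 * (a * m) ≤ s ∧ s ≤ h + 512 * (a * m)) ∧
    (GdC a m x0 G F h (Cu (↑F : Set Edg) (x0, s)) ∧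
      Sole a m x0 h Far (↑F) (Cu (↑F : Set Edg) (x0, s))) ∧
    NoB2 a Λ P x0 Far G m h (Cu (↑F : Set Edg) (x0, s)) F (↑F)

theorem AE2_det (kxs : S_KXS) {a Λ : ℕ} {P : ℕ → Prop} {x0 : ℤ} {Far : Set Vtx}
    {G : ℕ → Finset Edg → Prop} {m : ℕ} {h : ℤ} {u : Vtx} {S : Finset Edg} {p : ℝ}
    (ha : 24 ≤ a) (hΛ : 16 ≤ Λ) (hm : 1 ≤ m) (hG : ∀ m', P m' → GLc a m' p (G m')) :
    ∀ F F', F ⊆ S → F' ⊆ S →
      F ∩ KO (x0, h) (512 * (a * m)) (192 * (Λ * (a * m))) S u F =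
      F' ∩ KO (x0, h) (512 * (a * m)) (192 * (Λ * (a * m))) S u F →
      AE2 a Λ P x0 Far G m h u F → AE2 a Λ P x0 Far G m h u F' := by
  intro F F' hF hF' he hA
  have hUm : 24 * m ≤ a * m := Nat.mul_le_mul_right _ ha
  have hLU : 16 * (a * m) ≤ Λ * (a * m) := Nat.mul_le_mul_right _ hΛ
  obtain ⟨k1, k2⟩ := (kxs (x0, h) (512 * (a * m)) (192 * (Λ * (a * m))) S u (by omega)).2.2
    F F' hF hF' he
  have k3 : (↑F' \ ↑(blk (x0, h) (192 * (Λ * (a * m)))) : Set Edg) =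
      ↑F \ ↑(blk (x0, h) (192 * (Λ * (a * m)))) := by
    ext e
    rw [Set.mem_diff, Set.mem_diff, Finset.mem_coe, Finset.mem_coe, Finset.mem_coe]
    exact and_congr_left fun hb => (k2 e hb).symm
  unfold AE2 XO XA Rp at hA ⊢
  rw [k1, k3]
  refine ⟨hA.1, ?_⟩
  intro m' hm' hmm h' hh' hc
  refine hA.2 m' hm' hmm h' hh' ⟨⟨?_, hc.1.2⟩, hc.2⟩
  have hc1 := hc.1.1
  rw [(hG m' hm').loc] at hc1 ⊢
  have e1 : (trl (-x0) (-h')).mp F' ∩ TG a m' = (trl (-x0) (-h')).mp F ∩ TG a m' := by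
    ext e
    rw [Finset.mem_inter, Finset.mem_inter]
    refine and_congr_left fun hT => ?_
    rw [show (trl (-x0) (-h')) = (trl (-x0, -h').1 (-x0, -h').2) from rfl, SURG.mp_trl_mem,
      SURG.mp_trl_mem]
    symm
    apply k2
    intro hb
    rw [mem_blk, SURG.src_shift, sd_le] at hb
    have hb1 := hb.1
    simp only at hb1
    have hf := TG_fine hT
    have h24 : 24 * m' ≤ a * m' := Nat.mul_le_mul_right _ ha
    have h64 : 64 * (Λ * (a * m)) ≤ a * m' := by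
      calc 64 * (Λ * (a * m)) = a * (64 * (Λ * m)) := by ring
        _ ≤ a * m' := Nat.mul_le_mul_left _ hmm
    have hp : 1 ≤ a * m := by omega
    have h24' : 24 * (m' : ℤ) ≤ a * m' := by exact_mod_cast h24
    have h64' : 64 * ((Λ * (a * m) : ℕ) : ℤ) ≤ a * m' := by exact_mod_cast h64
    have hLU' : 16 ≤ ((Λ * (a * m) : ℕ) : ℤ) := by
      have : 16 ≤ Λ * (a * m) := by omega
      exact_mod_cast this
    push_cast at hb1 hLU' h64'
    omega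
  rw [← e1]
  exact hc1

/-- In a painted window no other cluster comes close to the centre. -/
theorem sole_painted {a Λ m : ℕ} {x0 h : ℤ} {S F : Finset Edg} {u : Vtx} {Far : Set Vtx}
    {G : Finset Edg → Prop} (hΛ : 16 ≤ Λ) (hFS : F ⊆ S)
    (hfar : ∀ y ∈ Far, BSfar (x0, h) (192 * (Λ * (a * m))) y)
    (hp : Pnt a m Λ (x0, h) S u G F) : Sole a m x0 h Far (↑F) (Cu (↑F : Set Edg) u) := by
  intro x y hx hy hr
  by_contra hxu
  have hLU : 16 * (a * m) ≤ Λ * (a * m) := Nat.mul_le_mul_right _ hΛ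
  have hLU' : 16 * ((a : ℤ) * m) ≤ Λ * (a * m) := by exact_mod_cast hLU
  have hp0 : (0 : ℤ) ≤ a * m := by positivity
  have hy' := far_iff.1 (hfar y hy)
  obtain ⟨w, w1, w2, -⟩ := first_level (x0, h) ((192 * (Λ * (a * m)) : ℕ) : ℤ) hr
    (by push_cast; omega) hy'
  refine hp.2.1.2 (crs_iff.2 ⟨x, w, ?_, w1.ge, ?_⟩)
  · push_cast; omega
  · have h3 := reach_restrict' (P := fun z => z ∉ Cu (↑F : Set Edg) u) w2 (by
      intro z hz hzu
      have h4 : Reach (↑F : Set Edg) x z := Reach.mono (fun e he => he.1) hz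
      exact hxu (Reach.trans hzu (Reach.symm h4)))
    refine Reach.mono ?_ h3
    rintro e ⟨⟨e1, e2, e3⟩, e4, e5⟩
    rw [Finset.coe_sdiff]
    refine ⟨e1, ?_⟩
    intro hK
    rw [Finset.mem_coe] at hK
    rw [mem_KO] at hK
    rcases hK.2 with h5 | ⟨-, h5 | h5⟩
    · exact h5 (mem_blk.2 ⟨e2, e3⟩)
    · exact e4 (Cu_mono Set.diff_subset u h5)
    · exact e5 (Cu_mono Set.diff_subset u h5)

/-- After painting there is a tip with a first gadget. -/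
theorem painted2 (sdet : S_SDET) {a Λ : ℕ} {P : ℕ → Prop} {x0 : ℤ} {Far : Set Vtx}
    {G : ℕ → Finset Edg → Prop} {m : ℕ} {h : ℤ} {u : Vtx} {S F : Finset Edg}
    (ha : 24 ≤ a) (hev : Even a) (hΛ : 16 ≤ Λ) (hm : 1 ≤ m) (hFS : F ⊆ S)
    (hfar : ∀ y ∈ Far, BSfar (x0, h) (192 * (Λ * (a * m))) y)
    (hA : AE2 a Λ P x0 Far G m h u F)
    (h4 : I4 a m Λ (x0, h) S u F) (hp : Pnt a m Λ (x0, h) S u (G m) F) :
    ∃ s, QE2 a Λ P x0 Far G m h s F := by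
  obtain ⟨⟨h1, h2⟩, h3⟩ := hA
  obtain ⟨d1, ⟨s1, d2, d3⟩, d4, ⟨x, x1, x2⟩, -⟩ :=
    sdet a Λ m (x0, h) S u (G m) F Far ha hev hΛ hm hFS hfar h1.2 h2 h4 hp
  simp only at d1 d2 d3
  obtain ⟨s0, a1, a2, a3, a4⟩ := lowest d3 d1
  have e : Cu (↑F : Set Edg) (x0, s0) = Cu (↑F : Set Edg) u := Cu_eq_of_mem a3
  have hLU : 16 * (a * m) ≤ Λ * (a * m) := Nat.mul_le_mul_right _ hΛ
  refine ⟨s0, ⟨rfl, ?_, ?_⟩, ⟨a2, by omega⟩, ⟨⟨hp.2.2, x, x1, by rw [e]; exact x2⟩, ?_⟩, ?_⟩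
  · intro s hs
    rw [e]
    exact a4 s hs
  · obtain ⟨y, y1, y2⟩ := h1.2.2.1
    exact ⟨y, by rw [e]; exact Reach.mono Set.diff_subset y2, y1⟩
  · rw [e]
    exact sole_painted hΛ hFS hfar hp
  · intro m' hm' hmm h' hh' hc
    refine h3 m' hm' hmm h' hh' ⟨⟨hc.1.1, ?_⟩, ?_⟩
    · obtain ⟨x', x1', x2'⟩ := hc.1.2
      rw [e] at x2'
      refine ⟨x', x1', d4 x' x2' ?_⟩
      have h64 : 64 * (Λ * (a * m)) ≤ a * m' := by
        calc 64 * (Λ * (a * m)) = a * (64 * (Λ * m)) := by ring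
          _ ≤ a * m' := Nat.mul_le_mul_left _ hmm
      have h24 : 24 * m' ≤ a * m' := Nat.mul_le_mul_right _ ha
      have h24' : 24 * (m' : ℤ) ≤ a * m' := by exact_mod_cast h24
      have h64' : 64 * ((Λ * (a * m) : ℕ) : ℤ) ≤ a * m' := by exact_mod_cast h64
      rw [mem_ctr, sd_le] at x1'
      simp only [tr, q1] at x1'
      rw [far_iff, le_sd]
      simp only
      push_cast at h64' ⊢
      have : (0 : ℤ) ≤ Λ * (a * m) := by positivity
      omega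
    · intro x' y' x1' y1' hr
      have hr' : Reach (↑F : Set Edg) x' y' := Reach.mono Set.diff_subset hr
      have hs := hc.2 x' y' x1' y1' hr'
      rw [e] at hs
      have hy : y' ∈ Cu (↑F : Set Edg) u := Reach.trans hs hr'
      have hyo := d4 y' hy (hfar y' y1')
      refine Reach.trans hyo (Reach.symm (Reach.mono ?_ hr))
      apply Set.diff_subset_diff_right
      exact_mod_cast blk_mono (by omega)

/-- A tip without gadget: the three cases. -/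
theorem bad_cases2 (dec : S_DEC) {a Λ : ℕ} {P : ℕ → Prop} {x0 : ℤ} {Far : Set Vtx}
    {G : ℕ → Finset Edg → Prop} {m : ℕ} {h : ℤ} {z : Vtx} {S F : Finset Edg}
    (ha : 24 ≤ a) (hev : Even a) (hΛ : 16 ≤ Λ) (hm : 1 ≤ m) (hFS : F ⊆ S)
    (hfar : ∀ y ∈ Far, BSfar (x0, h) (192 * (Λ * (a * m))) y)
    (hP : ∀ m', P m' → ¬ GoodF a m' x0 Far (G m') F z)
    (hz : TipF x0 Far (↑F : Set Edg) z) (z1 : h ≤ z.2) (z2 : z.2 ≤ h + 64 * (a * m)) :
    (∃ u, AE2 a Λ P x0 Far G m h u F ∧ I4 a m Λ (x0, h) S u F) ∨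
    (∃ u, XO (x0, h) (512 * (a * m)) Far (↑F : Set Edg) u ∧
      Crs x0 h (512 * (a * m)) (64 * (Λ * (a * m)))
        (↑(F \ KX (x0, h) (512 * (a * m)) S u F) : Set Edg)) ∨
    ((∃ j ∈ Finset.Icc 17 (4 * Λ + 1),
      NLn x0 (h - 16 * (a * m * (j : ℕ))) (16 * (a * m)) (16 * m) (↑F)) ∧
    ∃ u, XO (x0, h) (192 * (Λ * (a * m))) Far (↑F) u) := by
  have hUm : 24 * m ≤ a * m := Nat.mul_le_mul_right _ ha
  have hLU : 16 * (a * m) ≤ Λ * (a * m) := Nat.mul_le_mul_right _ hΛ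
  have hU : (1 : ℤ) ≤ a * m := by
    have : 1 ≤ a * m := by omega
    exact_mod_cast this
  obtain ⟨t1, t2, ⟨y, y1, y2⟩⟩ := hz
  have hfar' : ∀ k, k ≤ 192 * (Λ * (a * m)) → ∀ y ∈ Far, BSfar (x0, h) k y := by
    intro k hk y hy
    have := far_iff.1 (hfar y hy)
    rw [far_iff]
    have h2 : (k : ℤ) ≤ ((192 * (Λ * (a * m)) : ℕ) : ℤ) := by exact_mod_cast hk
    omega
  have hy := far_iff.1 (hfar' (128 * (a * m)) (by omega) y y2)
  have hzs : sd z (x0, h) ≤ ((128 * (a * m) : ℕ) : ℤ) := by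
    rw [sd_le]; simp only; push_cast; omega
  obtain ⟨w0, w1, w2, w3⟩ := last_level (x0, h) ((128 * (a * m) : ℕ) : ℤ) y1 hzs hy
  have hco : Co (x0, h) (128 * (a * m)) (↑F : Set Edg) w0 ⊆ Cu (↑F : Set Edg) z := by
    intro v hv
    exact Reach.trans w3 (Reach.mono Set.diff_subset hv)
  have hXA : XA (x0, h) (128 * (a * m)) Far (↑F : Set Edg) w0 := by
    refine ⟨mem_bdB.2 w1, ⟨y, y2, ?_⟩, ?_⟩
    · refine Reach.mono ?_ w2
      rintro e ⟨e1, e2⟩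
      exact ⟨e1, fun hb => e2 (mem_blk.1 (by exact_mod_cast hb))⟩
    · intro s hs hc
      simp only at hs hc
      exact t2 s (by omega) (hco hc)
  rcases dec a Λ m (x0, h) S F w0 Far ha hev hΛ hm hFS hfar hXA with
    ⟨u, b1, b2, b3, b4⟩ | h1 | h1
  · left
    refine ⟨u, ⟨⟨b1, b4⟩, ?_⟩, b3⟩
    intro m' hm' hmm h' hh' hc
    have hu : Reach (↑F : Set Edg) z u := hco b2
    have hCo : Co (x0, h) (512 * (a * m)) (↑F : Set Edg) u ⊆ Cu (↑F : Set Edg) z := fun v hv =>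
      Reach.trans hu (Reach.mono Set.diff_subset hv)
    have h64 : 64 * (Λ * (a * m)) ≤ a * m' := by
      calc 64 * (Λ * (a * m)) = a * (64 * (Λ * m)) := by ring
        _ ≤ a * m' := Nat.mul_le_mul_left _ hmm
    have h64' : 64 * ((Λ : ℤ) * (a * m)) ≤ a * m' := by exact_mod_cast h64
    have hLU' : 16 * ((a : ℤ) * m) ≤ Λ * (a * m) := by exact_mod_cast hLU
    refine hP m' hm' ⟨h', ⟨by omega, by omega⟩, hc.1.1, ?_, ?_⟩
    · obtain ⟨x, x1, x2⟩ := hc.1.2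
      exact ⟨x, x1, hCo x2⟩
    · intro x' y' x1' y1' hr
      by_cases hblk : ∃ v, sd v (x0, h) ≤ ((192 * (Λ * (a * m)) : ℕ) : ℤ) ∧
          Reach (↑F : Set Edg) x' v
      · obtain ⟨v, v1, v2⟩ := hblk
        have hvy : Reach (↑F : Set Edg) v y' := Reach.trans (Reach.symm v2) hr
        obtain ⟨w, g1, g2, g3⟩ := last_level (x0, h) ((192 * (Λ * (a * m)) : ℕ) : ℤ) hvy v1
          (far_iff.1 (hfar y' y1'))
        have g4 : w ∈ Co (x0, h) (512 * (a * m)) (↑F : Set Edg) u := by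
          refine hc.2 w y' ?_ y1' (Reach.mono ?_ g2)
          · have g5 := sd_le.1 g1.le
            rw [sd_le]
            simp only at g5 ⊢
            push_cast at g5
            omega
          · rintro e ⟨e1, e2⟩
            exact ⟨e1, fun hb => e2 (mem_blk.1 (by exact_mod_cast hb))⟩
        exact Reach.trans (hCo g4) (Reach.symm (Reach.trans v2 g3))
      · push Not at hblk
        apply hCo
        refine hc.2 x' y' x1' y1' ?_
        refine Reach.mono ?_ (reach_restrict hr)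
        rintro e ⟨e1, e2, -⟩
        refine ⟨e1, fun hb => ?_⟩
        exact hblk (src e) (mem_blk.1 (Finset.mem_coe.1 hb)).1 e2
  · exact Or.inr (Or.inl h1)
  · exact Or.inr (Or.inr h1)

/-- Two first gadgets of the same tip have comparable sizes. -/
theorem QE2_sep {a Λ : ℕ} {P : ℕ → Prop} {x0 : ℤ} {Far : Set Vtx}
    {G : ℕ → Finset Edg → Prop} {m1 m2 : ℕ} {h1 h2 s : ℤ} {F : Finset Edg}
    (hΛ : 16 ≤ Λ) (hP : P m1) (h12 : 64 * (Λ * m2) ≤ m1)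
    (q1 : QE2 a Λ P x0 Far G m1 h1 s F) (q2 : QE2 a Λ P x0 Far G m2 h2 s F) : False := by
  refine q2.2.2.2 m1 hP h12 h1 ?_ q1.2.2.1
  have e1 := q1.2.1
  have e2 := q2.2.1
  have h3 : 64 * (a * m2) ≤ a * m1 := by
    calc 64 * (a * m2) = a * (64 * (1 * m2)) := by ring
      _ ≤ a * (64 * (Λ * m2)) := by
          apply Nat.mul_le_mul_left; apply Nat.mul_le_mul_left; apply Nat.mul_le_mul_right; omega
      _ ≤ a * m1 := Nat.mul_le_mul_left _ h12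
  have h3' : 64 * ((a : ℤ) * m2) ≤ a * m1 := by exact_mod_cast h3
  have h0 : (0 : ℤ) ≤ a * m2 := by positivity
  constructor <;> omega

end Run7.h561.EC
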