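import Pool.Agent.Run7.h561.EC.P_T1

/-! # TIPF, part 2: the number of tips -/

set_option autoImplicit false

namespace Run7.h561.EC

open H974 H12S Finset H984P H984N Run7.h561 Run7.h561.FB Run7.h561.TIP

open Classical in
theorem tips_ball2 (F : Finset Edg) (c : Vtx) (r : ℕ) (Far : Set Vtx)
    (hfar : ∀ y ∈ Far, BSfar c (3 * r) y) (T : Finset ℤ) :
    ∑ s ∈ T, ind (sd (c.1, s) c ≤ r ∧ TipF c.1 Far (↑F : Set Edg) (c.1, s)) ≤
      (NC src tgt (ctr c r) {y | BSfar c (3 * r) y} (↑F : Set Edg) : ℝ) := by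
  rw [sum_ind_card]
  unfold NC
  norm_cast
  refine Finset.card_le_card_of_injOn (fun s => clu src tgt (↑F : Set Edg) (c.1, s)) ?_ ?_
  · intro s hs
    obtain ⟨-, h1, h2⟩ := mem_filt (Finset.mem_coe.1 hs)
    obtain ⟨-, -, y, y1, y2⟩ := h2
    exact mem_TC.2 ⟨(c.1, s), mem_ctr.2 h1, ⟨y, hfar y y2, y1⟩, rfl⟩
  · intro s hs s' hs' he
    obtain ⟨-, -, h2⟩ := mem_filt (Finset.mem_coe.1 hs)
    obtain ⟨-, -, h2'⟩ := mem_filt (Finset.mem_coe.1 hs')
    have hr : Reach (↑F : Set Edg) (c.1, s) (c.1, s') := by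
      have : ((c.1, s') : Vtx) ∈ clu src tgt (↑F : Set Edg) (c.1, s') := GR.refl _ _
      simp only at he
      rw [← he] at this
      exact this
    by_contra hne
    rcases lt_or_gt_of_ne hne with h | h
    · exact h2'.2.1 s h (Reach.symm hr)
    · exact h2.2.1 s' h hr

/-- The mean number of tips. -/
theorem tips_count2 {C : ℝ} (hC : ∀ (c : ℤ × ℤ) (k : ℕ) (S : Finset Edg), 1 ≤ k →
      Ex (fun _ => (1 / 2 : ℝ)) S (fun F =>
        (NC src tgt (ctr c k) {y | BSfar c (3 * k) y} (↑F : Set Edg) : ℝ)) ≤ C)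
    (S : Finset Edg) (x0 : ℤ) (n b r : ℕ) (hr : 4 * r ≤ b) (hr1 : 1 ≤ r)
    (hx1 : (b : ℤ) ≤ x0) (hx2 : x0 + b ≤ n) :
    Ex (fun _ => (1 / 2 : ℝ)) S
      (fun F => ∑ s ∈ Finset.Icc (b : ℤ) (n - b), ind (TipF x0 (FrB n) (↑F : Set Edg) (x0, s))) ≤
      ((n / r + 1 : ℕ) : ℝ) * C := by
  have key : ∀ F : Finset Edg, F ⊆ S →
      ∑ s ∈ Finset.Icc (b : ℤ) (n - b), ind (TipF x0 (FrB n) (↑F : Set Edg) (x0, s)) ≤
      ∑ k ∈ range (n / r + 1),
        (NC src tgt (ctr (x0, ((r * k : ℕ) : ℤ)) r) {y | BSfar (x0, ((r * k : ℕ) : ℤ)) (3 * r) y}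
          (↑F : Set Edg) : ℝ) := by
    intro F _
    have e1 : ∀ s ∈ Finset.Icc (b : ℤ) (n - b), ind (TipF x0 (FrB n) (↑F : Set Edg) (x0, s)) ≤
        ∑ k ∈ range (n / r + 1), ind (((r * k : ℕ) + 3 * r : ℤ) ≤ n ∧ (3 * r : ℤ) ≤ (r * k : ℕ) ∧
          sd (x0, s) (x0, ((r * k : ℕ) : ℤ)) ≤ r ∧
          TipF x0 (FrB n) (↑F : Set Edg) (x0, s)) := by
      intro s hs
      rw [Finset.mem_Icc] at hs
      obtain ⟨q, rfl⟩ := Int.eq_ofNat_of_zero_le (show 0 ≤ s by omega)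
      have hq : q ≤ n := by
        have : (q : ℤ) ≤ n := by omega
        exact_mod_cast this
      by_cases h : TipF x0 (FrB n) (↑F : Set Edg) (x0, (q : ℤ))
      · have h1 : q / r ∈ range (n / r + 1) := by
          rw [Finset.mem_range]
          have := Nat.div_le_div_right (c := r) hq
          omega
        have h2 : ((r * (q / r) : ℕ) + 3 * r : ℤ) ≤ n ∧ (3 * r : ℤ) ≤ (r * (q / r) : ℕ) ∧
            sd (x0, (q : ℤ)) (x0, ((r * (q / r) : ℕ) : ℤ)) ≤ r ∧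
            TipF x0 (FrB n) (↑F : Set Edg) (x0, (q : ℤ)) := by
          have h3 := Nat.mul_div_le q r
          have h4 := Nat.lt_mul_div_succ q (show 0 < r by omega)
          rw [Nat.mul_add, Nat.mul_one] at h4
          set p : ℕ := r * (q / r) with hp
          refine ⟨by omega, by omega, ?_, h⟩
          rw [sd_le]
          simp only
          omega
        rw [ind_of h, ← ind_of h2]
        exact Finset.single_le_sum (f := fun k : ℕ => ind (((r * k : ℕ) + 3 * r : ℤ) ≤ n ∧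
          (3 * r : ℤ) ≤ (r * k : ℕ) ∧ sd (x0, (q : ℤ))
          (x0, ((r * k : ℕ) : ℤ)) ≤ r ∧ TipF x0 (FrB n) (↑F : Set Edg) (x0, (q : ℤ))))
          (fun _ _ => ind_nonneg _) h1
      · rw [ind_not_of h]
        exact Finset.sum_nonneg fun _ _ => ind_nonneg _
    refine (Finset.sum_le_sum e1).trans ?_
    rw [Finset.sum_comm]
    refine Finset.sum_le_sum fun k _ => ?_
    by_cases hk : ((r * k : ℕ) + 3 * r : ℤ) ≤ n ∧ (3 * r : ℤ) ≤ (r * k : ℕ)
    · refine le_trans (Finset.sum_le_sum fun s _ => ind_mono fun h => h.2.2)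
        (tips_ball2 F (x0, ((r * k : ℕ) : ℤ)) r (FrB n) ?_ _)
      exact FrB_far (by push_cast; omega) (by push_cast; omega) (by push_cast at hk ⊢; omega)
        (by push_cast at hk ⊢; omega)
    · refine le_trans (le_of_eq (Finset.sum_eq_zero fun s _ => ?_)) (Nat.cast_nonneg _)
      exact ind_not_of fun h => hk ⟨h.1, h.2.1⟩
  refine (Ex_mono okh key).trans ?_
  rw [Ex_sum (fun _ => (1 / 2 : ℝ)) S (range (n / r + 1)) (fun k F =>
    (NC src tgt (ctr (x0, ((r * k : ℕ) : ℤ)) r) {y | BSfar (x0, ((r * k : ℕ) : ℤ)) (3 * r) y}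
          (↑F : Set Edg) : ℝ))]
  refine (Finset.sum_le_sum fun k _ => hC (x0, ((r * k : ℕ) : ℤ)) r S hr1).trans ?_
  rw [Finset.sum_const, Finset.card_range, nsmul_eq_mul]

open Classical in
/-- Every tip has at most `19` first gadgets. -/
theorem comb2 {a Λ M J : ℕ} {P : ℕ → Prop} {x0 : ℤ} {Far : Set Vtx} {G : ℕ → Finset Edg → Prop}
    {F : Finset Edg} {s : ℤ} (ha : 1 ≤ a) (hM : 1 ≤ M) (hΛ : 16 ≤ Λ)
    (hP : ∀ j, j < J → P (M * (64 * Λ) ^ j)) (I : ℕ → Finset ℕ) :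
    ∑ j ∈ range J, ∑ i ∈ I j, ind (QE2 a Λ P x0 Far G (M * (64 * Λ) ^ j)
      ((64 * (a * (M * (64 * Λ) ^ j)) * i : ℕ) : ℤ) s F) ≤
      19 * ind (TipF x0 Far (↑F : Set Edg) (x0, s)) := by
  by_cases hT : TipF x0 Far (↑F : Set Edg) (x0, s)
  swap
  · rw [ind_not_of hT, mul_zero]
    refine le_of_eq (Finset.sum_eq_zero fun j _ => Finset.sum_eq_zero fun i _ => ?_)
    exact ind_not_of fun h => hT h.1
  rw [ind_of hT, mul_one]
  by_cases hex : ∃ j ∈ range J, ∃ i ∈ I j, QE2 a Λ P x0 Far G (M * (64 * Λ) ^ j)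
      ((64 * (a * (M * (64 * Λ) ^ j)) * i : ℕ) : ℤ) s F
  swap
  · refine le_trans (le_of_eq (Finset.sum_eq_zero fun j hj => Finset.sum_eq_zero fun i hi => ?_))
      (by norm_num : (0 : ℝ) ≤ 19)
    exact ind_not_of fun h => hex ⟨j, hj, i, hi, h⟩
  obtain ⟨j0, hj0, i0, hi0, h0⟩ := hex
  rw [Finset.mem_range] at hj0
  have hstep : ∀ j j', j < j' → 64 * (Λ * (M * (64 * Λ) ^ j)) ≤ M * (64 * Λ) ^ j' := by
    intro j j' hjj
    calc 64 * (Λ * (M * (64 * Λ) ^ j)) = M * (64 * Λ) ^ (j + 1) := by rw [pow_succ]; ring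
      _ ≤ M * (64 * Λ) ^ j' := by
          apply Nat.mul_le_mul_left
          exact Nat.pow_le_pow_right (by omega) hjj
  rw [Finset.sum_eq_single j0]
  rotate_left
  · intro j hj hne
    rw [Finset.mem_range] at hj
    refine Finset.sum_eq_zero fun i _ => ind_not_of fun h => ?_
    rcases Nat.lt_or_gt_of_ne hne with h1 | h1
    · exact QE2_sep hΛ (hP j0 hj0) (hstep j j0 h1) h0 h
    · exact QE2_sep hΛ (hP j hj) (hstep j0 j h1) h h0
  · intro h
    exact absurd (Finset.mem_range.2 hj0) h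
  set m : ℕ := M * (64 * Λ) ^ j0 with hm
  have hm1 : 1 ≤ m := Nat.mul_pos hM (Nat.pow_pos (by omega))
  have hU : 1 ≤ a * m := Nat.mul_pos ha hm1
  have hsub : (I j0).filter (fun i => QE2 a Λ P x0 Far G m ((64 * (a * m) * i : ℕ) : ℤ) s F) ⊆
      Finset.Icc (i0 - 9) (i0 + 9) := by
    intro i hi
    rw [Finset.mem_filter] at hi
    have q1 := h0.2.1
    have q2 := hi.2.2.1
    have key : ∀ x y : ℕ, ((64 * (a * m) * x : ℕ) : ℤ) - 120 * (a * m) ≤ s →
        s ≤ ((64 * (a * m) * y : ℕ) : ℤ) + 512 * (a * m) → x ≤ y + 9 := by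
      intro x y h1 h2
      by_contra h3
      push Not at h3
      have h4 : a * m * (y + 10) ≤ a * m * x := Nat.mul_le_mul_left _ h3
      have h5 : ((a * m * (y + 10) : ℕ) : ℤ) ≤ ((a * m * x : ℕ) : ℤ) := by exact_mod_cast h4
      have e1 : ((64 * (a * m) * x : ℕ) : ℤ) = 64 * ((a * m * x : ℕ) : ℤ) := by push_cast; ring
      have e2 : ((64 * (a * m) * y : ℕ) : ℤ) = 64 * ((a * m * y : ℕ) : ℤ) := by push_cast; ring
      have e3 : ((a * m * (y + 10) : ℕ) : ℤ) = ((a * m * y : ℕ) : ℤ) + 10 * (a * m) := by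
        push_cast; ring
      have hU' : (1 : ℤ) ≤ a * m := by exact_mod_cast hU
      rw [e1] at h1
      rw [e2] at h2
      rw [e3] at h5
      omega
    rw [Finset.mem_Icc]
    have k1 := key i i0 q2.1 q1.2
    have k2 := key i0 i q1.1 q2.2
    omega
  rw [sum_ind_card]
  have h1 := Finset.card_le_card hsub
  rw [Nat.card_Icc] at h1
  have h2 : ((I j0).filter (fun i => QE2 a Λ P x0 Far G m ((64 * (a * m) * i : ℕ) : ℤ) s F)).card
      ≤ 19 := by omega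
  exact_mod_cast h2

end Run7.h561.EC
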