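import Pool.Agent.Run7.h561.EC.P_T2

/-! # TIPF, part 3: one scale -/

set_option autoImplicit false

namespace Run7.h561.EC

open H974 H12S Finset H984P H984N Run7.h561 Run7.h561.FB Run7.h561.TIP

theorem one_scale2 (dec : S_DEC) {a Λ m n b d : ℕ} {x0 : ℤ} {P : ℕ → Prop}
    {G : ℕ → Finset Edg → Prop} {Cp s CF : ℝ}
    (ha : 24 ≤ a) (hev : Even a) (hΛ : 16 ≤ Λ) (hm : 1 ≤ m)
    (hb : 4 * d ≤ b) (hbig : 1000 * (Λ * (a * m)) ≤ d)
    (hx1 : (b : ℤ) ≤ x0) (hx2 : x0 + b ≤ n) (hCp : 0 < Cp)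
    (hpn : ∀ (a Λ m : ℕ) (c : ℤ × ℤ) (S : Finset Edg)
      (Far : Set Vtx), 24 ≤ a → 16 ≤ Λ → 1 ≤ m → blk c (192 * (Λ * (a * m))) ⊆ S →
      PQ (1 / 2) S (fun F => ∃ u, XO c (512 * (a * m)) Far (↑F : Set Edg) u ∧
        Crs c.1 c.2 (512 * (a * m)) (64 * (Λ * (a * m)))
          (↑(F \ KX c (512 * (a * m)) S u F) : Set Edg)) ≤
          Cp * (Λ : ℝ) ^ (-s) * fX S c (512 * (a * m)) Far ∧
      PQ (1 / 2) S (fun F =>
        (∃ j ∈ Finset.Icc 17 (4 * Λ + 1),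
          NLn c.1 (c.2 - 16 * (a * m * (j : ℕ))) (16 * (a * m)) (16 * m) (↑F : Set Edg)) ∧
        ∃ u, XO c (192 * (Λ * (a * m))) Far (↑F : Set Edg) u) ≤
          Cp * ((Λ : ℝ) / a) * fX S c (192 * (Λ * (a * m))) Far)
    (hfb : ∀ (c : ℤ × ℤ) (ρ w : ℕ) (S : Finset Edg) (Far : Set Vtx),
      1 ≤ ρ → 3 * ρ ≤ w → blk c w ⊆ S → (∀ y ∈ Far, BSfar c w y) →
      fX S c ρ Far ≤ CF * ((ρ : ℝ) / w)) :
    PQ (1 / 2) (RE 0 n 0 n) (fun F => ∃ z : Vtx, ((b : ℤ) ≤ z.2 ∧ z.2 + b ≤ n) ∧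
      TipF x0 (FrB n) (↑F : Set Edg) z ∧ ∀ m', P m' → ¬ GoodF a m' x0 (FrB n) (G m') F z) ≤
    ((n : ℝ) / (64 * ((a : ℝ) * m)) + 1) *
      (Cp * (Λ : ℝ) ^ (-s) * (CF * ((512 * (a * m) : ℕ) / d)) +
        Cp * ((Λ : ℝ) / a) * (CF * ((192 * (Λ * (a * m)) : ℕ) / d))) +
    ∑ i ∈ Iw a m n d, PQ (1 / 2) (RE 0 n 0 n) (fun F => ∃ u,
      AE2 a Λ P x0 (FrB n) G m ((64 * (a * m) * i : ℕ) : ℤ) u F ∧
      I4 a m Λ (x0, ((64 * (a * m) * i : ℕ) : ℤ)) (RE 0 n 0 n) u F) := by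
  have hUm : 24 * m ≤ a * m := Nat.mul_le_mul_right _ ha
  have hLU : 16 * (a * m) ≤ Λ * (a * m) := Nat.mul_le_mul_right _ hΛ
  set S : Finset Edg := RE 0 n 0 n with hS
  set U : ℕ := a * m with hU
  -- the bad event
  have hfar : ∀ i ∈ Iw a m n d, ∀ k ≤ d, ∀ y ∈ FrB n,
      BSfar (x0, ((64 * U * i : ℕ) : ℤ)) k y := by
    intro i hi k hk
    obtain ⟨i1, i2⟩ := mem_Iw hi
    rw [← hU] at i1 i2
    set p : ℕ := 64 * U * i with hp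
    exact FrB_far (by omega) (by omega) (by omega) (by omega)
  have e1 : PQ (1 / 2) S (fun F => ∃ z : Vtx, ((b : ℤ) ≤ z.2 ∧ z.2 + b ≤ n) ∧
      TipF x0 (FrB n) (↑F : Set Edg) z ∧ ∀ m', P m' → ¬ GoodF a m' x0 (FrB n) (G m') F z) ≤
      PQ (1 / 2) S (fun F => ∃ i, i ∈ Iw a m n d ∧
        ((∃ u, AE2 a Λ P x0 (FrB n) G m ((64 * U * i : ℕ) : ℤ) u F ∧
          I4 a m Λ (x0, ((64 * U * i : ℕ) : ℤ)) S u F) ∨
        (∃ u, XO (x0, ((64 * U * i : ℕ) : ℤ)) (512 * U) (FrB n) (↑F : Set Edg) u ∧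
          Crs x0 ((64 * U * i : ℕ) : ℤ) (512 * U) (64 * (Λ * U))
            (↑(F \ KX (x0, ((64 * U * i : ℕ) : ℤ)) (512 * U) S u F) : Set Edg)) ∨
        ((∃ j ∈ Finset.Icc 17 (4 * Λ + 1),
          NLn x0 (((64 * U * i : ℕ) : ℤ) - 16 * (a * m * (j : ℕ))) (16 * U) (16 * m) (↑F)) ∧
        ∃ u, XO (x0, ((64 * U * i : ℕ) : ℤ)) (192 * (Λ * U)) (FrB n) (↑F) u))) := by
    refine Pr_mono okh fun F hFS h => ?_
    obtain ⟨z, ⟨z1, z2⟩, hz, hP⟩ := h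
    obtain ⟨q, hq⟩ := Int.eq_ofNat_of_zero_le (show 0 ≤ z.2 by omega)
    have h64 : 0 < 64 * U := by omega
    have k1 := Nat.mul_div_le q (64 * U)
    have k2 := Nat.lt_mul_div_succ q h64
    rw [Nat.mul_add, Nat.mul_one] at k2
    have hIw : q / (64 * U) ∈ Iw a m n d := by
      unfold Iw
      rw [Finset.mem_filter, Finset.mem_range]
      have k3 : q / (64 * U) ≤ n / (64 * U) := Nat.div_le_div_right (by omega)
      rw [← hU]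
      set p : ℕ := 64 * U * (q / (64 * U)) with hp
      refine ⟨Nat.lt_succ_of_le k3, ?_, ?_⟩
      · omega
      · omega
    refine ⟨q / (64 * U), hIw, ?_⟩
    · refine bad_cases2 dec ha hev hΛ hm hFS (hfar _ hIw _ (by rw [← hU]; omega)) hP hz ?_ ?_
      · set p : ℕ := 64 * U * (q / (64 * U)) with hp
        rw [hq]
        exact_mod_cast k1
      · set p : ℕ := 64 * U * (q / (64 * U)) with hp
        have : (((a : ℤ)) * m) = (U : ℤ) := by rw [hU]; push_cast; ring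
        rw [this]
        omega
  have e4 := pr_ex_le S (Iw a m n d) (fun i F => i ∈ Iw a m n d ∧
        ((∃ u, AE2 a Λ P x0 (FrB n) G m ((64 * U * i : ℕ) : ℤ) u F ∧
          I4 a m Λ (x0, ((64 * U * i : ℕ) : ℤ)) S u F) ∨
        (∃ u, XO (x0, ((64 * U * i : ℕ) : ℤ)) (512 * U) (FrB n) (↑F : Set Edg) u ∧
          Crs x0 ((64 * U * i : ℕ) : ℤ) (512 * U) (64 * (Λ * U))
            (↑(F \ KX (x0, ((64 * U * i : ℕ) : ℤ)) (512 * U) S u F) : Set Edg)) ∨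
        ((∃ j ∈ Finset.Icc 17 (4 * Λ + 1),
          NLn x0 (((64 * U * i : ℕ) : ℤ) - 16 * (a * m * (j : ℕ))) (16 * U) (16 * m) (↑F)) ∧
        ∃ u, XO (x0, ((64 * U * i : ℕ) : ℤ)) (192 * (Λ * U)) (FrB n) (↑F) u)))
    (fun i F h => h.1)
  set D : ℝ := Cp * (Λ : ℝ) ^ (-s) * (CF * ((512 * U : ℕ) / d)) +
        Cp * ((Λ : ℝ) / a) * (CF * ((192 * (Λ * U) : ℕ) / d)) with hD
  have e5 : ∀ i ∈ Iw a m n d, PQ (1 / 2) S (fun F => i ∈ Iw a m n d ∧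
        ((∃ u, AE2 a Λ P x0 (FrB n) G m ((64 * U * i : ℕ) : ℤ) u F ∧
          I4 a m Λ (x0, ((64 * U * i : ℕ) : ℤ)) S u F) ∨
        (∃ u, XO (x0, ((64 * U * i : ℕ) : ℤ)) (512 * U) (FrB n) (↑F : Set Edg) u ∧
          Crs x0 ((64 * U * i : ℕ) : ℤ) (512 * U) (64 * (Λ * U))
            (↑(F \ KX (x0, ((64 * U * i : ℕ) : ℤ)) (512 * U) S u F) : Set Edg)) ∨
        ((∃ j ∈ Finset.Icc 17 (4 * Λ + 1),
          NLn x0 (((64 * U * i : ℕ) : ℤ) - 16 * (a * m * (j : ℕ))) (16 * U) (16 * m) (↑F)) ∧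
        ∃ u, XO (x0, ((64 * U * i : ℕ) : ℤ)) (192 * (Λ * U)) (FrB n) (↑F) u))) ≤
      PQ (1 / 2) S (fun F => ∃ u, AE2 a Λ P x0 (FrB n) G m ((64 * U * i : ℕ) : ℤ) u F ∧
          I4 a m Λ (x0, ((64 * U * i : ℕ) : ℤ)) S u F) + D := by
    intro i hi
    obtain ⟨i1, i2⟩ := mem_Iw hi
    rw [← hU] at i1 i2
    have hbx : blk (x0, ((64 * U * i : ℕ) : ℤ)) d ⊆ S := by
      set p : ℕ := 64 * U * i with hp
      exact blk_box (by omega) (by omega) (by exact_mod_cast i1) (by exact_mod_cast i2)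
    obtain ⟨q1, q2⟩ := hpn a Λ m (x0, ((64 * U * i : ℕ) : ℤ)) S (FrB n) ha hΛ hm
      ((blk_mono (show 192 * (Λ * U) ≤ d by omega)).trans hbx)
    have q3 := hfb (x0, ((64 * U * i : ℕ) : ℤ)) (512 * U) d S (FrB n) (by omega) (by omega) hbx
      (hfar i hi d le_rfl)
    have q4 := hfb (x0, ((64 * U * i : ℕ) : ℤ)) (192 * (Λ * U)) d S (FrB n) (by omega)
      (by omega) hbx (hfar i hi d le_rfl)
    have hL0 : (0 : ℝ) ≤ Cp * (Λ : ℝ) ^ (-s) := by positivity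
    have hL1 : (0 : ℝ) ≤ Cp * ((Λ : ℝ) / a) := by positivity
    refine (Pr_mono okh fun F _ h => h.2).trans ?_
    refine (Pr_or_le okh S _ _).trans ?_
    refine add_le_add le_rfl ?_
    refine (Pr_or_le okh S _ _).trans ?_
    rw [hD]
    exact add_le_add (q1.trans (mul_le_mul_of_nonneg_left q3 hL0))
      (q2.trans (mul_le_mul_of_nonneg_left q4 hL1))
  have e6 := e4.trans (Finset.sum_le_sum e5)
  rw [Finset.sum_add_distrib, Finset.sum_const, nsmul_eq_mul] at e6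
  have hD0 : 0 ≤ D := by
    have hCF : 0 ≤ CF := by
      by_contra hneg
      push Not at hneg
      have h9 := hfb (0, 0) 1 3 (blk (0, 0) 3) ∅ le_rfl (by norm_num) (Finset.Subset.refl _)
        (by intro y hy; exact absurd hy (Set.notMem_empty y))
      have h10 := fX_nonneg (blk (0, 0) 3) (0, 0) 1 ∅
      have h11 : CF * (((1 : ℕ) : ℝ) / ((3 : ℕ) : ℝ)) < 0 := by
        apply mul_neg_of_neg_of_pos hneg; norm_num
      linarith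
    rw [hD]; positivity
  have e7 := mul_le_mul_of_nonneg_right (Iw_card a m n d) hD0
  linarith

end Run7.h561.EC
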