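import Pool.Agent.Run7.h561.EC.P_T3

/-! # TIPF: with large probability every tip in the bulk is connected to a gadget of macroscopic size
near the tip, and no other macroscopic cluster comes close. -/

set_option autoImplicit false

namespace Run7.h561.EC

open H974 H12S Finset H984P H984N Run7.h561 Run7.h561.FB Run7.h561.TIP

/-- Painting of all the windows of one scale. -/
theorem paint_all2 (sdet : S_SDET) (kxs : S_KXS) {a Λ m n b d : ℕ} {x0 : ℤ} {P : ℕ → Prop}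
    {G : ℕ → Finset Edg → Prop} {p p0 : ℝ} (hp0 : 0 < p0)
    (ha : 24 ≤ a) (hev : Even a) (hΛ : 16 ≤ Λ) (hm : 1 ≤ m)
    (hb : 4 * d ≤ b) (hbig : 1000 * (Λ * (a * m)) ≤ d)
    (hx1 : (b : ℤ) ≤ x0) (hx2 : x0 + b ≤ n) (hPm : P m)
    (hG : ∀ m', P m' → GLc a m' p (G m'))
    (hsurg : ∀ (m : ℕ) (c : ℤ × ℤ) (S : Finset Edg) (u : Vtx) (G : Finset Edg → Prop), 1 ≤ m →
    blk c (192 * (Λ * (a * m)) + 6 * m) ⊆ S → GLc a m p G → ∀ A : Finset Edg → Prop,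
    (∀ F F', F ⊆ S → F' ⊆ S → F ∩ KO c (512 * (a * m)) (192 * (Λ * (a * m))) S u F =
      F' ∩ KO c (512 * (a * m)) (192 * (Λ * (a * m))) S u F → A F → A F') →
    p0 * PQ (1 / 2) S (fun F => A F ∧ I4 a m Λ c S u F) ≤
      PQ (1 / 2) S (fun F => (A F ∧ I4 a m Λ c S u F) ∧ Pnt a m Λ c S u G F)) :
    p0 * ∑ i ∈ Iw a m n d, PQ (1 / 2) (RE 0 n 0 n) (fun F => ∃ u,
      AE2 a Λ P x0 (FrB n) G m ((64 * (a * m) * i : ℕ) : ℤ) u F ∧
      I4 a m Λ (x0, ((64 * (a * m) * i : ℕ) : ℤ)) (RE 0 n 0 n) u F) ≤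
    ∑ i ∈ Iw a m n d, ∑ s ∈ Finset.Icc ((d / 2 : ℕ) : ℤ) (n - (d / 2 : ℕ)), PQ (1 / 2) (RE 0 n 0 n)
      (QE2 a Λ P x0 (FrB n) G m ((64 * (a * m) * i : ℕ) : ℤ) s) := by
  have hUm : 24 * m ≤ a * m := Nat.mul_le_mul_right _ ha
  have hLU : 16 * (a * m) ≤ Λ * (a * m) := Nat.mul_le_mul_right _ hΛ
  set S : Finset Edg := RE 0 n 0 n with hS
  rw [Finset.mul_sum]
  refine Finset.sum_le_sum fun i hi => ?_
  obtain ⟨i1, i2⟩ := mem_Iw hi
  set U : ℕ := a * m with hU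
  have hbx : blk (x0, ((64 * U * i : ℕ) : ℤ)) d ⊆ S := by
    set q : ℕ := 64 * U * i with hq
    exact blk_box (by omega) (by omega) (by exact_mod_cast i1) (by exact_mod_cast i2)
  have hfar' : ∀ k ≤ d, ∀ y ∈ FrB n, BSfar (x0, ((64 * U * i : ℕ) : ℤ)) k y := by
    intro k hk
    set q : ℕ := 64 * U * i with hq
    exact FrB_far (by omega) (by omega) (by omega) (by omega)
  have h1 : p0 * PQ (1 / 2) S (fun F => ∃ u, AE2 a Λ P x0 (FrB n) G m ((64 * U * i : ℕ) : ℤ) u F ∧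
      I4 a m Λ (x0, ((64 * U * i : ℕ) : ℤ)) S u F) ≤
      PQ (1 / 2) S (fun F => ∃ u, (AE2 a Λ P x0 (FrB n) G m ((64 * U * i : ℕ) : ℤ) u F ∧
      I4 a m Λ (x0, ((64 * U * i : ℕ) : ℤ)) S u F) ∧
      Pnt a m Λ (x0, ((64 * U * i : ℕ) : ℤ)) S u (G m) F) := by
    refine (paint_sum (Far := FrB n) sdet ha hev hΛ hm (hfar' _ (show 192 * (Λ * U) ≤ d by omega))
      (fun u => ?_) (fun u F h => h.1)).resolve_right (not_lt.2 hp0.le)
    refine hsurg m (x0, ((64 * U * i : ℕ) : ℤ)) S u (G m) hm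
      ((blk_mono (show 192 * (Λ * U) + 6 * m ≤ d by omega)).trans hbx) (hG m hPm) _ ?_
    exact AE2_det kxs ha hΛ hm hG
  refine h1.trans ?_
  refine le_trans ?_ (pr_ex_le S (Finset.Icc ((d / 2 : ℕ) : ℤ) (n - (d / 2 : ℕ)))
    (fun s F => s ∈ Finset.Icc ((d / 2 : ℕ) : ℤ) (n - (d / 2 : ℕ)) ∧
    QE2 a Λ P x0 (FrB n) G m ((64 * U * i : ℕ) : ℤ) s F) (fun s F h => h.1)) |>.trans ?_
  · refine Pr_mono okh fun F hFS h => ?_
    obtain ⟨u, ⟨h2, h3⟩, h4⟩ := h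
    obtain ⟨s, hs⟩ := painted2 sdet ha hev hΛ hm hFS (hfar' _ (by rw [← hU]; omega)) h2 h3 h4
    refine ⟨s, ?_, hs⟩
    have h5 := hs.2.1
    have : (((a : ℤ)) * m) = (U : ℤ) := by rw [hU]; push_cast; ring
    rw [this] at h5
    rw [Finset.mem_Icc]
    set q : ℕ := 64 * U * i with hq
    omega
  · refine Finset.sum_le_sum fun s _ => ?_
    exact Pr_mono okh fun F _ h => h.2

/-- Sum over the scales. -/
theorem all_scales2 {C : ℝ} (hC : ∀ (c : ℤ × ℤ) (k : ℕ) (S : Finset Edg), 1 ≤ k →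
      Ex (fun _ => (1 / 2 : ℝ)) S (fun F =>
        (NC src tgt (ctr c k) {y | BSfar c (3 * k) y} (↑F : Set Edg) : ℝ)) ≤ C)
    {a Λ M J n b r : ℕ} {x0 : ℤ} {P : ℕ → Prop} {G : ℕ → Finset Edg → Prop} (ha : 1 ≤ a)
    (hM : 1 ≤ M) (hΛ : 16 ≤ Λ) (hP : ∀ j, j < J → P (M * (64 * Λ) ^ j)) (I : ℕ → Finset ℕ)
    (hr : 4 * r ≤ b) (hr1 : 1 ≤ r) (hx1 : (b : ℤ) ≤ x0) (hx2 : x0 + b ≤ n) :
    ∑ j ∈ range J, ∑ i ∈ I j, ∑ s ∈ Finset.Icc (b : ℤ) (n - b), PQ (1 / 2) (RE 0 n 0 n)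
      (QE2 a Λ P x0 (FrB n) G (M * (64 * Λ) ^ j) ((64 * (a * (M * (64 * Λ) ^ j)) * i : ℕ) : ℤ) s) ≤
    19 * (((n / r + 1 : ℕ) : ℝ) * C) := by
  have e1 : ∑ j ∈ range J, ∑ i ∈ I j, ∑ s ∈ Finset.Icc (b : ℤ) (n - b), PQ (1 / 2) (RE 0 n 0 n)
      (QE2 a Λ P x0 (FrB n) G (M * (64 * Λ) ^ j) ((64 * (a * (M * (64 * Λ) ^ j)) * i : ℕ) : ℤ) s) =
      Ex (fun _ => (1 / 2 : ℝ)) (RE 0 n 0 n) (fun F => ∑ j ∈ range J, ∑ i ∈ I j,
        ∑ s ∈ Finset.Icc (b : ℤ) (n - b), ind (QE2 a Λ P x0 (FrB n) G (M * (64 * Λ) ^ j)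
          ((64 * (a * (M * (64 * Λ) ^ j)) * i : ℕ) : ℤ) s F)) := by
    rw [Ex_sum (fun _ => (1 / 2 : ℝ)) (RE 0 n 0 n) (range J) (fun j F => ∑ i ∈ I j,
        ∑ s ∈ Finset.Icc (b : ℤ) (n - b), ind (QE2 a Λ P x0 (FrB n) G (M * (64 * Λ) ^ j)
          ((64 * (a * (M * (64 * Λ) ^ j)) * i : ℕ) : ℤ) s F))]
    refine Finset.sum_congr rfl fun j _ => ?_
    rw [Ex_sum (fun _ => (1 / 2 : ℝ)) (RE 0 n 0 n) (I j) (fun i F =>
        ∑ s ∈ Finset.Icc (b : ℤ) (n - b), ind (QE2 a Λ P x0 (FrB n) G (M * (64 * Λ) ^ j)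
          ((64 * (a * (M * (64 * Λ) ^ j)) * i : ℕ) : ℤ) s F))]
    refine Finset.sum_congr rfl fun i _ => ?_
    rw [Ex_sum (fun _ => (1 / 2 : ℝ)) (RE 0 n 0 n) (Finset.Icc (b : ℤ) (n - b)) (fun s F =>
        ind (QE2 a Λ P x0 (FrB n) G (M * (64 * Λ) ^ j)
          ((64 * (a * (M * (64 * Λ) ^ j)) * i : ℕ) : ℤ) s F))]
    rfl
  rw [e1]
  have e2 : Ex (fun _ => (1 / 2 : ℝ)) (RE 0 n 0 n) (fun F => ∑ j ∈ range J, ∑ i ∈ I j,
        ∑ s ∈ Finset.Icc (b : ℤ) (n - b), ind (QE2 a Λ P x0 (FrB n) G (M * (64 * Λ) ^ j)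
          ((64 * (a * (M * (64 * Λ) ^ j)) * i : ℕ) : ℤ) s F)) ≤
      Ex (fun _ => (1 / 2 : ℝ)) (RE 0 n 0 n) (fun F =>
        19 * ∑ s ∈ Finset.Icc (b : ℤ) (n - b), ind (TipF x0 (FrB n) (↑F : Set Edg) (x0, s))) := by
    refine Ex_mono okh fun F _ => ?_
    have e3 : ∑ j ∈ range J, ∑ i ∈ I j,
        ∑ s ∈ Finset.Icc (b : ℤ) (n - b), ind (QE2 a Λ P x0 (FrB n) G (M * (64 * Λ) ^ j)
          ((64 * (a * (M * (64 * Λ) ^ j)) * i : ℕ) : ℤ) s F) =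
        ∑ s ∈ Finset.Icc (b : ℤ) (n - b), ∑ j ∈ range J, ∑ i ∈ I j,
          ind (QE2 a Λ P x0 (FrB n) G (M * (64 * Λ) ^ j)
          ((64 * (a * (M * (64 * Λ) ^ j)) * i : ℕ) : ℤ) s F) := by
      rw [Finset.sum_comm]
      rw [Finset.sum_congr rfl fun j _ => Finset.sum_comm]
    rw [e3, Finset.mul_sum]
    exact Finset.sum_le_sum fun s _ => comb2 ha hM hΛ hP I
  refine e2.trans ?_
  rw [Ex_mul_left]
  exact mul_le_mul_of_nonneg_left (tips_count2 hC _ x0 n b r hr hr1 hx1 hx2) (by norm_num)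

/-- **TIPF** -/
theorem t_TIPF (surg : S_SURG) (sdet : S_SDET) (dec : S_DEC) (kxs : S_KXS) (nc : S_NC)
    (pn : S_PN) : S_TIPF := by
  obtain ⟨CF, hCF, hfb⟩ := t_FB3 surg sdet dec kxs nc pn
  obtain ⟨C0, hC00, hC0⟩ := nc
  obtain ⟨Cp, s, hCp, hs, hpn⟩ := pn
  set C : ℝ := max C0 1 with hCd
  have hC1 : 1 ≤ C := le_max_right _ _
  have hC : ∀ (c : ℤ × ℤ) (k : ℕ) (S : Finset Edg), 1 ≤ k →
      Ex (fun _ => (1 / 2 : ℝ)) S (fun F =>
        (NC src tgt (ctr c k) {y | BSfar c (3 * k) y} (↑F : Set Edg) : ℝ)) ≤ C :=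
    fun c k S hk => (hC0 c k S hk).trans (le_max_left _ _)
  intro ε δ hε hδ
  -- `Λ`
  obtain ⟨Λ, hΛ, hΛ2⟩ : ∃ Λ : ℕ, 16 ≤ Λ ∧ Cp * (Λ : ℝ) ^ (-s) * (128 * CF / δ) ≤ ε / 8 := by
    have h1 : Filter.Tendsto (fun Λ : ℕ => Cp * (Λ : ℝ) ^ (-s) * (128 * CF / δ)) Filter.atTop
        (nhds (Cp * 0 * (128 * CF / δ))) := by
      refine Filter.Tendsto.mul_const _ (Filter.Tendsto.const_mul _ ?_)
      exact (tendsto_rpow_neg_atTop hs).comp tendsto_natCast_atTop_atTop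
    rw [mul_zero, zero_mul] at h1
    have h3 := (h1.eventually (gt_mem_nhds (show (0 : ℝ) < ε / 8 by positivity))).and
      (Filter.eventually_ge_atTop 16)
    obtain ⟨Λ, h4, h5⟩ := h3.exists
    exact ⟨Λ, h5, h4.le⟩
  have hΛ0 : (0 : ℝ) < Λ := by
    have : 0 < Λ := by omega
    exact_mod_cast this
  -- `a0`
  obtain ⟨b0, hb0⟩ := exists_nat_ge (Cp * (Λ : ℝ) * (48 * Λ * CF / δ) * 8 / ε)
  refine ⟨b0 + 24, ?_⟩
  intro a ha' hev p m0 hp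
  have ha : 24 ≤ a := by omega
  have ha0 : (0 : ℝ) < a := by
    have : 0 < a := by omega
    exact_mod_cast this
  have hγ : Cp * ((Λ : ℝ) / a) * (48 * Λ * CF / δ) ≤ ε / 8 := by
    have h1 : (b0 : ℝ) ≤ a := by
      have : b0 ≤ a := by omega
      exact_mod_cast this
    have h2 : Cp * (Λ : ℝ) * (48 * Λ * CF / δ) * 8 / ε ≤ a := hb0.trans h1
    rw [div_le_iff₀ hε] at h2
    rw [show Cp * ((Λ : ℝ) / a) * (48 * Λ * CF / δ) =
      (Cp * (Λ : ℝ) * (48 * Λ * CF / δ)) / a by ring, div_le_iff₀ ha0]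
    linarith
  obtain ⟨p0, hp0, hsurg⟩ := surg a Λ p ha hev hΛ hp
  obtain ⟨J, hJ⟩ := exists_nat_ge (4 * (19 * ((128 / δ + 1) * C)) / (p0 * ε))
  set R : ℕ := (64 * Λ) ^ J with hR
  have hR0 : (0 : ℝ) < R := by
    have : 0 < R := Nat.pow_pos (by omega)
    exact_mod_cast this
  set η : ℝ := δ / (16000 * Λ * a * R) with hη
  have hη0 : 0 < η := by rw [hη]; positivity
  obtain ⟨n0, hn0⟩ := exists_nat_ge (max (128 / δ) ((m0 + 1) / η))
  refine ⟨η, n0 + 1, hη0, ?_⟩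
  intro n hn G hG x0 hx1 hx2
  have hnn : (n0 : ℝ) ≤ n := by
    have : n0 ≤ n := by omega
    exact_mod_cast this
  have hn1 : 128 / δ ≤ n := ((le_max_left _ _).trans hn0).trans hnn
  have hn2 : ((m0 : ℝ) + 1) / η ≤ n := ((le_max_right _ _).trans hn0).trans hnn
  rw [div_le_iff₀ hδ] at hn1
  rw [div_le_iff₀ hη0] at hn2
  have hnpos : (0 : ℝ) < n := by
    have : 0 < n := by omega
    exact_mod_cast this
  have hδn : δ * n ≤ n - δ * n := hx1.trans hx2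
  -- `b` and `d`
  set b : ℕ := ⌊δ * n⌋₊ with hb
  have hb1 : (b : ℝ) ≤ δ * n := Nat.floor_le (by positivity)
  have hb2 : δ * n < b + 1 := Nat.lt_floor_add_one _
  have hb3 : 127 ≤ b := by
    have : (127 : ℝ) < b + 1 - 0 := by linarith
    have : (127 : ℝ) < ((b + 1 : ℕ) : ℝ) := by push_cast; linarith
    have : 127 < b + 1 := by exact_mod_cast this
    omega
  set d : ℕ := b / 4 with hd
  have hdb : 4 * d ≤ b := Nat.mul_div_le b 4
  have hd2 : b < 4 * d + 4 := by omega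
  have hbn : 2 * b ≤ n := by
    have : ((2 * b : ℕ) : ℝ) ≤ n := by push_cast; linarith
    exact_mod_cast this
  have hx1' : (b : ℤ) ≤ x0 := by
    have : ((b : ℤ) : ℝ) ≤ (x0 : ℝ) := by push_cast; linarith
    exact_mod_cast this
  have hx2' : x0 + b ≤ n := by
    have : ((x0 + b : ℤ) : ℝ) ≤ ((n : ℤ) : ℝ) := by push_cast; linarith
    exact_mod_cast this
  have hd1 : 31 ≤ d := by omega
  have hd0 : (0 : ℝ) < d := by
    have : 0 < d := by omega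
    exact_mod_cast this
  have hδd : δ * n ≤ 8 * d := by
    have : ((b + 1 : ℕ) : ℝ) ≤ ((8 * d : ℕ) : ℝ) := by
      have : b + 1 ≤ 8 * d := by omega
      exact_mod_cast this
    push_cast at this
    linarith
  -- `M`
  set M : ℕ := ⌈η * n⌉₊ with hM
  have hM1 : η * n ≤ M := Nat.le_ceil _
  have hM2 : (M : ℝ) < η * n + 1 := Nat.ceil_lt_add_one (by positivity)
  have hm00 : (0 : ℝ) ≤ m0 := Nat.cast_nonneg _
  have hM3 : (M : ℝ) ≤ 2 * (η * n) := by linarith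
  have hM4 : m0 ≤ M := by
    have : (m0 : ℝ) ≤ M := by linarith
    exact_mod_cast this
  have hM5 : 1 ≤ M := by
    have : (1 : ℝ) ≤ M := by linarith
    exact_mod_cast this
  -- sizes
  have hsize : ∀ j, j < J → 1000 * (Λ * (a * (M * (64 * Λ) ^ j))) ≤ d := by
    intro j hj
    have h1 : (64 * Λ) ^ j ≤ R := Nat.pow_le_pow_right (by omega) hj.le
    have h2 : (((64 * Λ) ^ j : ℕ) : ℝ) ≤ R := by exact_mod_cast h1
    have h3 : (1000 * (Λ * (a * (M * (((64 * Λ) ^ j : ℕ) : ℝ))))) ≤ (d : ℝ) := by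
      calc (1000 * (Λ * (a * (M * (((64 * Λ) ^ j : ℕ) : ℝ)))))
          ≤ 1000 * (Λ * (a * (2 * (η * n) * R))) := by gcongr
        _ = δ * n / 8 := by
            rw [hη]; field_simp; ring
        _ ≤ d := by linarith
    exact_mod_cast h3
  set P : ℕ → Prop := fun m => m0 ≤ m ∧ η * n ≤ m ∧ 2000 * ((a : ℝ) * m) ≤ δ * n with hPd
  have hMj : ∀ j, M ≤ M * (64 * Λ) ^ j := fun j =>
    Nat.le_mul_of_pos_right _ (Nat.pow_pos (by omega))
  have hP : ∀ j, j < J → P (M * (64 * Λ) ^ j) := by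
    intro j hj
    have h1 := hsize j hj
    refine ⟨hM4.trans (hMj j), hM1.trans (by exact_mod_cast hMj j), ?_⟩
    have h2 : 16 * (a * (M * (64 * Λ) ^ j)) ≤ Λ * (a * (M * (64 * Λ) ^ j)) :=
      Nat.mul_le_mul_right _ hΛ
    have h3 : 2000 * (a * (M * (64 * Λ) ^ j)) ≤ b := by omega
    have h4 : ((2000 * (a * (M * (64 * Λ) ^ j)) : ℕ) : ℝ) ≤ b := by exact_mod_cast h3
    push_cast at h4 ⊢
    linarith
  have hGP : ∀ m', P m' → GLc a m' p (G m') := fun m' h => hG m' h.1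
  -- the bad event
  set X : ℝ := PQ (1 / 2) (RE 0 n 0 n) (fun F => ∃ z : Vtx, ((b : ℤ) ≤ z.2 ∧ z.2 + b ≤ n) ∧
      TipF x0 (FrB n) (↑F : Set Edg) z ∧ ∀ m', P m' → ¬ GoodF a m' x0 (FrB n) (G m') F z) with hX
  have hgoal : PQ (1 / 2) (RE 0 n 0 n) (fun F => ∃ z : Vtx,
      (δ * n ≤ z.2 ∧ (z.2 : ℝ) ≤ n - δ * n) ∧ TipF x0 (FrB n) (↑F) z ∧
        ¬ ∃ m : ℕ, m0 ≤ m ∧ η * n ≤ m ∧ 2000 * ((a : ℝ) * m) ≤ δ * n ∧
          GoodF a m x0 (FrB n) (G m) F z) ≤ X := by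
    refine Pr_mono okh fun F _ h => ?_
    obtain ⟨z, z1, z2, z3⟩ := h
    refine ⟨z, ⟨?_, ?_⟩, z2, fun m' hm' hg => z3 ⟨m', hm'.1, hm'.2.1, hm'.2.2, hg⟩⟩
    · have : ((b : ℤ) : ℝ) ≤ (z.2 : ℝ) := by push_cast; linarith
      exact_mod_cast this
    · have : ((z.2 + b : ℤ) : ℝ) ≤ ((n : ℤ) : ℝ) := by push_cast; linarith
      exact_mod_cast this
  refine hgoal.trans ?_
  set Y : ℕ → ℝ := fun j => ∑ i ∈ Iw a (M * (64 * Λ) ^ j) n d,
    PQ (1 / 2) (RE 0 n 0 n) (fun F => ∃ u,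
      AE2 a Λ P x0 (FrB n) G (M * (64 * Λ) ^ j) ((64 * (a * (M * (64 * Λ) ^ j)) * i : ℕ) : ℤ) u F ∧
      I4 a (M * (64 * Λ) ^ j) Λ (x0, ((64 * (a * (M * (64 * Λ) ^ j)) * i : ℕ) : ℤ))
        (RE 0 n 0 n) u F) with hY
  have hone : ∀ j, j < J → X ≤ ε / 4 + Y j := by
    intro j hj
    set m : ℕ := M * (64 * Λ) ^ j with hm
    have hm1 : 1 ≤ m := hM5.trans (hMj j)
    have h0 := one_scale2 dec (n := n) (b := b) (d := d) (x0 := x0) (P := P) (G := G)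
      ha hev hΛ hm1 hdb (hsize j hj) hx1' hx2' hCp hpn hfb
    have hm0' : (0 : ℝ) < m := by exact_mod_cast hm1
    have hU0 : (0 : ℝ) < (a : ℝ) * m := by positivity
    have h64 : 64 * ((a : ℝ) * m) ≤ n := by
      have h2 : 1000 * (Λ * (a * m)) ≤ d := hsize j hj
      have h3 : 16 * (a * m) ≤ Λ * (a * m) := Nat.mul_le_mul_right _ hΛ
      have h4 : 64 * (a * m) ≤ n := by omega
      exact_mod_cast h4
    have h3 : (n : ℝ) / (64 * ((a : ℝ) * m)) + 1 ≤ 2 * ((n : ℝ) / (64 * ((a : ℝ) * m))) := by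
      have : 1 ≤ (n : ℝ) / (64 * ((a : ℝ) * m)) := by
        rw [le_div_iff₀ (by positivity)]; linarith
      linarith
    have hnd : (n : ℝ) / d ≤ 8 / δ := by
      rw [div_le_div_iff₀ hd0 hδ]
      linarith
    have hnd0 : 0 ≤ (n : ℝ) / d := by positivity
    have h4 : ((n : ℝ) / (64 * ((a : ℝ) * m)) + 1) *
      (Cp * (Λ : ℝ) ^ (-s) * (CF * ((512 * (a * m) : ℕ) / d)) +
        Cp * ((Λ : ℝ) / a) * (CF * ((192 * (Λ * (a * m)) : ℕ) / d))) ≤ ε / 4 := by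
      have h5 : 0 ≤ Cp * (Λ : ℝ) ^ (-s) * (CF * ((512 * (a * m) : ℕ) / d)) +
        Cp * ((Λ : ℝ) / a) * (CF * ((192 * (Λ * (a * m)) : ℕ) / d)) := by positivity
      refine (mul_le_mul_of_nonneg_right h3 h5).trans ?_
      have h6 : 2 * ((n : ℝ) / (64 * ((a : ℝ) * m))) *
        (Cp * (Λ : ℝ) ^ (-s) * (CF * ((512 * (a * m) : ℕ) / d)) +
        Cp * ((Λ : ℝ) / a) * (CF * ((192 * (Λ * (a * m)) : ℕ) / d))) =
        Cp * (Λ : ℝ) ^ (-s) * (16 * CF * ((n : ℝ) / d)) +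
        Cp * ((Λ : ℝ) / a) * (6 * Λ * CF * ((n : ℝ) / d)) := by
        push_cast
        field_simp
        ring
      rw [h6]
      have h7 : Cp * (Λ : ℝ) ^ (-s) * (16 * CF * ((n : ℝ) / d)) ≤ ε / 8 := by
        refine le_trans ?_ hΛ2
        refine mul_le_mul_of_nonneg_left ?_ (by positivity)
        calc 16 * CF * ((n : ℝ) / d) ≤ 16 * CF * (8 / δ) := by gcongr
          _ = 128 * CF / δ := by ring
      have h8 : Cp * ((Λ : ℝ) / a) * (6 * Λ * CF * ((n : ℝ) / d)) ≤ ε / 8 := by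
        refine le_trans ?_ hγ
        refine mul_le_mul_of_nonneg_left ?_ (by positivity)
        calc 6 * Λ * CF * ((n : ℝ) / d) ≤ 6 * Λ * CF * (8 / δ) := by gcongr
          _ = 48 * Λ * CF / δ := by ring
      linarith
    linarith
  -- the sum
  have hsum : (J : ℝ) * X ≤ J * (ε / 4) + ∑ j ∈ range J, Y j := by
    have h1 : ∑ j ∈ range J, X ≤ ∑ j ∈ range J, (ε / 4 + Y j) :=
      Finset.sum_le_sum fun j hj => hone j (Finset.mem_range.1 hj)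
    rw [Finset.sum_const, Finset.card_range, nsmul_eq_mul, Finset.sum_add_distrib,
      Finset.sum_const, Finset.card_range, nsmul_eq_mul] at h1
    exact h1
  set r : ℕ := d / 8 with hr
  have hr3 : 4 * r ≤ d / 2 := by omega
  have hr1 : 1 ≤ r := by omega
  have hpaint : p0 * ∑ j ∈ range J, Y j ≤ 19 * ((128 / δ + 1) * C) := by
    have h1 : p0 * ∑ j ∈ range J, Y j ≤ ∑ j ∈ range J, ∑ i ∈ Iw a (M * (64 * Λ) ^ j) n d,
        ∑ s ∈ Finset.Icc ((d / 2 : ℕ) : ℤ) (n - (d / 2 : ℕ)), PQ (1 / 2) (RE 0 n 0 n)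
        (QE2 a Λ P x0 (FrB n) G (M * (64 * Λ) ^ j)
          ((64 * (a * (M * (64 * Λ) ^ j)) * i : ℕ) : ℤ) s) := by
      rw [Finset.mul_sum]
      refine Finset.sum_le_sum fun j hj => ?_
      rw [Finset.mem_range] at hj
      exact paint_all2 sdet kxs hp0 ha hev hΛ (hM5.trans (hMj j)) hdb (hsize j hj) hx1' hx2'
        (hP j hj) hGP hsurg
    refine h1.trans ((all_scales2 hC (by omega) hM5 hΛ hP (fun j => Iw a (M * (64 * Λ) ^ j) n d)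
      hr3 hr1 (by omega) (by omega)).trans ?_)
    have h2 : ((n / r + 1 : ℕ) : ℝ) ≤ 128 / δ + 1 := by
      have h3 : ((n / r : ℕ) : ℝ) ≤ (n : ℝ) / r := Nat.cast_div_le
      have hr0 : (0 : ℝ) < r := by exact_mod_cast hr1
      have h4 : (d : ℝ) ≤ 16 * r := by
        have : d ≤ 16 * r := by omega
        exact_mod_cast this
      have h5 : (n : ℝ) / r ≤ 128 / δ := by
        rw [div_le_div_iff₀ hr0 hδ]
        linarith
      push_cast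
      linarith
    have hC0' : (0 : ℝ) ≤ C := by linarith
    nlinarith [mul_le_mul_of_nonneg_right h2 hC0']
  -- conclusion
  rw [div_le_iff₀ (by positivity)] at hJ
  have hJpos : (0 : ℝ) < J := by
    by_contra hneg
    push Not at hneg
    have h1 : (0 : ℝ) < 4 * (19 * ((128 / δ + 1) * C)) := by positivity
    have h2 : (J : ℝ) * (p0 * ε) ≤ 0 := mul_nonpos_of_nonpos_of_nonneg hneg (by positivity)
    linarith
  have hfin : p0 * (J * X) ≤ p0 * (J * (ε / 4)) + p0 * (J * (ε / 4)) := by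
    have h1 := mul_le_mul_of_nonneg_left hsum hp0.le
    rw [mul_add] at h1
    linarith
  have h2 : p0 * J * X ≤ p0 * J * (ε / 2) := by linarith
  have h3 : X ≤ ε / 2 := le_of_mul_le_mul_left h2 (by positivity)
  linarith

end Run7.h561.EC
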