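import Pool.Agent.Run7.h561.EC.Stm

/-!
# Project EC: the final statement for the rectangle
-/

set_option autoImplicit false

namespace Run7.h561.EC

open H984P H984N
open MeasureTheory Filter Topology
open scoped ENNReal

/-- The component of `w` of the complement, in `D`, of the piece `f [s, t]`. -/
def CompD (D : Set ℂ) (f : C(unitInterval, ℂ)) (s t : unitInterval) (w : ℂ) : Set ℂ :=
  connectedComponentIn (D \ f '' Set.Icc s t) w

/-- FIN: almost surely, for all times `s < t`, around every boundary point in `D` of every component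
of the complement of `f [s, t]` in `D`, the boundary of this component has dimension `4/3`. -/
def S_FIN : Prop := ∀ (R : Rect) (δ : ℕ → ℝ), (∀ i, 0 < δ i) → Tendsto δ atTop (𝓝 0) →
  ∀ μ : ProbabilityMeasure X, Tendsto (fun i => R.law (δ i)) atTop (𝓝 μ) →
    ∀ᵐ p : X ∂(μ : Measure X), ∀ s t : unitInterval, s < t → ∀ w z : ℂ, z ∈ R.D →
      z ∈ frontier (CompD R.D p.1 s t w) → ∀ ρ : ℝ, 0 < ρ →
        dimH (frontier (CompD R.D p.1 s t w) ∩ (R.D ∩ Metric.ball z ρ)) = 4 / 3

/-- ALLT: assembly. -/
def S_ALLT : Prop := S_HIT → S_AXI → S_FIN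

end Run7.h561.EC
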